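import Pool.Agent.P.MP_c88051_gt.Im.Base

/-! Chains of finite lists of points with coefficients mod two. -/

set_option autoImplicit false
set_option linter.unusedSectionVars false

namespace Pool.Agent.P.MP_c88051_gt.Im

open Set Filter Topology Metric Finsupp
open scoped Quaternion

variable {Y Z W : Type}

/-- Chains. -/
abbrev Ch (Y : Type) := List Y →₀ ZMod 2

/-- A list as a chain. -/
noncomputable def sx (l : List Y) : Ch Y := single l 1

/-- The cone with apex `a`. -/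
noncomputable def cons (a : Y) : Ch Y →ₗ[ZMod 2] Ch Y := lmapDomain _ _ fun l => a :: l

/-- The image of a chain. -/
noncomputable def cmap (φ : Y → Z) : Ch Y →ₗ[ZMod 2] Ch Z := lmapDomain _ _ (List.map φ)

/-- The sum of the faces of a list. -/
noncomputable def bdA : List Y → Ch Y
  | [] => 0
  | a :: l => sx l + cons a (bdA l)

/-- The boundary of a list, points having no boundary. -/
noncomputable def bd0 : List Y → Ch Y
  | [] => 0
  | [_] => 0
  | a :: b :: l => bdA (a :: b :: l)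

/-- The boundary operator. -/
noncomputable def bd : Ch Y →ₗ[ZMod 2] Ch Y := linearCombination _ bd0

/-- Evaluation of a cochain. -/
noncomputable def ev (Φ : List Y → ZMod 2) : Ch Y →ₗ[ZMod 2] ZMod 2 := linearCombination _ Φ

/-- The shuffle product of two lists. -/
noncomputable def sh0 : List Y → List Z → Ch (Y × Z)
  | [], _ => 0
  | _ :: _, [] => 0
  | a :: l, b :: m => (if l.isEmpty && m.isEmpty then sx [(a, b)] else 0) +
      cons (a, b) (sh0 l (b :: m) + sh0 (a :: l) m)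
termination_by l m => l.length + m.length

/-- The shuffle product of chains. -/
noncomputable def shp : Ch Y →ₗ[ZMod 2] Ch Z →ₗ[ZMod 2] Ch (Y × Z) :=
  linearCombination _ fun l => linearCombination _ (sh0 l)

/-- The cup product of the coboundaries of functions. -/
def dprod : List (Y → ZMod 2) → List Y → ZMod 2
  | [], [_] => 1
  | s :: ss, a :: b :: l => (s a + s b) * dprod ss (b :: l)
  | _, _ => 0

/-- A function times a product of coboundaries. -/
def cc (ρ : Y → ZMod 2) (ss : List (Y → ZMod 2)) : List Y → ZMod 2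
  | [] => 0
  | a :: l => ρ a * dprod ss (a :: l)

/-- The cup product of the coboundary of `α` with `β`. -/
def pr (α β : Y → Y → ZMod 2) : List Y → ZMod 2
  | [a, b, c, d] => (α a b + α b c + α a c) * β c d
  | _ => 0

/-- Chains of lists in `K`. -/
noncomputable def In (K : Set Y) : Submodule (ZMod 2) (Ch Y) :=
  supported _ _ {l | ∀ a ∈ l, a ∈ K}

/-- Chains of lists in `K` of diameter less than `ε`. -/
noncomputable def Fn [Dist Y] (K : Set Y) (ε : ℝ) : Submodule (ZMod 2) (Ch Y) :=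
  supported _ _ {l | (∀ a ∈ l, a ∈ K) ∧ ∀ a ∈ l, ∀ b ∈ l, dist a b < ε}

/-- A path with `n` steps. -/
noncomputable def iv (n : ℕ) (φ : ℕ → Y) : Ch Y := ∑ i ∈ Finset.range n, sx [φ i, φ (i + 1)]

/-- The sign of a real number. -/
noncomputable def sg (t : ℝ) : ZMod 2 := if 0 < t then 1 else 0

/-- `s` is a sign function for `A` on `K`. -/
def Sgn (K : Set Y) (s : Y → ZMod 2) (A : Y → ℝ) : Prop :=
  ∀ y ∈ K, (0 < A y → s y = 1) ∧ (A y < 0 → s y = 0)

/-- The cochain counting crossings of the positive real axis. -/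
noncomputable def al (a : Y → ℂ) : Y → Y → ZMod 2 :=
  fun x y => sg (a x).re * (sg (a x).im + sg (a y).im)

/-- The cochain counting preimages of the positive real ray. -/
noncomputable def dgH (u : Y → ℍ) : List Y → ZMod 2 :=
  cc (fun y => sg (u y).re) [fun y => sg (u y).imI, fun y => sg (u y).imJ, fun y => sg (u y).imK]

/-- The quaternion `z + w j`. -/
def qz (z w : ℂ) : ℍ := ⟨z.re, z.im, w.re, w.im⟩

@[simp] lemma cons_sx (a : Y) (l : List Y) : cons a (sx l) = sx (a :: l) := by simp [cons, sx]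

@[simp] lemma cmap_sx (φ : Y → Z) (l : List Y) : cmap φ (sx l) = sx (l.map φ) := by simp [cmap, sx]

@[simp] lemma bd_sx (l : List Y) : bd (sx l) = bd0 l := by simp [bd, sx]

@[simp] lemma ev_sx (Φ : List Y → ZMod 2) (l : List Y) : ev Φ (sx l) = Φ l := by simp [ev, sx]

@[simp] lemma shp_sx (l : List Y) (m : List Z) : shp (sx l) (sx m) = sh0 l m := by simp [shp, sx]

@[simp] lemma sh0_nil_left (m : List Z) : sh0 ([] : List Y) m = 0 := by rw [sh0]

@[simp] lemma sh0_nil_right (l : List Y) : sh0 l ([] : List Z) = 0 := by cases l <;> rw [sh0]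

@[simp] lemma sh0_one (a : Y) (b : Z) : sh0 [a] [b] = sx [(a, b)] := by rw [sh0]; simp

lemma sh0_left (a a' : Y) (l : List Y) (b : Z) (m : List Z) : sh0 (a :: a' :: l) (b :: m) =
    cons (a, b) (sh0 (a' :: l) (b :: m) + sh0 (a :: a' :: l) m) := by rw [sh0]; simp

lemma sh0_right (a : Y) (l : List Y) (b b' : Z) (m : List Z) : sh0 (a :: l) (b :: b' :: m) =
    cons (a, b) (sh0 l (b :: b' :: m) + sh0 (a :: l) (b' :: m)) := by rw [sh0]; simp

@[simp] lemma z2_add_self (t : ZMod 2) : t + t = 0 := CharTwo.add_self_eq_zero t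

@[simp] lemma ch_add_self (μ : Ch Y) : μ + μ = 0 := by ext l; simp

lemma z2_cases (t : ZMod 2) : t = 0 ∨ t = 1 := by revert t; decide

lemma supp_mem {M : Type} [AddCommGroup M] [Module (ZMod 2) M] {s : Set (List Y)}
    {P : Submodule (ZMod 2) M} (T : Ch Y →ₗ[ZMod 2] M) (h : ∀ l ∈ s, T (sx l) ∈ P) {μ : Ch Y}
    (hμ : μ ∈ supported (ZMod 2) (ZMod 2) s) : T μ ∈ P := by
  rw [supported_eq_span_single] at hμ
  have : Submodule.span (ZMod 2) ((fun i => single i (1 : ZMod 2)) '' s) ≤ P.comap T := by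
    rw [Submodule.span_le]
    rintro _ ⟨a, ha, rfl⟩
    exact h a ha
  exact this hμ

lemma supp_eq {M : Type} [AddCommGroup M] [Module (ZMod 2) M] {s : Set (List Y)}
    (T T' : Ch Y →ₗ[ZMod 2] M) (h : ∀ l ∈ s, T (sx l) = T' (sx l)) {μ : Ch Y}
    (hμ : μ ∈ supported (ZMod 2) (ZMod 2) s) : T μ = T' μ := by
  have := supp_mem (P := ⊥) (T - T') (fun a ha => by simp [h a ha]) hμ
  simpa [sub_eq_zero] using this

/-- Linear maps which agree on lists agree. -/
lemma ch_eq {M : Type} [AddCommGroup M] [Module (ZMod 2) M] (T T' : Ch Y →ₗ[ZMod 2] M)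
    (h : ∀ l, T (sx l) = T' (sx l)) (μ : Ch Y) : T μ = T' μ :=
  supp_eq (s := univ) T T' (fun a _ => h a) (by simp)

lemma sx_mem {s : Set (List Y)} {l : List Y} (h : l ∈ s) :
    sx l ∈ supported (ZMod 2) (ZMod 2) s := single_mem_supported _ 1 h

lemma supp_mono {s t : Set (List Y)} {μ : Ch Y} (hμ : μ ∈ supported (ZMod 2) (ZMod 2) s)
    (h : ∀ l ∈ s, l ∈ t) : μ ∈ supported (ZMod 2) (ZMod 2) t := supported_mono h hμ

lemma cmap_cons (φ : Y → Z) (a : Y) (μ : Ch Y) : cmap φ (cons a μ) = cons (φ a) (cmap φ μ) :=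
  ch_eq (cmap φ ∘ₗ cons a) (cons (φ a) ∘ₗ cmap φ) (fun l => by simp) μ

lemma cmap_cmap (φ : Y → Z) (ψ : Z → W) (μ : Ch Y) : cmap ψ (cmap φ μ) = cmap (ψ ∘ φ) μ :=
  ch_eq (cmap ψ ∘ₗ cmap φ) _ (fun l => by simp) μ

lemma cmap_id (μ : Ch Y) : cmap id μ = μ := ch_eq (cmap id) LinearMap.id (fun l => by simp) μ

lemma cmap_congr {φ ψ : Y → Z} {K : Set Y} (h : ∀ y ∈ K, φ y = ψ y) {μ : Ch Y} (hμ : μ ∈ In K) :
    cmap φ μ = cmap ψ μ :=
  supp_eq (cmap φ) (cmap ψ) (fun l hl => by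
    rw [cmap_sx, cmap_sx, List.map_congr_left fun a ha => h a (hl a ha)]) hμ

lemma ev_cmap (Φ : List Z → ZMod 2) (φ : Y → Z) (μ : Ch Y) :
    ev Φ (cmap φ μ) = ev (fun l => Φ (l.map φ)) μ :=
  ch_eq (ev Φ ∘ₗ cmap φ) _ (fun l => by simp) μ

lemma ev_cons (Φ : List Y → ZMod 2) (a : Y) (μ : Ch Y) :
    ev Φ (cons a μ) = ev (fun l => Φ (a :: l)) μ :=
  ch_eq (ev Φ ∘ₗ cons a) _ (fun l => by simp) μ

lemma ev_add (Φ Ψ : List Y → ZMod 2) (μ : Ch Y) :
    ev (fun l => Φ l + Ψ l) μ = ev Φ μ + ev Ψ μ :=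
  ch_eq _ (ev Φ + ev Ψ) (fun l => by simp) μ

lemma ev_mul (t : ZMod 2) (Φ : List Y → ZMod 2) (μ : Ch Y) :
    ev (fun l => t * Φ l) μ = t * ev Φ μ :=
  ch_eq _ (t • ev Φ) (fun l => by simp) μ

lemma ev_congr {s : Set (List Y)} {Φ Ψ : List Y → ZMod 2} (h : ∀ l ∈ s, Φ l = Ψ l) {μ : Ch Y}
    (hμ : μ ∈ supported (ZMod 2) (ZMod 2) s) : ev Φ μ = ev Ψ μ :=
  supp_eq _ _ (fun l hl => by simpa using h l hl) hμ

lemma cmap_bdA (φ : Y → Z) (l : List Y) : cmap φ (bdA l) = bdA (l.map φ) := by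
  induction l with
  | nil => simp [bdA]
  | cons a l ih => simp [bdA, cmap_cons, ih]

lemma bd_cmap (φ : Y → Z) (μ : Ch Y) : bd (cmap φ μ) = cmap φ (bd μ) :=
  ch_eq (bd ∘ₗ cmap φ) (cmap φ ∘ₗ bd) (fun l => by
    match l with
    | [] => simp [bd0]
    | [_] => simp [bd0]
    | a :: b :: l => simp [bd0, cmap_bdA]) μ

lemma bd_two (a b : Y) : bd (sx [a, b]) = sx [b] + sx [a] := by simp [bd0, bdA]

lemma bd_three (a b c : Y) : bd (sx [a, b, c]) = sx [b, c] + sx [a, c] + sx [a, b] := by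
  simp [bd0, bdA, add_assoc]

lemma bd_four (a b c d : Y) :
    bd (sx [a, b, c, d]) = sx [b, c, d] + sx [a, c, d] + sx [a, b, d] + sx [a, b, c] := by
  simp [bd0, bdA, add_assoc]

lemma bd_iv (n : ℕ) (φ : ℕ → Y) : bd (iv n φ) = sx [φ n] + sx [φ 0] := by
  induction n with
  | zero => simp [iv]
  | succ n ih =>
    rw [iv, Finset.sum_range_succ, map_add, ← iv, ih, bd_two]
    calc _ = sx [φ (n + 1)] + sx [φ 0] + (sx [φ n] + sx [φ n]) := by abel
      _ = _ := by simp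

lemma cmap_iv (ψ : Y → Z) (n : ℕ) (φ : ℕ → Y) : cmap ψ (iv n φ) = iv n (ψ ∘ φ) := by
  simp [iv, map_sum]

/-- The faces of a list are sublists with one entry less. -/
lemma bdA_mem (l : List Y) : bdA l ∈ supported (ZMod 2) (ZMod 2)
    {m | m.Sublist l ∧ m.length + 1 = l.length} := by
  induction l with
  | nil => simp [bdA]
  | cons a l ih =>
    refine add_mem (sx_mem ⟨List.sublist_cons_self a l, rfl⟩) (supp_mem (cons a) ?_ ih)
    intro m hm
    rw [cons_sx]
    exact sx_mem ⟨hm.1.cons_cons a, by simp [hm.2]⟩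

lemma bd0_mem (l : List Y) : bd0 l ∈ supported (ZMod 2) (ZMod 2)
    {m | m.Sublist l ∧ m.length + 1 = l.length} := by
  match l with
  | [] => simp [bd0]
  | [_] => simp [bd0]
  | a :: b :: l => exact bdA_mem _

lemma In_mono {K K' : Set Y} (h : K ⊆ K') {μ : Ch Y} (hμ : μ ∈ In K) : μ ∈ In K' :=
  supp_mono hμ fun _ hl a ha => h (hl a ha)

lemma mem_In_univ (μ : Ch Y) : μ ∈ In (univ : Set Y) := fun _ _ _ _ => mem_univ _

lemma bd_In {K : Set Y} {μ : Ch Y} (hμ : μ ∈ In K) : bd μ ∈ In K :=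
  supp_mem bd (fun l hl => by
    rw [bd_sx]
    exact supp_mono (bd0_mem l) fun m hm a ha => hl a (hm.1.subset ha)) hμ

lemma cmap_In {K : Set Y} {K' : Set Z} {φ : Y → Z} (h : MapsTo φ K K') {μ : Ch Y} (hμ : μ ∈ In K) :
    cmap φ μ ∈ In K' :=
  supp_mem (cmap φ) (fun l hl => by
    rw [cmap_sx]
    refine sx_mem fun a ha => ?_
    obtain ⟨b, hb, rfl⟩ := List.mem_map.1 ha
    exact h (hl b hb)) hμ

section fine
variable [Dist Y] [Dist Z] {K K' : Set Y} {ε ε' : ℝ} {μ : Ch Y}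

lemma Fn_In (hμ : μ ∈ Fn K ε) : μ ∈ In K := supp_mono hμ fun _ hl => hl.1

lemma Fn_mono (h : K ⊆ K') (h' : ε ≤ ε') (hμ : μ ∈ Fn K ε) : μ ∈ Fn K' ε' :=
  supp_mono hμ fun _ hl => ⟨fun a ha => h (hl.1 a ha),
    fun a ha b hb => (hl.2 a ha b hb).trans_le h'⟩

lemma Fn_inter (hμ : μ ∈ Fn K ε) (h : μ ∈ In K') : μ ∈ Fn K' ε :=
  fun _ hl => ⟨h hl, (hμ hl).2⟩

lemma bd_Fn (hμ : μ ∈ Fn K ε) : bd μ ∈ Fn K ε :=
  supp_mem bd (fun l hl => by
    rw [bd_sx]
    exact supp_mono (bd0_mem l) fun m hm => ⟨fun a ha => hl.1 a (hm.1.subset ha),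
      fun a ha b hb => hl.2 a (hm.1.subset ha) b (hm.1.subset hb)⟩) hμ

lemma cmap_Fn {L : Set Z} {φ : Y → Z} (h : MapsTo φ K L)
    (h' : ∀ a ∈ K, ∀ b ∈ K, dist a b < ε → dist (φ a) (φ b) < ε') (hμ : μ ∈ Fn K ε) :
    cmap φ μ ∈ Fn L ε' :=
  supp_mem (cmap φ) (fun l hl => by
    rw [cmap_sx]
    refine sx_mem ⟨fun a ha => ?_, fun a ha a' ha' => ?_⟩
    · obtain ⟨b, hb, rfl⟩ := List.mem_map.1 ha
      exact h (hl.1 b hb)
    · obtain ⟨b, hb, rfl⟩ := List.mem_map.1 ha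
      obtain ⟨b', hb', rfl⟩ := List.mem_map.1 ha'
      exact h' b (hl.1 b hb) b' (hl.1 b' hb') (hl.2 b hb b' hb')) hμ

end fine

lemma pr_add (α β β' : Y → Y → ZMod 2) (l : List Y) : pr α (β + β') l = pr α β l + pr α β' l := by
  match l with
  | [] | [_] | [_, _] | [_, _, _] | _ :: _ :: _ :: _ :: _ :: _ => simp [pr]
  | [a, b, c, d] => simp [pr, mul_add]

lemma pr_map (φ : Z → Y) (α β : Y → Y → ZMod 2) (l : List Z) :
    pr α β (l.map φ) = pr (fun a b => α (φ a) (φ b)) (fun a b => β (φ a) (φ b)) l := by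
  match l with
  | [] | [_] | [_, _] | [_, _, _] | _ :: _ :: _ :: _ :: _ :: _ => simp [pr]
  | [a, b, c, d] => simp [pr]

lemma iv_Fn [PseudoMetricSpace Y] {K : Set Y} {ε : ℝ} (hε : 0 < ε) {n : ℕ} {φ : ℕ → Y}
    (h : ∀ i ≤ n, φ i ∈ K) (h' : ∀ i < n, dist (φ i) (φ (i + 1)) < ε) : iv n φ ∈ Fn K ε :=
  Submodule.sum_mem _ fun i hi => sx_mem (by
    have hi := Finset.mem_range.1 hi
    have := h' i hi
    simp [h i hi.le, h (i + 1) hi, hε, this, dist_comm (φ (i + 1))])

lemma sg_pos {t : ℝ} (h : 0 < t) : sg t = 1 := if_pos h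

lemma sg_nonpos {t : ℝ} (h : t ≤ 0) : sg t = 0 := if_neg (not_lt.2 h)

lemma sgn_sg (K : Set Y) (A : Y → ℝ) : Sgn K (fun y => sg (A y)) A :=
  fun _ _ => ⟨sg_pos, fun h => sg_nonpos h.le⟩

/-- A sign function is constant near a point where the function does not vanish. -/
lemma Sgn.ev_eq [TopologicalSpace Y] {K : Set Y} {s : Y → ZMod 2} {A : Y → ℝ} (h : Sgn K s A)
    {y : Y} (hy : y ∈ K) (hc : ContinuousWithinAt A K y) (h0 : A y ≠ 0) :
    ∀ᶠ z in 𝓝[K] y, s z = s y := by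
  rcases h0.lt_or_gt with h1 | h1
  · filter_upwards [hc.eventually (gt_mem_nhds h1), self_mem_nhdsWithin] with z hz hK
    rw [(h z hK).2 hz, (h y hy).2 h1]
  · filter_upwards [hc.eventually (lt_mem_nhds h1), self_mem_nhdsWithin] with z hz hK
    rw [(h z hK).1 hz, (h y hy).1 h1]

/-- The product vanishes if one factor is constant on the list. -/
lemma dprod_eq_zero {ss : List (Y → ZMod 2)} {s : Y → ZMod 2} (hs : s ∈ ss) {l : List Y}
    (h : ∀ a ∈ l, ∀ b ∈ l, s a = s b) : dprod ss l = 0 := by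
  induction ss generalizing l with
  | nil => simp at hs
  | cons t ss ih =>
    match l with
    | [] => simp [dprod]
    | [_] => simp [dprod]
    | a :: b :: l =>
      rw [dprod]
      rcases List.mem_cons.1 hs with rfl | hs
      · rw [h a (by simp) b (by simp)]; simp
      · rw [ih hs fun x hx y hy => h x (List.mem_cons_of_mem _ hx) y (List.mem_cons_of_mem _ hy),
          mul_zero]

lemma cc_eq_zero {ρ : Y → ZMod 2} {ss : List (Y → ZMod 2)} {s : Y → ZMod 2} (hs : s ∈ ss)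
    {l : List Y} (h : ∀ a ∈ l, ∀ b ∈ l, s a = s b) : cc ρ ss l = 0 := by
  cases l with
  | nil => rfl
  | cons a l => rw [cc, dprod_eq_zero hs h, mul_zero]

lemma dprod_map (φ : Z → Y) (ss : List (Y → ZMod 2)) (l : List Z) :
    dprod ss (l.map φ) = dprod (ss.map fun s z => s (φ z)) l := by
  induction ss generalizing l with
  | nil =>
    match l with
    | [] => simp [dprod]
    | [_] => simp [dprod]
    | a :: b :: l => simp [dprod]
  | cons t ss ih =>
    match l with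
    | [] => simp [dprod]
    | [_] => simp [dprod]
    | a :: b :: l =>
      have := ih (b :: l)
      simp only [List.map_cons, dprod] at this ⊢
      rw [this]

lemma cc_map (φ : Z → Y) (ρ : Y → ZMod 2) (ss : List (Y → ZMod 2)) (l : List Z) :
    cc ρ ss (l.map φ) = cc (fun z => ρ (φ z)) (ss.map fun s z => s (φ z)) l := by
  cases l with
  | nil => rfl
  | cons a l =>
    have := dprod_map φ ss (a :: l)
    simp only [List.map_cons, cc] at this ⊢
    rw [this]

end Pool.Agent.P.MP_c88051_gt.Im
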