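import Pool.Agent.P.MP_c88051_gt.Im.IfaceA
import Pool.Agent.P.MP_c88051_gt.Im.BaseC

/-! Statements of the steps which use chains. -/

set_option autoImplicit false

namespace Pool.Agent.P.MP_c88051_gt.Im

open Set Filter Topology Metric
open scoped RealInnerProductSpace Quaternion

/-- Chains without lists shorter than `k`. -/
noncomputable def Lg (Y : Type) (k : ℕ) : Submodule (ZMod 2) (Ch Y) :=
  Finsupp.supported _ _ {l | k ≤ l.length}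

-- deps:
/-- The formula of Stokes, and the boundary of boundaries and cones. -/
def S_STK : Prop :=
  ∀ {Y : Type}, (∀ (ρ : Y → ZMod 2) (ss : List (Y → ZMod 2)) (μ : Ch Y),
    ev (cc ρ ss) (bd μ) = ev (dprod (ρ :: ss)) μ) ∧ (∀ μ : Ch Y, bd (bd μ) = 0) ∧
    ∀ (a : Y), ∀ μ ∈ Lg Y 2, bd (cons a μ) = μ + cons a (bd μ)

-- deps:
/-- The boundary of a product. -/
def S_LEIB : Prop :=
  ∀ {Y Z : Type} (μ : Ch Y) (ν : Ch Z), bd (shp μ ν) = shp (bd μ) ν + shp μ (bd ν)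

-- deps:
/-- Formal properties of the product. -/
def S_SHN : Prop :=
  ∀ {Y Z : Type},
    (∀ {Y' Z' : Type} (φ : Y → Y') (ψ : Z → Z') (μ : Ch Y) (ν : Ch Z),
      cmap (Prod.map φ ψ) (shp μ ν) = shp (cmap φ μ) (cmap ψ ν)) ∧
    (∀ (μ : Ch Y) (ν : Ch Z), cmap Prod.swap (shp μ ν) = shp ν μ) ∧
    (∀ μ ∈ Lg Y 1, ∀ b : Z, shp μ (sx [b]) = cmap (fun y => (y, b)) μ) ∧
    (∀ (a : Y), ∀ ν ∈ Lg Z 1, shp (sx [a]) ν = cmap (fun z => (a, z)) ν) ∧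
    (∀ (Φ : List (Y × Z) → ZMod 2), Φ [] = 0 → ∀ (μ : Ch Y) (ν : Ch Z) (a : Y) (b : Z),
      ev Φ (shp μ (sx [b])) = ev Φ (cmap (fun y => (y, b)) μ) ∧
      ev Φ (shp (sx [a]) ν) = ev Φ (cmap (fun z => (a, z)) ν)) ∧
    (∀ (i j : ℕ), ∀ μ ∈ Lg Y (i + 1), ∀ ν ∈ Lg Z (j + 1), shp μ ν ∈ Lg (Y × Z) (i + j + 1)) ∧
    (∀ (K : Set Y) (L : Set Z), ∀ μ ∈ In K, ∀ ν ∈ In L, shp μ ν ∈ In (K ×ˢ L)) ∧
    ∀ [PseudoMetricSpace Y] [PseudoMetricSpace Z] (K : Set Y) (L : Set Z) (ε : ℝ),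
      ∀ μ ∈ Fn K ε, ∀ ν ∈ Fn L ε, shp μ ν ∈ Fn (K ×ˢ L) ε

-- deps:
/-- Evaluation of a product cochain on a product chain. -/
def S_PROD : Prop :=
  ∀ {Y Z : Type} (ρ : Y → ZMod 2) (ρ' : Z → ZMod 2) (ss : List (Y → ZMod 2))
    (ss' : List (Z → ZMod 2)) (μ : Ch Y) (ν : Ch Z),
    ev (cc (fun q : Y × Z => ρ q.1 * ρ' q.2)
      (ss.map (fun s (q : Y × Z) => s q.1) ++ ss'.map fun s (q : Y × Z) => s q.2)) (shp μ ν) =
      ev (cc ρ ss) μ * ev (cc ρ' ss') ν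

-- deps:
/-- A cochain which vanishes locally vanishes on fine chains. -/
def S_LEB : Prop :=
  ∀ {Y : Type} [PseudoMetricSpace Y] (K : Set Y) (Φ : List Y → ZMod 2), IsCompact K → Φ [] = 0 →
    (∀ y ∈ K, ∃ n ∈ 𝓝[K] y, ∀ l : List Y, (∀ a ∈ l, a ∈ n) → Φ l = 0) →
    ∃ ε > (0 : ℝ), ∀ μ ∈ Fn K ε, ev Φ μ = 0

-- deps:
/-- The crossing cochains and the degree of a pair. -/
def S_LINK : Prop :=
  ∀ {Y : Type}, (∀ [TopologicalSpace Y] (O : Set Y) (a : Y → ℂ), ContinuousOn a O →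
      (∀ y ∈ O, a y ≠ 0) → IsC O (al a)) ∧
    ∀ (a a' : Y → ℂ) (μ : Ch Y), bd μ = 0 →
      ev (pr (al a) (al a')) μ = ev (dgH fun y => qz (a y) (a' y)) μ

-- deps: LEB
/-- The pairing vanishes if one of the cocycles has a potential. -/
def S_PINV : Prop :=
  ∀ {Y : Type} [PseudoMetricSpace Y] [CompactSpace Y] (O₁ O₂ : Set Y) (α β : Y → Y → ZMod 2),
    IsOpen O₁ → IsOpen O₂ → O₁ ∪ O₂ = univ → IsC O₁ α → IsC O₂ β →
    ((∃ h, IsP O₁ α h) ∨ ∃ h, IsP O₂ β h) →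
    ∃ ε > (0 : ℝ), ∀ μ ∈ Fn (univ : Set Y) ε, bd μ = 0 → ev (pr α β) μ = 0

-- deps: LEB LEIB SHN
/-- The pairing is invariant under the group. -/
def S_HINV : Prop :=
  ∀ {p : ℕ} [NeZero p] (O₁ O₂ : Set S3) (α β : S3 → S3 → ZMod 2) (k : ZMod p), IsOpen O₁ →
    IsOpen O₂ → O₁ ∪ O₂ = univ → IsC O₁ α → IsC O₂ β → ∃ ε > (0 : ℝ), ∀ μ ∈ Fn (univ : Set S3) ε,
      bd μ = 0 → ev (pr α β) (cmap (sh k) μ) = ev (pr α β) μ

/-- A point of the grid of mesh `1 / D`. -/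
noncomputable def pt (D : ℕ) (k : Fin 3 → ℤ) : Fin 3 → ℝ := fun i => (k i : ℝ) / D

/-- Edges of the grid: a direction and a starting point. -/
abbrev Edge := Fin 3 × (Fin 3 → ℤ)

/-- The end point of an edge. -/
def tip (e : Edge) : Fin 3 → ℤ := e.2 + Pi.single e.1 1

/-- The segment of an edge. -/
def seg (D : ℕ) (e : Edge) : Set (Fin 3 → ℝ) := segment ℝ (pt D e.2) (pt D (tip e))

/-- Closed polygons. -/
def Closed (ℓ : Edge →₀ ℤ) : Prop :=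
  ∀ φ : (Fin 3 → ℤ) → ℤ, (ℓ.sum fun e n => n * (φ (tip e) - φ e.2)) = 0

/-- A step function. -/
noncomputable def hv (D : ℕ) (n : ℤ) (t : ℝ) : ℤ := if (n : ℝ) / D < t then 1 else 0

/-- The intersection number with the curtain below an edge. -/
noncomputable def curt0 (D : ℕ) (e : Edge) (a b : Fin 3 → ℝ) : ℤ :=
  if e.1 = 0 then (hv D (e.2 0) (a 0) - hv D (e.2 0 + 1) (a 0)) *
    (hv D (e.2 1) (b 1) - hv D (e.2 1) (a 1)) * (1 - hv D (e.2 2) (a 2))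
  else if e.1 = 1 then -((hv D (e.2 0) (b 0) - hv D (e.2 0) (a 0)) *
    (hv D (e.2 1) (b 1) - hv D (e.2 1 + 1) (b 1)) * (1 - hv D (e.2 2) (a 2)))
  else 0

/-- The intersection number with the curtain below a polygon. -/
noncomputable def curt (D : ℕ) (ℓ : Edge →₀ ℤ) (a b : Fin 3 → ℝ) : ℤ :=
  ℓ.sum fun e n => n * curt0 D e a b

/-- Coordinates of the fine grid of mesh `1 / L` on the interval from `-B` to `B`. -/
noncomputable def gx (L B i : ℕ) : ℝ := -(B : ℝ) + (i : ℝ) / L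

/-- Points of the fine grid. -/
noncomputable def gp (L B i j k : ℕ) : Fin 3 → ℝ := ![gx L B i, gx L B j, gx L B k]

/-- The triangulated box. -/
noncomputable def box (L B : ℕ) : Ch (Fin 3 → ℝ) :=
  cmap (fun q : ℝ × ℝ × ℝ => ![q.1, q.2.1, q.2.2])
    (shp (iv (2 * B * L) (gx L B)) (shp (iv (2 * B * L) (gx L B)) (iv (2 * B * L) (gx L B))))

-- deps:
/-- A cocycle without potential has odd sum along a closed polygon. -/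
def S_DL1 : Prop :=
  ∀ (A : Set (Fin 3 → ℝ)) (α : (Fin 3 → ℝ) → (Fin 3 → ℝ) → ZMod 2), IsOpen A → IsC A α →
    (¬∃ h, IsP A α h) → ∃ (D : ℕ) (ℓ : Edge →₀ ℤ), 0 < D ∧ Closed ℓ ∧
      (∀ e ∈ ℓ.support, seg D e ⊆ A ∧ CocOn (seg D e) α) ∧
      (ℓ.sum fun e n => (n : ZMod 2) * α (pt D e.2) (pt D (tip e))) = 1

-- deps:
/-- The curtain cochain is a cocycle off the polygon. -/
def S_DL2 : Prop :=
  ∀ (D : ℕ) (ℓ : Edge →₀ ℤ), 0 < D → Closed ℓ → IsC {x | ∀ e ∈ ℓ.support, x ∉ seg D e} (curt D ℓ)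

-- deps: LEIB SHN
/-- The box is fine and its boundary is far away. -/
def S_BOX : Prop :=
  ∀ L B : ℕ, 0 < L → (∀ ε > (1 : ℝ) / L, box L B ∈ Fn (closedBall 0 (B : ℝ)) ε) ∧
    bd (box L B) ∈ In {y | (B : ℝ) ≤ ‖y‖} ∧ bd (box L B) ∈ Lg (Fin 3 → ℝ) 2

-- deps:
/-- The simplices of the box. -/
def S_KUHN : Prop :=
  ∀ (L B : ℕ) (Φ : List (Fin 3 → ℝ) → ZMod 2), ev Φ (box L B) =
    ∑ i ∈ Finset.range (2 * B * L), ∑ j ∈ Finset.range (2 * B * L), ∑ k ∈ Finset.range (2 * B * L),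
      (Φ [gp L B i j k, gp L B (i + 1) j k, gp L B (i + 1) (j + 1) k, gp L B (i + 1) (j + 1) (k + 1)] +
       Φ [gp L B i j k, gp L B i (j + 1) k, gp L B (i + 1) (j + 1) k, gp L B (i + 1) (j + 1) (k + 1)] +
       Φ [gp L B i j k, gp L B (i + 1) j k, gp L B (i + 1) j (k + 1), gp L B (i + 1) (j + 1) (k + 1)] +
       Φ [gp L B i j k, gp L B i j (k + 1), gp L B (i + 1) j (k + 1), gp L B (i + 1) (j + 1) (k + 1)] +
       Φ [gp L B i j k, gp L B i (j + 1) k, gp L B i (j + 1) (k + 1), gp L B (i + 1) (j + 1) (k + 1)] +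
       Φ [gp L B i j k, gp L B i j (k + 1), gp L B i (j + 1) (k + 1), gp L B (i + 1) (j + 1) (k + 1)])

/-- The sum of `α` along the vertical line of the fine grid below a point. -/
noncomputable def vert (α : (Fin 3 → ℝ) → (Fin 3 → ℝ) → ZMod 2) (L B i j k : ℕ) : ZMod 2 :=
  ∑ t ∈ Finset.range k, α (gp L B i j t) (gp L B i j (t + 1))

-- deps: KUHN
/-- The pairing with the curtain below one horizontal edge. -/
def S_DL3A : Prop :=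
  ∀ (α : (Fin 3 → ℝ) → (Fin 3 → ℝ) → ZMod 2) (D M B i j k : ℕ), 0 < D → 0 < M →
    i < 2 * B * D → j < 2 * B * D → k < 2 * B * D →
    ev (pr α (cz 2 (curt0 D (0, ![(i : ℤ) - B * D, (j : ℤ) - B * D, (k : ℤ) - B * D]))))
        (box (D * M) B) =
      ∑ t ∈ Finset.range M,
        (α (gp (D * M) B (i * M + t) (j * M) (k * M)) (gp (D * M) B (i * M + t + 1) (j * M) (k * M)) +
          α (gp (D * M) B (i * M + t) (j * M) 0) (gp (D * M) B (i * M + t + 1) (j * M) 0)) +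
        vert α (D * M) B (i * M) (j * M) (k * M) + vert α (D * M) B ((i + 1) * M) (j * M) (k * M) ∧
    ev (pr α (cz 2 (curt0 D (1, ![(i : ℤ) - B * D, (j : ℤ) - B * D, (k : ℤ) - B * D]))))
        (box (D * M) B) =
      ∑ t ∈ Finset.range M,
        (α (gp (D * M) B (i * M) (j * M + t) (k * M)) (gp (D * M) B (i * M) (j * M + t + 1) (k * M)) +
          α (gp (D * M) B (i * M) (j * M + t) 0) (gp (D * M) B (i * M) (j * M + t + 1) 0)) +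
        vert α (D * M) B (i * M) (j * M) (k * M) + vert α (D * M) B (i * M) ((j + 1) * M) (k * M)

-- deps: DL3A
/-- The pairing with the curtain below a polygon is the sum along the polygon. -/
def S_DL3 : Prop :=
  ∀ (α : (Fin 3 → ℝ) → (Fin 3 → ℝ) → ZMod 2) (D M B : ℕ) (ℓ : Edge →₀ ℤ), 0 < D → 0 < M →
    Closed ℓ → (∀ e ∈ ℓ.support, (∀ i, -((B : ℤ) * D) ≤ e.2 i ∧ e.2 i < B * D) ∧
      CocOn (seg D e) α) → (∃ h : (Fin 3 → ℝ) → ZMod 2, ∀ a b : Fin 3 → ℝ, a 2 = -(B : ℝ) →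
        b 2 = -(B : ℝ) → α a b = h b - h a) →
    ev (pr α (cz 2 (curt D ℓ))) (box (D * M) B) =
      ℓ.sum fun e n => (n : ZMod 2) * α (pt D e.2) (pt D (tip e))

-- deps: CHART DL1 DL2 DL3 BOX STK
/-- Duality on the sphere. -/
def S_DL : Prop :=
  ∀ (O₁ O₂ A : Set S3) (α : S3 → S3 → ZMod 2), IsOpen O₁ → IsOpen A → O₁ ∪ O₂ = univ → A ⊆ O₁ →
    O₂.Nonempty → Disjoint (closure A) (closure O₂) → IsC O₁ α → (¬∃ h, IsP A α h) →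
    ∃ β : S3 → S3 → ℤ, IsC O₂ β ∧ ∀ ε > (0 : ℝ), ∃ μ ∈ Fn (univ : Set S3) ε, bd μ = 0 ∧
      ev (pr α (cz 2 β)) μ = 1

-- deps:
/-- The crossing cochain of the exponential of a function with integral jumps. -/
def S_SGN : Prop :=
  ∀ {Y : Type} [TopologicalSpace Y] (O : Set Y) (c : Y → Y → ℤ) (φ ρ : Y → ℝ) (a : Y → ℂ),
    IsC O c → (∀ x ∈ O, ContinuousWithinAt (fun y => φ y - c x y) O x) →
    (∀ y ∈ O, 0 < ρ y ∧ a y = ρ y * Complex.exp (2 * Real.pi * φ y * Complex.I)) →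
    IsP O (al a + cz 2 c) fun y => ((⌈φ y⌉ : ℤ) : ZMod 2)

-- deps: CIRC SGN
/-- The circle maps of a family. -/
def S_CMAP : Prop :=
  ∀ {p : ℕ} [NeZero p] {F : Type} [Field F] {N : ℕ} {f : S3 → EV N}, Sys f p F →
    ∀ {P : Type} [MetricSpace P] (r : ZMod p) (Ψ : P → EV N × ℝ) (A : Set P)
      (c : P × S3 → P × S3 → ℤ) (s : P × S3 → ZMod p), Continuous Ψ → ZL p (gE p) (EE f Ψ A) r c s →
      ∃ a : P × S3 → ℂ, ContinuousOn a (A ×ˢ univ) ∧ (∀ e ∈ EE f Ψ A, a e ≠ 0) ∧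
        ∀ b ∈ A, ∃ (c' : S3 → S3 → ℤ) (k : S3 → ℤ) (h : S3 → ZMod 2), IsC (U f (Ψ b)) c' ∧
          IsP (U f (Ψ b)) (fib c b - (p : ℤ) • c') k ∧
          IsP (U f (Ψ b)) (al (fun x => a (b, x)) + cz 2 c') h

-- deps: DL PINV NJ TWO LINK
/-- The pair of circle maps has odd degree. -/
def S_DEGJ : Prop :=
  ∀ {p : ℕ} [NeZero p] {F : Type} [Field F] {N : ℕ} {f : S3 → EV N}, Sys f p F →
    ∀ (a₁ a₂ a : EV N × ℝ) (z w : S3 → ℂ), Continuous z → Continuous w →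
      (∀ x ∈ U f a₁, z x ≠ 0) → (∀ x ∈ U f a₂, w x ≠ 0) → U f a₁ ∪ U f a₂ = univ →
      U f a ⊆ U f a₁ → ¬Lf p (U f a) → ¬Lf p (U f a₂) → U f a₁ ≠ univ →
      Disjoint (closure (U f a)) (closure (U f a₂)) →
      (¬∃ h, IsP (U f a₁) (al z) h) → (¬∃ h, IsP (U f a₂) (al w) h) →
      ∀ ε > (0 : ℝ), ∃ μ ∈ Fn (univ : Set S3) ε, bd μ = 0 ∧ ev (dgH fun x => qz (z x) (w x)) μ = 1

/-- The circle of the parameter space. -/
def CI : Set (ℝ × ℝ) := {l | |l.1| + |l.2| = 1}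

/-- The parameter space of the last step. -/
abbrev YY := (Fin 3 → ℝ) × ℝ × ℝ

/-- The first involution. -/
def g1 (q : YY) : YY := (-q.1, q.2.1, -q.2.2)

/-- The second involution. -/
def g2 (q : YY) : YY := (q.1, -q.2)

-- deps: LEIB SHN
/-- Hemispheres. -/
def S_HEM : Prop :=
  ∀ ε > (0 : ℝ), ∃ h₁ ∈ Fn SP ε, ∃ h₂ ∈ Fn SP ε,
    bd h₁ = sx [e0] + sx [-e0] ∧ bd h₂ = h₁ + cmap Neg.neg h₁

-- deps: HEM LEIB SHN
/-- The tower of chains on the parameter space. -/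
def S_TOW : Prop :=
  ∀ ε > (0 : ℝ), ∃ B L : ℕ → Ch YY, B 0 = sx [(e0, 1, 0)] ∧
    (∀ i ≤ 3, B i ∈ Fn (SP ×ˢ CI) ε ∧ L i ∈ In (SP ×ˢ CI)) ∧
    ∀ i < 3, bd (B (i + 1)) = B i + cmap g2 (B i) + L i + cmap g1 (L i)

-- deps: STK LEB
/-- Descent along a tower. -/
def S_TSTEP : Prop :=
  ∀ {M : Type} [PseudoMetricSpace M] (K : Set M) (G₁ G₂ : M → M) (ρ s₁ s₂ s₃ : M → ZMod 2)
    (ss : List (M → ZMod 2)), IsCompact K → (∀ y ∈ K, ρ (G₁ y) = ρ y ∧ ρ (G₂ y) = ρ y) →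
    (∀ s ∈ ss, ∃ t₁ t₂, ∀ y ∈ K, s (G₁ y) = s y + t₁ ∧ s (G₂ y) = s y + t₂) →
    (∀ s ∈ [s₁, s₂, s₃], ∀ y ∈ K, s (G₁ y) = s y ∧ s (G₂ y) = s y + 1) →
    (∀ y ∈ K, (∀ᶠ z in 𝓝[K] y, ρ z = ρ y) ∨ ∃ s ∈ ss, ∀ᶠ z in 𝓝[K] y, s z = s y) →
    (∀ y ∈ K, (∀ᶠ z in 𝓝[K] y, ρ z = 0) ∨ ∃ s ∈ s₃ :: s₂ :: s₁ :: ss, ∀ᶠ z in 𝓝[K] y, s z = s y) →
    ∃ ε > (0 : ℝ), ∀ Γ Λ : ℕ → Ch M, (∀ i ≤ 3, Γ i ∈ Fn K ε ∧ Λ i ∈ In K) →
      (∀ i < 3, bd (Γ (i + 1)) = Γ i + cmap G₂ (Γ i) + Λ i + cmap G₁ (Λ i)) →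
      ev (cc ρ ss) (Γ 0) = 0

-- deps: STK LEB LEIB SHN
/-- Homotopy invariance of the count of zeros. -/
def S_DEGH : Prop :=
  ∀ {Y : Type} [PseudoMetricSpace Y] [CompactSpace Y] {k : ℕ} (A : ℝ × Y → Fin k → ℝ)
    (ρ : ℝ × Y → ZMod 2) (s₀ s₁ : Fin k → Y → ZMod 2), Continuous A →
    (∀ q ∈ Icc (0 : ℝ) 1 ×ˢ (univ : Set Y), A q = 0 →
      ∀ᶠ z in 𝓝[Icc (0 : ℝ) 1 ×ˢ (univ : Set Y)] q, ρ z = ρ q) →
    (∀ i, Sgn univ (s₀ i) fun y => A (0, y) i) → (∀ i, Sgn univ (s₁ i) fun y => A (1, y) i) →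
    ∃ ε > (0 : ℝ), ∀ μ ∈ Fn (univ : Set Y) ε, bd μ = 0 →
      ev (cc (fun y => ρ (0, y)) (List.ofFn s₀)) μ = ev (cc (fun y => ρ (1, y)) (List.ofFn s₁)) μ

-- deps: DEGH
/-- Homotopy invariance of the degree. -/
def S_DEG4 : Prop :=
  ∀ {Y : Type} [PseudoMetricSpace Y] [CompactSpace Y] (u : ℝ × Y → ℍ), Continuous u →
    (∀ t ∈ Icc (0 : ℝ) 1, ∀ y, u (t, y) ≠ 0) → ∃ ε > (0 : ℝ), ∀ μ ∈ Fn (univ : Set Y) ε, bd μ = 0 →
      ev (dgH fun y => u (0, y)) μ = ev (dgH fun y => u (1, y)) μ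

-- deps: DEG4
/-- The degree is not changed by the normalisations. -/
def S_LJ2 : Prop :=
  ∀ {Y : Type} [PseudoMetricSpace Y] [CompactSpace Y] (z w : Y → ℂ) (L R : ℍ), Continuous z →
    Continuous w → (∀ y, z y ≠ 0 ∨ w y ≠ 0) → L ≠ 0 → R ≠ 0 →
    ∃ ε > (0 : ℝ), ∀ μ ∈ Fn (univ : Set Y) ε, bd μ = 0 →
      ev (dgH fun y => L * qz (z y + w y) (z y - w y) * R) μ = ev (dgH fun y => qz (z y) (w y)) μ

/-- Imaginary parts of the sum and the difference. -/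
noncomputable def six (u w : ℍ) : Fin 6 → ℝ :=
  ![(u + w).imI, (u + w).imJ, (u + w).imK, (u - w).imI, (u - w).imJ, (u - w).imK]

-- deps: DEGH PROD LEIB SHN LEB STK
/-- The count at the bottom of the tower. -/
def S_N0 : Prop :=
  ∀ {Y : Type} [PseudoMetricSpace Y] [CompactSpace Y] (u : Y → ℍ) (s : Fin 6 → Y × Y → ZMod 2),
    Continuous u → (∀ y, u y ≠ 0) → (∀ i, Sgn univ (s i) fun q => six (u q.1) (-u q.2) i) →
    ∃ ε > (0 : ℝ), ∀ μ ∈ Fn (univ : Set Y) ε, bd μ = 0 →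
      ev (cc (fun q : Y × Y => sg (u q.1).re * sg (-u q.2).re) (List.ofFn s)) (shp μ μ) =
        ev (dgH u) μ * ev (dgH u) μ

-- deps:
/-- Equations of the diagonal, and functions which break ties. -/
def S_HZ : Prop :=
  (∃ (x₀ : S3) (h : S3 × S3 → Fin 3 → ℝ), Continuous h ∧ (∀ x y, h (y, x) = -h (x, y)) ∧
    ∀ x y, h (x, y) = 0 → x = y ∨ x = x₀ ∨ y = x₀) ∧
  ∃ χ₁ χ₂ : YY → ZMod 2, ∀ q ∈ SP ×ˢ CI, χ₁ (g1 q) = χ₁ q + 1 ∧ χ₁ (g2 q) = χ₁ q ∧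
    χ₂ (g1 q) = χ₂ q ∧ χ₂ (g2 q) = χ₂ q + 1

/-- The space of the last step. -/
abbrev MM := YY × S3 × S3

/-- Conjugation by `i`. -/
def cj (u : ℍ) : ℍ := ⟨u.re, u.imI, -u.imJ, -u.imK⟩

/-- The quaternion `a i + b j`. -/
def qc (a b : ℝ) : ℍ := ⟨0, a, b, 0⟩

/-- The normalised map at the base point. -/
noncomputable def uu (J : (Fin 3 → ℝ) × S3 → ℍ) (x₀ x : S3) : ℍ :=
  star (qc 1 0) * J (e0, x) * star (J (e0, x₀))

-- deps: HZ TSTEP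
/-- The count at the bottom vanishes. -/
def S_LJ3 : Prop :=
  ∀ J : (Fin 3 → ℝ) × S3 → ℍ, ContinuousOn J (SP ×ˢ univ) → (∀ v ∈ SP, ∀ x, J (v, x) ≠ 0) →
    (∀ v ∈ SP, ∀ x, J (-v, x) = cj (J (v, x))) →
    ∃ (x₀ : S3) (s : Fin 6 → MM → ZMod 2) (ρ : MM → ZMod 2),
      (∀ x y, ρ ((e0, 1, 0), x, y) = sg (uu J x₀ x).re * sg (-uu J x₀ y).re) ∧
      (∀ i, Sgn univ (fun q : S3 × S3 => s i ((e0, 1, 0), q)) fun q =>
        six (uu J x₀ q.1) (-uu J x₀ q.2) i) ∧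
      ∃ ε > (0 : ℝ), ∀ Γ Λ : ℕ → Ch MM,
        (∀ i ≤ 3, Γ i ∈ Fn ((SP ×ˢ CI) ×ˢ univ) ε ∧ Λ i ∈ In ((SP ×ˢ CI) ×ˢ univ)) →
        (∀ i < 3, bd (Γ (i + 1)) = Γ i + cmap (Prod.map g2 Prod.swap) (Γ i) + Λ i +
          cmap (Prod.map g1 id) (Λ i)) → ev (cc ρ (List.ofFn s)) (Γ 0) = 0

-- deps: LJ3 TOW N0 LJ2 LEIB SHN
/-- There is no family of maps of odd degree which is swapped by the antipodal map. -/
def S_LJ : Prop :=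
  ∀ a : (Fin 3 → ℝ) × S3 → ℂ, ContinuousOn a (SP ×ˢ univ) →
    (∀ v ∈ SP, ∀ x, a (v, x) ≠ 0 ∨ a (-v, x) ≠ 0) →
    ¬∀ ε > (0 : ℝ), ∃ μ ∈ Fn (univ : Set S3) ε, bd μ = 0 ∧
      ev (dgH fun x => qz (a (e0, x)) (a (-e0, x))) μ = 1

-- deps: G7 EXP EXP1 FAM GUQ KC CMAP ODD DEGJ LJ
/-- The system of properties is contradictory. -/
def S_FIN : Prop :=
  ∀ {p : ℕ} [NeZero p] {F : Type} [Field F] {N : ℕ} {f : S3 → EV N}, Sys f p F → ¬Frame f p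

end Pool.Agent.P.MP_c88051_gt.Im
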