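import Pool.Agent.P.MP_c88051_gt.Im.Base
import Pool.Agent.Lib.Helper83.Bridge
import Pool.Agent.Lib.Helper83.Coc

/-! Statements of the comparison with singular homology. -/

set_option autoImplicit false

namespace Pool.Agent.P.MP_c88051_gt.Im

open Set Filter Topology Metric AlgebraicTopology Pool.Agent.Lib.Helper83

/-- The lens space. -/
abbrev Lens (p : ℕ) : Type :=
  Quot fun x y : S3 => y.1 = Complex.exp (2 * Real.pi * Complex.I / p) • x.1

/-- The projection to the lens space. -/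
def lq (p : ℕ) : S3 → Lens p := Quot.mk _

/-- Injectivity in singular homology. -/
def InjH (F : Type) [Field F] {M : Type} [TopologicalSpace M] (O : Set M) (i : ℕ) : Prop :=
  Function.Injective (((singularHomologyFunctor (ModuleCat.{0} F) i).obj (ModuleCat.of F F)).map
    (TopCat.ofHom (⟨Subtype.val, continuous_subtype_val⟩ : C(O, M)))).hom

/-- The same on the level of chains. -/
def HC (F : Type) [Field F] {M : Type} [TopologicalSpace M] (O : Set M) (i : ℕ) : Prop :=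
  ∀ z ∈ sub F O (i + 1), z ∈ Bd F (univ : Set M) (i + 1) → z ∈ Bd F O (i + 1)

-- deps:
/-- The projection identifies orbits and is open. -/
def S_LENS : Prop :=
  ∀ (p : ℕ) [NeZero p], (∀ x y, lq p x = lq p y ↔ ∃ k : ZMod p, y = sh k x) ∧ IsOpenMap (lq p) ∧
    ∀ x : S3, ∃ (n : Set S3) (j : Lens p → S3), IsOpen n ∧ x ∈ n ∧ ContinuousOn j (lq p '' n) ∧
      ∀ y ∈ n, j (lq p y) = y

-- deps:
/-- From homology to chains. -/
def S_BR0 : Prop :=
  ∀ (F : Type) [Field F] {M : Type} [TopologicalSpace M] [Nonempty M] (O : Set M) (i : ℕ),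
    InjH F O i → HC F O i

-- deps:
/-- The first cohomology of the sphere vanishes. -/
def S_BRS : Prop :=
  PathConnectedSpace S3 ∧ LocallyPathConnectedSpace S3 ∧
    ∀ (F : Type) [Field F] (ω : Ch F S3 →ₗ[F] F), IsCoc ω univ → ∃ φ, IsPot ω univ φ

-- deps: LENS BRS
/-- Tightness in degree zero. -/
def S_BR1 : Prop :=
  ∀ (p : ℕ) [NeZero p] (F : Type) [Field F] (O : Set (Lens p)), IsOpen O → HC F O 0 →
    ∀ Q : S3 → Prop, LC (lq p ⁻¹' O) Q → (∀ x ∈ lq p ⁻¹' O, Q (gn p x) = Q x) →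
      ∀ x ∈ lq p ⁻¹' O, ∀ y ∈ lq p ⁻¹' O, Q x → Q y

-- deps: LENS BRS
/-- Tightness in degree one. -/
def S_BR2 : Prop :=
  ∀ (p : ℕ) [NeZero p] (F : Type) [Field F] (O : Set (Lens p)), IsOpen O → HC F O 1 →
    ∀ c : S3 → S3 → F, IsC (lq p ⁻¹' O) c → Inv2 (gn p) (lq p ⁻¹' O) c →
      ∃ (h : S3 → F) (l : F), IsP (lq p ⁻¹' O) c h ∧ Sft (gn p) (lq p ⁻¹' O) h l

-- deps: LENS
/-- Local connectedness lifts to the sphere. -/
def S_BR3 : Prop :=
  ∀ (p : ℕ) [NeZero p] (C : Set (Lens p)) (x : S3), LcAt C (lq p x) → LcAt (lq p ⁻¹' C) x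

end Pool.Agent.P.MP_c88051_gt.Im
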