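import Pool.Agent.P.MP_c88051_gt.Im.IfaceA

/-! Statements of the steps for smooth immersions. -/

set_option autoImplicit false

namespace Pool.Agent.P.MP_c88051_gt.Im

open Set Filter Topology Metric
open scoped RealInnerProductSpace ContDiff

/-- Coordinate space. -/
abbrev R3 := Fin 3 → ℝ

/-- The map is a smooth immersion in suitable charts. -/
def Smo {N : ℕ} (f : S3 → EV N) : Prop :=
  ∀ z : S3, ∃ ι : R3 → S3, IsOpenEmbedding ι ∧ z ∈ range ι ∧ ContDiff ℝ ∞ (f ∘ ι) ∧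
    ∀ y, Function.Injective (fderiv ℝ (f ∘ ι) y)

/-- The first and second derivatives vanish. -/
def Flat (h : R3 → ℝ) (y : R3) : Prop := fderiv ℝ h y = 0 ∧ fderiv ℝ (fderiv ℝ h) y = 0

/-- Directions whose height function has a flat point in `Q`. -/
def ZQ {N : ℕ} (F : R3 → EV N) (Q : Set R3) : Set (EV N) := {v | ∃ y ∈ Q, Flat (fun u => ⟪v, F u⟫) y}

/-- A closed cone. -/
def CC {N : ℕ} (Z : Set (EV N)) : Prop := IsClosed Z ∧ ∀ v ∈ Z, ∀ c : ℝ, c • v ∈ Z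

/-- Families of vectors whose nontrivial combinations avoid `Z`. -/
def GF {N : ℕ} (Z : Set (EV N)) (n : ℕ) : Set (Fin n → EV N) :=
  {v | ∀ b : Fin n → ℝ, b ≠ 0 → ∑ i, b i • v i ∉ Z}

/-- The matrix of inner products. -/
noncomputable def Mt {N : ℕ} (G : R3 → Fin 3 → EV N) (v : Fin 3 → EV N) (y : R3) :
    Matrix (Fin 3) (Fin 3) ℝ := Matrix.of fun i j => ⟪v i, G y j⟫

/-- The directions of all ties lie in `Z`. -/
def TieIn {N : ℕ} (f : S3 → EV N) (p : ℕ) [NeZero p] (Z : Set (EV N)) : Prop :=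
  ∀ a : EV N × ℝ, (U f a).Nonempty → (U f (-a)).Nonempty → Lf p (U f a) → Lf p (U f (-a)) → a.1 ∈ Z

-- deps:
/-- Smooth immersions are locally injective. -/
def S_SLOC : Prop := ∀ {N : ℕ} (f : S3 → EV N), Smo f → ∀ z, ∃ n ∈ 𝓝 z, InjOn f n

-- deps:
/-- Regular points. -/
def S_BXA : Prop :=
  ∀ (h : R3 → ℝ) (y : R3), ContDiff ℝ ∞ h → h y = 0 → fderiv ℝ h y ≠ 0 → LcAt {u | h u ≤ 0} y

-- deps:
/-- Critical points with a negative direction. -/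
def S_BXB : Prop :=
  ∀ (h : R3 → ℝ) (y ξ : R3), ContDiff ℝ ∞ h → h y = 0 → fderiv ℝ h y = 0 →
    fderiv ℝ (fderiv ℝ h) y ξ ξ < 0 → LcAt {u | h u ≤ 0} y

-- deps: BXA BXB
/-- Points which are not flat. -/
def S_BXC : Prop :=
  ∀ (h : R3 → ℝ) (y : R3) (c : ℝ), ContDiff ℝ ∞ h → h y = c → ¬Flat h y →
    (LcAt {u | h u ≤ c} y ∨ LcAt {u | c ≤ h u} y) ∧ y ∉ interior {u | h u = c}

-- deps: BXC
/-- The same on the sphere. -/
def S_PTS : Prop :=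
  ∀ {N : ℕ} (f : S3 → EV N) (ι : R3 → S3) (a : EV N × ℝ) (y : R3), IsOpenEmbedding ι →
    ContDiff ℝ ∞ (f ∘ ι) → ⟪a.1, f (ι y)⟫ = a.2 → ¬Flat (fun u => ⟪a.1, (f ∘ ι) u⟫) y →
    (LcAt (Ucl f a) (ι y) ∨ LcAt (Ucl f (-a)) (ι y)) ∧ ι y ∉ interior {x | ⟪a.1, f x⟫ = a.2}

-- deps:
/-- The flat directions form a closed cone. -/
def S_ZQC : Prop :=
  ∀ {N : ℕ} (F : R3 → EV N) (Q : Set R3), ContDiff ℝ ∞ F → IsCompact Q → CC (ZQ F Q)

-- deps: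
/-- Avoiding a closed cone is an open condition. -/
def S_GOP : Prop := ∀ {N : ℕ} (Z : Set (EV N)) (n : ℕ), CC Z → IsOpen (GF Z n)

-- deps:
/-- Avoiding a subspace of large codimension is a dense condition. -/
def S_SUBG : Prop :=
  ∀ {N : ℕ} (D : Submodule ℝ (EV N)) (n : ℕ), n ≤ Module.finrank ℝ D → Dense (GF (Dᗮ : Set (EV N)) n)

-- deps:
-- imports: Pool.Agent.P.MP_56a1cd_gt.Sard
/-- The use of the theorem of Sard. -/
def S_GEN1 : Prop :=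
  ∀ {N : ℕ} (G : R3 → Fin 3 → EV N) (i : Fin 3) (e : EV N), ContDiff ℝ ∞ G →
    Dense {v : Fin 3 → EV N | ∀ y, (Mt G (Function.update v i e) y).det ≠ 0 →
      (Mt G v y).det = 0 → fderiv ℝ (fun u => (Mt G v u).det) y ≠ 0}

-- deps:
/-- Matrices all of whose minors of order two vanish. -/
def S_GEN2A : Prop :=
  ∀ M E : Matrix (Fin 3) (Fin 3) ℝ, E.det ≠ 0 → (∀ i l, (M.updateRow i (E l)).det = 0) →
    ∃ i, ∀ j, ∃ c : ℝ, M j = c • M i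

-- deps:
/-- Rank at most one is avoided. -/
def S_GEN2 : Prop :=
  ∀ {N : ℕ} (G : R3 → Fin 3 → EV N) (e : Fin 3 → EV N), ContDiff ℝ ∞ G → Dense {v : Fin 3 → EV N |
    ∀ y i, (Mt G e y).det ≠ 0 → ¬∀ j, ∃ c : ℝ, Mt G v y j = c • Mt G v y i}

-- deps:
/-- At a flat point the determinant vanishes to second order. -/
def S_GEN3 : Prop :=
  ∀ {N : ℕ} (G : R3 → Fin 3 → EV N) (v : Fin 3 → EV N) (b : R3) (y : R3), ContDiff ℝ ∞ G → b ≠ 0 →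
    (∀ j, ⟪∑ i, b i • v i, G y j⟫ = 0 ∧ fderiv ℝ (fun u => ⟪∑ i, b i • v i, G u j⟫) y = 0) →
    (Mt G v y).det = 0 ∧ fderiv ℝ (fun u => (Mt G v u).det) y = 0

-- deps: GEN1 GEN2A GEN2
/-- Zero is a regular value of the determinant for a dense set of families. -/
def S_GEN4 : Prop :=
  ∀ {N : ℕ} (G : R3 → Fin 3 → EV N) (e : Fin 3 → EV N) (Q : Set R3), ContDiff ℝ ∞ G → IsCompact Q →
    (∀ y ∈ Q, (Mt G e y).det ≠ 0) → Dense {v : Fin 3 → EV N | ∀ y ∈ Q,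
      (Mt G v y).det = 0 → fderiv ℝ (fun u => (Mt G v u).det) y ≠ 0}

-- deps: GEN3 GEN4
/-- Good families are dense. -/
def S_GEN : Prop :=
  ∀ {N : ℕ} (F : R3 → EV N) (y₀ : R3), ContDiff ℝ ∞ F → Function.Injective (fderiv ℝ F y₀) →
    ∃ Q ∈ 𝓝 y₀, IsCompact Q ∧ Dense (GF (ZQ F Q) 3)

-- deps: PTS ZQC GOP GEN
/-- The cone of flat directions. -/
def S_ZZ : Prop :=
  ∀ {N : ℕ} (f : S3 → EV N), Smo f → ∃ Z : Set (EV N), CC Z ∧ Dense (GF Z 3) ∧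
    ∀ a : EV N × ℝ, a.1 ∉ Z → PT f a ∧ interior {x | ⟪a.1, f x⟫ = a.2} = ∅

-- deps:
/-- Two different faces with liftable complement give a segment of ties. -/
def S_SEG : Prop :=
  ∀ {p : ℕ} [NeZero p] {F : Type} [Field F] {N : ℕ} {f : S3 → EV N}, Sys f p F →
    ∀ (Z : Set (EV N)) (v v' : EV N), TieIn f p Z → Z0 f p v → Z0 f p v' → ¬Face f v' ⊆ Face f v →
      Face f v' ≠ univ → ∃ t₀ > (0 : ℝ), ∀ t ∈ Ioo (0 : ℝ) t₀, t • v - v' ∈ Z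

-- deps: SEG G5B G12
/-- The directions of faces with liftable complement. -/
def S_ZF : Prop :=
  ∀ {p : ℕ} [NeZero p] {F : Type} [Field F] {N : ℕ} {f : S3 → EV N}, Sys f p F →
    ∀ Z : Set (EV N), CC Z → TieIn f p Z →
      ∃ D : Submodule ℝ (EV N), 3 ≤ Module.finrank ℝ D ∧ ∀ v, Z0 f p v → v ∈ Z ∨ v ∈ Dᗮ

-- deps: GOP SUBG
/-- A frame in general position with respect to a cone. -/
def S_FRM : Prop :=
  ∀ {N : ℕ} (Z : Set (EV N)) (D D₀ : Submodule ℝ (EV N)), CC Z → Dense (GF Z 3) →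
    3 ≤ Module.finrank ℝ D → 4 ≤ Module.finrank ℝ D₀ →
    ∃ (L : R3 →L[ℝ] EV N) (e : EV N), (∀ b, b ≠ 0 → L b ∉ Z ∧ L b ∉ Dᗮ) ∧
      (∀ b (s : ℝ), L b + s • e ∈ D₀ᗮ → b = 0 ∧ s = 0) ∧
      ∃ Λ : Set R3, Dense Λ ∧ ∀ l ∈ Λ, ∀ b, b ≠ 0 → L b + (l ⬝ᵥ b) • e ∉ Z

-- deps:
/-- A segment is cut by one of the hyperplanes. -/
def S_CUT : Prop :=
  ∀ (Λ : Set R3) (b b' : R3) (s s' t₀ : ℝ), Dense Λ → 0 < t₀ → s • b' - s' • b ≠ 0 →
    ∃ l ∈ Λ, ∃ t ∈ Ioo (0 : ℝ) t₀, l ⬝ᵥ (t • b - b') = t * s - s'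

-- deps: ZF FRM CUT SEG G12 P3L LIFTC
/-- A frame exists if the ties lie in a small closed cone. -/
def S_G6S : Prop :=
  ∀ {p : ℕ} [NeZero p] {F : Type} [Field F] {N : ℕ} {f : S3 → EV N}, Sys f p F →
    ∀ Z : Set (EV N), CC Z → Dense (GF Z 3) → TieIn f p Z → Frame f p

end Pool.Agent.P.MP_c88051_gt.Im
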