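import Pool.Agent.P.MP_c88051_gt.Im.IfaceA

/-! Steps DBL, G7. -/

set_option autoImplicit false
set_option linter.unusedSectionVars false

namespace Pool.Agent.P.MP_c88051_gt.Im

section SDBL

open Set Filter Topology Metric
open scoped RealInnerProductSpace

lemma dbl_four {c u₁ u₂ u₃ u₄ : ℝ} (h₁ : u₁ < c) (h₂ : u₂ < c) (h₃ : u₃ < c) (h₄ : u₄ < c) :
    ∃ e > (0 : ℝ), u₁ < c + -e ∧ u₂ < c + -e ∧ u₃ < c + -e ∧ u₄ < c + -e := by
  have h : max (max u₁ u₂) (max u₃ u₄) < c := max_lt (max_lt h₁ h₂) (max_lt h₃ h₄)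
  have k₁ := (le_max_left u₁ u₂).trans (le_max_left _ (max u₃ u₄))
  have k₂ := (le_max_right u₁ u₂).trans (le_max_left _ (max u₃ u₄))
  have k₃ := (le_max_left u₃ u₄).trans (le_max_right (max u₁ u₂) _)
  have k₄ := (le_max_right u₃ u₄).trans (le_max_right (max u₁ u₂) _)
  exact ⟨(c - max (max u₁ u₂) (max u₃ u₄)) / 2, by linarith, by linarith, by linarith,
    by linarith, by linarith⟩

theorem p_DBL (hDBL1 : S_DBL1) (hNOP : S_NOP) (hPAIR : S_PAIR) (hMEM : S_MEM) (hGW : S_GW) (hOPENP : S_OPENP) :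
    S_DBL := by
  intro p _ F _ N f H a s t v x₁ x₂ hPT hint hUa hUn s1 s2 t1 t2 hD
  obtain ⟨D, O, A, s', κ, ρ, oD, oO, oA, mD, mO, mA, cD, lO, s'1, s'2, UA, x1D, x2D, hκ, hρ, hT⟩ :=
    hDBL1 H a s t v x₁ x₂ hPT hint hUa hUn s1 s2 t1 t2 hD
  obtain ⟨r1, r2, hf12, -, -⟩ := hD
  have hf := H.cont
  obtain ⟨T, hTe⟩ : ∃ T : Set S3, T = frontier D \ A := ⟨_, rfl⟩
  rw [← hTe] at hT
  have Tcl : IsClosed T := hTe ▸ isClosed_frontier.sdiff oA
  have Tc : IsCompact T := Tcl.isCompact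
  have mT : MapsTo (gn p) T T := by
    rw [hTe, oD.frontier_eq]
    exact fun x hx => ⟨⟨mD.closure continuous_gn hx.1.1, maps_compl mD hx.1.2⟩,
      maps_compl mA hx.2⟩
  have TU : ∀ w ∈ T, a.2 ≤ ⟪a.1, f w⟫ := fun w hw => not_lt.1 fun h => by
    rw [hTe] at hw
    exact hw.2 (UA (mem_U.2 h))
  obtain ⟨M, hM⟩ : ∃ M : Set S3, ∀ x, x ∈ M ↔ ‖f x - f x₁‖ < ρ ∧ ⟪v, f x - f x₁⟫ < κ :=
    ⟨{x | ‖f x - f x₁‖ < ρ ∧ ⟪v, f x - f x₁⟫ < κ}, fun _ => Iff.rfl⟩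
  have oM : IsOpen M := by
    have : M = {x | ‖f x - f x₁‖ < ρ} ∩ {x | ⟪v, f x - f x₁⟫ < κ} := Set.ext hM
    rw [this]
    exact (isOpen_lt (by fun_prop) continuous_const).inter
      (isOpen_lt (by fun_prop) continuous_const)
  have x1M : x₁ ∈ M := (hM _).2 (by simp [hκ, hρ])
  have x2M : x₂ ∈ M := (hM _).2 (by simp [hf12, hκ, hρ])
  obtain ⟨m₁, hm₁, pm₁, y₁, hy₁, z₁, hz₁, e₁⟩ := r1.2 (D ∩ M) ((oD.inter oM).mem_nhds ⟨x1D, x1M⟩)
  obtain ⟨m₂, hm₂, pm₂, y₂, hy₂, z₂, hz₂, e₂⟩ := r2.2 ((closure D)ᶜ ∩ M)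
    ((isClosed_closure.isOpen_compl.inter oM).mem_nhds ⟨x2D, x2M⟩)
  obtain ⟨κ₀, hκ₀, v1, v2, v3, v4⟩ := dbl_four (mem_U.1 hy₁.2) (mem_U.1 hz₁.2) (mem_U.1 hy₂.2)
    (mem_U.1 hz₂.2)
  have VU : U f (up a (-κ₀)) ⊆ U f a := fun x hx => by
    have := mem_U_up.1 hx
    rw [mem_U]; linarith
  have lab : ∀ {y z : S3}, y ∈ U f a → z ∈ U f a → s y ≠ s z → s' y ≠ s' z := fun hy hz h e =>
    h ((H.label_iff s1 s2 (s'1.mono UA) (s'2.mono UA) hy hz).2 e)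
  obtain ⟨α, k, hα, hno⟩ := hNOP H.three D O A (U f (up a (-κ₀))) m₁ m₂ s' oD oO oA mD mO mA
    (H.mapsU _) cD lO s'1 s'2 (VU.trans UA)
    (fun θ hθ y hy y' hy' e => H.eq_of_label (s'1.mono (VU.trans UA)) (s'2.mono (VU.trans UA))
      hθ hy hy' e)
    (fun x hx => (hm₁ hx).1.1) (fun x hx => (hm₂ hx).1.1) pm₁ pm₂
    ⟨y₁, ⟨hy₁.1, v1⟩, z₁, ⟨hz₁.1, v2⟩, lab hy₁.2 hz₁.2 e₁⟩
    ⟨y₂, ⟨hy₂.1, v3⟩, z₂, ⟨hz₂.1, v4⟩, lab hy₂.2 hz₂.2 e₂⟩
  rw [← hTe] at hα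
  have cK : IsClosed (Ucl f (up a (-κ₀)) ∪ {x | ‖f x - f x₁‖ ≤ ρ}) :=
    (isClosed_Ucl hf _).union (isClosed_le (by fun_prop) continuous_const)
  obtain ⟨r, hr, hrK⟩ := Tc.exists_cthickening_subset_open cK.isOpen_compl (by
    rintro w hw (h | h)
    · have h1 : ⟪a.1, f w⟫ ≤ a.2 + -κ₀ := h
      linarith [TU w hw]
    · have h1 : ‖f w - f x₁‖ ≤ ρ := h
      linarith [(hT w hw).1])
  obtain ⟨τ, hτ, C, Cf, hC, hpot⟩ := hGW H a t T v (f x₁) κ ρ κ₀ r t1 t2 Tc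
    (fun w hw => mem_Ucl_neg.2 (TU w hw)) hκ hρ hκ₀ hr (fun w hw => (hT w hw).1)
    fun w hw => (hT w hw).2
  obtain ⟨w₀, hw₀⟩ := hUn
  rw [mem_U_neg] at hw₀
  obtain ⟨σ, hσ, στ, σw⟩ : ∃ σ > (0 : ℝ), σ ≤ τ ∧ a.2 + 2 * σ < ⟪a.1, f w₀⟫ :=
    ⟨min τ ((⟪a.1, f w₀⟫ - a.2) / 3), lt_min hτ (by linarith), min_le_left _ _, by
      linarith [min_le_right τ ((⟪a.1, f w₀⟫ - a.2) / 3)]⟩
  have TT : T ⊆ thickening r T := self_subset_thickening hr T
  have m2 : MapsTo (gn p) (UC f C ∪ thickening r T ∪ U f (up (-a) (-(2 * σ))))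
      (UC f C ∪ thickening r T ∪ U f (up (-a) (-(2 * σ)))) :=
    ((H.mapsUC C).union_union (maps_thickening mT r)).union_union (H.mapsU _)
  have cA : closure (U f (up a (-κ₀)) ∪ M ∩ U f (up a σ)) ⊆ Ucl f (up a (-κ₀)) ∪
      ({x | ‖f x - f x₁‖ ≤ ρ} ∩ {x | ⟪v, f x - f x₁⟫ ≤ κ} ∩ Ucl f (up a σ)) :=
    closure_minimal (union_subset_union (U_sub_Ucl _) fun x hx =>
      ⟨⟨((hM x).1 hx.1).1.le, ((hM x).1 hx.1).2.le⟩, U_sub_Ucl _ hx.2⟩)
      ((isClosed_Ucl hf _).union (((isClosed_le (by fun_prop) continuous_const).inter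
        (isClosed_le (by fun_prop) continuous_const)).inter (isClosed_Ucl hf _)))
  have cB : closure (UC f C ∪ thickening r T ∪ U f (up (-a) (-(2 * σ)))) ⊆
      (⋃ b ∈ C, Ucl f b) ∪ cthickening r T ∪ {x | a.2 + 2 * σ ≤ ⟪a.1, f x⟫} :=
    closure_minimal (union_subset_union (union_subset_union
      (iUnion₂_mono fun b _ => U_sub_Ucl b) (thickening_subset_cthickening r T))
      fun x hx => (mem_U_neg_up.1 hx).le)
      (((Cf.isClosed_biUnion fun b _ => isClosed_Ucl hf b).union isClosed_cthickening).union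
        (isClosed_le continuous_const (by fun_prop)))
  obtain ⟨β, hβ, hfin⟩ := hPAIR Tᶜ (UC f C ∪ thickening r T ∪ U f (up (-a) (-(2 * σ))))
    (U f (up a (-κ₀)) ∪ M ∩ U f (up a σ)) α k Tcl.isOpen_compl
    (((isOpen_UC hf C).union isOpen_thickening).union (H.openU _))
    ((H.openU _).union (oM.inter (H.openU _))) (maps_compl mT) m2
    (eq_univ_of_forall fun x => (em (x ∈ T)).elim (fun h => Or.inr (Or.inl (Or.inr (TT h))))
      Or.inl)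
    (by
      rintro x (h | h) hx
      · linarith [TU x hx, mem_U_up.1 h]
      · linarith [(hT x hx).1, ((hM x).1 h.1).1])
    ⟨w₀, Or.inr (mem_U_neg_up.2 σw)⟩
    (disjoint_left.2 fun x h1 h2 => by
      rcases cB h2 with (hb | hb) | hb
      · obtain ⟨b, hb, hx⟩ := mem_iUnion₂.1 hb
        rcases cA h1 with h | h
        · have h3 : ⟪a.1, f x⟫ ≤ a.2 + -κ₀ := h
          linarith [(hC b hb x hx).1]
        · have h3 : ⟪a.1, f x⟫ ≤ a.2 + σ := h.2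
          linarith [(hC b hb x hx).2 h.1.1 h.1.2]
      · exact hrK hb ((cA h1).imp id fun h => h.1.1)
      · have h4 : a.2 + 2 * σ ≤ ⟪a.1, f x⟫ := hb
        rcases cA h1 with h | h
        · have h3 : ⟪a.1, f x⟫ ≤ a.2 + -κ₀ := h
          linarith
        · have h3 : ⟪a.1, f x⟫ ≤ a.2 + σ := h.2
          linarith)
    hα
    (fun ⟨h, hh⟩ => hno ⟨h, hh.mono (union_subset_union_right _ fun x hx => by
      obtain ⟨j, y, hy, rfl⟩ := mem_iUnion.1 hx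
      have h1 : y ∈ M ∧ y ∈ Ucl f a := hy.elim (fun h => ⟨(hm₁ h).1.2, (hm₁ h).2⟩)
        fun h => ⟨(hm₂ h).1.2, (hm₂ h).2⟩
      have h2 : ⟪a.1, f y⟫ ≤ a.2 := h1.2
      refine ⟨by rw [hM, H.f_sh]; exact (hM y).1 h1.1, ?_⟩
      rw [mem_U_up, H.f_sh]; linarith)⟩)
  have hγ : IsC (thickening r T) (cz 2 (β - fun x y => β (sh (-k) x) (sh (-k) y))) :=
    ((hβ.sub (hβ.comp (continuous_sh (-k)).continuousOn (mapsTo_sh m2 (-k)))).mono
      fun x hx => Or.inl (Or.inr hx)).cz 2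
  obtain ⟨h, hh⟩ := hpot _ hγ fun b hb => hMEM H b β (-k)
    (hβ.mono fun x hx => Or.inl (Or.inl (mem_UC.2 ⟨b, hb, hx⟩))) fun e => by
      linarith [(hC b hb y₁ (U_sub_Ucl b (e ▸ mem_univ y₁))).1]
  obtain ⟨O', h', o1, o2, o3, o4⟩ := hOPENP T (thickening r T) _ h Tc isOpen_thickening TT hγ hh
  exact hfin O' (fun x hx => Or.inl (Or.inr (o3 hx))) o1
    (eq_univ_of_forall fun x => (em (x ∈ T)).elim (fun h => Or.inr (o2 h)) Or.inl) ⟨h', o4⟩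

end SDBL

section SG7

open Set Filter Topology Metric
open scoped RealInnerProductSpace

lemma g7_DB : IsCompact DB :=
  (isCompact_closedBall (0 : Fin 3 → ℝ) 1).of_isClosed_subset
    (isClosed_le (by fun_prop) continuous_const) fun b hb => by
      rw [mem_closedBall_zero_iff, pi_norm_le_iff_of_nonneg zero_le_one]
      exact fun i => (Finset.single_le_sum (f := fun i => |b i|) (fun _ _ => abs_nonneg _)
        (Finset.mem_univ i)).trans hb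

lemma g7_SP : IsCompact SP :=
  g7_DB.of_isClosed_subset (isClosed_eq (by fun_prop) continuous_const) fun _ hb => le_of_eq hb

theorem p_G7 (hLIFTC : S_LIFTC) :
    S_G7 := by
  intro p _ F _ N f H HF
  obtain ⟨L, e, h1, h2⟩ := HF
  have hL := (hLIFTC H).2.1
  have c1 : Continuous (cL f p) := continuous_lev H.cont H.mon_lf
  have c2 : Continuous (mn f) := continuous_mn H.cont
  let w : (Fin 3 → ℝ) → EV N := fun b => L b + (1 - ∑ i, |b i|) • e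
  have cw : Continuous w := by fun_prop
  obtain ⟨θ₁, a1, a2⟩ := g7_DB.exists_forall_le' (a := 0)
    (f := fun b => -cL f p (-w b) - mn f (w b)) (by fun_prop) fun b hb =>
      sub_pos.2 (h2 b _ (sub_nonneg.2 hb) (by
        by_cases h : b = 0
        · right; simp [h]
        · exact Or.inl h))
  obtain ⟨θ₂, b1, b2⟩ := g7_SP.exists_forall_le' (a := 0)
    (f := fun b => -cL f p (-L b) - cL f p (L b)) (by fun_prop) fun b hb =>
      sub_pos.2 (h1 b fun h => by simp [SP, h] at hb)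
  obtain ⟨θ, t0, t1, t2⟩ : ∃ θ : ℝ, 0 < θ ∧ 4 * θ ≤ θ₁ ∧ 4 * θ ≤ θ₂ :=
    ⟨min θ₁ θ₂ / 4, by positivity, by linarith [min_le_left θ₁ θ₂],
      by linarith [min_le_right θ₁ θ₂]⟩
  refine ⟨fun b => (w b, -cL f p (-w b) - θ), by fun_prop, fun b hb => ⟨?_, ?_⟩, fun b hb => ?_⟩
  · rw [Prod.neg_mk, hL]
    linarith
  · rw [U_nonempty_iff H.cont]
    linarith [a2 b hb]
  have e1 : w b = L b := by
    have : ∑ i, |b i| = 1 := hb
    simp [w, this]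
  have e2 : w (-b) = -L b := by
    have : ∑ i, |b i| = 1 := hb
    simp [w, this]
  have b3 := b2 b hb
  simp only [e1, e2, neg_neg]
  refine ⟨by rw [hL]; linarith, eq_univ_of_forall fun x => ?_, (L b, cL f p (L b) + θ / 2),
    U_mono _ (by linarith), by rw [hL]; linarith, disjoint_left.2 fun x x1 x2 => ?_⟩
  · simp only [mem_union, mem_U, inner_neg_left]
    by_contra hn
    push Not at hn
    linarith [hn.1, hn.2]
  · have y1 : ⟪L b, f x⟫ ≤ cL f p (L b) + θ / 2 := closure_U H.cont _ x1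
    have y2 : ⟪-L b, f x⟫ ≤ -cL f p (L b) - θ := closure_U H.cont _ x2
    rw [inner_neg_left] at y2
    linarith

end SG7

end Pool.Agent.P.MP_c88051_gt.Im
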