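import Pool.Agent.P.MP_c88051_gt.Im.IfaceA

/-! Steps P3A, P3B, P3, P3L, NBHD. -/

set_option autoImplicit false
set_option linter.unusedSectionVars false

namespace Pool.Agent.P.MP_c88051_gt.Im

section SP3A

open Set Filter Topology Metric
open scoped RealInnerProductSpace

lemma p3a_one {A : Type} [CommRing A] (s g : ℕ → A) (m : ℕ) (hm : 0 < m)
    (h : ∀ k, k + 1 < m → (s (k + 1) - s k) * g (k + 1) = 0) :
    ∑ k ∈ Finset.range m, s k * (g (k + 1) - g k) = s (m - 1) * g m - s 0 * g 0 := by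
  induction m, hm using Nat.le_induction with
  | base => simp [mul_sub]
  | succ m hm ih =>
    obtain ⟨m, rfl⟩ := Nat.exists_eq_add_of_le' hm
    rw [Finset.sum_range_succ, ih fun k hk => h k (by omega)]
    simp only [Nat.add_sub_cancel]
    linear_combination -h m (by omega)

theorem p_P3A :
    S_P3A := by
  intro A _ K n M u v w s hK hn hM h0 hw hv hu bw bv bu
  have e1 : ∑ i ∈ Finset.range K, ∑ j ∈ Finset.range n, ∑ k ∈ Finset.range M,
      s i j k * (u i j (k + 1) - u i j k) =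
      ∑ i ∈ Finset.range K, ∑ j ∈ Finset.range n, u i j 0 :=
    Finset.sum_congr rfl fun i hi => Finset.sum_congr rfl fun j hj => by
      have hi := Finset.mem_range.1 hi
      have hj := Finset.mem_range.1 hj
      rw [p3a_one (s i j) (u i j) M hM fun k hk => hu i j k hi hj hk, (bu i hi j hj).1]
      linear_combination (bu i hi j hj).2
  have e2 : ∑ i ∈ Finset.range K, ∑ j ∈ Finset.range n, ∑ k ∈ Finset.range M,
      s i j k * (v i (j + 1) k - v i j k) = 0 :=
    Finset.sum_eq_zero fun i hi => by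
      rw [Finset.sum_comm]
      refine Finset.sum_eq_zero fun k hk => ?_
      have hi := Finset.mem_range.1 hi
      have hk := Finset.mem_range.1 hk
      rw [p3a_one (fun j => s i j k) (fun j => v i j k) n hn fun j hj => hv i j k hi hj hk,
        (bv i hi k hk).1]
      linear_combination (bv i hi k hk).2
  have e3 : ∑ i ∈ Finset.range K, ∑ j ∈ Finset.range n, ∑ k ∈ Finset.range M,
      s i j k * (w (i + 1) j k - w i j k) = 0 := by
    rw [Finset.sum_comm]
    refine Finset.sum_eq_zero fun j hj => ?_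
    rw [Finset.sum_comm]
    refine Finset.sum_eq_zero fun k hk => ?_
    have hj := Finset.mem_range.1 hj
    have hk := Finset.mem_range.1 hk
    rw [p3a_one (fun i => s i j k) (fun i => w i j k) K hK fun i hi => hw i j k hi hj hk,
      (bw j hj k hk).1, (bw j hj k hk).2]
    ring
  rw [← e1, ← add_zero (∑ i ∈ Finset.range K, _), ← sub_zero (∑ i ∈ Finset.range K, _)]
  conv_lhs => enter [1, 2]; rw [← e2]
  conv_lhs => enter [2]; rw [← e3]
  simp only [← Finset.sum_sub_distrib, ← Finset.sum_add_distrib]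
  refine Finset.sum_eq_zero fun i hi => Finset.sum_eq_zero fun j hj =>
    Finset.sum_eq_zero fun k hk => ?_
  linear_combination s i j k * h0 i (Finset.mem_range.1 hi) j (Finset.mem_range.1 hj) k
    (Finset.mem_range.1 hk)

end SP3A

section SP3B

open Set Filter Topology Metric
open scoped RealInnerProductSpace

/-- Join coordinates on the sphere. -/
noncomputable def p3b_phi (a u c : ℝ) : S3 :=
  ⟨!₂[Complex.exp (Complex.I * u) * Real.sin a, Complex.exp (Complex.I * c) * Real.cos a], by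
    rw [mem_sphere_zero_iff_norm, EuclideanSpace.norm_eq, Fin.sum_univ_two]
    simp only [Matrix.cons_val_zero, Matrix.cons_val_one, norm_mul, Complex.norm_exp_I_mul_ofReal,
      one_mul, Complex.norm_real, Real.norm_eq_abs, sq_abs, Real.sin_sq_add_cos_sq, Real.sqrt_one]⟩

lemma p3b_one (u u' s s' : ℝ) (hs : |s| ≤ 1) :
    ‖Complex.exp (Complex.I * u') * s' - Complex.exp (Complex.I * u) * s‖ ≤ |s' - s| + |u' - u| := by
  have e : Complex.exp (Complex.I * u') * s' - Complex.exp (Complex.I * u) * s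
      = Complex.exp (Complex.I * u') * ((s' - s : ℝ) : ℂ)
        + Complex.exp (Complex.I * u) * (Complex.exp (Complex.I * ((u' - u : ℝ) : ℂ)) - 1) * s := by
    rw [mul_sub, ← Complex.exp_add, show Complex.I * u + Complex.I * ((u' - u : ℝ) : ℂ)
      = Complex.I * u' by push_cast; ring]
    push_cast; ring
  rw [e]
  refine (norm_add_le _ _).trans ?_
  simp only [norm_mul, Complex.norm_exp_I_mul_ofReal, one_mul, Complex.norm_real, Real.norm_eq_abs]
  have h := Real.norm_exp_I_mul_ofReal_sub_one_le (x := u' - u)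
  rw [Real.norm_eq_abs] at h
  nlinarith [norm_nonneg (Complex.exp (Complex.I * ((u' - u : ℝ) : ℂ)) - 1), abs_nonneg s]

lemma p3b_lip (a u c a' u' c' : ℝ) :
    dist (p3b_phi a' u' c') (p3b_phi a u c) ≤ 2 * |a' - a| + |u' - u| + |c' - c| := by
  have h1 := p3b_one u u' (Real.sin a) (Real.sin a') (Real.abs_sin_le_one a)
  have h2 := p3b_one c c' (Real.cos a) (Real.cos a') (Real.abs_cos_le_one a)
  have h3 := Real.abs_sin_sub_sin_le a' a
  have h4 := Real.abs_cos_sub_cos_le a' a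
  rw [Subtype.dist_eq, EuclideanSpace.dist_eq, Fin.sum_univ_two]
  simp only [p3b_phi, Matrix.cons_val_zero, Matrix.cons_val_one, dist_eq_norm]
  refine Real.sqrt_le_iff.2 ⟨by positivity, ?_⟩
  set x := ‖Complex.exp (Complex.I * u') * Real.sin a' - Complex.exp (Complex.I * u) * Real.sin a‖
  set y := ‖Complex.exp (Complex.I * c') * Real.cos a' - Complex.exp (Complex.I * c) * Real.cos a‖
  have x0 : 0 ≤ x := norm_nonneg _
  have y0 : 0 ≤ y := norm_nonneg _
  have : (x + y) ^ 2 ≤ (2 * |a' - a| + |u' - u| + |c' - c|) ^ 2 :=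
    pow_le_pow_left₀ (by positivity) (by linarith) 2
  nlinarith [mul_nonneg x0 y0]

lemma p3b_step {i i' : ℕ} (h1 : i ≤ i') (h2 : i' ≤ i + 1) {t : ℝ} (ht : 0 ≤ t) :
    |t * i' - t * i| ≤ t := by
  have a1 : (i : ℝ) ≤ i' := by exact_mod_cast h1
  have a2 : (i' : ℝ) ≤ i + 1 := by exact_mod_cast h2
  rw [abs_le]; constructor <;> nlinarith

theorem p_P3B :
    S_P3B := by
  intro p _ ε hε
  obtain ⟨M, hM⟩ := exists_nat_gt (7 * Real.pi / ε)
  have pi0 := Real.pi_pos
  have M0 : (0 : ℝ) < M := lt_trans (by positivity) hM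
  have p1 : (1 : ℝ) ≤ p := by exact_mod_cast Nat.one_le_iff_ne_zero.2 (NeZero.ne p)
  set s : ℝ := Real.pi / (2 * M) with hs
  set t : ℝ := 2 * Real.pi / (p * M) with ht
  have s0 : 0 ≤ s := by positivity
  have t0 : 0 ≤ t := by positivity
  have t1 : t ≤ 2 * Real.pi / M :=
    div_le_div_of_nonneg_left (by positivity) M0 (le_mul_of_one_le_left M0.le p1)
  have hsum : 2 * s + 3 * (2 * Real.pi / M) < ε := by
    rw [div_lt_iff₀ hε] at hM
    have : 2 * s + 3 * (2 * Real.pi / M) = 7 * Real.pi / M := by rw [hs]; field_simp; ring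
    rw [this, div_lt_iff₀ M0]; linarith
  have eM : Complex.exp (Complex.I * ((t * M : ℝ) : ℂ))
      = ((ZMod.toCircle (1 : ZMod p) : Circle) : ℂ) := by
    have := ZMod.toCircle_natCast (N := p) 1
    rw [Nat.cast_one] at this
    rw [this]; congr 1
    have : (M : ℂ) ≠ 0 := by exact_mod_cast M0.ne'
    rw [ht]; push_cast; field_simp
  have eP : Complex.exp (Complex.I * ((t * (p * M) : ℝ) : ℂ)) = 1 := by
    rw [ht, div_mul_cancel₀ _ (by positivity), ← Complex.exp_two_pi_mul_I]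
    congr 1; push_cast; ring
  have ex : ∀ u v : ℝ, Complex.exp (Complex.I * ((u + v : ℝ) : ℂ))
      = Complex.exp (Complex.I * v) * Complex.exp (Complex.I * u) := fun u v => by
    rw [← Complex.exp_add]; congr 1; push_cast; ring
  refine ⟨M, M, fun i j k => p3b_phi (s * i) (t * j + t * k) (t * k), by exact_mod_cast M0,
    by exact_mod_cast M0, ?_, ?_, ?_, ?_, ?_⟩
  · intro i j k i' j' k' a1 a2 b1 b2 c1 c2
    refine (p3b_lip _ _ _ _ _ _).trans_lt ?_
    have h1 := p3b_step a1 a2 s0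
    have h2 := p3b_step b1 b2 t0
    have h3 := p3b_step c1 c2 t0
    have h4 := abs_add_le (t * j' - t * j) (t * k' - t * k)
    rw [show t * j' - t * j + (t * k' - t * k) = t * j' + t * k' - (t * j + t * k) by ring] at h4
    linarith
  · intro i j k
    refine Subtype.ext ?_
    rw [gn, sh_val, ← eM]
    simp only [p3b_phi]
    rw [show t * j + t * ((k + M : ℕ) : ℝ) = (t * j + t * k) + t * M by push_cast; ring,
      show t * ((k + M : ℕ) : ℝ) = t * k + t * M by push_cast; ring, ex, ex (t * k)]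
    ext n
    fin_cases n <;> simp [mul_assoc]
  · intro i j k
    refine Subtype.ext ?_
    simp only [p3b_phi]
    rw [show t * ((j + p * M : ℕ) : ℝ) + t * k = (t * j + t * k) + t * (p * M) by push_cast; ring,
      ex, eP, one_mul]
  · intro j k
    refine Subtype.ext ?_
    simp [p3b_phi]
  · intro j k
    refine Subtype.ext ?_
    have : s * M = Real.pi / 2 := by rw [hs]; field_simp
    simp only [p3b_phi, this, Real.cos_pi_div_two, Complex.ofReal_zero, mul_zero]
    rw [show t * ((j + k : ℕ) : ℝ) + t * ((0 : ℕ) : ℝ) = t * j + t * k by push_cast; ring]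

end SP3B

section SP3

open Set Filter Topology Metric
open scoped RealInnerProductSpace

/-- The sum of a cochain round a square. -/
def p3_curl (d : S3 → S3 → ℤ) (a b c e : S3) : ℤ := d a b + d b c - d e c - d a e

lemma p3_zero {d : S3 → S3 → ℤ} {n : Set S3} (H : CocOn n d) {a b c e : S3} (ha : a ∈ n)
    (hb : b ∈ n) (hc : c ∈ n) (he : e ∈ n) : p3_curl d a b c e = 0 := by
  have h1 := H a ha b hb c hc
  have h2 := H a ha e he c hc
  rw [p3_curl]
  omega

lemma p3_per (y : ℕ → ℤ) (M : ℕ) (h : ∀ j, y (j + M) = y j) (n : ℕ) :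
    ∑ j ∈ Finset.range (n * M), y j = n * ∑ j ∈ Finset.range M, y j := by
  have h1 : ∀ n j, y (n * M + j) = y j := fun n j => by
    induction n with
    | zero => simp
    | succ n ih => rw [Nat.succ_mul, add_right_comm, h, ih]
  induction n with
  | zero => simp
  | succ n ih =>
    rw [Nat.succ_mul, Finset.sum_range_add, ih, Finset.sum_congr rfl fun j _ => h1 n j]
    push_cast
    ring

lemma p3_sum (x y : ℕ → ℕ → ℤ) (K n : ℕ) (hx : ∀ i, x i n = x i 0) (hy : ∀ j, y 0 j = 0) :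
    ∑ i ∈ Finset.range K, ∑ j ∈ Finset.range n, (x i j + y (i + 1) j - x i (j + 1) - y i j) =
      ∑ j ∈ Finset.range n, y K j := by
  have e : ∀ i j, x i j + y (i + 1) j - x i (j + 1) - y i j =
      (y (i + 1) j - y i j) - (x i (j + 1) - x i j) := fun i j => by ring
  have h1 : ∀ i, ∑ j ∈ Finset.range n, (x i (j + 1) - x i j) = 0 := fun i => by
    rw [Finset.sum_range_sub (x i), hx, sub_self]
  simp only [e, Finset.sum_sub_distrib (f := fun j => y (_ + 1) j - y _ j), h1, sub_zero]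
  rw [Finset.sum_comm]
  exact Finset.sum_congr rfl fun j _ => by
    rw [Finset.sum_range_sub fun i => y i j, hy, sub_zero]

lemma p3_grid (hA : S_P3A) {p : ℕ} [NeZero p] {d : S3 → S3 → ℤ} {σ t : S3 → ZMod p} {r : ZMod p}
    (d1 : ∀ a b, d (gn p a) (gn p b) = d a b) (d2 : ∀ a b, (d a b : ZMod p) = σ b - σ a)
    (d3 : ∀ a, d a a = 0) (hσ : ∀ a, σ (gn p a) = σ a + r) {K M : ℕ} {Q : ℕ → ℕ → ℕ → S3}
    (hK : 0 < K) (hM : 0 < M) {B : ℕ → ℕ → ℕ → Set S3}
    (hB : ∀ i j k i' j' k', i ≤ i' → i' ≤ i + 1 → j ≤ j' → j' ≤ j + 1 → k ≤ k' → k' ≤ k + 1 →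
      Q i' j' k' ∈ B i j k)
    (hG : ∀ i j k, CocOn (B i j k) d ∨
      ∀ y ∈ B i j k, t (gn p y) = t y + 1 ∧ ∀ z ∈ B i j k, t y = t z)
    (q1 : ∀ i j k, Q i j (k + M) = gn p (Q i j k)) (q2 : ∀ i j k, Q i (j + p * M) k = Q i j k)
    (q3 : ∀ j k, Q 0 j k = Q 0 0 k) (q4 : ∀ j k, Q K j k = Q K (j + k) 0) : r = 0 := by
  have p0 : (p : ℤ) ≠ 0 := Nat.cast_ne_zero.2 (NeZero.ne p)
  have hn : 0 < p * M := Nat.mul_pos (NeZero.pos p) hM
  have hq : ∀ a b c e, p * (p3_curl d a b c e / p) = p3_curl d a b c e := fun a b c e =>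
    Int.mul_ediv_cancel' ((ZMod.intCast_zmod_eq_zero_iff_dvd _ _).1 (by
      simp only [p3_curl, Int.cast_sub, Int.cast_add, d2]
      ring))
  have key : ∀ i j k, ∀ y ∈ B i j k, ∀ z ∈ B i j k, ∀ a ∈ B i j k, ∀ b ∈ B i j k, ∀ c ∈ B i j k,
      ∀ e ∈ B i j k, (t y - t z) * ((p3_curl d a b c e / p : ℤ) : ZMod p) = 0 :=
    fun i j k y hy z hz a ha b hb c hc e he => by
      rcases hG i j k with h | h
      · rw [p3_zero h ha hb hc he, Int.zero_ediv, Int.cast_zero, mul_zero]
      · rw [(h y hy).2 z hz, sub_self, zero_mul]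
  have q1' : ∀ i j, Q i j M = gn p (Q i j 0) := fun i j => by rw [← q1, zero_add]
  have q2' : ∀ i k, Q i (p * M) k = Q i 0 k := fun i k => by rw [← q2 i 0, zero_add]
  have q5 : ∀ j, Q K (j + M) 0 = gn p (Q K j 0) := fun j => by rw [← q4, q1']
  let u : ℕ → ℕ → ℕ → ℤ := fun i j k =>
    p3_curl d (Q i j k) (Q (i + 1) j k) (Q (i + 1) (j + 1) k) (Q i (j + 1) k) / p
  let v : ℕ → ℕ → ℕ → ℤ := fun i j k =>
    p3_curl d (Q i j k) (Q (i + 1) j k) (Q (i + 1) j (k + 1)) (Q i j (k + 1)) / p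
  let w : ℕ → ℕ → ℕ → ℤ := fun i j k =>
    p3_curl d (Q i j k) (Q i (j + 1) k) (Q i (j + 1) (k + 1)) (Q i j (k + 1)) / p
  have hu : ∀ i j k, (t (Q i j (k + 1)) - t (Q i j k)) * (u i j (k + 1) : ZMod p) = 0 :=
    fun i j k => by apply key i j k <;> apply hB <;> omega
  have hv : ∀ i j k, (t (Q i (j + 1) k) - t (Q i j k)) * (v i (j + 1) k : ZMod p) = 0 :=
    fun i j k => by apply key i j k <;> apply hB <;> omega
  have hw : ∀ i j k, (t (Q (i + 1) j k) - t (Q i j k)) * (w (i + 1) j k : ZMod p) = 0 :=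
    fun i j k => by apply key i j k <;> apply hB <;> omega
  have uM : ∀ i j, u i j M = u i j 0 := fun i j => by simp only [u, p3_curl, q1', d1]
  have vM : ∀ i k, v i (p * M) k = v i 0 k := fun i k => by simp only [v, q2']
  have H := hA K (p * M) M (fun i j k => (u i j k : ZMod p)) (fun i j k => v i j k)
    (fun i j k => w i j k) (fun i j k => t (Q i j k)) hK hn hM
    (fun i _ j _ k _ => by
      have : u i j (k + 1) - u i j k - (v i (j + 1) k - v i j k) + (w (i + 1) j k - w i j k) = 0 := by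
        refine mul_left_cancel₀ p0 ?_
        simp only [u, v, w, mul_add, mul_sub, hq]
        simp only [p3_curl]
        ring
      exact_mod_cast congrArg (Int.cast : ℤ → ZMod p) this)
    (fun i j k _ _ _ => hw i j k) (fun i j k _ _ _ => hv i j k) (fun i j k _ _ _ => hu i j k)
    (fun j _ k _ => ⟨by simp [w, p3_curl, q3 j, q3 (j + 1), d3], by
      have e : j + (k + 1) = j + 1 + k := by omega
      simp only [w, p3_curl, q4 j k, q4 (j + 1) k, q4 j (k + 1), q4 (j + 1) (k + 1), e]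
      simp⟩)
    (fun i _ k _ => ⟨by rw [vM], by
      have := hv i (p * M - 1) k
      rw [Nat.sub_add_cancel hn, vM, q2'] at this
      linear_combination -this⟩)
    (fun i _ j _ => ⟨by rw [uM], by
      have := hu i j (M - 1)
      rw [Nat.sub_add_cancel hM, uM, q1'] at this
      rcases hG i j 0 with h | h
      · have : u i j 0 = 0 := by
          simp only [u]
          rw [p3_zero h, Int.zero_ediv] <;> apply hB <;> omega
        simp [this]
      · rw [(h _ (by apply hB <;> omega)).1] at this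
        linear_combination -this⟩)
  have h1 : ∑ i ∈ Finset.range K, ∑ j ∈ Finset.range (p * M), u i j 0 =
      ∑ j ∈ Finset.range M, d (Q K j 0) (Q K (j + 1) 0) := by
    refine mul_left_cancel₀ p0 ?_
    rw [← p3_per (fun j => d (Q K j 0) (Q K (j + 1) 0)) M fun j => by
        rw [add_right_comm, q5, q5, d1],
      ← p3_sum (fun i j => d (Q i j 0) (Q (i + 1) j 0)) (fun i j => d (Q i j 0) (Q i (j + 1) 0)) K _
        (fun i => by rw [q2', q2']) fun j => by rw [q3 j, q3 (j + 1), d3]]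
    simp only [Finset.mul_sum, u, hq]
    rfl
  have h2 := congrArg (Int.cast : ℤ → ZMod p) h1
  simp only [Int.cast_sum, d2] at h2
  rw [H, Finset.sum_range_sub fun j => σ (Q K j 0), ← zero_add M, q5, hσ] at h2
  linear_combination -h2

theorem p_P3 (hP3A : S_P3A) (hP3B : S_P3B) :
    S_P3 := by
  classical
  intro p _ O O' r c s hO hO' mO hU ⟨c1, c2, c3, c4⟩ hr ⟨t, t1, t2⟩
  obtain ⟨sec, hsec⟩ := exists_sec p
  let σ : S3 → ZMod p := fun y => if y ∈ O then s y else r * sec y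
  have hσ : ∀ a, σ (gn p a) = σ a + r := fun a => by
    by_cases h : a ∈ O
    · simp only [σ, if_pos h, if_pos (mO h), c4 a h]
    · simp only [σ, if_neg h, if_neg (mt (gn_mem_iff mO).1 h)]
      rw [gn, hsec, mul_add, mul_one]
  let d : S3 → S3 → ℤ := fun a b =>
    if a ∈ O ∧ b ∈ O ∧ (c a b : ZMod p) = σ b - σ a ∧ a ≠ b then c a b else (σ b - σ a).val
  have d1 : ∀ a b, d (gn p a) (gn p b) = d a b := fun a b => by
    have e : gn p a ≠ gn p b ↔ a ≠ b := (isometry_sh _).injective.ne_iff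
    simp only [d, hσ, add_sub_add_right_eq_sub, gn_mem_iff mO, e]
    by_cases h : a ∈ O ∧ b ∈ O
    · rw [c2 a h.1 b h.2]
    · rw [if_neg fun h' => h ⟨h'.1, h'.2.1⟩, if_neg fun h' => h ⟨h'.1, h'.2.1⟩]
  have d2 : ∀ a b, (d a b : ZMod p) = σ b - σ a := fun a b => by
    simp only [d]
    split_ifs with h
    · exact h.2.2.1
    · rw [Int.cast_natCast, ZMod.natCast_zmod_val]
  have d3 : ∀ a, d a a = 0 := fun a => by simp [d]
  have loc : ∀ x : S3, ∃ n ∈ 𝓝 x, CocOn n d ∨
      ∀ y ∈ n, t (gn p y) = t y + 1 ∧ ∀ z ∈ n, t y = t z := fun x => by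
    rcases (hU ▸ mem_univ x : x ∈ O ∪ O') with h | h
    · obtain ⟨n, n1, n2⟩ := c1 x h
      obtain ⟨m, m1, m2⟩ := c3 x h
      rw [hO.nhdsWithin_eq h] at n1 m1
      have e : ∀ a ∈ n ∩ m ∩ O, ∀ b ∈ n ∩ m ∩ O, d a b = c a b := fun a ha b hb => by
        by_cases hab : a = b
        · rw [hab, d3, n2.self hb.1.1]
        · refine if_pos ⟨ha.2, hb.2, ?_, hab⟩
          simp only [σ, if_pos ha.2, if_pos hb.2]
          exact m2 a ha.1.2 b hb.1.2
      exact ⟨n ∩ m ∩ O, inter_mem (inter_mem n1 m1) (hO.mem_nhds h), Or.inl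
        fun a ha b hb y hy => by
          rw [e a ha b hb, e b hb y hy, e a ha y hy, n2 a ha.1.1 b hb.1.1 y hy.1.1]⟩
    · have := t1 x h
      rw [hO'.nhdsWithin_eq h] at this
      exact ⟨_, inter_mem this (hO'.mem_nhds h), Or.inr fun y hy =>
        ⟨t2 y hy.2, fun z hz => hy.1.trans hz.1.symm⟩⟩
  choose n n1 n2 using loc
  obtain ⟨ε, e0, e1⟩ := lebesgue_number_lemma_of_metric (c := fun x => interior (n x))
    isCompact_univ (fun _ => isOpen_interior) fun x _ =>
      mem_iUnion.2 ⟨x, mem_interior_iff_mem_nhds.2 (n1 x)⟩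
  obtain ⟨K, M, Q, hK, hM, hB, q1, q2, q3, q4⟩ := hP3B p ε e0
  refine hr (p3_grid hP3A (t := t) d1 d2 d3 hσ hK hM (B := fun i j k => ball (Q i j k) ε) hB
    (fun i j k => ?_) q1 q2 q3 q4)
  obtain ⟨y, hy⟩ := e1 (Q i j k) (mem_univ _)
  replace hy := hy.trans interior_subset
  exact (n2 y).imp (fun h => h.mono hy) fun h a ha => ⟨(h a (hy ha)).1, fun z hz =>
    (h a (hy ha)).2 z (hy hz)⟩

end SP3

section SP3L

open Set Filter Topology Metric
open scoped RealInnerProductSpace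

lemma p3l_inv {p : ℕ} [NeZero p] {O : Set S3} (h : MapsTo (gn p) O O) (x : S3) :
    infDist (gn p x) Oᶜ = infDist x Oᶜ := by
  have e : gn p '' Oᶜ = Oᶜ := by
    ext y
    refine ⟨?_, fun hy => ⟨sh (-1 : ZMod p) y, mt (sh_mem_iff h _).1 hy, sh_sh_neg 1 y⟩⟩
    rintro ⟨z, hz, rfl⟩
    exact mt (gn_mem_iff h).1 hz
  conv_lhs => rw [← e]
  exact Metric.infDist_image (isometry_sh 1)

lemma p3l_mem {O O' : Set S3} (h : IsOpen O) (hn : O ≠ univ) {x : S3} (hx : x ∈ O ∪ O')
    (hd : infDist x Oᶜ ≤ infDist x O'ᶜ) : x ∈ O' := by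
  by_contra h'
  rw [infDist_zero_of_mem (show x ∈ O'ᶜ from h')] at hd
  exact (h.isClosed_compl.mem_iff_infDist_zero (nonempty_compl.2 hn)).2
    (le_antisymm hd infDist_nonneg) (hx.resolve_right h')

theorem p_P3L (hP3 : S_P3) (hCECH : S_CECH) :
    S_P3L := by
  classical
  intro p _ hp O₁ O₂ O₃ o1 o2 o3 m1 m2 l1 l2 l3 hu
  have nt : Nontrivial (ZMod p) := ZMod.nontrivial_iff.2 (by omega)
  have n1 : O₁ ≠ univ := fun h => not_liftTo_univ (ZMod p) (h ▸ l1 : Lf p univ)
  have n2 : O₂ ≠ univ := fun h => not_liftTo_univ (ZMod p) (h ▸ l2 : Lf p univ)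
  obtain ⟨s₁, a1, a2⟩ := l1
  obtain ⟨s₂, b1, b2⟩ := l2
  let D : Set S3 := {x | infDist x O₁ᶜ < infDist x O₂ᶜ}
  let e : S3 → ℤ := fun x => if x ∈ O₁ ∩ O₂ then ((s₁ x - s₂ x).val : ℤ) else 0
  have hD : ∀ x, gn p x ∈ D ↔ x ∈ D := fun x => by
    simp only [D, mem_ofPred_eq, p3l_inv m1, p3l_inv m2]
  have he : ∀ x, e (gn p x) = e x := fun x => by
    simp only [e, mem_inter_iff, gn_mem_iff m1, gn_mem_iff m2]
    split_ifs with h
    · rw [a2 x h.1, b2 x h.2, add_sub_add_right_eq_sub]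
    · rfl
  have he' : ∀ x ∈ O₁, x ∈ O₂ → (e x : ZMod p) = s₁ x - s₂ x := fun x h1 h2 => by
    simp [e, h1, h2]
  have d2 : ∀ x ∈ O₁ ∪ O₂, x ∈ closure D → x ∈ O₂ := fun x hx h =>
    p3l_mem o1 n1 hx (closure_lt_subset_le (continuous_infDist_pt _) (continuous_infDist_pt _) h)
  have d1 : ∀ x ∈ O₁ ∪ O₂, x ∈ closure Dᶜ → x ∈ O₁ := fun x hx h => by
    rw [(isOpen_lt (continuous_infDist_pt _) (continuous_infDist_pt _)).isClosed_compl.closure_eq]
      at h
    exact p3l_mem o2 n2 (union_comm _ _ ▸ hx) (not_lt.1 h)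
  obtain ⟨c1, c2, c3⟩ := hCECH (O₁ ∪ O₂) O₁ O₂ D e
    (fun x hx h => nhdsWithin_le_nhds (o2.mem_nhds (d2 x hx h)))
    (fun x hx h => nhdsWithin_le_nhds (o1.mem_nhds (d1 x hx h)))
    (((a1.mono fun x hx => hx.1.2).map₂ (b1.mono fun x hx => hx.2)
      fun u v => ((u - v).val : ℤ)).congr fun x hx => if_pos ⟨hx.1.2, hx.2⟩)
  refine hP3 (O₁ ∪ O₂) O₃ 1 (cech D e) (fun x => if x ∈ D then s₂ x else s₁ x) (o1.union o2) o3
    (m1.union_union m2) hu ⟨c1, fun x _ y _ => by simp only [cech, hD, he],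
      IsP.of_local fun x hx => ?_, fun x hx => ?_⟩ one_ne_zero l3
  · rcases hx with hx | hx
    · refine ⟨_, inter_mem_nhdsWithin _ (o1.mem_nhds hx),
        ((c2.cz p).add_lc (a1.mono inter_subset_right)).congr fun y hy => ?_⟩
      by_cases h : y ∈ D
      · simp [h, he' y hy.2 (d2 y hy.1 (subset_closure h))]
      · simp [h]
    · refine ⟨_, inter_mem_nhdsWithin _ (o2.mem_nhds hx),
        ((c3.cz p).add_lc (b1.mono inter_subset_right)).congr fun y hy => ?_⟩
      by_cases h : y ∈ D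
      · simp [h]
      · simp [h, he' y (d1 y hy.1 (subset_closure h)) hy.2]
  · simp only [hD]
    split_ifs with h
    exacts [b2 x (d2 x hx (subset_closure h)), a2 x (d1 x hx (subset_closure h))]

end SP3L

section SNBHD

open Set Filter Topology Metric
open scoped RealInnerProductSpace

theorem p_NBHD :
    S_NBHD := by
  classical
  intro p _ A mA hL
  rcases A.eq_empty_or_nonempty with rfl | ⟨x₀, hx₀⟩
  · exact ⟨∅, isOpen_empty, mapsTo_empty _ _, Subset.rfl, lf_empty⟩
  obtain ⟨s, s1, s2⟩ := hL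
  let B : ZMod p → Set S3 := fun k => {x | x ∈ A ∧ s x = k}
  have hne : ∀ k, (B k).Nonempty := fun k =>
    ⟨sh (k - s x₀) x₀, mapsTo_sh mA _ hx₀, by rw [s2.sh_one mA _ hx₀]; ring⟩
  have him : ∀ k, gn p '' B k = B (k + 1) := fun k => by
    ext y
    constructor
    · rintro ⟨x, hx, rfl⟩
      exact ⟨mA hx.1, by rw [s2 x hx.1, hx.2]⟩
    · intro hy
      refine ⟨sh (-1 : ZMod p) y, ⟨mapsTo_sh mA _ hy.1, ?_⟩, sh_sh_neg 1 y⟩
      rw [s2.sh_one mA _ hy.1, hy.2]; ring
  have hd : ∀ k x, infDist (gn p x) (B (k + 1)) = infDist x (B k) := fun k x => by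
    rw [← him]
    exact infDist_image (isometry_sh (1 : ZMod p))
  let O : ZMod p → Set S3 := fun k => {x | ∀ k', k' ≠ k → infDist x (B k) < infDist x (B k')}
  have hO : ∀ k, IsOpen (O k) := fun k => by
    have : O k = ⋂ k', ⋂ (_ : k' ≠ k), {x | infDist x (B k) < infDist x (B k')} := by
      ext x; simp [O]
    rw [this]
    exact isOpen_iInter_of_finite fun k' => isOpen_iInter_of_finite fun _ =>
      isOpen_lt (continuous_infDist_pt _) (continuous_infDist_pt _)
  have hdis : ∀ k l x, x ∈ O k → x ∈ O l → k = l := fun k l x hk hl => by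
    by_contra hn
    exact lt_asymm (hk l (Ne.symm hn)) (hl k hn)
  have hm : ∀ k x, x ∈ O k → gn p x ∈ O (k + 1) := fun k x hx k' hk' => by
    obtain ⟨l, rfl⟩ : ∃ l, k' = l + 1 := ⟨k' - 1, by ring⟩
    rw [hd, hd]
    exact hx l fun e => hk' (by rw [e])
  have hA : ∀ x ∈ A, x ∈ O (s x) := fun x hx k' hk' => by
    rw [infDist_zero_of_mem (show x ∈ B (s x) from ⟨hx, rfl⟩),
      ← infDist_pos_iff_notMem_closure (hne k'), mem_closure_iff_frequently]
    have := eventually_nhdsWithin_iff.1 (s1 x hx)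
    rw [not_frequently]
    filter_upwards [this] with y hy hB
    exact hk' (hB.2.symm.trans (hy hB.1))
  let t : S3 → ZMod p := fun y => if h : ∃ k, y ∈ O k then h.choose else 0
  have ht : ∀ k, ∀ y ∈ O k, t y = k := fun k y hy => by
    have e : ∃ k, y ∈ O k := ⟨k, hy⟩
    simp only [t, dif_pos e]
    exact hdis _ _ y e.choose_spec hy
  refine ⟨⋃ k, O k, isOpen_iUnion hO, fun y hy => ?_, fun x hx => mem_iUnion.2 ⟨_, hA x hx⟩,
    t, fun y hy => ?_, fun y hy => ?_⟩
  · obtain ⟨k, hk⟩ := mem_iUnion.1 hy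
    exact mem_iUnion.2 ⟨k + 1, hm k y hk⟩
  · obtain ⟨k, hk⟩ := mem_iUnion.1 hy
    filter_upwards [nhdsWithin_le_nhds ((hO k).mem_nhds hk)] with w hw
    rw [ht k w hw, ht k y hk]
  · obtain ⟨k, hk⟩ := mem_iUnion.1 hy
    rw [ht k y hk, ht _ _ (hm k y hk)]

end SNBHD

end Pool.Agent.P.MP_c88051_gt.Im
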