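import Pool.Agent.P.MP_c88051_gt.Im.IfaceA

/-! Steps CHART, GRES, GUQ, ECONN, LUQ, BIS, UQB, GLUE2, KC. -/

set_option autoImplicit false
set_option linter.unusedSectionVars false

namespace Pool.Agent.P.MP_c88051_gt.Im

section SCHART

open Set Filter Topology Metric
open scoped RealInnerProductSpace

lemma chart_gen {E : Type} [NormedAddCommGroup E] [InnerProductSpace ℝ E]
    [Fact (Module.finrank ℝ E = 3 + 1)] (z : sphere (0 : E) 1) :
    ∃ ι : (Fin 3 → ℝ) → sphere (0 : E) 1, IsOpenEmbedding ι ∧ range ι = {z}ᶜ := by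
  let e := (stereographic' 3 z).symm
  have h1 : e.source = univ := stereographic'_target z
  let φ := (EuclideanSpace.equiv (Fin 3) ℝ).symm.toHomeomorph
  refine ⟨e ∘ φ, (e.isOpenEmbedding h1).comp φ.isOpenEmbedding, ?_⟩
  rw [range_comp, φ.surjective.range_eq, ← h1, e.image_source_eq_target]
  exact stereographic'_source z

theorem p_CHART :
    S_CHART := by
  intro z
  obtain ⟨ι, h1, h2⟩ : ∃ ι : (Fin 3 → ℝ) → S3, IsOpenEmbedding ι ∧ range ι = {z}ᶜ := by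
    let : InnerProductSpace ℝ E2 := InnerProductSpace.complexToReal
    have : Fact (Module.finrank ℝ E2 = 3 + 1) := ⟨by rw [finrank_real_of_complex]; simp⟩
    exact chart_gen z
  refine ⟨ι, h1, h2, fun n hn => ?_⟩
  have hc : IsCompact (ι ⁻¹' (interior n)ᶜ) :=
    (h1.isInducing.isCompact_preimage_iff fun x hx => by
      rw [h2]
      rintro rfl
      exact hx (mem_interior_iff_mem_nhds.2 hn)).2 isOpen_interior.isClosed_compl.isCompact
  obtain ⟨C, hC⟩ := hc.isBounded.exists_norm_le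
  obtain ⟨B, hB⟩ := exists_nat_gt C
  exact ⟨B, fun y hy => interior_subset (by_contra fun h => by linarith [hC y h])⟩

end SCHART

section SGRES

open Set Filter Topology Metric
open scoped RealInnerProductSpace

theorem p_GRES (hNJ : S_NJ) :
    S_GRES := by
  intro p _ F _ N f H a b hs
  have key : U f a ≠ univ → ¬Lf p (U f b) → ∀ c, IsC (U f a) c → Inv2 (gn p) (U f a) c →
      ∀ m, Ord (gn p) (U f a) c m ↔ Ord (gn p) (U f b) c m := fun hu hl c hc hi m => by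
    refine forall_congr' fun n => iff_congr ⟨fun h => h.mono hs, ?_⟩ Iff.rfl
    rintro ⟨h, h1, h2⟩
    obtain ⟨h', k1, k2⟩ := hNJ H a b (cz n c) h hs hu hl (hc.cz n) h1
    obtain ⟨x, hx⟩ : (U f b).Nonempty := nonempty_iff_ne_empty.2 fun e => hl (e ▸ lf_empty)
    refine ⟨h', k1, (H.orb (hs hx)).sft (H.mapsU a) (hi.cz n) k1 fun j => ?_⟩
    rw [k2 _ ((H.sh_mem _).2 hx), k2 _ ((H.sh_mem _).2 hx), ← gn_sh, h2 _ ((H.sh_mem _).2 hx)]
  refine ⟨key, fun r c s h => ⟨h.1.mono hs, fun e => h.2.1 (univ_subset_iff.1 (e ▸ hs)),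
    fun hl => ?_⟩⟩
  obtain ⟨m, h1, h2⟩ := h.2.2 fun h' => hl (h'.mono hs)
  exact ⟨m, h1, (key h.2.1 hl c h.1.1 h.1.2.1 m).1 h2⟩

end SGRES

section SGUQ

open Set Filter Topology Metric
open scoped RealInnerProductSpace

theorem p_GUQ (hZ1 : S_Z1) (hBA : S_BA) :
    S_GUQ := by
  intro p _ F _ N f H r a c s c' s' ⟨⟨c1, c2, c3, c4⟩, hu, ho⟩ ⟨⟨d1, d2, d3, d4⟩, _, ho'⟩
  by_cases hl : Lf p (U f a)
  · rcases (U f a).eq_empty_or_nonempty with he | ⟨x, hx⟩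
    · rw [he]
      exact ⟨0, fun _ h => h.elim, fun _ h => h.elim⟩
    · obtain ⟨h, h1, h2⟩ := hZ1 H a (c - c') (fun _ => 0) x hl (c1.sub d1) hx
      exact ⟨h, h1, (H.orb hx).sft (H.mapsU a) (c2.sub d2) h1 fun j => by simp [h2]⟩
  obtain ⟨κ, dg, -, a1, a2, -, -, a3⟩ := hBA H a hl hu
  have key : ∀ (e : S3 → S3 → ℤ) (j : ℤ) (m : ℕ), (∀ n : ℕ, IPot (gn p) (U f a) n e ↔ (n : ℤ) ∣ j) →
      Ord (gn p) (U f a) e m → j.natAbs = m := fun e j m h1 h2 =>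
    Nat.dvd_antisymm ((h2 _).1 ((h1 _).2 (Int.natAbs_dvd.2 dvd_rfl)))
      (Int.natCast_dvd.1 ((h1 m).1 ((h2 m).2 dvd_rfl)))
  obtain ⟨j, j1, j2, j3⟩ := a3 c c1 c2
  obtain ⟨j', k1, k2, k3⟩ := a3 c' d1 d2
  obtain ⟨i, i1, i2, -⟩ := a3 (c - c') (c1.sub d1) (c2.sub d2)
  obtain ⟨m, m1, m2⟩ := ho hl
  obtain ⟨m', n1, n2⟩ := ho' hl
  have e1 := key c j m j2 m2
  have e2 := key c' j' m' k2 n2
  have e3 : (p : ℤ) ∣ j' - j := (ZMod.intCast_eq_intCast_iff_dvd_sub j j' p).1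
    (((j3 r).1 ⟨s, c3, c4⟩).trans ((k3 r).1 ⟨s', d3, d4⟩).symm)
  have e4 : j' - j = 0 := Int.eq_zero_of_abs_lt_dvd e3 (by
    rw [abs_lt]
    omega)
  have e5 : dg (c - c') = 0 := by
    rw [sub_eq_add_neg, ← neg_one_zsmul, a1 _ _ c1 (d1.zsmul _), a2 _ _ d1, j1, k1,
      sub_eq_zero.1 e4]
    ring
  have hp : (p : ℤ) ≠ 0 := by exact_mod_cast NeZero.ne p
  rw [e5, eq_comm, mul_eq_zero] at i1
  exact iPot_zero.1 ((i2 0).2 (by rw [i1.resolve_left hp]; simp))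

end SGUQ

section SECONN

open Set Filter Topology Metric
open scoped RealInnerProductSpace

theorem p_ECONN :
    S_ECONN := by
  intro p _ F _ N f H P T _ Ψ A k hΨ hA hne hk hi
  have fib : ∀ b ∈ A, ∀ x ∈ U f (Ψ b), ∀ y ∈ U f (Ψ b), k (b, x) = k (b, y) := fun b hb x hx y hy =>
    H.const (h := fun z => k (b, z))
      (hk.comp (φ := fun z => (b, z)) (by fun_prop) fun z hz => ⟨hb, hz⟩)
      (fun z hz => hi (b, z) ⟨hb, hz⟩) hx hy
  choose! x hx using hne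
  have lc : LC A fun b => k (b, x b) := fun b hb => by
    have h1 : ∀ᶠ c in 𝓝[A] b, x b ∈ U f (Ψ c) := nhdsWithin_le_nhds
      ((show Continuous fun c => (c, x b) by fun_prop).continuousAt.eventually
        ((isOpen_EE H.cont hΨ).mem_nhds ⟨mem_univ _, hx b hb⟩) |>.mono fun c hc => hc.2)
    have h2 : Tendsto (fun c => (c, x b)) (𝓝[A] b) (𝓝[EE f Ψ A] (b, x b)) :=
      tendsto_nhdsWithin_iff.2 ⟨((show Continuous fun c => (c, x b) by fun_prop).tendsto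
        b).mono_left nhdsWithin_le_nhds, by
          filter_upwards [h1, self_mem_nhdsWithin] with c a1 a2 using ⟨a2, a1⟩⟩
    filter_upwards [h1, self_mem_nhdsWithin, h2.eventually (hk _ ⟨hb, hx b hb⟩)] with c a1 a2 a3
    exact (fib c a2 _ (hx c a2) _ a1).trans a3
  intro e he e' he'
  exact (fib _ he.1 _ he.2 _ (hx _ he.1)).trans ((lc.eq_of_preconn hA he.1 he'.1).trans
    (fib _ he'.1 _ (hx _ he'.1) _ he'.2))

end SECONN

section SLUQ

open Set Filter Topology Metric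
open scoped RealInnerProductSpace

lemma luq_tube {P Y : Type} [TopologicalSpace P] [TopologicalSpace Y] {E : Set (P × Y)}
    {d : P × Y → P × Y → ℤ} (hd : IsC E d) {b₁ : P} {K : Set Y} (hK : IsCompact K)
    (h : ∀ x ∈ K, (b₁, x) ∈ E) :
    ∀ᶠ b in 𝓝 b₁, ∀ x ∈ K, ∃ m ∈ 𝓝 x, CocOn (({b₁, b} ×ˢ m) ∩ E) d := by
  refine hK.eventually_forall_of_forall_eventually
    (P := fun b x => ∃ m ∈ 𝓝 x, CocOn (({b₁, b} ×ˢ m) ∩ E) d) fun y hy => ?_
  obtain ⟨n, hn, hc⟩ := hd _ (h y hy)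
  obtain ⟨O, hO, hOn⟩ := mem_nhdsWithin_iff_exists_mem_nhds_inter.1 hn
  obtain ⟨u, hu, v, hv, huv⟩ := mem_nhds_prod_iff.1 hO
  filter_upwards [prod_mem_nhds hu (eventually_mem_nhds_iff.2 hv)] with z hz
  refine ⟨v, hz.2, hc.mono fun e he => hOn ⟨huv ⟨?_, he.1.2⟩, he.2⟩⟩
  rcases he.1.1 with h1 | h1
  · rw [h1]
    exact mem_of_mem_nhds hu
  · rw [show e.1 = z.1 from h1]
    exact hz.1

theorem p_LUQ :
    S_LUQ := by
  intro p _ F _ N f H P _ Ψ A d hΨ hd hinv hpot b₀ hb₀ ⟨x₀, hx₀⟩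
  obtain ⟨N₀, hN₀, hc₀⟩ := hd (b₀, x₀) ⟨hb₀, hx₀⟩
  have hz₀ : (b₀, x₀) ∈ N₀ := mem_of_mem_nhdsWithin (by exact ⟨hb₀, hx₀⟩) hN₀
  choose! k hk hks using hpot
  refine ⟨{b | (b, x₀) ∈ EE f Ψ univ ∧ ((b, x₀) ∈ EE f Ψ A → (b, x₀) ∈ N₀)},
    (Continuous.prodMk_left x₀).continuousAt.eventually (p := fun e => e ∈ EE f Ψ univ ∧
      (e ∈ EE f Ψ A → e ∈ N₀)) (Eventually.and ((isOpen_EE H.cont hΨ).mem_nhds ⟨trivial, hx₀⟩)
      (eventually_nhdsWithin_iff.1 hN₀)),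
    fun e => k e.1 e.2 - k e.1 x₀ + d (b₀, x₀) (e.1, x₀), ?_, fun e he => ?_⟩
  swap
  · simp only [gE, hks e.1 he.1.1 e.2 he.2, add_zero]
  rintro ⟨b₁, x₁⟩ ⟨⟨hb₁, ⟨-, h01⟩, hn₁⟩, hx₁⟩
  obtain ⟨ε, hε, e0, e1⟩ : ∃ ε > (0 : ℝ), x₀ ∈ U f (up (Ψ b₁) (-ε)) ∧ x₁ ∈ U f (up (Ψ b₁) (-ε)) := by
    have a0 : ⟪(Ψ b₁).1, f x₀⟫ < (Ψ b₁).2 := h01
    have a1 : ⟪(Ψ b₁).1, f x₁⟫ < (Ψ b₁).2 := hx₁
    obtain ⟨c, c1, c2⟩ := exists_between (max_lt a0 a1)
    rw [max_lt_iff] at c1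
    exact ⟨(Ψ b₁).2 - c, by linarith, by rw [mem_U_up]; linarith [c1.1],
      by rw [mem_U_up]; linarith [c1.2]⟩
  obtain ⟨R, hR, hnear⟩ := exists_near H.cont hε
  have hsub₁ : Ucl f (up (Ψ b₁) (-ε)) ⊆ U f (Ψ b₁) := (hnear _ _ (by simpa using hR)).1
  have h1 := luq_tube hd (isClosed_Ucl H.cont (up (Ψ b₁) (-ε))).isCompact
    fun x hx => (⟨hb₁, hsub₁ hx⟩ : (b₁, x) ∈ EE f Ψ A)
  have h2 : ∀ᶠ b in 𝓝 b₁, Ucl f (up (Ψ b₁) (-ε)) ⊆ U f (Ψ b) := by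
    filter_upwards [hΨ.continuousAt.eventually (ball_mem_nhds (Ψ b₁) hR)] with b hb
    exact (hnear _ _ (by simpa [dist_eq_norm] using hb)).1
  have h3 : ∀ᶠ b in 𝓝 b₁, b ∈ A → ∀ x ∈ U f (up (Ψ b₁) (-ε)),
      k b x - k b₁ x - d (b₁, x) (b, x) = k b x₀ - k b₁ x₀ - d (b₁, x₀) (b, x₀) := by
    filter_upwards [h1, h2] with b g1 g2 hb x hx
    have s1 := (U_sub_Ucl _).trans hsub₁
    have s2 := (U_sub_Ucl _).trans g2
    refine H.const (h := fun x => k b x - k b₁ x - d (b₁, x) (b, x)) (fun y hy => ?_)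
      (fun y hy => ?_) hx e0
    · obtain ⟨m, hm, hc⟩ := g1 y (U_sub_Ucl _ hy)
      obtain ⟨m₁, hm₁, c₁⟩ := (hk b₁ hb₁).mono s1 y hy
      obtain ⟨m₂, hm₂, c₂⟩ := (hk b hb).mono s2 y hy
      filter_upwards [nhdsWithin_le_nhds hm, hm₁, hm₂, self_mem_nhdsWithin] with z z0 z1 z2 hz
      have a1 := c₁ y (mem_of_mem_nhdsWithin hy hm₁) z z1
      have a2 := c₂ y (mem_of_mem_nhdsWithin hy hm₂) z z2
      have y0 := mem_of_mem_nhds hm
      have a3 := hc (b₁, y) ⟨⟨Or.inl rfl, y0⟩, hb₁, s1 hy⟩ (b, y) ⟨⟨Or.inr rfl, y0⟩, hb, s2 hy⟩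
        (b, z) ⟨⟨Or.inr rfl, z0⟩, hb, s2 hz⟩
      have a4 := hc (b₁, y) ⟨⟨Or.inl rfl, y0⟩, hb₁, s1 hy⟩ (b₁, z) ⟨⟨Or.inl rfl, z0⟩, hb₁, s1 hz⟩
        (b, z) ⟨⟨Or.inr rfl, z0⟩, hb, s2 hz⟩
      simp only [fib] at a1 a2
      linarith
    · have a1 := hinv (b₁, y) ⟨hb₁, s1 hy⟩ (b, y) ⟨hb, s2 hy⟩
      simp only [gE] at a1
      simp only [hks b hb y (s2 hy), hks b₁ hb₁ y (s1 hy), add_zero, a1]
  obtain ⟨N₁, hN₁, hc₁⟩ := hd (b₁, x₁) ⟨hb₁, hx₁⟩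
  have hz₁ : (b₁, x₁) ∈ N₁ := mem_of_mem_nhdsWithin (by exact ⟨hb₁, hx₁⟩) hN₁
  obtain ⟨m, hm, cm⟩ := hk b₁ hb₁ x₁ hx₁
  have h4 : ∀ᶠ x in 𝓝 x₁, x ∈ U f (up (Ψ b₁) (-ε)) ∧ x ∈ m ∧ (b₁, x) ∈ N₁ := by
    filter_upwards [(H.openU _).mem_nhds e1, eventually_nhdsWithin_iff.1 hm,
      (Continuous.prodMk_right b₁).continuousAt.eventually (eventually_nhdsWithin_iff.1 hN₁)]
      with x g1 g2 g3
    have := hsub₁ (U_sub_Ucl _ g1)
    exact ⟨g1, g2 this, g3 ⟨hb₁, this⟩⟩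
  refine ⟨{e | e ∈ N₁ ∧ k e.1 e.2 - k e.1 x₀ + d (b₀, x₀) (e.1, x₀) =
    k b₁ x₁ - k b₁ x₀ + d (b₀, x₀) (b₁, x₀) + d (b₁, x₁) e}, ?_, fun a ha b hb => ?_⟩
  · filter_upwards [nhdsWithin_mono _ (EE_mono Ψ inter_subset_left) hN₁,
      nhdsWithin_le_nhds (prod_mem_nhds h3 h4), self_mem_nhdsWithin]
    rintro ⟨b, x⟩ g1 ⟨g2, g3, g4, g5⟩ ⟨⟨hb, ⟨-, g6⟩, g7⟩, -⟩
    refine ⟨g1, ?_⟩
    have a1 := g2 hb x g3
    have a2 := cm x₁ (mem_of_mem_nhdsWithin hx₁ hm) x g4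
    have a3 := hc₁ _ hz₁ _ g5 _ g1
    have a4 := hc₀ _ hz₀ _ (hn₁ ⟨hb₁, h01⟩) _ (g7 ⟨hb, g6⟩)
    simp only [fib] at a1 a2 a3 a4 ⊢
    linarith
  · have := hc₁.sub hz₁ ha.1 hb.1
    simp only [ha.2, hb.2, this]
    abel

end SLUQ

section SBIS

open Set Filter Topology Metric
open scoped RealInnerProductSpace

theorem p_BIS :
    S_BIS := by
  intro n A₀ Q hc hv hne hloc hcut
  choose! m hm hQ using hloc
  obtain ⟨δ, hδ, hL⟩ := lebesgue_number_lemma_of_metric (c := fun b : A₀ => interior (m b)) hc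
    (fun _ => isOpen_interior) fun b hb =>
      mem_iUnion.2 ⟨⟨b, hb⟩, mem_interior_iff_mem_nhds.2 (hm b hb)⟩
  obtain ⟨R, hR⟩ := hc.isBounded.exists_norm_le
  have hR' : ∀ b ∈ A₀, ∀ i, |b i| ≤ R := fun b hb i => (norm_le_pi_norm b i).trans (hR b hb)
  have key : ∀ j : ℕ, ∀ A ⊆ A₀, IsCompact A → Convex ℝ A →
      (∀ b ∈ A, ∀ b' ∈ A, ∀ i : Fin n, j ≤ i.val → |b i - b' i| ≤ δ / 2) → Q A := by
    intro j
    induction j with
    | zero =>
      intro A hA _ _ h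
      rcases A.eq_empty_or_nonempty with rfl | ⟨b, hb⟩
      · obtain ⟨b, hb⟩ := hne
        exact hQ b hb _ (empty_subset _)
      · obtain ⟨c, hc'⟩ := hL b (hA hb)
        refine hQ c c.2 A fun x hx => ⟨hA hx, interior_subset (hc' ?_)⟩
        exact (dist_pi_lt_iff hδ).2 fun i =>
          (h x hx b hb i (Nat.zero_le _)).trans_lt (half_lt_self hδ)
    | succ j ih =>
      by_cases hj : j < n
      swap
      · exact fun A hA h1 h2 _ => ih A hA h1 h2 fun _ _ _ _ i hi => absurd (hi.trans_lt i.2) hj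
      have one : ∀ A ⊆ A₀, IsCompact A → Convex ℝ A →
          (∀ b ∈ A, ∀ b' ∈ A, ∀ i : Fin n, j + 1 ≤ i.val → |b i - b' i| ≤ δ / 2) → ∀ t : ℝ,
          (∀ b ∈ A, t ≤ b ⟨j, hj⟩ ∧ b ⟨j, hj⟩ ≤ t + δ / 2) → Q A := fun A hA h1 h2 h3 t h4 =>
        ih A hA h1 h2 fun b hb b' hb' i hi => by
          rcases hi.eq_or_lt with e | e
          · obtain rfl : i = ⟨j, hj⟩ := Fin.ext e.symm
            have := h4 b hb
            have := h4 b' hb'
            rw [abs_le]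
            constructor <;> linarith
          · exact h3 b hb b' hb' i e
      have two : ∀ k : ℕ, ∀ A ⊆ A₀, IsCompact A → Convex ℝ A →
          (∀ b ∈ A, ∀ b' ∈ A, ∀ i : Fin n, j + 1 ≤ i.val → |b i - b' i| ≤ δ / 2) →
          (∀ b ∈ A, b ⟨j, hj⟩ ≤ -R + k * (δ / 4)) → Q A := by
        intro k
        induction k with
        | zero =>
          refine fun A hA h1 h2 h3 h4 => one A hA h1 h2 h3 (-R) fun b hb =>
            ⟨(abs_le.1 (hR' b (hA hb) _)).1, ?_⟩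
          have := h4 b hb
          simp only [Nat.cast_zero, zero_mul, add_zero] at this
          linarith
        | succ k ihk =>
          intro A hA h1 h2 h3 h4
          have hl : IsLinearMap ℝ fun b : Fin n → ℝ => b ⟨j, hj⟩ := ⟨fun _ _ => rfl, fun _ _ => rfl⟩
          refine hcut A hA h1 h2 ⟨j, hj⟩ (-R + k * (δ / 4) - δ / 8) (δ / 8) (by positivity)
            (ihk _ (inter_subset_left.trans hA)
              (h1.inter_right (isClosed_le (continuous_apply _) continuous_const))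
              (h2.inter (convex_halfSpace_le hl _)) (fun b hb b' hb' => h3 b hb.1 b' hb'.1)
              fun b hb => ?_)
            (one _ (inter_subset_left.trans hA)
              (h1.inter_right (isClosed_le continuous_const (continuous_apply _)))
              (h2.inter (convex_halfSpace_ge hl _)) (fun b hb b' hb' => h3 b hb.1 b' hb'.1)
              _ fun b hb => ⟨hb.2, ?_⟩)
          · have : b ⟨j, hj⟩ ≤ _ := hb.2
            linarith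
          · have := h4 b hb.1
            push_cast at this
            linarith
      obtain ⟨k, hk⟩ := exists_nat_ge (2 * R / (δ / 4))
      rw [div_le_iff₀ (by positivity)] at hk
      refine fun A hA h1 h2 h3 => two k A hA h1 h2 h3 fun b hb => ?_
      have := (abs_le.1 (hR' b (hA hb) ⟨j, hj⟩)).2
      linarith
  exact key n A₀ Subset.rfl hc hv fun _ _ _ _ i hi => absurd i.2 hi.not_gt

end SBIS

section SUQB

open Set Filter Topology Metric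
open scoped RealInnerProductSpace

theorem p_UQB (hLUQ : S_LUQ) (hECONN : S_ECONN) (hBIS : S_BIS) :
    S_UQB := by
  intro p _ F _ N f H n Ψ A₀ d hΨ hA hC hU hd hi hf
  rcases A₀.eq_empty_or_nonempty with rfl | hne
  · exact ⟨0, fun _ h => h.1.elim, fun _ h => h.1.elim⟩
  refine hBIS A₀ (fun A => IPotZ (gE p) (EE f Ψ A) d) hA hC hne (fun b hb => ?_) ?_
  · obtain ⟨m, hm, h⟩ := hLUQ H Ψ A₀ d hΨ hd hi hf b hb (hU b hb)
    exact ⟨m, hm, fun A h' => h.mono (EE_mono Ψ h')⟩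
  rintro A hs - hc i μ ε hε ⟨k₁, p1, s1⟩ ⟨k₂, p2, s2⟩
  have hB : Convex ℝ (A ∩ {b | b i ∈ Icc (μ - ε) (μ + ε)}) :=
    hc.inter ((convex_Icc _ _).linear_preimage (LinearMap.proj i))
  have m1 : EE f Ψ (A ∩ {b | b i ∈ Icc (μ - ε) (μ + ε)}) ⊆ EE f Ψ (A ∩ {b | b i ≤ μ + ε}) :=
    EE_mono Ψ fun b hb => ⟨hb.1, hb.2.2⟩
  have m2 : EE f Ψ (A ∩ {b | b i ∈ Icc (μ - ε) (μ + ε)}) ⊆ EE f Ψ (A ∩ {b | μ - ε ≤ b i}) :=
    EE_mono Ψ fun b hb => ⟨hb.1, hb.2.1⟩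
  have hk := hECONN H Ψ _ _ hΨ hB.isPreconnected (fun b hb => hU b (hs hb.1))
    ((p1.mono m1).lc_sub (p2.mono m2)) fun e he => by
      simp only [s1 e (m1 he), s2 e (m2 he), add_zero]
  obtain ⟨t, ht⟩ : ∃ t, ∀ e ∈ EE f Ψ (A ∩ {b | b i ∈ Icc (μ - ε) (μ + ε)}), k₂ e + t = k₁ e := by
    rcases (EE f Ψ (A ∩ {b | b i ∈ Icc (μ - ε) (μ + ε)})).eq_empty_or_nonempty with h | ⟨e₀, h⟩
    · exact ⟨0, fun e he => absurd he (h ▸ notMem_empty e)⟩
    · exact ⟨k₁ e₀ - k₂ e₀, fun e he => by rw [hk e₀ h e he]; ring⟩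
  have ci : Continuous fun e : (Fin n → ℝ) × S3 => e.1 i := by fun_prop
  refine ⟨fun e => if e.1 i ≤ μ then k₁ e else k₂ e + t, IsP.of_local fun e he => ?_,
    fun e he => ?_⟩
  · rcases lt_or_ge (e.1 i) (μ + ε) with h | h
    · refine ⟨_, inter_mem_nhdsWithin _ ((isOpen_lt ci continuous_const).mem_nhds h),
        (p1.mono fun x hx => ⟨⟨hx.1.1, (show x.1 i < μ + ε from hx.2).le⟩, hx.1.2⟩).congr
          fun x hx => ?_⟩
      split_ifs with h'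
      exacts [rfl, ht x ⟨⟨hx.1.1, by linarith, (show x.1 i < μ + ε from hx.2).le⟩, hx.1.2⟩]
    · refine ⟨_, inter_mem_nhdsWithin _ ((isOpen_lt continuous_const ci).mem_nhds
        (show μ < e.1 i by linarith)), ((p2.mono fun x hx => ⟨⟨hx.1.1, ?_⟩, hx.1.2⟩).add_lc
          (LC.const _ t)).congr fun x hx => if_neg (not_le.2 hx.2)⟩
      exact (sub_le_self _ hε.le).trans (le_of_lt hx.2)
  · by_cases h : e.1 i ≤ μ
    · have h' : (gE p e).1 i ≤ μ := h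
      simp only [if_pos h, if_pos h', s1 e ⟨⟨he.1, h.trans (le_add_of_nonneg_right hε.le)⟩, he.2⟩]
    · have h' : ¬(gE p e).1 i ≤ μ := h
      simp only [if_neg h, if_neg h', add_zero,
        s2 e ⟨⟨he.1, (sub_le_self _ hε.le).trans (not_le.1 h).le⟩, he.2⟩]

end SUQB

section SGLUE2

open Set Filter Topology Metric
open scoped RealInnerProductSpace

theorem p_GLUE2 (hGUQ : S_GUQ) (hUQB : S_UQB) (hECONN : S_ECONN) :
    S_GLUE2 := by
  intro p _ F _ N f H n r Ψ A hΨ hA hc hne i μ ε hε ⟨c1, s1, F1⟩ ⟨c2, s2, F2⟩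
  classical
  let B := A ∩ {b | b i ≤ μ + ε} ∩ {b | μ - ε ≤ b i}
  have B1 : B ⊆ A ∩ {b | b i ≤ μ + ε} := inter_subset_left
  have B2 : B ⊆ A ∩ {b | μ - ε ≤ b i} := fun b hb => ⟨hb.1.1, hb.2⟩
  have cB : Convex ℝ B := (hc.inter (convex_halfSpace_le (LinearMap.proj i).isLinear _)).inter
    (convex_halfSpace_ge (LinearMap.proj i).isLinear _)
  have G1 := F1.mono B1
  have G2 := F2.mono B2
  obtain ⟨k, k1, k2⟩ := hUQB H Ψ B (c1 - c2) hΨ ((hA.inter_right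
    (isClosed_le (by fun_prop) (by fun_prop))).inter_right (isClosed_le (by fun_prop) (by fun_prop)))
    cB (fun b hb => hne b hb.1.1) (G1.1.1.sub G2.1.1) (G1.1.2.1.sub G2.1.2.1)
    fun b hb => hGUQ H r _ _ _ _ _ (G1.2 b hb) (G2.2 b hb)
  obtain ⟨t, ht⟩ : ∃ t, ∀ e ∈ EE f Ψ B, s1 e - s2 e - (k e : ZMod p) = t := by
    rcases (EE f Ψ B).eq_empty_or_nonempty with h | ⟨e₀, h⟩
    · exact ⟨0, by simp [h]⟩
    refine ⟨_, fun e he => hECONN H Ψ B (fun e => s1 e - s2 e - (k e : ZMod p)) hΨ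
      cB.isPreconnected (fun b hb => hne b hb.1.1) ?_ (fun e he => ?_) e he e₀ h⟩
    · exact (G1.1.2.2.1.sub G2.1.2.2.1).lc_sub (cz_sub p c1 c2 ▸ k1.cz p)
    · simp only [G1.1.2.2.2 e he, G2.1.2.2.2 e he, k2 e he]; simp
  let κ : (Fin n → ℝ) × S3 → ℤ := fun e => if μ < e.1 i then k e else 0
  let c : (Fin n → ℝ) × S3 → (Fin n → ℝ) × S3 → ℤ := fun a b =>
    if μ < a.1 i ∧ μ < b.1 i then c2 a b else
      if a.1 i ≤ μ + ε ∧ b.1 i ≤ μ + ε then c1 a b - (κ b - κ a) else 0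
  let s : (Fin n → ℝ) × S3 → ZMod p := fun e => if μ < e.1 i then s2 e + t else s1 e
  have m1 : ∀ e ∈ EE f Ψ A, e.1 i ≤ μ + ε → e ∈ EE f Ψ (A ∩ {b | b i ≤ μ + ε}) :=
    fun e he h => ⟨⟨he.1, h⟩, he.2⟩
  have m2 : ∀ e ∈ EE f Ψ A, μ < e.1 i → e ∈ EE f Ψ (A ∩ {b | μ - ε ≤ b i}) :=
    fun e he h => ⟨⟨he.1, show μ - ε ≤ e.1 i by linarith⟩, he.2⟩
  have mB : ∀ e ∈ EE f Ψ A, e.1 i ≤ μ + ε → μ - ε ≤ e.1 i → e ∈ EE f Ψ B :=
    fun e he h h' => ⟨⟨⟨he.1, h⟩, h'⟩, he.2⟩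
  have ci : Continuous fun e : (Fin n → ℝ) × S3 => e.1 i := by fun_prop
  have loc : ∀ x ∈ EE f Ψ A, ∃ m ∈ 𝓝[EE f Ψ A] x, IsC m c ∧ IsP m (cz p c) s := by
    intro x hx
    rcases lt_or_ge μ (x.1 i) with h | h
    · have e : ∀ a ∈ EE f Ψ A ∩ {e | μ < e.1 i}, ∀ b ∈ EE f Ψ A ∩ {e | μ < e.1 i},
          c a b = c2 a b := fun a ha b hb => if_pos ⟨ha.2, hb.2⟩
      have sub : EE f Ψ A ∩ {e | μ < e.1 i} ⊆ _ := fun e he => m2 e he.1 he.2
      exact ⟨_, inter_mem_nhdsWithin _ (ci.continuousAt.eventually (lt_mem_nhds h)),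
        (F2.1.1.mono sub).congr e,
        (((F2.1.2.2.1.mono sub).add_lc (LC.const _ t)).congr fun a ha => if_pos ha.2).congr_c
          fun a ha b hb => by simp only [cz, e a ha b hb]⟩
    let m := EE f Ψ A ∩ {e | e.1 i < μ + ε}
    have sub : m ⊆ _ := fun e he => m1 e he.1 (le_of_lt he.2)
    have hP : IsP m (c1 - c) κ := by
      intro y hy
      obtain ⟨u, hu, h1⟩ : ∃ u ∈ 𝓝[m] y, ∀ a ∈ u, ∀ b ∈ u, μ < a.1 i → μ < b.1 i →
          (c1 - c2) a b = k b - k a := by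
        rcases lt_or_ge (y.1 i) μ with h' | h'
        · exact ⟨_, nhdsWithin_le_nhds (ci.continuousAt.eventually (gt_mem_nhds h')),
            fun a ha _ _ h2 => absurd h2 (not_lt.2 (le_of_lt ha))⟩
        · obtain ⟨u, hu, h1⟩ := k1 y (mB y hy.1 (le_of_lt hy.2) (by linarith))
          refine ⟨u, nhdsWithin_le_of_mem ?_ hu, fun a ha b hb _ _ => h1 a ha b hb⟩
          filter_upwards [self_mem_nhdsWithin, nhdsWithin_le_nhds (ci.continuousAt.eventually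
            (lt_mem_nhds (show μ - ε < y.1 i by linarith)))] with e h2 h3
          exact mB e h2.1 (le_of_lt h2.2) h3.le
      refine ⟨u ∩ m, inter_mem hu self_mem_nhdsWithin, fun a ha b hb => ?_⟩
      by_cases h2 : μ < a.1 i ∧ μ < b.1 i
      · simpa only [Pi.sub_apply, c, κ, h2.1, h2.2, and_self, if_true] using
          h1 a ha.1 b hb.1 h2.1 h2.2
      · have h3 : a.1 i ≤ μ + ε ∧ b.1 i ≤ μ + ε := ⟨le_of_lt ha.2.2, le_of_lt hb.2.2⟩
        simp only [Pi.sub_apply, c, if_neg h2, if_pos h3, sub_sub_cancel]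
    refine ⟨m, inter_mem_nhdsWithin _ (ci.continuousAt.eventually
      (gt_mem_nhds (show x.1 i < μ + ε by linarith))), ?_, ?_⟩
    · simpa using (F1.1.1.mono sub).sub hP.isC
    · have := (F1.1.2.2.1.mono sub).sub (hP.cz p)
      rw [← cz_sub, sub_sub_cancel] at this
      refine this.congr fun a ha => ?_
      by_cases h2 : μ < a.1 i
      · simp only [s, κ, if_pos h2, Pi.sub_apply,
          ← ht a (mB a ha.1 (le_of_lt ha.2) (by linarith))]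
        ring
      · simp [s, κ, if_neg h2]
  have κi : ∀ a ∈ EE f Ψ A, a.1 i ≤ μ + ε → κ (gE p a) = κ a := fun a ha h => by
    by_cases h2 : μ < a.1 i
    · exact (if_pos h2).trans (((k2 a (mB a ha h (by linarith))).trans (add_zero _)).trans
        (if_pos h2).symm)
    · exact (if_neg h2).trans (if_neg h2).symm
  refine ⟨c, s, ⟨IsC.of_local fun x hx => (loc x hx).imp fun _ h => ⟨h.1, h.2.1⟩,
    fun a ha b hb => ?_, IsP.of_local fun x hx => (loc x hx).imp fun _ h => ⟨h.1, h.2.2⟩,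
    fun a ha => ?_⟩, fun b hb => ?_⟩
  · by_cases h : μ < a.1 i ∧ μ < b.1 i
    · exact (if_pos h).trans ((F2.1.2.1 a (m2 a ha h.1) b (m2 b hb h.2)).trans (if_pos h).symm)
    refine (if_neg h).trans (Eq.trans ?_ (if_neg h).symm)
    by_cases h' : a.1 i ≤ μ + ε ∧ b.1 i ≤ μ + ε
    · refine (if_pos h').trans (Eq.trans ?_ (if_pos h').symm)
      rw [F1.1.2.1 a (m1 a ha h'.1) b (m1 b hb h'.2), κi a ha h'.1, κi b hb h'.2]
    · exact (if_neg h').trans (if_neg h').symm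
  · by_cases h : μ < a.1 i
    · refine (if_pos h).trans ?_
      simp only [s, if_pos h, F2.1.2.2.2 a (m2 a ha h)]
      ring
    · refine (if_neg h).trans ?_
      simp only [s, if_neg h, F1.1.2.2.2 a (m1 a ha (by linarith))]
  · by_cases h : μ < b i
    · have e1 : fib c b = fib c2 b := by funext x y; simp [fib, c, h]
      have e2 : (fun x => s (b, x)) = fun x => s2 (b, x) + t := by funext x; simp [s, h]
      rw [e1, e2]
      exact (F2.2 b ⟨hb, show μ - ε ≤ b i by linarith⟩).add_const t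
    · have h' : b i ≤ μ + ε := by linarith
      have e1 : fib c b = fib c1 b := by funext x y; simp [fib, c, κ, h, h']
      have e2 : (fun x => s (b, x)) = fun x => s1 (b, x) := by funext x; simp [s, h]
      rw [e1, e2]
      exact F1.2 b ⟨hb, h'⟩

end SGLUE2

section SKC

open Set Filter Topology Metric
open scoped RealInnerProductSpace

theorem p_KC (hGRES : S_GRES) (hGUQ : S_GUQ) (hLIFTC : S_LIFTC) :
    S_KC := by
  intro p _ F _ N f H P _ r Ψ S c s hΨ hS hG b hb b' hb' m hm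
  have key : ∀ a', ¬Lf p (U f a') → ∀ x ∈ S, ∀ y ∈ S, U f a' ⊆ U f (Ψ x) → U f a' ⊆ U f (Ψ y) →
      Ord (gn p) (U f (Ψ x)) (c x) m → Ord (gn p) (U f (Ψ y)) (c y) m := by
    intro a' ha x hx y hy h1 h2 h
    obtain ⟨g1, -⟩ := hG x hx
    obtain ⟨g2, -⟩ := hG y hy
    exact ((hGRES H _ _ h2).1 g2.2.1 ha _ g2.1.1 g2.1.2.1 m).2
      ((((hGRES H _ _ h1).1 g1.2.1 ha _ g1.1.1 g1.1.2.1 m).1 h).congr
        (hGUQ H r _ _ _ _ _ ((hGRES H _ _ h1).2 r _ _ g1) ((hGRES H _ _ h2).2 r _ _ g2)))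
  have hl : LC S fun x => Ord (gn p) (U f (Ψ x)) (c x) m := by
    intro x hx
    obtain ⟨ε, hε, h1⟩ := (hLIFTC H).2.2 _ (hG x hx).2
    obtain ⟨R, hR, h2⟩ := exists_near H.cont hε
    have h3 : ∀ y, ‖Ψ y - Ψ x‖ < R → U f (up (Ψ x) (-ε)) ⊆ U f (Ψ y) := fun y hy =>
      (U_sub_Ucl _).trans (h2 _ _ hy).1
    have h4 := h3 x (by simpa using hR)
    have h5 : ∀ᶠ y in 𝓝 x, ‖Ψ y - Ψ x‖ < R :=
      (show Continuous fun y => ‖Ψ y - Ψ x‖ by fun_prop).continuousAt.eventually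
        (gt_mem_nhds (by simpa using hR))
    filter_upwards [nhdsWithin_le_nhds h5, self_mem_nhdsWithin] with y hy hyS
    exact propext ⟨key _ h1 y hyS x hx (h3 y hy) h4, key _ h1 x hx y hyS h4 (h3 y hy)⟩
  exact (hl.eq_of_preconn hS hb hb').mp hm

end SKC

end Pool.Agent.P.MP_c88051_gt.Im
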