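import Pool.Agent.P.MP_c88051_gt.Im.IfaceA
import Pool.Agent.P.MP_56563a_an.BU

/-! Steps CIRC, ODD, LA1, LA3A, MEET, LA3, LINE, PL2, G12. -/

set_option autoImplicit false
set_option linter.unusedSectionVars false

namespace Pool.Agent.P.MP_c88051_gt.Im

section SCIRC

open Set Filter Topology Metric
open scoped RealInnerProductSpace

theorem p_CIRC :
    S_CIRC := by
  classical
  intro Y _ E c hc
  choose n hn hco using fun x : E => hc x x.2
  have hU : ∀ x : E, (Subtype.val ⁻¹' n x : Set E) ∈ 𝓝 x := fun x => by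
    have := hn x
    rwa [← map_nhds_subtype_val] at this
  obtain ⟨f, hf⟩ := PartitionOfUnity.exists_isSubordinate isClosed_univ
    (fun x : E => interior (Subtype.val ⁻¹' n x : Set E)) (fun x => isOpen_interior)
    fun x _ => mem_iUnion.2 ⟨x, mem_interior_iff_mem_nhds.2 (hU x)⟩
  refine ⟨fun y => if h : y ∈ E then ∑ᶠ i, f i ⟨y, h⟩ • (c i y : ℝ) else 0, fun x hx => ?_⟩
  rw [continuousWithinAt_iff_continuousAt_domRestrict _ hx]
  have h1 : Continuous fun y : E => ∑ᶠ i, f i y • (c i x : ℝ) :=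
    f.continuous_finsum_smul fun i _ _ => continuousAt_const
  refine h1.continuousAt.congr ?_
  obtain ⟨s, m, hm, hs, hz⟩ := f.exists_finset_nhds_support_subset hf
    (fun _ => isOpen_interior) ⟨x, hx⟩
  filter_upwards [hm] with z hzm
  have e : ∀ g : E → ℝ, ∑ᶠ i, f i z • g i = ∑ i ∈ s, f i z * g i := fun g =>
    finsum_eq_sum_of_support_subset _ fun i hi => hz z hzm fun h => hi (by simp [h])
  have e1 : ∑ i ∈ s, f i z = 1 := by
    rw [← f.sum_eq_one (mem_univ z)]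
    exact (finsum_eq_sum_of_support_subset _ (hz z hzm)).symm
  have e2 : ∀ i ∈ s, (c i z : ℝ) = c i x + c x z := fun i hi => by
    have a1 := interior_subset (mem_iInter₂.1 (hs hzm) i hi)
    have a2 := interior_subset (mem_iInter₂.1 (hs (mem_of_mem_nhds hm)) i hi)
    exact_mod_cast (hco i i (mem_of_mem_nhdsWithin i.2 (hn i)) x a2 z a1).symm
  simp only [domRestrict_apply, z.2, dif_pos, Subtype.coe_eta]
  have e3 : ∑ i ∈ s, f i z * (c i z : ℝ) = ∑ i ∈ s, (f i z * c i x + f i z * c x z) :=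
    Finset.sum_congr rfl fun i hi => by rw [e2 i hi, mul_add]
  rw [e, e, e3, Finset.sum_add_distrib, ← Finset.sum_mul, e1]
  ring

end SCIRC

section SODD

open Set Filter Topology Metric
open scoped RealInnerProductSpace

theorem p_ODD (hBA : S_BA) :
    S_ODD := by
  intro p _ F _ N f H a c c' k hl hu hc hi ho hc' hk hp
  obtain ⟨κ, dg, -, hadd, hsm, -, hpot, hinv⟩ := hBA H a hl hu
  obtain ⟨j, hj, hI, -⟩ := hinv c hc hi
  have h0 : dg (c - (p : ℤ) • c') = 0 := by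
    have := (hpot _ 0 hk.isC).1 ⟨_, hk.cz 0⟩
    simpa using this
  have h1 := hadd _ _ hk.isC (hc'.zsmul p)
  rw [sub_add_cancel, h0, zero_add, hsm _ _ hc', hj] at h1
  have h2 : j = dg c' := mul_left_cancel₀ (by exact_mod_cast NeZero.ne p) h1
  have h3 := (ho 2).1 ((hI 2).2 (h2 ▸ (hpot _ 2 hc').1 hp))
  omega

end SODD

section SLA1

open Set Filter Topology Metric
open scoped RealInnerProductSpace

lemma la1_in {N : ℕ} {a b : EV N × ℝ} {u w : EV N} {δ R : ℝ} (hu : ⟪a.1, u⟫ = a.2)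
    (hb : b ∈ Cone (-a) u δ R) (hw : ⟪a.1, w⟫ ≤ a.2) (hd : ‖w - u‖ < δ) :
    ⟪(-b).1, w⟫ < (-b).2 := by
  have h1 := hb.2
  have h2 : |⟪(b - -a).1, w - u⟫| ≤ ‖b - -a‖ * δ := (abs_real_inner_le_norm _ _).trans
    (mul_le_mul (norm_fst_le _) hd.le (norm_nonneg _) (norm_nonneg _))
  have h3 := (abs_le.1 h2).1
  simp only [Prod.fst_sub, Prod.fst_neg, Prod.snd_neg, inner_sub_left, inner_sub_right,
    inner_neg_left] at h3 ⊢
  linarith

theorem p_LA1 :
    S_LA1 := by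
  intro p _ F _ N f H a s s1 s2 x hx δ hδ
  obtain ⟨m, hmn, hc, y₂, h₂, y₁, h₁, hne⟩ := hx.2 {y | ‖f y - f x‖ < δ}
    ((isOpen_lt (by have := H.cont; fun_prop) continuous_const).mem_nhds (by simpa using hδ))
  have k₁ := mem_U.1 h₁.2
  have k₂ := mem_U.1 h₂.2
  obtain ⟨e, he, e₁, e₂⟩ : ∃ e > (0 : ℝ), y₁ ∈ U f (up a (-e)) ∧ y₂ ∈ U f (up a (-e)) := by
    refine ⟨min (a.2 - ⟪a.1, f y₁⟫) (a.2 - ⟪a.1, f y₂⟫) / 2,
      half_pos (lt_min (by linarith) (by linarith)), ?_, ?_⟩ <;> rw [mem_U_up]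
    · linarith [min_le_left (a.2 - ⟪a.1, f y₁⟫) (a.2 - ⟪a.1, f y₂⟫)]
    · linarith [min_le_right (a.2 - ⟪a.1, f y₁⟫) (a.2 - ⟪a.1, f y₂⟫)]
  obtain ⟨R, hR, hnear⟩ := exists_near H.cont he
  refine ⟨R, hR, fun b hb ⟨t, t1, t2⟩ => hne ?_⟩
  have q1 : U f (up a (-e)) ⊆ U f (-b) := (U_sub_Ucl _).trans (hnear a (-b) (by
    rw [← norm_neg, neg_sub', neg_neg]; exact hb.1)).1
  have q2 : U f (up a (-e)) ⊆ U f a := by simpa using U_up_mono (f := f) a (neg_nonpos.2 he.le)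
  have q3 : m ⊆ U f (-b) := fun y hy => la1_in hx.1 hb (hmn hy).2 (hmn hy).1
  have q4 : t y₂ = t y₁ := (t1.mono q3).eq_of_preconn hc h₂.1 h₁.1
  have q5 : s y₂ - t y₂ = s y₁ - t y₁ :=
    H.const ((s1.mono q2).map₂ (t1.mono q1) fun u v => u - v) (fun z hz => by
      simp only [s2 z (q2 hz), t2 z (q1 hz)]
      ring) e₂ e₁
  rwa [q4, sub_left_inj] at q5

end SLA1

section SLA3A

open Set Filter Topology Metric
open scoped RealInnerProductSpace

theorem p_LA3A (hCVX : S_CVX) :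
    S_LA3A := by
  classical
  intro p _ F _ N f H K ⟨cK, mK, hD⟩ hi
  obtain ⟨sec, hsec⟩ := exists_sec p
  obtain ⟨d, d0, hd⟩ := exists_gap p
  obtain ⟨z₀⟩ : Nonempty S3 := inferInstance
  obtain ⟨X, hX⟩ : ∃ X : EV N → S3, ∀ x ∈ K, X (f x) = sh (-sec x) x := by
    refine ⟨fun y => if h : ∃ x ∈ K, f x = y then sh (-sec h.choose) h.choose else z₀,
      fun x hx => ?_⟩
    have e : ∃ x' ∈ K, f x' = f x := ⟨x, hx, rfl⟩
    obtain ⟨k, hk⟩ := hi _ e.choose_spec.1 _ hx e.choose_spec.2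
    simp only [dif_pos e]
    generalize e.choose = x' at hk
    rw [hk, hsec, sh_sh]
    congr 1
    ring
  have near : ∀ y₀ ∈ f '' K, ∀ ρ > (0 : ℝ), ∀ᶠ y in 𝓝[f '' K] y₀,
      ∃ k : ZMod p, dist (sh k (X y)) (X y₀) < ρ := by
    rintro _ ⟨x₀, h₀, rfl⟩ ρ hρ
    obtain ⟨η, η0, hη⟩ := near_orb (p := p) H.cont cK (y := f x₀) (z := X (f x₀))
      (fun x hK hx => hi _ (by rw [hX x₀ h₀]; exact mapsTo_sh mK _ h₀) _ hK
        (by rw [hX x₀ h₀, H.f_sh, hx])) hρ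
    filter_upwards [self_mem_nhdsWithin, nhdsWithin_le_nhds (ball_mem_nhds _ η0)] with y hy hb
    obtain ⟨x, hx, rfl⟩ := hy
    obtain ⟨k, hk⟩ := mem_iUnion.1 (hη (X (f x)) (by rw [hX x hx]; exact mapsTo_sh mK _ hx) (by
      rw [hX x hx, H.f_sh]; exact mem_ball_iff_norm.1 hb))
    refine ⟨-k, ?_⟩
    rwa [← dist_sh k, sh_sh, add_neg_cancel, sh_zero]
  obtain ⟨u, hu⟩ : ∃ u : EV N → EV N → ZMod p, ∀ y y' (k : ZMod p),
      dist (sh k (X y')) (X y) < d / 2 → u y y' = k := by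
    refine ⟨fun y y' => if h : ∃ k : ZMod p, dist (sh k (X y')) (X y) < d / 2 then h.choose
      else 0, fun y y' k hk => ?_⟩
    have e : ∃ k : ZMod p, dist (sh k (X y')) (X y) < d / 2 := ⟨k, hk⟩
    simp only [dif_pos e]
    exact ball_eq (z := X y') (y := X y) (ρ := d / 2) (fun k hk => by linarith [hd k hk (X y')])
      (mem_ball'.2 e.choose_spec) (mem_ball'.2 hk)
  refine ⟨?_, fun h h1 h2 => ?_⟩
  · obtain ⟨h, hh⟩ := hCVX (f '' K) u hD fun y₀ h₀ => by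
      refine ⟨_, near y₀ h₀ (d / 4) (by positivity), ?_⟩
      have key : ∀ {a b : EV N} {k l : ZMod p}, dist (sh k (X a)) (X y₀) < d / 4 →
          dist (sh l (X b)) (X y₀) < d / 4 → u a b = l - k := fun {a b k l} ha hb => by
        refine hu _ _ _ ?_
        rw [← dist_sh k, sh_sh, add_sub_cancel]
        linarith [dist_triangle_right (sh l (X b)) (sh k (X a)) (X y₀)]
      rintro a ⟨k, ha⟩ b ⟨l, hb⟩ c ⟨m, hc⟩
      rw [key ha hb, key hb hc, key ha hc]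
      ring
    refine ⟨fun x => sec x - h (f x), fun x₀ h₀ => ?_, fun x _ => ?_⟩
    · obtain ⟨n, hn, hc⟩ := hh _ (mem_image_of_mem f h₀)
      have h1 : f ⁻¹' n ∈ 𝓝[K] x₀ :=
        (H.cont.continuousWithinAt.tendsto_nhdsWithin (mapsTo_image f K)) hn
      filter_upwards [h1, self_mem_nhdsWithin,
        nhdsWithin_le_nhds (ball_mem_nhds x₀ (half_pos d0))] with x hx hK hb
      have h2 := hc _ (mem_of_mem_nhdsWithin (mem_image_of_mem f h₀) hn) _ hx
      rw [hu _ _ (sec x - sec x₀) (by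
        rw [hX x hK, hX x₀ h₀, sh_sh, show sec x - sec x₀ + -sec x = -sec x₀ by ring, dist_sh]
        exact hb)] at h2
      linear_combination h2
    · have : sec (gn p x) = sec x + 1 := hsec 1 x
      simp only [H.inv, this]
      ring
  · have e : ∀ x ∈ K, h (X (f x)) = h x := fun x hx => by rw [hX x hx, inv_sh mK h2 _ hx]
    have mX : ∀ y ∈ f '' K, X y ∈ K := by
      rintro _ ⟨x, hx, rfl⟩
      rw [hX x hx]
      exact mapsTo_sh mK _ hx
    have h3 : LC (f '' K) fun y => h (X y) := fun y₀ h₀ => by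
      obtain ⟨ρ, ρ0, hρ⟩ := Metric.mem_nhdsWithin_iff.1 (h1 _ (mX y₀ h₀))
      filter_upwards [near y₀ h₀ ρ ρ0, self_mem_nhdsWithin] with y ⟨k, hk⟩ hy
      rw [← inv_sh mK h2 k (mX y hy)]
      exact hρ ⟨hk, mapsTo_sh mK k (mX y hy)⟩
    intro x hx y hy
    rw [← e x hx, ← e y hy]
    exact h3.eq_of_preconn hD.isPreconnected (mem_image_of_mem f hx) (mem_image_of_mem f hy)

end SLA3A

section SMEET

open Set Filter Topology Metric
open scoped RealInnerProductSpace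

theorem p_MEET :
    S_MEET := by
  intro p _ F _ N f H K K' c i c' i' ⟨x₀, h₀⟩
  obtain ⟨ρ, hρ, hs⟩ := H.sep
  have hl : LC (f '' K ∩ f '' K') fun y => y ∈ f '' (K ∩ K') := by
    intro y _
    by_cases h : y ∈ f '' (K ∩ K')
    · obtain ⟨z, hz, rfl⟩ := h
      obtain ⟨η, e1, e2⟩ := near_orb H.cont c.1 (fun x hx e => i z hz.1 x hx e.symm) (half_pos hρ)
      obtain ⟨η', e1', e2'⟩ :=
        near_orb H.cont c'.1 (fun x hx e => i' z hz.2 x hx e.symm) (half_pos hρ)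
      filter_upwards [self_mem_nhdsWithin, nhdsWithin_le_nhds (ball_mem_nhds _ (lt_min e1 e1'))]
      rintro _ ⟨⟨x, hx, rfl⟩, x', hx', e⟩ hb
      rw [mem_ball_iff_norm, lt_min_iff] at hb
      obtain ⟨k, hk⟩ := mem_iUnion.1 (e2 x hx hb.1)
      obtain ⟨l, hl⟩ := mem_iUnion.1 (e2' x' hx' (e ▸ hb.2))
      have h1 : sh (k - l) x' ∈ ball (sh k z) (ρ / 2) := sh_mem_ball.2 (by simpa using hl)
      have h2 : x = sh (k - l) x' := hs _ _ (by rw [H.f_sh, e])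
        (by linarith [dist_triangle_right x (sh (k - l) x') (sh k z), mem_ball.1 hk, mem_ball.1 h1])
      exact propext ⟨fun _ => mem_image_of_mem _ hz,
        fun _ => mem_image_of_mem _ ⟨hx, h2 ▸ mapsTo_sh c'.2.1 _ hx'⟩⟩
    · filter_upwards [nhdsWithin_le_nhds
        (((c.1.inter c'.1).isCompact.image H.cont).isClosed.isOpen_compl.mem_nhds h)] with w hw
      exact propext ⟨fun k => (hw k).elim, fun k => (h k).elim⟩
  have key : ∀ x ∈ K, ∀ y ∈ K', f x = f y → ∃ z ∈ K ∩ K', f z = f x := fun x hx y hy e =>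
    (hl.eq_of_preconn (c.2.2.inter c'.2.2).isPreconnected
      ⟨mem_image_of_mem _ h₀.1, mem_image_of_mem _ h₀.2⟩ ⟨mem_image_of_mem _ hx, y, hy, e.symm⟩).mp
      (mem_image_of_mem _ h₀)
  rintro x (hx | hx) y (hy | hy) e
  · exact i x hx y hy e
  · obtain ⟨z, hz, e'⟩ := key x hx y hy e
    obtain ⟨k, rfl⟩ := i x hx z hz.1 e'.symm
    obtain ⟨l, rfl⟩ := i' _ hz.2 y hy (e'.trans e)
    exact ⟨l + k, sh_sh _ _ _⟩
  · obtain ⟨z, hz, e'⟩ := key y hy x hx e.symm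
    obtain ⟨k, rfl⟩ := i' x hx z hz.2 (e.trans e'.symm)
    obtain ⟨l, rfl⟩ := i _ hz.1 y hy e'
    exact ⟨l + k, sh_sh _ _ _⟩
  · exact i' x hx y hy e

end SMEET

section SLA3

open Set Filter Topology Metric
open scoped RealInnerProductSpace

theorem p_LA3 (hLA3A : S_LA3A) (hMEET : S_MEET) :
    S_LA3 := by
  intro p _ F _ N f H K K' c i c' i'
  obtain ⟨s, s1, s2⟩ := (hLA3A H K c i).1
  obtain ⟨t, t1, t2⟩ := (hLA3A H K' c' i').1
  rcases (K ∩ K').eq_empty_or_nonempty with h0 | ⟨x₀, h0⟩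
  · exact lf_union c.1 c'.1 c.2.1 s1 s2 t1 t2 (d := 0) (by simp [h0])
  have e : f '' (K ∩ K') = f '' K ∩ f '' K' := by
    refine (image_inter_subset _ _ _).antisymm ?_
    rintro _ ⟨⟨x, hx, rfl⟩, y, hy, e⟩
    obtain ⟨k, rfl⟩ := hMEET H K K' c i c' i' ⟨x₀, h0⟩ y (.inr hy) x (.inl hx) e
    exact ⟨_, ⟨hx, mapsTo_sh c'.2.1 k hy⟩, rfl⟩
  have h := (hLA3A H (K ∩ K') ⟨c.1.inter c'.1, c.2.1.inter_inter c'.2.1, e ▸ c.2.2.inter c'.2.2⟩
    fun x hx y hy => i x hx.1 y hy.1).2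
    (fun x => s x - t x) ((s1.mono inter_subset_left).map₂ (t1.mono inter_subset_right) (· - ·))
    fun x hx => by rw [s2 x hx.1, t2 x hx.2]; ring
  exact lf_union c.1 c'.1 c.2.1 s1 s2 t1 t2 (d := s x₀ - t x₀) fun x hx => by
    rw [← h x hx x₀ h0]; ring

end SLA3

section SLINE

open Set Filter Topology Metric
open scoped RealInnerProductSpace

lemma line_step {p : ℕ} [NeZero p] {K : Set S3} {φ : S3 → ℝ} {ρ : ℝ} (hK : IsClosed K)
    (mK : MapsTo (gn p) K K) (hφ : Continuous φ) (hi : ∀ x, φ (gn p x) = φ x) (hρ : 0 < ρ)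
    (hf : ∀ x ∈ K, ∀ y ∈ K, φ x = φ y → dist x y < ρ → x = y) (t : ℝ) :
    ∃ η > (0 : ℝ), ∀ a ∈ ball t η, ∀ b ∈ ball t η,
      Lf p (K ∩ φ ⁻¹' Iic a) → Lf p (K ∩ φ ⁻¹' Iic b) := by
  classical
  have m : ∀ I : Set ℝ, MapsTo (gn p) (K ∩ φ ⁻¹' I) (K ∩ φ ⁻¹' I) := fun I x hx =>
    ⟨mK hx.1, by rw [mem_preimage, hi]; exact hx.2⟩
  obtain ⟨π, p1, p2, p3⟩ := exists_pi (p := p) (Φ := K ∩ φ ⁻¹' {t}) (ρ := ρ / 2)
    (fun x hx y hy e => hf x hx.1 y hy.1 (hx.2.trans hy.2.symm) (by linarith)) (m _)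
  have oV : IsOpen {x | ∃ z ∈ K ∩ φ ⁻¹' {t}, dist x z < ρ / 2} := isOpen_iff_mem_nhds.2
    fun x ⟨z, hz, hd⟩ => mem_of_superset (isOpen_ball.mem_nhds (mem_ball.2 hd)) fun y hy => ⟨z, hz, hy⟩
  have hc := ((hK.inter oV.isClosed_compl).isCompact.image hφ).isClosed
  obtain ⟨η, a1, a2⟩ := Metric.isOpen_iff.1 hc.isOpen_compl t
    fun ⟨x, hx, e⟩ => hx.2 ⟨x, ⟨hx.1, e⟩, by simpa using hρ⟩
  refine ⟨η, a1, fun a ha b hb ⟨s, s1, s2⟩ => ?_⟩
  have hV : ∀ x ∈ K ∩ φ ⁻¹' Icc a b, ∃ z ∈ K ∩ φ ⁻¹' {t}, dist x z < ρ / 2 := fun x hx =>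
    by_contra fun hn => a2 ((convex_ball t η).ordConnected.out ha hb hx.2) ⟨x, ⟨hx.1, hn⟩, rfl⟩
  obtain ⟨sec, hsec⟩ := exists_sec p
  let P : S3 → S3 → Prop := fun z w => w ∈ K ∧ φ w = a ∧ dist w z < ρ / 2
  let u : S3 → ZMod p := fun z => if h : ∃ w, P z w then s h.choose else sec z
  have u1 : ∀ z w, P z w → u z = s w := fun z w hw => by
    have e : ∃ w, P z w := ⟨w, hw⟩
    simp only [u, dif_pos e]
    rw [hf _ e.choose_spec.1 w hw.1 (e.choose_spec.2.1.trans hw.2.1.symm)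
      (by linarith [dist_triangle_right e.choose w z, e.choose_spec.2.2, hw.2.2])]
  have u2 : ∀ z, u (gn p z) = u z + 1 := fun z => by
    by_cases e : ∃ w, P z w
    · obtain ⟨w, hw⟩ := e
      rw [u1 z w hw, u1 _ (gn p w) ⟨mK hw.1, (hi w).trans hw.2.1, by rw [dist_gn]; exact hw.2.2⟩,
        s2 w ⟨hw.1, hw.2.1.le⟩]
    · have e' : ¬∃ w, P (gn p z) w := fun ⟨w, hw⟩ => e ⟨sh (-1 : ZMod p) w, mapsTo_sh mK _ hw.1,
        (inv_sh (mapsTo_univ _ _) (fun x _ => hi x) _ (mem_univ w)).trans hw.2.1, by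
          rw [← dist_gn (p := p), gn, sh_sh_neg]; exact hw.2.2⟩
      simp only [u, dif_neg e, dif_neg e']
      exact hsec 1 z
  refine LiftTo.mono (lf_union (hK.inter (isClosed_Iic.preimage hφ))
    (hK.inter (isClosed_Icc.preimage hφ)) (m _) s1 s2 (t := fun x => u (π x)) ((p2.mono hV).map u)
    (fun x hx => (congrArg u (p3 1 x (hV x hx))).trans (u2 _)) (d := 0) fun x hx => ?_) fun x hx => ?_
  · obtain ⟨z, hz, hd⟩ := hV x hx.2
    rw [add_zero, p1 x z hz hd, u1 z x ⟨hx.1.1, le_antisymm hx.1.2 hx.2.2.1, hd⟩]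
  · rcases le_total (φ x) a with h | h
    exacts [Or.inl ⟨hx.1, h⟩, Or.inr ⟨hx.1, h, hx.2⟩]

theorem p_LINE :
    S_LINE := by
  intro p _ K φ ρ hK mK hφ hi hρ hf
  have lc : IsLocallyConstant fun t : ℝ => Lf p (K ∩ φ ⁻¹' Iic t) := by
    rw [IsLocallyConstant.iff_eventually_eq]
    intro t
    obtain ⟨η, h1, key⟩ := line_step hK mK hφ hi hρ hf t
    filter_upwards [ball_mem_nhds t h1] with a ha
    exact propext ⟨key a ha t (mem_ball_self h1), key t (mem_ball_self h1) a ha⟩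
  obtain ⟨M, hM⟩ := isCompact_univ.exists_bound_of_continuousOn hφ.continuousOn
  have e := lc.apply_eq_of_preconnectedSpace (-M - 1) M
  have h0 : Lf p (K ∩ φ ⁻¹' Iic (-M - 1)) := LiftTo.mono (liftTo_empty _ _) fun x hx => by
    have a1 := (abs_le.1 (hM x (mem_univ x))).1
    have a2 : φ x ≤ -M - 1 := hx.2
    linarith
  exact LiftTo.mono (e ▸ h0 : Lf p (K ∩ φ ⁻¹' Iic M)) fun x hx =>
    ⟨hx, (abs_le.1 (hM x (mem_univ x))).2⟩

end SLINE

section SPL2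

open Set Filter Topology Metric
open scoped RealInnerProductSpace

lemma pl2_alt {p : ℕ} [NeZero p] {K : Set S3} {u : S3 → ℝ} (hu : Continuous u)
    (hi : ∀ x, u (gn p x) = u x) (h : ∀ n : ℤ, Lf p (K ∩ {x | n ≤ u x ∧ u x ≤ n + 1})) (e : ℤ) :
    Lf p (K ∩ {x | ∃ m : ℤ, (2 * m + e : ℤ) ≤ u x ∧ u x ≤ (2 * m + e : ℤ) + 1}) := by
  choose s h1 h2 using h
  have key : ∀ (m : ℤ) x, (2 * m + e : ℤ) ≤ u x ∧ u x ≤ (2 * m + e : ℤ) + 1 →
      ⌊(u x - e) / 2⌋ = m := fun m x hx => by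
    push_cast at hx
    rw [Int.floor_eq_iff]
    constructor <;> linarith [hx.1, hx.2]
  refine ⟨fun x => s (2 * ⌊(u x - e) / 2⌋ + e) x, LC.of_local fun x ⟨_, m, hm⟩ =>
    ⟨_, ?_, (h1 (2 * m + e)).congr fun y hy => by rw [key m y hy.2]⟩, fun x ⟨hx, m, hm⟩ => ?_⟩
  · have : ∀ᶠ y in 𝓝 x, dist (u y) (u x) < 1 := hu.continuousAt (ball_mem_nhds _ one_pos)
    filter_upwards [self_mem_nhdsWithin, nhdsWithin_le_nhds this] with y ⟨hy, m', hm'⟩ hd
    rw [Real.dist_eq, abs_lt] at hd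
    have a1 : (m' : ℝ) < (m + 1 : ℤ) := by push_cast at *; linarith [hm.2, hm'.1, hd.2]
    have a2 : (m : ℝ) < (m' + 1 : ℤ) := by push_cast at *; linarith [hm.1, hm'.2, hd.1]
    obtain rfl : m' = m := by
      have := Int.cast_lt.1 a1
      have := Int.cast_lt.1 a2
      omega
    exact ⟨hy, hm'⟩
  · simp only [hi, key m x hm]
    exact h2 _ x ⟨hx, hm⟩

theorem p_PL2 (hLINE : S_LINE) (hNBHD : S_NBHD) :
    S_PL2 := by
  intro p _ F _ N f H K hK hm hd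
  obtain ⟨π, hπ⟩ := exists_proj _ hd
  obtain ⟨ρ, ρ0, hρ⟩ := H.sep
  have hc : ∀ i, Continuous fun x => π (f x) i := fun i =>
    (continuous_apply i).comp (π.continuous.comp H.cont)
  have h1 : ∀ c : ℝ, ∃ η > (0 : ℝ), Lf p (K ∩ {x | π (f x) 0 ∈ ball c η}) := fun c => by
    have hm' : MapsTo (gn p) (K ∩ {x | π (f x) 0 = c}) (K ∩ {x | π (f x) 0 = c}) :=
      fun x hx => ⟨hm hx.1, by simpa only [mem_ofPred_eq, H.inv] using hx.2⟩
    obtain ⟨O, o1, -, o3, o4⟩ := hNBHD _ hm' (hLINE _ (fun x => π (f x) 1) ρ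
      (hK.inter (isClosed_eq (hc 0) continuous_const)) hm' (hc 1) (fun x => by rw [H.inv]) ρ0
      fun x hx y hy e => hρ x y (sub_eq_zero.1 (hπ _ (sub_mem_Dir hx.1 hy.1) (by
        rw [map_sub, sub_eq_zero]
        exact funext (Fin.forall_fin_two.2 ⟨hx.2.trans hy.2.symm, e⟩)))))
    have hcl := ((hK.inter o1.isClosed_compl).isCompact.image (hc 0)).isClosed
    obtain ⟨η, e1, e2⟩ := Metric.isOpen_iff.1 hcl.isOpen_compl c
      fun ⟨x, hx, e⟩ => hx.2 (o3 ⟨hx.1, e⟩)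
    exact ⟨η, e1, o4.mono fun x hx => by_contra fun hn => e2 hx.2 ⟨x, ⟨hx.1, hn⟩, rfl⟩⟩
  choose η η0 hη using h1
  obtain ⟨δ, δ0, hδ⟩ := lebesgue_number_lemma_of_metric (isCompact_range (hc 0))
    (c := fun c => ball c (η c)) (fun _ => isOpen_ball)
    fun c _ => mem_iUnion.2 ⟨c, mem_ball_self (η0 c)⟩
  have hu : Continuous fun x => π (f x) 0 / (δ / 2) := (hc 0).div_const _
  have h2 := pl2_alt (p := p) (K := K) hu (fun x => by rw [H.inv]) fun n => by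
    rcases (K ∩ {x | n ≤ π (f x) 0 / (δ / 2) ∧ π (f x) 0 / (δ / 2) ≤ n + 1}).eq_empty_or_nonempty
      with e | ⟨x, hx⟩
    · rw [e]; exact lf_empty
    · obtain ⟨c, hc⟩ := hδ _ ⟨x, rfl⟩
      refine (hη c).mono fun y hy => ⟨hy.1, hc ?_⟩
      obtain ⟨-, a1, a2⟩ := hx
      obtain ⟨-, a3, a4⟩ := hy
      rw [le_div_iff₀ (half_pos δ0)] at a1 a3
      rw [div_le_iff₀ (half_pos δ0)] at a2 a4
      rw [mem_ball, Real.dist_eq, abs_lt]
      constructor <;> linarith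
  have h3 := fun e : ℤ => hNBHD _ (fun x hx => mem_inter (hm hx.1) (by
    simpa only [mem_ofPred_eq, H.inv] using hx.2)) (h2 e)
  obtain ⟨O₁, a1, a2, a3, a4⟩ := h3 0
  obtain ⟨O₂, b1, b2, b3, b4⟩ := h3 1
  refine ⟨O₁, O₂, a1, b1, a2, b2, a4, b4, fun x hx => ?_⟩
  have e1 := Int.floor_le (π (f x) 0 / (δ / 2))
  have e2 := (Int.lt_floor_add_one (π (f x) 0 / (δ / 2))).le
  obtain ⟨m, e | e⟩ := Int.even_or_odd' ⌊π (f x) 0 / (δ / 2)⌋
  · exact Or.inl (a3 ⟨hx, m, by rw [add_zero, ← e]; exact ⟨e1, e2⟩⟩)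
  · exact Or.inr (b3 ⟨hx, m, by rw [← e]; exact ⟨e1, e2⟩⟩)

end SPL2

section SG12

open Set Filter Topology Metric
open scoped RealInnerProductSpace

lemma g12_chart (hCHART : S_CHART) {p : ℕ} [NeZero p] {F : Type} [Field F] {N : ℕ}
    {f : S3 → EV N} (H : Sys f p F) (z : S3) {ρ : ℝ} (hρ : 0 < ρ) :
    ∃ Φ : (Fin 3 → ℝ) → S3, Continuous Φ ∧ Φ 0 = z ∧ (∀ u, ‖u‖ ≤ 1 → Φ u ∈ ball z ρ) ∧
      ∀ u v, ‖u‖ ≤ 1 → ‖v‖ ≤ 1 → f (Φ u) = f (Φ v) → u = v := by
  have := H.nontriv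
  obtain ⟨d, hd, hg⟩ := H.sep
  obtain ⟨ι, h1, h2, -⟩ := hCHART (sh (1 : ZMod p) z)
  obtain ⟨y₀, rfl⟩ : z ∈ range ι := by
    rw [h2]
    intro e
    exact one_ne_zero (sh_inj (l := (0 : ZMod p)) (by rw [sh_zero]; exact e.symm))
  obtain ⟨η, hη, hb⟩ := nhds_basis_closedBall.mem_iff.1
    (h1.continuous.continuousAt (x := y₀) (ball_mem_nhds _ (lt_min hρ (half_pos hd))))
  have hm : ∀ u : Fin 3 → ℝ, ‖u‖ ≤ 1 → dist (ι (y₀ + η • u)) (ι y₀) < min ρ (d / 2) :=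
    fun u hu => hb (by
      rw [mem_closedBall, dist_self_add_left, norm_smul, Real.norm_of_nonneg hη.le]
      exact mul_le_of_le_one_right hη.le hu)
  refine ⟨fun u => ι (y₀ + η • u), h1.continuous.comp (by fun_prop), by simp,
    fun u hu => (hm u hu).trans_le (min_le_left _ _), fun u v hu hv e => ?_⟩
  have hk := (hg _ _ e (by
    have a2 := dist_triangle_right (ι (y₀ + η • u)) (ι (y₀ + η • v)) (ι y₀)
    linarith [(hm u hu).trans_le (min_le_right _ _), (hm v hv).trans_le (min_le_right _ _)])).symm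
  exact (smul_right_injective _ hη.ne' (add_left_cancel (h1.injective hk))).symm

lemma g12_ne {u : Fin 3 → ℝ} {a b : ℝ} (hu : ‖u‖ = 1) (hab : a + b = 1) : a • u ≠ -(b • u) :=
  fun e => by
  rw [eq_neg_iff_add_eq_zero, ← add_smul, hab, one_smul] at e
  simp [e] at hu

/-- An injective map of the ball has no extremal coordinate at the centre. -/
lemma g12_max {G : (Fin 3 → ℝ) → Fin 3 → ℝ} (hc : Continuous G)
    (hi : ∀ u v, ‖u‖ ≤ 1 → ‖v‖ ≤ 1 → G u = G v → u = v) (hm : ∀ u, G u 0 ≤ G 0 0) : False := by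
  let r : (Option (Fin 3) → ℝ) → Fin 3 → ℝ := fun x i => x (some i)
  let g : (Option (Fin 3) → ℝ) → Fin 3 → ℝ := fun x =>
    G (((1 + x none) / 2) • r x) - G (-(((1 - x none) / 2) • r x)) -
      fun _ => x none * (1 - ‖r x‖)
  have rn : ∀ x, r (-x) = -r x := fun _ => rfl
  have go : ∀ x, g (-x) = -g x := fun x => by
    funext i
    simp only [g, rn, Pi.neg_apply, Pi.sub_apply, norm_neg, smul_neg, neg_neg, sub_neg_eq_add,
      ← sub_eq_add_neg]
    ring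
  have key : ∀ x : Option (Fin 3) → ℝ, ‖x‖ = 1 → 0 ≤ x none → g x ≠ 0 := fun x hx h0 e => by
    have h1 : x none ≤ 1 := (le_abs_self _).trans ((norm_le_pi_norm x none).trans hx.le)
    have h2 : ‖r x‖ ≤ 1 := (pi_norm_le_iff_of_nonneg zero_le_one).2 fun i =>
      (norm_le_pi_norm x (some i)).trans hx.le
    have h3 : ∀ a : ℝ, 0 ≤ a → a ≤ 1 → ‖a • r x‖ ≤ 1 := fun a a0 a1 => by
      rw [norm_smul, Real.norm_of_nonneg a0]
      exact mul_le_one₀ a1 (norm_nonneg _) h2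
    rcases h2.eq_or_lt with h | h
    · refine g12_ne h (by ring) (hi (((1 + x none) / 2) • r x) (-(((1 - x none) / 2) • r x))
        (h3 _ (by linarith) (by linarith))
        (by rw [norm_neg]; exact h3 _ (by linarith) (by linarith)) (funext fun i => ?_))
      have := congrFun e i
      simp only [g, h, Pi.sub_apply, Pi.zero_apply] at this
      linarith
    · have h4 : x none = 1 := by
        refine le_antisymm h1 (not_lt.1 fun hl => hx.not_lt ?_)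
        refine (pi_norm_lt_iff one_pos).2 fun o => ?_
        rcases o with _ | i
        · rwa [Real.norm_of_nonneg h0]
        · exact (norm_le_pi_norm (r x) i).trans_lt h
      have := congrFun e 0
      simp only [g, h4, Pi.sub_apply, Pi.zero_apply, sub_self, zero_div, zero_smul,
        neg_zero] at this
      linarith [hm (((1 + 1 : ℝ) / 2) • r x)]
  have rc : Continuous r := by fun_prop
  obtain ⟨x, hx, e⟩ := MP_56563a_an.borsuk_ulam (by simp) g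
    (Continuous.continuousOn (by fun_prop)) go
  rw [mem_sphere_zero_iff_norm] at hx
  rcases le_total 0 (x none) with h | h
  · exact key x hx h e
  · exact key (-x) (by rwa [norm_neg]) (by simpa using h) (by rw [go, e, neg_zero])

theorem p_G12 (hCHART : S_CHART) :
    S_G12 := by
  intro p _ F _ N f H
  have hf := H.cont
  refine ⟨fun z ρ hρ => not_lt.1 fun h => ?_, not_lt.1 fun h => ?_⟩
  · obtain ⟨π, hπ⟩ := exists_proj (k := 2) _ (Nat.lt_succ_iff.1 h)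
    obtain ⟨Φ, h1, -, h3, h4⟩ := g12_chart hCHART H z hρ
    obtain ⟨u, hu, e⟩ := MP_56563a_an.borsuk_ulam (κ := Fin 3) (by simp)
      (fun u => π (f (Φ u) - f (Φ (-u)))) (Continuous.continuousOn (by fun_prop))
      fun u => by rw [neg_neg, ← map_neg, neg_sub]
    rw [mem_sphere_zero_iff_norm] at hu
    have hu' : ‖-u‖ ≤ 1 := by rw [norm_neg, hu]
    have := h4 u (-u) hu.le hu' (sub_eq_zero.1 (hπ _ (sub_mem_Dir (h3 u hu.le) (h3 _ hu')) e))
    rw [eq_neg_iff_add_eq_zero, ← two_smul ℝ, smul_eq_zero_iff_right two_ne_zero] at this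
    simp [this] at hu
  · obtain ⟨π, hπ⟩ := exists_proj (k := 3) _ (Nat.lt_succ_iff.1 h)
    obtain ⟨z, -, hz⟩ := isCompact_univ.exists_isMaxOn univ_nonempty
      (show ContinuousOn (fun x => π (f x) 0) univ by fun_prop)
    obtain ⟨Φ, h1, h2, -, h4⟩ := g12_chart hCHART H z one_pos
    refine g12_max (G := fun u => π (f (Φ u))) (by fun_prop) (fun u v hu hv e => h4 u v hu hv
      (sub_eq_zero.1 (hπ _ (sub_mem_Dir (mem_univ _) (mem_univ _)) ?_))) fun u => ?_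
    · rw [map_sub, e, sub_self]
    · simp only [h2]
      exact isMaxOn_iff.1 hz _ (mem_univ _)

end SG12

end Pool.Agent.P.MP_c88051_gt.Im
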