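import Pool.Agent.P.MP_c88051_gt.Im.IfaceA

/-! Steps G5B, EXP1, EXG, FAM, FAM1, SEP, SEPC, LA2A, LA2, RBC, BCONN. -/

set_option autoImplicit false
set_option linter.unusedSectionVars false

namespace Pool.Agent.P.MP_c88051_gt.Im

section SG5B

open Set Filter Topology Metric
open scoped RealInnerProductSpace

theorem p_G5B (hPL2 : S_PL2) (hP3L : S_P3L) :
    S_G5B := by
  intro p _ F _ N f H v hZ
  by_contra hn
  have hc : IsClosed (Face f v) :=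
    isClosed_eq (by have := H.cont; fun_prop) continuous_const
  have hm : MapsTo (gn p) (Face f v) (Face f v) := fun x hx => by
    show ⟪v, f (gn p x)⟫ = mn f v
    rw [H.inv]; exact hx
  obtain ⟨O₁, O₂, o1, o2, m1, m2, l1, l2, hs⟩ := hPL2 H (Face f v) hc hm (by omega)
  refine hP3L (by have := H.three; omega) O₁ O₂ _ o1 o2 (H.openU (-v, -mn f v)) m1 m2 l1 l2 hZ
    (eq_univ_of_forall fun x => ?_)
  rcases (mn_le v x H.cont).eq_or_lt with h | h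
  · exact Or.inl (hs h.symm)
  · refine Or.inr ?_
    rw [mem_U, inner_neg_left]
    exact neg_lt_neg h

end SG5B

section SEXP1

open Set Filter Topology Metric
open scoped RealInnerProductSpace

lemma exp1_div {Y : Type} [TopologicalSpace Y] {O : Set Y} {g : Y → Y} {c : Y → Y → ℤ} {n : ℤ}
    (hn : n ≠ 0) (hc : IsC O c) (hi : Inv2 g O c) (hp : IPot g O n.natAbs c) :
    ∃ (c1 : Y → Y → ℤ) (k : Y → ℤ), IsC O c1 ∧ Inv2 g O c1 ∧ IsP O (c - n • c1) k := by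
  obtain ⟨h, h1, h2⟩ := hp
  have : NeZero n.natAbs := ⟨Int.natAbs_ne_zero.2 hn⟩
  let k : Y → ℤ := fun x => ((h x).val : ℤ)
  let c1 : Y → Y → ℤ := fun a b => (c a b - (k b - k a)) / n
  have key : ∀ x ∈ O, ∃ m ∈ 𝓝[O] x, ∀ a ∈ m, ∀ b ∈ m, n * c1 a b = c a b - (k b - k a) := by
    intro x hx
    obtain ⟨m, hm, hh⟩ := h1 x hx
    refine ⟨m, hm, fun a ha b hb => Int.mul_ediv_cancel' ?_⟩
    rw [← Int.natAbs_dvd, ← ZMod.intCast_zmod_eq_zero_iff_dvd]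
    have := hh a ha b hb
    simp only [cz] at this
    simp only [k, Int.cast_sub, Int.cast_natCast, ZMod.natCast_zmod_val, this, sub_self]
  refine ⟨c1, k, fun x hx => ?_, fun x hx y hy => ?_, fun x hx => ?_⟩
  · obtain ⟨m, hm, hh⟩ := key x hx
    obtain ⟨m', hm', hh'⟩ := hc x hx
    refine ⟨m ∩ m', inter_mem hm hm', fun a ha b hb d hd => mul_left_cancel₀ hn ?_⟩
    rw [mul_add, hh a ha.1 b hb.1, hh b hb.1 d hd.1, hh a ha.1 d hd.1, ← hh' a ha.2 b hb.2 d hd.2]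
    ring
  · simp only [c1, k, hi x hx y hy, h2 x hx, h2 y hy, add_zero]
  · obtain ⟨m, hm, hh⟩ := key x hx
    refine ⟨m, hm, fun a ha b hb => ?_⟩
    simp only [Pi.sub_apply, Pi.smul_apply, smul_eq_mul, hh a ha b hb]
    ring

theorem p_EXP1 (hBA : S_BA) :
    S_EXP1 := by
  classical
  intro p _ F _ N f H a β hL hU hβ hP
  obtain ⟨κ, dg, hκ, hadd, hsm, hsh, hpot, hinv⟩ := hBA H a hL hU
  have hp0 : (p : ℤ) ≠ 0 := by exact_mod_cast NeZero.ne p
  have hn : dg β ≠ 0 := fun h0 => hP ((hpot β 2 hβ).2 (by rw [h0]; exact dvd_zero _))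
  have hk : ∀ k : ZMod p, IsC (U f a) (fun x y => β (sh k x) (sh k y)) := fun k =>
    hβ.comp (continuous_sh k).continuousOn (mapsTo_sh (H.mapsU a) k)
  have hs : ∀ s : Finset (ZMod p), IsC (U f a) (∑ k ∈ s, fun x y => β (sh k x) (sh k y)) ∧
      dg (∑ k ∈ s, fun x y => β (sh k x) (sh k y)) = s.card * dg β := by
    intro s
    induction s using Finset.induction_on with
    | empty =>
      refine ⟨by simpa using isC_zero (G := ℤ) (U f a), ?_⟩
      have := hsm β 0 hβ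
      simpa using this
    | insert k s hks ih =>
      rw [Finset.sum_insert hks, Finset.card_insert_of_notMem hks]
      refine ⟨(hk k).add ih.1, ?_⟩
      rw [hadd _ _ (hk k) ih.1, hsh β k hβ, ih.2]
      push_cast
      ring
  obtain ⟨c0, hc0⟩ : ∃ c0 : S3 → S3 → ℤ,
      c0 = ∑ k : ZMod p, fun x y => β (sh k x) (sh k y) := ⟨_, rfl⟩
  have h1 : IsC (U f a) c0 := hc0 ▸ (hs Finset.univ).1
  have h2 : dg c0 = p * dg β := by
    rw [hc0, (hs Finset.univ).2, Finset.card_univ, ZMod.card]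
  have h3 : Inv2 (gn p) (U f a) c0 := fun x _ y _ => by
    simp only [hc0, Finset.sum_apply, sh_gn]
    exact Equiv.sum_comp (Equiv.addRight (1 : ZMod p)) fun k => β (sh k x) (sh k y)
  obtain ⟨j, j1, j2, -⟩ := hinv c0 h1 h3
  have hj : j = dg β := mul_left_cancel₀ hp0 (j1.symm.trans h2)
  obtain ⟨c1, k, k1, k2, k3⟩ := exp1_div hn h1 h3
    ((j2 _).2 (by rw [hj]; exact Int.natAbs_dvd.2 dvd_rfl))
  have h4 : dg (c0 - dg β • c1) = 0 := by
    have := (hpot _ 0 k3.isC).1 ⟨_, k3.cz 0⟩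
    simpa using this
  have h5 : dg c1 = p := by
    have e := hadd _ _ k3.isC (k1.zsmul (dg β))
    rw [sub_add_cancel, h4, hsm _ _ k1, h2, zero_add, mul_comm] at e
    exact (mul_left_cancel₀ hn e).symm
  obtain ⟨i, i1, i2, i3⟩ := hinv c1 k1 k2
  have hi : i = 1 := mul_left_cancel₀ hp0 (by rw [← i1, h5, mul_one])
  subst hi
  obtain ⟨u, rfl⟩ := hκ
  obtain ⟨σ, s1, s2⟩ := (i3 (↑u⁻¹ : ZMod p)).2 (by simp)
  refine ⟨(↑u⁻¹ : ZMod p), c1, σ, Units.isUnit _, ⟨k1, k2, s1, s2⟩, fun m => ?_⟩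
  rw [i2 m]
  exact_mod_cast Iff.rfl

end SEXP1

section SEXG

open Set Filter Topology Metric
open scoped RealInnerProductSpace

theorem p_EXG (hEXP : S_EXP) (hEXP1 : S_EXP1) (hBA : S_BA) :
    S_EXG := by
  intro p _ F _ N f H a r h1 hr
  have hne : U f a ≠ univ := fun h => h1 (by
    have := U_disj (f := f) a
    rw [h, univ_disjoint] at this
    exact this ▸ lf_empty)
  by_cases h2 : Lf p (U f a)
  · obtain ⟨s, s1, s2⟩ := id h2
    refine ⟨0, fun x => r * s x, ⟨isC_zero _, fun _ _ _ _ => rfl, ?_, fun x hx => ?_⟩, hne,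
      fun h => absurd h2 h⟩
    · exact (isP_zero_iff.2 (s1.map (r * ·))).congr_c fun _ _ _ _ => by simp [cz]
    · simp only [s2 x hx]; ring
  obtain ⟨β, b1, b2⟩ := hEXP H a h2 h1
  obtain ⟨r₁, c, s, u1, ⟨z1, z2, z3, z4⟩, o1⟩ := hEXP1 H a β h2 hne b1 b2
  obtain ⟨κ, dg, -, -, d2, -, -, d5⟩ := hBA H a h2 hne
  obtain ⟨u, rfl⟩ := u1
  set n := (r * ↑u⁻¹).valMinAbs with hn
  have e : (n : ZMod p) = r * ↑u⁻¹ := ZMod.coe_valMinAbs _
  have i2 : Inv2 (gn p) (U f a) (n • c) := fun x hx y hy => by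
    simp only [Pi.smul_apply, z2 x hx y hy]
  refine ⟨n • c, fun x => n * s x, ⟨z1.zsmul n, i2, ?_, fun x hx => ?_⟩, hne,
    fun _ => ⟨n.natAbs, ?_, fun m => ?_⟩⟩
  · exact (z3.map (AddMonoidHom.mulLeft (n : ZMod p))).congr_c fun _ _ _ _ => by simp [cz]
  · simp only [z4 x hx, mul_add, e, Units.inv_mul_cancel_right]
  · have h3 : n.natAbs ≤ p / 2 := ZMod.natAbs_valMinAbs_le _
    refine lt_of_le_of_ne (by omega) fun h4 => ?_
    have h5 : ((2 * n : ℤ) : ZMod p) = 0 := by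
      rw [ZMod.intCast_zmod_eq_zero_iff_dvd, ← h4, ← Int.dvd_natAbs]
      simp [Int.natAbs_mul]
    have h6 : IsUnit (n : ZMod p) := e ▸ hr.mul (Units.isUnit _)
    rw [Int.cast_mul, h6.mul_left_eq_zero] at h5
    have := Int.le_of_dvd two_pos ((ZMod.intCast_zmod_eq_zero_iff_dvd 2 p).1 h5)
    have := H.three
    omega
  · obtain ⟨j, j1, j2, -⟩ := d5 c z1 z2
    obtain ⟨k, k1, k2, -⟩ := d5 _ (z1.zsmul n) i2
    have h3 : j.natAbs = 1 := Nat.dvd_one.1 ((o1 _).1 ((j2 _).2 (Int.natAbs_dvd.2 dvd_rfl)))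
    have h4 : k = n * j := mul_left_cancel₀ (Int.natCast_ne_zero.2 (NeZero.ne p)) (by
      rw [← k1, d2 c n z1, j1]; ring)
    rw [k2, h4, Int.natCast_dvd, Int.natAbs_mul, h3, mul_one]

end SEXG

section SFAM

open Set Filter Topology Metric
open scoped RealInnerProductSpace

theorem p_FAM (hEXG : S_EXG) (hGRES : S_GRES) (hGLUE2 : S_GLUE2) (hBIS : S_BIS) (hLIFTC : S_LIFTC) :
    S_FAM := by
  intro p _ F _ N f H n r Ψ A hr hΨ hA hc h
  rcases A.eq_empty_or_nonempty with rfl | hne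
  · exact ⟨0, 0, ⟨fun _ he => he.1.elim, fun _ he => he.1.elim, fun _ he => he.1.elim,
      fun _ he => he.1.elim⟩, fun _ hb => hb.elim⟩
  refine hBIS A (fun A' => ∃ c s, Fam f p r Ψ A' c s) hA hc hne (fun b₀ hb₀ => ?_)
    (fun A' hs h1 h2 i μ ε hε q1 q2 =>
      hGLUE2 H r Ψ A' hΨ h1 h2 (fun b hb => (h b (hs hb)).2) i μ ε hε q1 q2)
  obtain ⟨ε, hε, hn⟩ := (hLIFTC H).2.2 _ (h b₀ hb₀).1
  have e : -(up (Ψ b₀) ε) = up (-Ψ b₀) (-ε) := by
    simp only [up, Prod.neg_mk, Prod.fst_neg, Prod.snd_neg, neg_add]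
  obtain ⟨c, s, hg⟩ := hEXG H (up (Ψ b₀) ε) r (by rwa [e]) hr
  obtain ⟨R, R0, hR⟩ := exists_near H.cont hε
  refine ⟨Ψ ⁻¹' ball (Ψ b₀) R, hΨ.continuousAt (ball_mem_nhds _ R0), fun A' hs => ?_⟩
  have sub : ∀ b ∈ A', U f (Ψ b) ⊆ U f (up (Ψ b₀) ε) := fun b hb =>
    (U_sub_Ucl _).trans (hR _ _ (mem_ball_iff_norm.1 (hs hb).2)).2
  have m : MapsTo Prod.snd (EE f Ψ A') (U f (up (Ψ b₀) ε)) := fun e he => sub _ he.1 he.2
  exact ⟨fun e e' => c e.2 e'.2, fun e => s e.2,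
    ⟨hg.1.1.comp continuous_snd.continuousOn m, fun x hx y hy => hg.1.2.1 _ (m hx) _ (m hy),
      hg.1.2.2.1.comp continuous_snd.continuousOn m, fun x hx => hg.1.2.2.2 _ (m hx)⟩,
    fun b hb => (hGRES H _ _ (sub b hb)).2 r c s hg⟩

end SFAM

section SFAM1

open Set Filter Topology Metric
open scoped RealInnerProductSpace

theorem p_FAM1 (hFAM : S_FAM) :
    S_FAM1 := by
  intro p _ F _ N f H C x K hC hb hK hKC
  obtain ⟨t, ht, hfin, hcov⟩ := hK.elim_finite_subcover_image (b := C) (c := U f)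
    (fun a _ => H.openU a) hKC
  obtain ⟨n, b, -, hbt⟩ := hfin.fin_param
  have bC : ∀ i, b i ∈ C := fun i => ht (hbt ▸ mem_range_self i)
  let Ψ : (Fin n → ℝ) → EV N × ℝ := fun l => ∑ i, l i • b i
  have ΨC : ∀ l ∈ stdSimplex ℝ (Fin n), Ψ l ∈ C := fun l hl =>
    hC.sum_mem (fun i _ => hl.1 i) hl.2 fun i _ => bC i
  obtain ⟨c, s, ⟨z1, z2, z3, z4⟩, -⟩ := hFAM H 1 Ψ (stdSimplex ℝ (Fin n)) isUnit_one
    (by fun_prop) (isCompact_stdSimplex ℝ _) (convex_stdSimplex ℝ _)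
    fun l hl => ⟨(hb _ (ΨC l hl)).1, x, (hb _ (ΨC l hl)).2⟩
  have hf := H.cont
  let w : Fin n → S3 → ℝ := fun i y => max 0 ((b i).2 - ⟪(b i).1, f y⟫)
  have w0 : ∀ i y, 0 ≤ w i y := fun i y => le_max_left _ _
  have wc : ∀ i, Continuous (w i) := fun i => by fun_prop
  have wp : ∀ y ∈ ⋃ i, U f (b i), ∃ i, 0 < w i y := fun y hy => by
    obtain ⟨i, hi⟩ := mem_iUnion.1 hy
    exact ⟨i, lt_max_of_lt_right (sub_pos.2 hi)⟩
  have ws : ∀ y ∈ ⋃ i, U f (b i), 0 < ∑ i, w i y := fun y hy =>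
    let ⟨i, hi⟩ := wp y hy
    Finset.sum_pos' (fun j _ => w0 j y) ⟨i, Finset.mem_univ _, hi⟩
  let φ : S3 → (Fin n → ℝ) × S3 := fun y => (fun i => w i y / ∑ j, w j y, y)
  have φc : ContinuousOn φ (⋃ i, U f (b i)) :=
    (continuousOn_pi.2 fun i => (wc i).continuousOn.div
      (continuous_finsetSum _ fun j _ => wc j).continuousOn
      fun y hy => (ws y hy).ne').prodMk continuousOn_id
  have φm : MapsTo φ (⋃ i, U f (b i)) (EE f Ψ (stdSimplex ℝ (Fin n))) := fun y hy => by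
    have h0 := ws y hy
    refine ⟨⟨fun i => div_nonneg (w0 i y) h0.le, by
      simp only [φ]; rw [← Finset.sum_div, div_self h0.ne']⟩, ?_⟩
    simp only [mem_U, φ, Ψ, Prod.fst_sum, Prod.snd_sum, Prod.smul_fst, Prod.smul_snd, sum_inner,
      real_inner_smul_left, smul_eq_mul]
    obtain ⟨i, hi⟩ := wp y hy
    have key : ∀ j, 0 < w j y → ⟪(b j).1, f y⟫ < (b j).2 := fun j hj =>
      sub_pos.1 ((lt_max_iff.1 hj).resolve_left (lt_irrefl _))
    refine Finset.sum_lt_sum (fun j _ => ?_) ⟨i, Finset.mem_univ _,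
      mul_lt_mul_of_pos_left (key i hi) (div_pos hi h0)⟩
    rcases (w0 j y).eq_or_lt with h | h
    · rw [← h]; simp
    · exact (mul_lt_mul_of_pos_left (key j h) (div_pos h h0)).le
  have φg : ∀ y, φ (gn p y) = gE p (φ y) := fun y => by simp only [φ, gE, w, H.inv]
  refine ⟨⋃ i, U f (b i), fun y z => c (φ y) (φ z), fun y => s (φ y),
    isOpen_iUnion fun i => H.openU _, fun y hy => ?_, fun y hy => ?_, z1.comp φc φm,
    fun y hy z hz => ?_, z3.comp φc φm, fun y hy => ?_⟩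
  · obtain ⟨i, hi⟩ := mem_iUnion.1 hy
    exact mem_iUnion.2 ⟨i, H.mapsU _ hi⟩
  · obtain ⟨a, ha, hy'⟩ := mem_iUnion₂.1 (hcov hy)
    rw [← hbt] at ha
    obtain ⟨i, rfl⟩ := ha
    exact mem_iUnion.2 ⟨i, hy'⟩
  · simp only [φg]
    exact z2 _ (φm hy) _ (φm hz)
  · simp only [φg]
    exact z4 _ (φm hy)

end SFAM1

section SSEP

open Set Filter Topology Metric
open scoped RealInnerProductSpace

theorem p_SEP :
    S_SEP := by
  intro Y _ K O hK hKO r hr h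
  have h1 : ∀ x ∈ K, r x → ∃ q : Y → Prop, LC O q ∧ q x ∧ ∀ y ∈ K, ¬r y → ¬q y := by
    intro x hx rx
    refine hK.induction_on (p := fun t => ∃ q : Y → Prop, LC O q ∧ q x ∧ ∀ y ∈ t, ¬r y → ¬q y)
      ⟨fun _ => True, LC.const _ _, trivial, fun _ h => h.elim⟩
      (fun s t hst ⟨q, q1, q2, q3⟩ => ⟨q, q1, q2, fun y hy => q3 y (hst hy)⟩)
      (fun s t ⟨q, q1, q2, q3⟩ ⟨u, u1, u2, u3⟩ => ⟨fun y => q y ∧ u y, q1.map₂ u1 And, ⟨q2, u2⟩,
        fun y hy hn hq => hy.elim (fun e => q3 y e hn hq.1) fun e => u3 y e hn hq.2⟩)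
      fun y hy => ?_
    by_cases ry : r y
    · exact ⟨_, hr y hy, fun _ => True, LC.const _ _, trivial, fun z hz hn =>
        absurd ((show r z = r y from hz) ▸ ry) hn⟩
    · obtain ⟨q, q1, q2, q3⟩ := h x hx y hy rx ry
      exact ⟨_, nhdsWithin_mono _ hKO (q1 y (hKO hy)), q, q1, q2, fun z hz _ =>
        (show q z = q y from hz) ▸ q3⟩
  have h2 : ∃ q : Y → Prop, LC O q ∧ (∀ y ∈ K, ¬r y → ¬q y) ∧ ∀ x ∈ K, r x → q x := by
    refine hK.induction_on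
      (p := fun t => ∃ q : Y → Prop, LC O q ∧ (∀ y ∈ K, ¬r y → ¬q y) ∧ ∀ x ∈ t, r x → q x)
      ⟨fun _ => False, LC.const _ _, fun _ _ _ => id, fun _ h => h.elim⟩
      (fun s t hst ⟨q, q1, q2, q3⟩ => ⟨q, q1, q2, fun y hy => q3 y (hst hy)⟩)
      (fun s t ⟨q, q1, q2, q3⟩ ⟨u, u1, u2, u3⟩ => ⟨fun y => q y ∨ u y, q1.map₂ u1 Or,
        fun y hy hn hq => hq.elim (q2 y hy hn) (u2 y hy hn),
        fun y hy hn => hy.imp (fun e => q3 y e hn) fun e => u3 y e hn⟩)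
      fun x hx => ?_
    by_cases rx : r x
    · obtain ⟨q, q1, q2, q3⟩ := h1 x hx rx
      exact ⟨_, nhdsWithin_mono _ hKO (q1 x (hKO hx)), q, q1, q3, fun z hz _ =>
        (show q z = q x from hz) ▸ q2⟩
    · exact ⟨_, hr x hx, fun _ => False, LC.const _ _, fun _ _ _ => id, fun z hz hn =>
        rx ((show r z = r x from hz) ▸ hn)⟩
  obtain ⟨q, q1, q2, q3⟩ := h2
  exact ⟨q, q1, fun x hx => ⟨fun e => by_contra fun hn => q2 x hx hn e, q3 x hx⟩⟩

end SSEP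

section SSEPC

open Set Filter Topology Metric
open scoped RealInnerProductSpace

theorem p_SEPC (hEXT : S_EXT) (hSEP : S_SEP) :
    S_SEPC := by
  intro Y T _ _ _ X A s hX hA hAX hs hm
  have cA := hX.of_isClosed_subset hA hAX
  refine hEXT A X s cA hs fun ν => hSEP cA hAX (hs.map fun t => t = ν) fun x hx y hy h1 h2 => ?_
  have := isCompact_iff_compactSpace.1 hX
  have h3 : (⟨y, hAX hy⟩ : X) ∉ connectedComponent (⟨x, hAX hx⟩ : X) := fun h =>
    h2 ((hm _ (by rintro _ ⟨w, -, rfl⟩; exact w.2)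
      (isPreconnected_connectedComponent.image _ continuous_subtype_val.continuousOn)
      y ⟨⟨_, h, rfl⟩, hy⟩ x ⟨⟨_, mem_connectedComponent, rfl⟩, hx⟩).trans h1)
  rw [connectedComponent_eq_iInter_isClopen, mem_iInter, not_forall] at h3
  obtain ⟨⟨Z, z1, z2⟩, z3⟩ := h3
  refine ⟨fun w => ∃ h : w ∈ X, (⟨w, h⟩ : X) ∈ Z, fun w hw => ?_, ⟨_, z2⟩, fun ⟨_, h⟩ => z3 h⟩
  rw [← map_nhds_subtype_val (⟨w, hw⟩ : X), eventually_map]
  by_cases h : (⟨w, hw⟩ : X) ∈ Z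
  · filter_upwards [z1.2.mem_nhds h] with u hu
    exact propext ⟨fun _ => ⟨hw, h⟩, fun _ => ⟨u.2, hu⟩⟩
  · filter_upwards [z1.1.isOpen_compl.mem_nhds h] with u hu
    exact propext ⟨fun ⟨_, k⟩ => (hu k).elim, fun ⟨_, k⟩ => (h k).elim⟩

end SSEPC

section SLA2A

open Set Filter Topology Metric
open scoped RealInnerProductSpace

theorem p_LA2A (hSEPC : S_SEPC) :
    S_LA2A := by
  intro p _ F _ N f H a s y s1 s2 hy hRB
  obtain ⟨ρ, hρ, hsep⟩ := H.sep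
  have hfin := H.finite_fib y
  set Φ : Set S3 := {x | f x = y}
  have mΦ : MapsTo (gn p) Φ Φ := fun x hx => (H.inv x).trans hx
  have h1 : ∀ z ∈ Φ, ∀ᶠ r in 𝓝[>] (0 : ℝ), ∀ m ⊆ closedBall z r ∩ Ucl f a, IsPreconnected m →
      ∀ w ∈ m ∩ U f a, ∀ w' ∈ m ∩ U f a, s w = s w' := by
    intro z hz
    have hz' : f z = y := hz
    have h2 : ¬∀ n ∈ 𝓝 z, ∃ m ⊆ n ∩ Ucl f a, IsPreconnected m ∧
        ∃ w ∈ m ∩ U f a, ∃ w' ∈ m ∩ U f a, s w ≠ s w' := fun h => hRB z ⟨by rw [hz', hy], h⟩ hz'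
    push Not at h2
    obtain ⟨n, hn, h3⟩ := h2
    filter_upwards [nhdsWithin_le_nhds (eventually_closedBall_subset hn)] with r hr m hm
    exact h3 m (hm.trans (inter_subset_inter_left _ hr))
  obtain ⟨r, ⟨hP, hr⟩, hr0⟩ := ((((eventually_all_finite hfin).2 h1).and
    (nhdsWithin_le_nhds (Iio_mem_nhds (half_pos hρ)))).and self_mem_nhdsWithin).exists
  obtain ⟨η, hη, hnear⟩ := near_pt H.cont isClosed_univ y (ρ := r) hr0
  refine ⟨η / 2, half_pos hη, fun κ hκ => ?_⟩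
  have cA := isClosed_Ucl H.cont (up a (-κ))
  have cU := isClosed_Ucl H.cont a
  have sA : Ucl f (up a (-κ)) ⊆ U f a := fun x hx => by
    have : ⟪a.1, f x⟫ ≤ a.2 + -κ := hx
    rw [mem_U]; linarith
  have h4 : ∀ z ∈ Φ, ∃ t : S3 → ZMod p, LC (closedBall z r ∩ Ucl f a) t ∧
      ∀ w ∈ closedBall z r ∩ Ucl f a ∩ Ucl f (up a (-κ)), t w = s w := fun z hz =>
    hSEPC _ _ s (isClosed_closedBall.inter cU).isCompact ((isClosed_closedBall.inter cU).inter cA)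
      inter_subset_left (s1.mono fun w hw => sA hw.2) fun m hm hc w hw w' hw' =>
        hP z hz m hm hc w ⟨hw.1, sA hw.2.2⟩ w' ⟨hw'.1, sA hw'.2.2⟩
  choose! t t1 t2 using h4
  obtain ⟨π, π1, -, π3⟩ := exists_pi (p := p) (Φ := Φ) (ρ := ρ / 2)
    (fun x hx z hz hd => hsep x z (hx.trans hz.symm) (by linarith)) mΦ
  obtain ⟨sec, hsec⟩ := exists_sec p
  have π2 : ∀ x, ∀ z ∈ Φ, x ∈ closedBall z r → π x = z := fun x z hz hx =>
    π1 x z hz (lt_of_le_of_lt hx hr)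
  have mB : ∀ (k : ZMod p) (z x : S3), x ∈ closedBall z r ∩ Ucl f a →
      sh k x ∈ closedBall (sh k z) r ∩ Ucl f a := fun k z x hx =>
    ⟨by rw [mem_closedBall, dist_sh]; exact hx.1, mapsTo_sh (H.mapsUcl a) k hx.2⟩
  have key := lf_union (B := (⋃ z ∈ Φ, closedBall z r) ∩ Ucl f a) cA
    ((hfin.isClosed_biUnion fun _ _ => isClosed_closedBall).inter cU) (H.mapsUcl _)
    (t := fun x => t (sh (-sec (π x)) (π x)) (sh (-sec (π x)) x) + sec (π x)) (d := 0)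
    (s1.mono sA) (s2.mono sA) (LC.of_local fun x hx => ?_) (fun x hx => ?_) (fun x hx => ?_)
  · refine key.mono (union_subset_union_right _ fun x hx => ⟨?_, hx.1⟩)
    obtain ⟨z, -, hz, hd⟩ := hnear x trivial (lt_of_le_of_lt hx.2 (half_lt_self hη))
    exact mem_biUnion (show z ∈ Φ from hz) hd.le
  · obtain ⟨z, hz, hd⟩ := mem_iUnion₂.1 hx.1
    refine ⟨closedBall z r ∩ Ucl f a, ?_, ?_⟩
    · filter_upwards [self_mem_nhdsWithin, nhdsWithin_le_nhds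
        (isOpen_ball.mem_nhds (show x ∈ ball z (ρ / 2) from lt_of_le_of_lt hd hr))] with w hw hb
      obtain ⟨z', hz', hd'⟩ := mem_iUnion₂.1 hw.1
      obtain rfl : z' = z := (π2 w z' hz' hd').symm.trans (π1 w z hz hb)
      exact ⟨hd', hw.2⟩
    · refine (((t1 _ (mapsTo_sh mΦ (-sec z) hz)).comp (continuous_sh (-sec z)).continuousOn
        (mB _ z)).map fun v => v + sec z).congr fun w hw => ?_
      simp only [π2 w z hz hw.1]
  · obtain ⟨z, hz, hd⟩ := mem_iUnion₂.1 hx.1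
    have e : π (gn p x) = sh (1 : ZMod p) z := by
      rw [← π2 x z hz hd]; exact π3 1 x ⟨z, hz, lt_of_le_of_lt hd hr⟩
    simp only [e, π2 x z hz hd, hsec, sh_gn, sh_sh, show -(sec z + 1) + 1 = -sec z by ring, add_assoc]
  · obtain ⟨z, hz, hd⟩ := mem_iUnion₂.1 hx.2.1
    simp only [π2 x z hz hd]
    rw [t2 _ (mapsTo_sh mΦ (-sec z) hz) _ ⟨mB _ z x ⟨hd, hx.2.2⟩, mapsTo_sh (H.mapsUcl _) _ hx.1⟩,
      s2.sh_one (H.mapsU a) _ (sA hx.1)]
    ring

end SLA2A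

section SLA2

open Set Filter Topology Metric
open scoped RealInnerProductSpace

theorem p_LA2 (hLA2A : S_LA2A) (hNBHD : S_NBHD) (hFAM1 : S_FAM1) (hP3 : S_P3) (hCOVER : S_COVER) :
    S_LA2 := by
  intro p _ F _ N f H a s y h1 h2 ⟨x₀, hx₀⟩ hy hS
  by_contra hn
  obtain ⟨η, hη, hL⟩ := hLA2A H a s y h1 h2 hy fun x hx e => hn ⟨x, hx, e⟩
  have hy' : ⟪(-a).1, y⟫ = (-a).2 := by simp [inner_neg_left, hy]
  obtain ⟨δ, hδ, δ1, hc⟩ := hCOVER (-a) y hy' η hη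
  obtain ⟨R₁, hR₁, s1⟩ := hS δ hδ
  obtain ⟨R₂, hR₂, s2⟩ := exists_near H.cont (sub_pos.2 (mem_U.1 hx₀))
  have hR := lt_min hR₁ hR₂
  obtain ⟨κ, hκ, hk⟩ := hc (min R₁ R₂) hR
  obtain ⟨O', o1, -, o3, o2⟩ := hNBHD _ ((H.mapsUcl _).union_union ((H.mapsUcl _).inter_inter
    fun x hx => by simpa only [mem_ofPred_eq, H.inv] using hx)) (hL κ hκ)
  obtain ⟨O, c, t, p1, p2, p3, p4⟩ := hFAM1 H (Cone (-a) y δ (min R₁ R₂)) x₀ O'ᶜ
    (convex_Cone _ _ hδ.le _)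
    (fun b hb => ⟨s1 b (Cone_mono _ _ _ (min_le_left _ _) hb),
      (s2 (-a) b (hb.1.trans_le (min_le_right _ _))).1 (by
        show ⟪(-a).1, f x₀⟫ ≤ (-a).2 + -((-a).2 - ⟪(-a).1, f x₀⟫)
        linarith)⟩)
    o1.isClosed_compl.isCompact (fun x hx => by
      rcases le_or_gt ⟪a.1, f x⟫ a.2 with h | h
      · have e : a.2 + -κ < ⟪a.1, f x⟫ := not_le.1 fun h => hx (o3 (.inl h))
        obtain ⟨b, hb, hb'⟩ := hk (f x) (not_le.1 fun h' => hx (o3 (.inr ⟨h, h'⟩))).le (by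
          simp only [Prod.fst_neg, Prod.snd_neg, inner_neg_left]; linarith)
        exact mem_UC.2 ⟨b, hb, hb'⟩
      · have e := lt_min hR (sub_pos.2 h)
        refine mem_UC.2 ⟨_, up_mem_Cone hy' δ1 (half_pos e)
          ((half_lt_self e).trans_le (min_le_left _ _)), mem_U_neg_up.2 ?_⟩
        linarith [min_le_right (min R₁ R₂) (⟪a.1, f x⟫ - a.2)])
  have := H.nontriv
  exact hP3 O O' 1 c t p1 o1 p2 (eq_univ_of_forall fun x =>
    (em (x ∈ O')).elim Or.inr fun h => Or.inl (p3 h)) p4 one_ne_zero o2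

end SLA2

section SRBC

open Set Filter Topology Metric
open scoped RealInnerProductSpace

theorem p_RBC (hLA1 : S_LA1) (hLA2 : S_LA2) :
    S_RBC := by
  intro p _ F _ N f H a s hs hsf hne
  have hf := H.cont
  refine ⟨isClosed_of_closure_subset fun x hx => ⟨closure_minimal (fun y (hy : y ∈ RB f a s) => hy.1)
    (isClosed_eq (by fun_prop) continuous_const) hx, fun n hn => ?_⟩, ?_, ?_⟩
  · obtain ⟨y, h1, h2⟩ := mem_closure_iff_nhds.1 hx _ (interior_mem_nhds.2 hn)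
    exact h2.2 n (mem_interior_iff_mem_nhds.1 h1)
  · rintro x ⟨h1, h2⟩
    refine ⟨by rwa [H.inv], fun n hn => ?_⟩
    obtain ⟨m, m1, m2, y, hy, y', hy', e⟩ := h2 _ (continuous_gn.continuousAt hn)
    refine ⟨gn p '' m, ?_, m2.image _ continuous_gn.continuousOn, _,
      ⟨mem_image_of_mem _ hy.1, H.mapsU a hy.2⟩, _, ⟨mem_image_of_mem _ hy'.1, H.mapsU a hy'.2⟩, ?_⟩
    · rintro _ ⟨w, hw, rfl⟩
      exact ⟨(m1 hw).1, H.mapsUcl a (m1 hw).2⟩
    · rwa [hsf y hy.2, hsf y' hy'.2, Ne, add_left_inj]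
  · rintro _ ⟨x₁, h₁, rfl⟩ _ ⟨x₂, h₂, rfl⟩ u v hu hv huv
    refine hLA2 H a s _ hs hsf hne ?_ fun δ hδ => ?_
    · rw [inner_add_right, real_inner_smul_right, real_inner_smul_right, h₁.1, h₂.1, ← add_mul,
        huv, one_mul]
    obtain ⟨R₁, r₁, g₁⟩ := hLA1 H a s hs hsf x₁ h₁ δ hδ
    obtain ⟨R₂, r₂, g₂⟩ := hLA1 H a s hs hsf x₂ h₂ δ hδ
    refine ⟨min R₁ R₂, lt_min r₁ r₂, fun b ⟨b1, b2⟩ hl => ?_⟩
    have c₁ := not_lt.1 fun h => g₁ b ⟨b1.trans_le (min_le_left _ _), h⟩ hl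
    have c₂ := not_lt.1 fun h => g₂ b ⟨b1.trans_le (min_le_right _ _), h⟩ hl
    rw [inner_add_right, real_inner_smul_right, real_inner_smul_right] at b2
    have e : v = 1 - u := by linarith
    subst e
    nlinarith [mul_le_mul_of_nonneg_left c₁ hu, mul_le_mul_of_nonneg_left c₂ hv]

end SRBC

section SBCONN

open Set Filter Topology Metric
open scoped RealInnerProductSpace

lemma bconn_iff (z x : S3) {ρ : ℝ} (hρ : 0 < ρ) :
    x ∈ ball z ρ ↔ 1 - ρ ^ 2 / 2 < (inner ℂ z.1 x.1).re := by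
  have h := norm_sub_sq (𝕜 := ℂ) z.1 x.1
  rw [mem_sphere_zero_iff_norm.1 z.2, mem_sphere_zero_iff_norm.1 x.2, RCLike.re_to_complex] at h
  rw [mem_ball', Subtype.dist_eq, dist_eq_norm, ← sq_lt_sq₀ (norm_nonneg _) hρ.le, h]
  constructor <;> intro <;> linarith

lemma bconn_convex (z : E2) {a : ℝ} (ha : 0 ≤ a) :
    Convex ℝ {y : E2 | a * ‖y‖ < (inner ℂ z y).re} := by
  intro x hx y hy s t hs ht h
  have h1 : a * ‖x‖ < (inner ℂ z x).re := hx
  have h2 : a * ‖y‖ < (inner ℂ z y).re := hy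
  have n : ‖s • x + t • y‖ ≤ s * ‖x‖ + t * ‖y‖ := by
    refine (norm_add_le _ _).trans ?_
    rw [norm_smul, norm_smul, Real.norm_of_nonneg hs, Real.norm_of_nonneg ht]
  show a * ‖s • x + t • y‖ < (inner ℂ z (s • x + t • y)).re
  rw [inner_add_right, inner_smul_right_eq_smul, inner_smul_right_eq_smul, Complex.add_re,
    Complex.smul_re, Complex.smul_re, smul_eq_mul, smul_eq_mul]
  refine (mul_le_mul_of_nonneg_left n ha).trans_lt ?_
  rcases hs.eq_or_lt with rfl | hs'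
  · have : t = 1 := by linarith
    simpa [this] using h2
  · nlinarith

theorem p_BCONN :
    S_BCONN := by
  classical
  intro z ρ h1
  rcases le_or_gt ρ 0 with h0 | h0
  · rw [ball_eq_empty.2 h0]
    exact isPreconnected_empty
  let C : Set E2 := {y | (1 - ρ ^ 2 / 2) * ‖y‖ < (inner ℂ z.1 y).re}
  have hC : ∀ y ∈ C, y ≠ 0 := fun y hy e => by simp [C, e] at hy
  let π : E2 → S3 := fun y => if h : y = 0 then z else ⟨‖y‖⁻¹ • y, by
    rw [mem_sphere_zero_iff_norm, norm_smul, norm_inv, norm_norm,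
      inv_mul_cancel₀ (norm_ne_zero_iff.2 h)]⟩
  have hπ : ∀ y, y ≠ 0 → (π y).1 = ‖y‖⁻¹ • y := fun y hy => by simp only [π, dif_neg hy]
  have cπ : ContinuousOn π C := by
    rw [IsInducing.subtypeVal.continuousOn_iff]
    exact ((continuous_norm.continuousOn.inv₀ fun y hy => norm_ne_zero_iff.2 (hC y hy)).smul
      continuousOn_id).congr fun y hy => hπ y (hC y hy)
  have mπ : MapsTo π C (ball z ρ) := fun y hy => by
    rw [bconn_iff z _ h0, hπ y (hC y hy), inner_smul_right_eq_smul, Complex.smul_re, smul_eq_mul,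
      lt_inv_mul_iff₀ (norm_pos_iff.2 (hC y hy)), mul_comm]
    exact hy
  have e : ∀ x : S3, π x.1 = x := fun x => Subtype.ext (by
    rw [hπ _ (ne_zero_of_mem_unit_sphere x), mem_sphere_zero_iff_norm.1 x.2, inv_one, one_smul])
  have hb : π '' C = ball z ρ := by
    refine mπ.image_subset.antisymm fun x hx => ⟨x.1, ?_, e x⟩
    show (1 - ρ ^ 2 / 2) * ‖x.1‖ < _
    rw [mem_sphere_zero_iff_norm.1 x.2, mul_one]
    exact (bconn_iff z x h0).1 hx
  exact hb ▸ (bconn_convex _ (by nlinarith)).isPreconnected.image π cπ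

end SBCONN

end Pool.Agent.P.MP_c88051_gt.Im
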