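import Pool.Agent.P.MP_c88051_gt.Im.IfaceA

/-! Steps TRI, SIDE, PIECE0, PIECE, SPLIT, SHELL, NOP. -/

set_option autoImplicit false
set_option linter.unusedSectionVars false

namespace Pool.Agent.P.MP_c88051_gt.Im

section STRI

open Set Filter Topology Metric
open scoped RealInnerProductSpace

lemma tri_A {N : ℕ} {f : S3 → EV N} {T : Type} (b : EV N × ℝ) (s : S3 → T) {x : S3}
    (hl : LcAt (Ucl f b) x) (hx : ⟪b.1, f x⟫ = b.2) (hr : x ∉ RB f b s)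
    (hc : x ∈ closure (U f b)) : Gd (U f b) s x := by
  classical
  refine ⟨hc, ?_⟩
  have hr' : ∃ n ∈ 𝓝 x, ∀ m ⊆ n ∩ Ucl f b, IsPreconnected m →
      ∀ y ∈ m ∩ U f b, ∀ y' ∈ m ∩ U f b, s y = s y' := by
    by_contra hcon
    apply hr
    refine ⟨hx, fun n hn => ?_⟩
    by_contra h2
    apply hcon
    refine ⟨n, hn, fun m hm hp y hy y' hy' => ?_⟩
    by_contra h3
    exact h2 ⟨m, hm, hp, y, hy, y', hy', h3⟩
  obtain ⟨n, hn, H⟩ := hr'
  obtain ⟨m, hm, hmn, hp⟩ := hl n hn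
  have hm' : m ∈ 𝓝[U f b] x := nhdsWithin_mono _ (U_sub_Ucl b) hm
  have hev : ∀ᶠ y in 𝓝[U f b] x, y ∈ m ∩ U f b := inter_mem hm' self_mem_nhdsWithin
  have hne : (𝓝[U f b] x).NeBot := mem_closure_iff_nhdsWithin_neBot.1 hc
  obtain ⟨y0, hy0⟩ := hev.exists
  exact ⟨s y0, hev.mono fun y hy => H m hmn hp y hy y0 hy0⟩

lemma tri_B (hBCONN : S_BCONN) {N : ℕ} {f : S3 → EV N} (b : EV N × ℝ) {x : S3}
    (hc : x ∉ closure (U f b)) : LcAt (Ucl f (-b)) x := by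
  intro n hn
  have h1 : (closure (U f b))ᶜ ∈ 𝓝 x := isClosed_closure.isOpen_compl.mem_nhds hc
  obtain ⟨ε, hε, hb⟩ := Metric.mem_nhds_iff.1 (inter_mem hn h1)
  refine ⟨ball x (min ε 1), mem_nhdsWithin_of_mem_nhds (ball_mem_nhds _ (lt_min hε one_pos)),
    fun y hy => ?_, hBCONN x _ (min_le_right _ _)⟩
  have hy' := hb (ball_subset_ball (min_le_left _ _) hy)
  refine ⟨hy'.1, mem_Ucl_neg.2 (not_lt.1 fun h => hy'.2 (subset_closure (mem_U.2 h)))⟩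

theorem p_TRI (hBCONN : S_BCONN) :
    S_TRI := by
  intro N f T a s t _ hPT hint x hx hs ht
  have hx' : ⟪(-a).1, f x⟫ = (-a).2 := by simp [inner_neg_left, hx]
  by_cases h1 : x ∈ closure (U f a)
  · by_cases h2 : x ∈ closure (U f (-a))
    · rcases hPT x hx with h | h
      · exact Or.inl (tri_A a s h hx hs h1)
      · exact Or.inr ⟨tri_A (-a) t h hx' ht h2, h⟩
    · have h := tri_B hBCONN (-a) h2
      rw [neg_neg] at h
      exact Or.inl (tri_A a s h hx hs h1)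
  · by_cases h2 : x ∈ closure (U f (-a))
    · have h := tri_B hBCONN a h1
      exact Or.inr ⟨tri_A (-a) t h hx' ht h2, h⟩
    · exfalso
      have e1 : (closure (U f a))ᶜ ∈ 𝓝 x := isClosed_closure.isOpen_compl.mem_nhds h1
      have e2 : (closure (U f (-a)))ᶜ ∈ 𝓝 x := isClosed_closure.isOpen_compl.mem_nhds h2
      have : x ∈ interior {x | ⟪a.1, f x⟫ = a.2} := by
        refine mem_interior_iff_mem_nhds.2 (mem_of_superset (inter_mem e1 e2) fun y hy => ?_)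
        have g1 : ¬ ⟪a.1, f y⟫ < a.2 := fun h => hy.1 (subset_closure (mem_U.2 h))
        have g2 : ¬ a.2 < ⟪a.1, f y⟫ := fun h => hy.2 (subset_closure (mem_U_neg.2 h))
        exact le_antisymm (not_lt.1 g2) (not_lt.1 g1)
      rw [hint] at this
      exact this

end STRI

section SSIDE

open Set Filter Topology Metric
open scoped RealInnerProductSpace

theorem p_SIDE (hNBHD : S_NBHD) :
    S_SIDE := by
  intro p _ V s hV s1 s2
  have sf : ∀ x k, (∀ᶠ y in 𝓝[V] x, s y = k) → ∀ᶠ y in 𝓝[V] (gn p x), s y = k + 1 :=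
    fun x k h => by
    have t := (continuous_sh (-1 : ZMod p)).continuousWithinAt.tendsto_nhdsWithin (x := gn p x)
      (mapsTo_sh hV (-1))
    rw [gn, sh_neg_sh] at t
    filter_upwards [t.eventually h, self_mem_nhdsWithin] with y h1 h2
    rw [s2.sh_one hV _ h2] at h1
    rw [← h1, neg_add_cancel_right]
  choose! l hl using fun x (h : ∃ k, ∀ᶠ y in 𝓝[V] x, s y = k) => h
  have un : ∀ x ∈ closure V, ∀ k, (∀ᶠ y in 𝓝[V] x, s y = k) → l x = k := fun x hx k h => by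
    have := mem_closure_iff_nhdsWithin_neBot.1 hx
    obtain ⟨y, h1, h2⟩ := ((hl x ⟨k, h⟩).and h).exists
    exact h1.symm.trans h2
  obtain ⟨O, o1, o2, o3, t, t1, t2⟩ := hNBHD (p := p) {x | Gd V s x}
    (fun x ⟨h1, k, h2⟩ => ⟨hV.closure continuous_gn h1, _, sf x k h2⟩)
    ⟨l, fun x hx => by
      filter_upwards [nhdsWithin_le_nhds (eventually_nhds_nhdsWithin.2 (hl x hx.2)),
        self_mem_nhdsWithin] with y h1 h2
      exact un y h2.1 _ h1,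
    fun x hx => un _ (hV.closure continuous_gn hx.1) _ (sf x _ (hl x hx.2))⟩
  exact ⟨O, t, o1, o2, t1, t2, fun x hx => o3 ⟨subset_closure hx, _, s1 x hx⟩, fun x hx => o3 hx⟩

end SSIDE

section SPIECE0

open Set Filter Topology Metric
open scoped RealInnerProductSpace

lemma piece0_orb {p : ℕ} [NeZero p] (k : ZMod p) (x : S3) :
    (range fun l : ZMod p => sh l (sh k x)) = range fun l : ZMod p => sh l x := by
  ext y
  exact ⟨fun ⟨l, h⟩ => ⟨l + k, by simpa only [sh_sh] using h⟩,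
    fun ⟨l, h⟩ => ⟨l - k, by simpa only [sh_sh, sub_add_cancel] using h⟩⟩

theorem p_PIECE0 :
    S_PIECE0 := by
  classical
  intro p _ F _ N f H K y₀ ⟨Kc, Km, Kv⟩ hinj hy₀
  obtain ⟨ρ, hρ, hsep⟩ := H.sep
  obtain ⟨π, π1, π2, π3⟩ := exists_pi (p := p) (Φ := {z ∈ K | f z = y₀}) (ρ := ρ / 2)
    (fun x hx y hy hd => hsep x y (hx.2.trans hy.2.symm) (by linarith))
    (fun x hx => ⟨Km hx.1, (H.inv x).trans hx.2⟩)
  obtain ⟨η, hη, near⟩ := near_pt H.cont Kc y₀ (half_pos hρ)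
  obtain ⟨orb, horb⟩ : ∃ orb : S3 → Set S3, ∀ x, orb x = range fun k : ZMod p => sh k x :=
    ⟨_, fun _ => rfl⟩
  set M : Set S3 := {x | ∃ z ∈ {z ∈ K | f z = y₀}, dist x z < ρ / 2} with hMd
  have Mo : ∀ x ∈ M, M ∈ 𝓝 x := fun x ⟨z, hz, hd⟩ =>
    mem_of_superset (isOpen_ball.mem_nhds (mem_ball.2 hd)) fun y hy => ⟨z, hz, hy⟩
  have wsh : ∀ k : ZMod p, ∀ x ∈ M, orb (π (sh k x)) = orb (π x) := fun k x hx => by
    rw [π3 k x hx, horb, horb, piece0_orb]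
  have hM : ∀ x ∈ K, ‖f x - y₀‖ < η → x ∈ M := fun x hx h =>
    let ⟨z, h1, h2, h3⟩ := near x hx h; ⟨z, ⟨h1, h2⟩, h3⟩
  set C : Set (EV N) := {c ∈ f '' K | c ≠ y₀ ∧ ‖c - y₀‖ < η} with hC
  obtain ⟨O, e0⟩ : ∃ O : EV N → Set S3, ∀ x ∈ K, f x ∈ C → O (f x) = orb (π x) := by
    refine ⟨fun c => if h : c ∈ f '' K then orb (π h.choose) else ∅, fun x hx hc => ?_⟩
    obtain ⟨h1, h2⟩ := hc.1.choose_spec
    obtain ⟨k, hk⟩ := hinj x hx _ h1 h2.symm hc.2.1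
    simp only [dif_pos hc.1]
    rw [hk, wsh k x (hM x hx hc.2.2)]
  have l0 : LC C O := by
    rintro _ ⟨⟨x₀, hx₀, rfl⟩, hne, hlt⟩
    have m0 := hM x₀ hx₀ hlt
    have h1 := π2 x₀ m0
    rw [nhdsWithin_eq_nhds.2 (Mo x₀ m0)] at h1
    obtain ⟨r, hr, hb⟩ := Metric.mem_nhds_iff.1 h1
    obtain ⟨η', hη', h2⟩ := near_orb (p := p) H.cont Kc (y := f x₀) (z := x₀)
      (fun x hx e => hinj x₀ hx₀ x hx e.symm hne) hr
    filter_upwards [self_mem_nhdsWithin, nhdsWithin_le_nhds (ball_mem_nhds (f x₀) hη')]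
      with c hc hd
    obtain ⟨x, hx, rfl⟩ := hc.1
    obtain ⟨k, hk⟩ := mem_iUnion.1 (h2 x hx (mem_ball_iff_norm.1 hd))
    have h3 : π (sh (-k) x) = π x₀ := hb (by
      rw [mem_ball, ← dist_sh k, sh_sh_neg]; exact hk)
    rw [e0 x hx hc, e0 x₀ hx₀ ⟨⟨x₀, hx₀, rfl⟩, hne, hlt⟩, ← h3, wsh _ x (hM x hx hc.2.2)]
  obtain ⟨B, hB⟩ := isCompact_univ.exists_bound_of_continuousOn
    (f := fun x => f x - y₀) (H.cont.sub continuous_const).continuousOn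
  have B0 : 0 ≤ B := (norm_nonneg _).trans (hB hy₀.choose trivial)
  obtain ⟨t, t0, t1, tB⟩ : ∃ t : ℝ, 0 < t ∧ t ≤ 1 ∧ t * B < η :=
    ⟨η / (η + B), by positivity, (div_le_one (by positivity)).2 (by linarith), by
      rw [div_mul_eq_mul_div, div_lt_iff₀ (by positivity)]; nlinarith⟩
  have hT : ∀ s : ℝ, 0 < s → s ≤ 1 → ∀ c ∈ f '' K \ {y₀}, s * ‖c - y₀‖ < η →
      y₀ + s • (c - y₀) ∈ C := fun s s0 s1 c hc h =>
    ⟨Kv.add_smul_sub_mem hy₀ hc.1 ⟨s0.le, s1⟩,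
      by simpa [s0.ne', sub_eq_zero] using hc.2,
      by rwa [add_sub_cancel_left, norm_smul, Real.norm_of_nonneg s0.le]⟩
  have mT : MapsTo (fun c => y₀ + t • (c - y₀)) (f '' K \ {y₀}) C := fun c hc =>
    hT t t0 t1 c hc (by
      obtain ⟨x, -, rfl⟩ := hc.1
      exact (mul_le_mul_of_nonneg_left (hB x trivial) t0.le).trans_lt tB)
  have l1 := l0.comp (by fun_prop) mT
  have e1 : ∀ c ∈ C, O (y₀ + t • (c - y₀)) = O c := fun c hc => by
    have := (l0.comp (φ := fun s : ℝ => y₀ + s • (c - y₀)) (S := Icc t 1) (by fun_prop)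
      fun s hs => hT s (t0.trans_le hs.1) hs.2 c ⟨hc.1, hc.2.1⟩
        ((mul_le_of_le_one_left (norm_nonneg _) hs.2).trans_lt hc.2.2)).eq_of_preconn
      isPreconnected_Icc (left_mem_Icc.2 t1) (right_mem_Icc.2 t1)
    simpa using this
  refine ⟨_, fun x => if f x = y₀ then orb x else O (y₀ + t • (f x - y₀)), l1, fun x₀ hx₀ => ?_,
    fun x _ h => if_neg h, fun x _ h => (if_pos h).trans (horb x), fun x hx => ?_⟩
  · by_cases h0 : f x₀ = y₀
    · have c1 : ∀ᶠ x in 𝓝 x₀, ‖f x - y₀‖ < η :=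
        (H.cont.sub continuous_const).norm.continuousAt.eventually_lt continuousAt_const
          (by simpa [h0] using hη)
      filter_upwards [self_mem_nhdsWithin, nhdsWithin_le_nhds c1,
        nhdsWithin_le_nhds (ball_mem_nhds x₀ (half_pos hρ))] with x hx h1 h2
      rw [if_pos h0]
      split_ifs with h
      · rw [hsep x x₀ (h.trans h0.symm) (by linarith [mem_ball.1 h2])]
      · have hc : f x ∈ C := ⟨⟨x, hx, rfl⟩, h, h1⟩
        rw [e1 _ hc, e0 x hx hc, π1 x x₀ ⟨hx₀, h0⟩ h2]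
    · have c1 : ∀ᶠ x in 𝓝[K] x₀, f x ∈ f '' K \ {y₀} := by
        filter_upwards [self_mem_nhdsWithin,
          nhdsWithin_le_nhds (H.cont.continuousAt.eventually_ne h0)] with x hx h1
        exact ⟨⟨x, hx, rfl⟩, h1⟩
      filter_upwards [c1, (tendsto_nhdsWithin_iff.2 ⟨H.cont.continuousWithinAt, c1⟩).eventually
        (l1 _ ⟨⟨x₀, hx₀, rfl⟩, h0⟩)] with x h1 h2
      rw [if_neg h0, if_neg (show ¬f x = y₀ from h1.2), h2]
  · by_cases h0 : f x = y₀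
    · exact ⟨x, hx, h0, rfl⟩
    · have hc := mT ⟨⟨x, hx, rfl⟩, h0⟩
      obtain ⟨x', hx', e⟩ := hc.1
      simp only [← e] at hc
      obtain ⟨z, hz, hd⟩ := hM x' hx' hc.2.2
      refine ⟨z, hz.1, hz.2, ?_⟩
      simp only [if_pos hz.2, if_neg h0]
      rw [← show f x' = y₀ + t • (f x - y₀) from e, e0 x' hx' hc, π1 x' z hz hd]

end SPIECE0

section SPIECE

open Set Filter Topology Metric
open scoped RealInnerProductSpace

lemma piece_closed {Y T : Type} [TopologicalSpace Y] {K : Set Y} (hK : IsClosed K) {ω : Y → T}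
    (h : LC K ω) (t : T) : IsClosed {y ∈ K | ω y = t} := by
  refine isClosed_of_closure_subset fun y hy => ?_
  have hyK : y ∈ K := hK.closure_subset (closure_mono (fun _ h => h.1) hy)
  have h1 : ∃ᶠ z in 𝓝 y, z ∈ {y ∈ K | ω y = t} := mem_closure_iff_frequently.1 hy
  obtain ⟨z, hz, h2⟩ := (h1.and_eventually (eventually_nhdsWithin_iff.1 (h y hyK))).exists
  exact ⟨hyK, (h2 hz.1).symm.trans hz.2⟩

lemma piece_split {E : Type} [AddCommGroup E] [Module ℝ E] {c c' y d : E}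
    (hy : y ∈ segment ℝ c c') (hd : d ∈ segment ℝ c c') :
    d ∈ segment ℝ y c ∨ d ∈ segment ℝ y c' := by
  rw [segment_eq_image_lineMap] at hy hd
  obtain ⟨t, ht, rfl⟩ := hy
  obtain ⟨s, hs, rfl⟩ := hd
  rcases le_total s t with h | h
  · left
    have := mem_image_of_mem (AffineMap.lineMap c c' : ℝ →ᵃ[ℝ] E)
      (show s ∈ segment ℝ t 0 by rw [segment_symm, segment_eq_Icc ht.1]; exact ⟨hs.1, h⟩)
    rwa [image_segment, AffineMap.lineMap_apply_zero] at this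
  · right
    have := mem_image_of_mem (AffineMap.lineMap c c' : ℝ →ᵃ[ℝ] E)
      (show s ∈ segment ℝ t 1 by rw [segment_eq_Icc ht.2]; exact ⟨h, hs.2⟩)
    rwa [image_segment, AffineMap.lineMap_apply_one] at this

lemma piece_orb {p : ℕ} [NeZero p] (l : ZMod p) (x : S3) :
    (range fun k : ZMod p => sh k (sh l x)) = range fun k : ZMod p => sh k x := by
  ext z
  constructor
  · rintro ⟨k, rfl⟩
    exact ⟨k + l, (sh_sh k l x).symm⟩
  · rintro ⟨k, rfl⟩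
    exact ⟨k - l, by simp only [sh_sh, sub_add_cancel]⟩

theorem p_PIECE (hPIECE0 : S_PIECE0) :
    S_PIECE := by
  intro p _ F _ N f H K y₀ hK hinj
  by_cases h0 : y₀ ∈ f '' K
  swap
  · refine ⟨fun _ => ∅, LC.const _ _, fun x _ => ?_⟩
    have e : {y ∈ K | (∅ : Set S3) = ∅} = K := by simp
    rw [e]
    exact ⟨hK, fun a ha b hb hab => hinj a ha b hb hab fun h => h0 ⟨a, ha, h⟩,
      fun h => (h0 h).elim, fun _ _ _ => rfl⟩
  obtain ⟨Ω, ω, hΩ, hω, h1, h2, h3⟩ := hPIECE0 H K y₀ hK hinj h0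
  have hS : ∀ y ∈ K, ∀ z ∈ K, y₀ ∉ segment ℝ (f y) (f z) → ω z = ω y := fun y hy z hz hn => by
    have hs : segment ℝ (f y) (f z) ⊆ f '' K \ {y₀} := fun d hd =>
      ⟨hK.2.2.segment_subset ⟨y, hy, rfl⟩ ⟨z, hz, rfl⟩ hd, fun e => hn (e ▸ hd)⟩
    rw [h1 y hy (hs (left_mem_segment ℝ _ _)).2, h1 z hz (hs (right_mem_segment ℝ _ _)).2]
    exact (hΩ.mono hs).eq_of_preconn (convex_segment _ _).isPreconnected
      (right_mem_segment ℝ _ _) (left_mem_segment ℝ _ _)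
  refine ⟨ω, hω, fun x hx => ?_⟩
  have hstar : ∀ y ∈ K, ω y = ω x → ∀ d ∈ segment ℝ y₀ (f y),
      d ∈ f '' {y ∈ K | ω y = ω x} := fun y hy e d hd => by
    by_cases hd0 : d = y₀
    · obtain ⟨z, hz, e1, e2⟩ := h3 y hy
      exact ⟨z, ⟨hz, e2.trans e⟩, e1.trans hd0.symm⟩
    · obtain ⟨w, hw, rfl⟩ := hK.2.2.segment_subset h0 ⟨y, hy, rfl⟩ hd
      refine ⟨w, ⟨hw, (hS w hw y hy fun hm => hd0 ?_).symm.trans e⟩, rfl⟩
      exact (wbtw_swap_left_iff ℝ (f y)).1 ⟨mem_segment_iff_wbtw.1 hm, mem_segment_iff_wbtw.1 hd⟩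
  refine ⟨⟨piece_closed hK.1 hω _, fun y hy => ⟨hK.2.1 hy.1, Eq.trans ?_ hy.2⟩, ?_⟩, ?_,
    fun _ => ?_, fun y hy hn => hS x hx y hy hn⟩
  · by_cases e : f y = y₀
    · rw [h2 y hy.1 e, h2 _ (hK.2.1 hy.1) ((H.inv y).trans e)]
      exact piece_orb 1 y
    · rw [h1 y hy.1 e, h1 _ (hK.2.1 hy.1) ((H.inv y).trans_ne e), H.inv]
  · rw [convex_iff_segment_subset]
    rintro _ ⟨y, hy, rfl⟩ _ ⟨z, hz, rfl⟩ d hd
    by_cases hm : y₀ ∈ segment ℝ (f y) (f z)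
    · exact (piece_split hm hd).elim (hstar y hy.1 hy.2 d) (hstar z hz.1 hz.2 d)
    · obtain ⟨w, hw, rfl⟩ := hK.2.2.segment_subset ⟨y, hy.1, rfl⟩ ⟨z, hz.1, rfl⟩ hd
      exact ⟨w, ⟨hw, (hS y hy.1 w hw fun h => hm
        ((convex_segment _ _).segment_subset (left_mem_segment ℝ _ _) hd h)).trans hy.2⟩, rfl⟩
  · intro a ha b hb hab
    by_cases e : f a = y₀
    · have : b ∈ ω a := by
        rw [ha.2, ← hb.2, h2 b hb.1 (hab.symm.trans e)]
        exact ⟨0, sh_zero b⟩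
      rw [h2 a ha.1 e] at this
      obtain ⟨k, hk⟩ := this
      exact ⟨k, hk.symm⟩
    · exact hinj a ha.1 b hb.1 hab e
  · obtain ⟨z, hz, e1, e2⟩ := h3 x hx
    exact ⟨z, hz, e2, e1⟩

end SPIECE

section SSPLIT

open Set Filter Topology Metric
open scoped RealInnerProductSpace

lemma split_closed {T : Type} {K : Set S3} (hK : IsClosed K) {ω : S3 → T} (h : LC K ω) (t : T) :
    IsClosed {y ∈ K | ω y ≠ t} := by
  refine isClosed_of_closure_subset fun x hx => ?_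
  have hxK : x ∈ K := closure_minimal (fun _ hy => hy.1) hK hx
  have := mem_closure_iff_nhdsWithin_neBot.1 hx
  obtain ⟨y, h1, h2⟩ := (((h x hxK).filter_mono (nhdsWithin_mono x fun _ hy => hy.1)).and
    (self_mem_nhdsWithin (s := {y ∈ K | ω y ≠ t}))).exists
  exact ⟨hxK, h1 ▸ h2.2⟩

lemma split_maps {p : ℕ} [NeZero p] {T : Type} {K : Set S3} (hK : MapsTo (gn p) K K) {ω : S3 → T}
    {t : T} (h : MapsTo (gn p) {y ∈ K | ω y = t} {y ∈ K | ω y = t}) :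
    MapsTo (gn p) {y ∈ K | ω y ≠ t} {y ∈ K | ω y ≠ t} :=
  fun _ hy => ⟨hK hy.1, fun e => hy.2 ((gn_mem_iff h).1 ⟨hK hy.1, e⟩).2⟩

lemma split_eq (hMEET : S_MEET) {p : ℕ} [NeZero p] {F : Type} [Field F] {N : ℕ} {f : S3 → EV N}
    (H : Sys f p F) {K P : Set S3} {y₀ : EV N} {ω : S3 → Set S3} (hK : Cvx f p K)
    (hω : ∀ x ∈ K, Cvx f p {y ∈ K | ω y = ω x} ∧ InjG f p {y ∈ K | ω y = ω x} ∧
      (y₀ ∈ f '' K → ∃ y ∈ K, ω y = ω x ∧ f y = y₀) ∧
        ∀ y ∈ K, y₀ ∉ segment ℝ (f x) (f y) → ω y = ω x)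
    (hP : Cvx f p P) (iP : InjG f p P) {x w : S3} (hx : x ∈ P) (hx' : x ∈ K) (hw : w ∈ P)
    (hw' : w ∈ K) : ω w = ω x := by
  by_cases hs : y₀ ∈ segment ℝ (f x) (f w)
  · have h1 := hK.2.2.segment_subset (mem_image_of_mem f hx') (mem_image_of_mem f hw') hs
    obtain ⟨z, hz, ez⟩ := hP.2.2.segment_subset (mem_image_of_mem f hx) (mem_image_of_mem f hw) hs
    obtain ⟨cx, ix, ox, -⟩ := hω x hx'
    obtain ⟨cw, iw, ow, -⟩ := hω w hw'
    obtain ⟨a, a1, a2, a3⟩ := ox h1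
    obtain ⟨b, b1, b2, b3⟩ := ow h1
    obtain ⟨k, rfl⟩ := hMEET H _ _ cx ix hP iP ⟨x, ⟨hx', rfl⟩, hx⟩ a (Or.inl ⟨a1, a2⟩) z
      (Or.inr hz) (a3.trans ez.symm)
    obtain ⟨l, rfl⟩ := hMEET H _ _ cw iw hP iP ⟨w, ⟨hw', rfl⟩, hw⟩ _ (Or.inr hz) b
      (Or.inl ⟨b1, b2⟩) (ez.trans b3.symm)
    exact b2.symm.trans (mapsTo_sh cx.2.1 l (mapsTo_sh cx.2.1 k ⟨a1, a2⟩)).2
  · exact (hω x hx').2.2.2 w hw' hs

theorem p_SPLIT (hPIECE : S_PIECE) (hMEET : S_MEET) (hLA3 : S_LA3) :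
    S_SPLIT := by
  intro p _ F _ N f H K K' x₁ hK hK' hx h1 h2
  obtain ⟨ω, l1, hω⟩ := hPIECE H K (f x₁) hK h1
  obtain ⟨ω', l2, hω'⟩ := hPIECE H K' (f x₁) hK' h2
  obtain ⟨cQ, iQ, -⟩ := hω x₁ hx
  have cR := split_closed hK.1 l1 (ω x₁)
  have mR := split_maps hK.2.1 cQ.2.1
  by_cases hne : ({y ∈ K | ω y = ω x₁} ∩ K').Nonempty
  · obtain ⟨x', q1, q2⟩ := hne
    obtain ⟨cQ', iQ', -⟩ := hω' x' q2
    refine ⟨_ ∪ _, _ ∪ _, cQ.1.union cQ'.1, cR.union (split_closed hK'.1 l2 (ω' x')),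
      cQ.2.1.union_union cQ'.2.1, mR.union_union (split_maps hK'.2.1 cQ'.2.1),
      disjoint_left.2 ?_, ?_, Or.inl ⟨hx, rfl⟩, hLA3 H _ _ cQ iQ cQ' iQ', fun x hx' e =>
        hMEET H _ _ cQ iQ cQ' iQ' ⟨x', q1, q2, rfl⟩ x₁ (Or.inl ⟨hx, rfl⟩) x hx' e.symm⟩
    · rintro w (a | a) (b | b)
      · exact b.2 a.2
      · exact b.2 (split_eq hMEET H hK' hω' cQ iQ q1 q2 a b.1)
      · exact b.2 ((split_eq hMEET H hK hω cQ' iQ' ⟨q2, rfl⟩ q1.1 a b.1).trans q1.2)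
      · exact b.2 a.2
    · rintro w (a | a)
      · by_cases e : ω w = ω x₁
        exacts [Or.inl (Or.inl ⟨a, e⟩), Or.inr (Or.inl ⟨a, e⟩)]
      · by_cases e : ω' w = ω' x'
        exacts [Or.inl (Or.inr ⟨a, e⟩), Or.inr (Or.inr ⟨a, e⟩)]
  · refine ⟨_, _ ∪ K', cQ.1, cR.union hK'.1, cQ.2.1, mR.union_union hK'.2.1, disjoint_left.2 ?_,
      ?_, ⟨hx, rfl⟩, (hLA3 H _ _ cQ iQ cQ iQ).mono subset_union_left,
      fun x hx' e => iQ x₁ ⟨hx, rfl⟩ x hx' e.symm⟩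
    · rintro w a (b | b)
      exacts [b.2 a.2, hne ⟨w, a, b⟩]
    · rintro w (a | a)
      · by_cases e : ω w = ω x₁
        exacts [Or.inl ⟨a, e⟩, Or.inr (Or.inl ⟨a, e⟩)]
      · exact Or.inr (Or.inr a)

end SSPLIT

section SSHELL

open Set Filter Topology Metric
open scoped RealInnerProductSpace

theorem p_SHELL (hNBHD : S_NBHD) :
    S_SHELL := by
  intro p _ B C hB hC hBm _ hBC hL
  obtain ⟨O, hO, hOm, hBO, hLO⟩ := hNBHD B hBm hL
  have hsub : B ⊆ O ∩ Cᶜ := fun x hx => ⟨hBO hx, fun hc => disjoint_left.1 hBC hx hc⟩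
  obtain ⟨r, hr, hth⟩ :=
    hB.isCompact.exists_cthickening_subset_open (hO.inter hC.isOpen_compl) hsub
  have hcl : closure (thickening r B) ⊆ O ∩ Cᶜ :=
    (closure_thickening_subset_cthickening r B).trans hth
  exact ⟨thickening r B, O, isOpen_thickening, hO, maps_thickening hBm r, hOm,
    self_subset_thickening hr B, fun x hx => (hcl hx).1,
    disjoint_left.2 fun x hx => (hcl hx).2, hLO⟩

end SSHELL

section SNOP

open Set Filter Topology Metric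
open scoped RealInnerProductSpace

lemma nop_k {p : ℕ} [NeZero p] (hp : 3 ≤ p) (w : ZMod p) : ∃ k : ZMod p, k ≠ 0 ∧ k + w ≠ 0 := by
  classical
  have h : ({0, -w} : Finset (ZMod p)).card < (Finset.univ : Finset (ZMod p)).card := by
    rw [Finset.card_univ, ZMod.card]
    exact lt_of_le_of_lt Finset.card_le_two (by omega)
  obtain ⟨k, -, hk⟩ := Finset.exists_mem_notMem_of_card_lt_card h
  simp only [Finset.mem_insert, Finset.mem_singleton, not_or] at hk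
  exact ⟨k, hk.1, fun e => hk.2 (eq_neg_of_add_eq_zero_left e)⟩

lemma nop_zero {Y G : Type} [AddCommGroup G] (D : Set Y) (e : Y → G) {n : Set Y}
    (h : n ⊆ D ∨ n ⊆ Dᶜ) {a b : Y} (ha : a ∈ n) (hb : b ∈ n) : cech D e a b = 0 := by
  rcases h with h | h
  · simp [cech, h ha, h hb]
  · have h1 : a ∉ D := h ha
    have h2 : b ∉ D := h hb
    simp [cech, h1, h2]

lemma nop_const {Y G : Type} [TopologicalSpace Y] [AddCommGroup G] {D W n : Set Y} {e h : Y → G}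
    {φ : Y → Y} (H : IsP W (cech D e + fun x y => cech D e (φ x) (φ y)) h) (hW : n ⊆ W)
    (hn : IsPreconnected n) (h1 : n ⊆ D ∨ n ⊆ Dᶜ) (h2 : φ '' n ⊆ D ∨ φ '' n ⊆ Dᶜ) {a b : Y}
    (ha : a ∈ n) (hb : b ∈ n) : h a = h b := by
  refine (isP_zero_iff.1 ((H.mono hW).congr_c fun x hx y hy => ?_)).eq_of_preconn hn ha hb
  simp only [Pi.add_apply, Pi.zero_apply, nop_zero D e h1 hx hy,
    nop_zero D e h2 (mem_image_of_mem φ hx) (mem_image_of_mem φ hy), add_zero]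

theorem p_NOP (hCECH : S_CECH) :
    S_NOP := by
  classical
  intro p _ hp D O A V m₁ m₂ s hD hO hA iD iO iA iV hDO hL ls ss hVA hV h1 h2 c1 c2
    ⟨y1, ⟨hy1, vy1⟩, y1', ⟨hy1', vy1'⟩, n1⟩ ⟨y2, ⟨hy2, vy2⟩, y2', ⟨hy2', vy2'⟩, n2⟩
  obtain ⟨sg, lsg, ssg⟩ := hL
  obtain ⟨w, hw⟩ : ∃ w, w = s y2' - s y2 := ⟨_, rfl⟩
  have hw0 : w ≠ 0 := hw ▸ sub_ne_zero.2 n2.symm
  obtain ⟨k, hk0, hkw⟩ := nop_k hp w
  have DO : D ⊆ O := subset_closure.trans hDO
  have ev : ∀ x ∈ O, ∀ᶠ y in 𝓝 x, sg y = sg x := fun x hx => by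
    have := lsg x hx
    rwa [hO.nhdsWithin_eq hx] at this
  obtain ⟨D1, hD1⟩ : ∃ D1 : Set S3, D1 = {x | x ∈ D ∧ sg x = sg y1} := ⟨_, rfl⟩
  have mD1 : ∀ x, x ∈ D1 ↔ x ∈ D ∧ sg x = sg y1 := fun x => by rw [hD1]; rfl
  have sub1 : D1 ⊆ D := fun x hx => ((mD1 x).1 hx).1
  have o1 : IsOpen D1 := isOpen_iff_mem_nhds.2 fun x hx => by
    filter_upwards [hD.mem_nhds (sub1 hx), ev x (DO (sub1 hx))] with y hy hy'
    exact (mD1 y).2 ⟨hy, hy'.trans ((mD1 x).1 hx).2⟩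
  have fr : ∀ x ∈ closure D1, x ∉ D1 → x ∈ frontier D := fun x hx hx' => by
    have hxD := closure_mono sub1 hx
    refine ⟨hxD, fun hi => hx' ((mD1 x).2 ⟨interior_subset hi, ?_⟩)⟩
    obtain ⟨y, hy, hy'⟩ := mem_closure_iff_nhds.1 hx _ (ev x (hDO hxD))
    exact (show sg y = sg x from hy).symm.trans ((mD1 y).1 hy').2
  have inA : ∀ x ∈ (frontier D \ A)ᶜ, x ∈ closure D1 → x ∉ D1 → x ∈ A := fun x hx h h' => by
    by_contra hxA
    exact hx ⟨fr x h h', hxA⟩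
  let e : S3 → ZMod 2 := fun x => if s x = s y1 then 1 else 0
  obtain ⟨hC, hP, -⟩ := hCECH (frontier D \ A)ᶜ ((closure D1)ᶜ ∪ A) (D1 ∪ A) D1 e
    (fun x hx h => nhdsWithin_le_nhds ((o1.union hA).mem_nhds
      ((em (x ∈ D1)).imp id (inA x hx h))))
    (fun x hx h => nhdsWithin_le_nhds ((isClosed_closure.isOpen_compl.union hA).mem_nhds
      ((em (x ∈ closure D1)).symm.imp id fun h' => inA x hx h'
        (by rwa [o1.isClosed_compl.closure_eq] at h))))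
    ((ls.map fun t => if t = s y1 then (1 : ZMod 2) else 0).mono fun x hx =>
      hx.1.2.elim (fun h => hx.2.elim (fun h' => (h (subset_closure h')).elim) id) id)
  refine ⟨_, k, hC, fun ⟨h, H⟩ => ?_⟩
  have hPV := hP.mono (O' := V) fun x hx => ⟨fun h' => h'.2 (hVA hx), Or.inr (hVA hx)⟩
  have hθ := hV _ ((H.mono subset_union_left).lc_sub
    (hPV.add (hPV.comp (continuous_sh k).continuousOn (mapsTo_sh iV k))))
  simp only [Pi.add_apply] at hθ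
  have hW : ∀ (j : ZMod p) (m : Set S3), m ⊆ m₁ ∪ m₂ →
      sh j '' m ⊆ V ∪ ⋃ j : ZMod p, sh j '' (m₁ ∪ m₂) := fun j m hm =>
    ((image_mono hm).trans (subset_iUnion (fun j : ZMod p => sh j '' (m₁ ∪ m₂)) j)).trans
      subset_union_right
  have im : ∀ (j : ZMod p) (m : Set S3), sh k '' (sh j '' m) = sh (k + j) '' m := fun j m => by
    simp only [image_image, sh_sh]
  have m11 : m₁ ⊆ D1 := fun x hx =>
    (mD1 x).2 ⟨h1 hx, (lsg.mono (h1.trans DO)).eq_of_preconn c1 hx hy1⟩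
  have o1j : ∀ j : ZMod p, j ≠ 0 → ∀ x ∈ m₁, sh j x ∉ D1 := fun j hj x hx h => hj <| by
    have := ((mD1 _).1 h).2
    rw [ssg.sh_one iO j (DO (h1 hx)), ((mD1 x).1 (m11 hx)).2] at this
    simpa using this
  have o2j : ∀ j : ZMod p, ∀ x ∈ m₂, sh j x ∉ D1 := fun j x hx h =>
    h2 hx ((sh_mem_iff (iD.closure continuous_gn) j).1 (subset_closure (sub1 h)))
  have s1j : ∀ j : ZMod p, j ≠ 0 → sh j '' m₁ ⊆ D1ᶜ := fun j hj => by
    rintro _ ⟨x, hx, rfl⟩; exact o1j j hj x hx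
  have s2j : ∀ j : ZMod p, sh j '' m₂ ⊆ D1ᶜ := fun j => by
    rintro _ ⟨x, hx, rfl⟩; exact o2j j x hx
  have sV : ∀ (j : ZMod p), ∀ x ∈ V, s (sh j x) = s x + j := fun j x hx => ss.sh_one iA j (hVA hx)
  have step : ∀ y ∈ V, h y - (-D1.indicator e y + -D1.indicator e (sh k y)) =
      h (sh w y) - (-D1.indicator e (sh w y) + -D1.indicator e (sh k (sh w y))) := fun y hy => by
    have e1 := hθ y hy _ (mapsTo_sh iV (s y - s y2) vy2) (by rw [sV _ _ vy2]; ring)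
    have e2 := hθ _ (mapsTo_sh iV w hy) _ (mapsTo_sh iV (s y - s y2) vy2')
      (by rw [sV _ _ vy2', sV _ _ hy, hw]; ring)
    have e3 := nop_const H (hW (s y - s y2) m₂ subset_union_right)
      (c2.image _ (continuous_sh _).continuousOn) (Or.inr (s2j _))
      (Or.inr (by rw [im]; exact s2j _)) (mem_image_of_mem _ hy2) (mem_image_of_mem _ hy2')
    rw [e1, e2, e3]
    simp only [sh_sh, indicator_of_notMem (o2j _ _ hy2), indicator_of_notMem (o2j _ _ hy2')]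
  have e4 := nop_const H (hW w m₁ subset_union_left)
    (c1.image _ (continuous_sh _).continuousOn) (Or.inr (s1j _ hw0))
    (Or.inr (by rw [im]; exact s1j _ hkw)) (mem_image_of_mem _ hy1) (mem_image_of_mem _ hy1')
  have e5 : h y1 = h y1' := nop_const H (by simpa using hW 0 m₁ subset_union_left) c1
    (Or.inl m11) (Or.inr (s1j _ hk0)) hy1 hy1'
  have a1 := step y1 vy1
  have a2 := step y1' vy1'
  simp only [sh_sh, indicator_of_notMem (o1j _ hw0 _ hy1), indicator_of_notMem (o1j _ hw0 _ hy1'),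
    indicator_of_notMem (o1j _ hkw _ hy1), indicator_of_notMem (o1j _ hkw _ hy1'),
    indicator_of_notMem (o1j _ hk0 _ hy1), indicator_of_notMem (o1j _ hk0 _ hy1'),
    indicator_of_mem (m11 hy1), indicator_of_mem (m11 hy1'), e, if_true, if_neg n1.symm] at a1 a2
  rw [e4, ← a2, e5] at a1
  simp at a1

end SNOP

end Pool.Agent.P.MP_c88051_gt.Im
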