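import Pool.Agent.P.MP_c88051_gt.Im.IfaceA

/-! Steps MEM, OPENP, GW2, GW1, GW, LA, DBL1. -/

set_option autoImplicit false
set_option linter.unusedSectionVars false

namespace Pool.Agent.P.MP_c88051_gt.Im

section SMEM

open Set Filter Topology Metric
open scoped RealInnerProductSpace

theorem p_MEM (hZ1 : S_Z1) (hBA : S_BA) :
    S_MEM := by
  intro p _ F _ N f H b β k hβ hne
  have hs : IsC (U f b) (fun x y => β (sh k x) (sh k y)) :=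
    hβ.comp (isometry_sh k).continuous.continuousOn (mapsTo_sh (H.mapsU b) k)
  by_cases hl : Lf p (U f b)
  · rcases (U f b).eq_empty_or_nonempty with he | ⟨x, hx⟩
    · exact ⟨0, fun x hx => absurd (he ▸ hx : x ∈ (∅ : Set S3)) (notMem_empty x)⟩
    · obtain ⟨h, h1, -⟩ := hZ1 H b _ 0 x hl ((hβ.sub hs).cz 2) hx
      exact ⟨h, h1⟩
  · obtain ⟨κ, dg, -, h1, h2, h3, h4, -⟩ := hBA H b hl hne
    refine (h4 _ 2 (hβ.sub hs)).2 ?_
    have e : (β - fun x y => β (sh k x) (sh k y)) =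
        β + (-1 : ℤ) • fun x y => β (sh k x) (sh k y) := by simp [sub_eq_add_neg]
    rw [e, h1 _ _ hβ (hs.zsmul (-1)), h2 _ _ hs, h3 _ _ hβ]
    simp

end SMEM

section SOPENP

open Set Filter Topology Metric
open scoped RealInnerProductSpace

theorem p_OPENP :
    S_OPENP := by
  intro Y G _ _ T O c h hT hO hTO hc hp
  obtain ⟨δ, hδ, H⟩ := lebesgue_number_lemma_of_metric_sUnion (s := T)
    (c := {n | IsOpen n ∧ n ⊆ O ∧ CocOn n c ∧ ∀ a ∈ n ∩ T, ∀ b ∈ n ∩ T, c a b = h b - h a}) hT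
    (fun t ht => ht.1) (fun x hx => by
      obtain ⟨n, hn, h1⟩ := hc x (hTO hx)
      obtain ⟨m, hm, h2⟩ := hp x hx
      obtain ⟨u, hu, hxu, hun⟩ := mem_nhdsWithin.1 hn
      obtain ⟨w, hw, hxw, hwm⟩ := mem_nhdsWithin.1 hm
      refine ⟨u ∩ O ∩ w, ⟨(hu.inter hO).inter hw, fun y hy => hy.1.2,
        h1.mono fun y hy => hun hy.1, fun a ha b hb => h2 a (hwm ⟨ha.1.2, ha.2⟩) b
          (hwm ⟨hb.1.2, hb.2⟩)⟩, ⟨hxu, hTO hx⟩, hxw⟩)
  have ex : ∀ y : Y, ∃ z : Y, y ∈ thickening (δ / 3) T → z ∈ T ∧ dist y z < δ / 3 := fun y => by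
    by_cases hy : y ∈ thickening (δ / 3) T
    · obtain ⟨z, hz, hd⟩ := mem_thickening_iff.1 hy
      exact ⟨z, fun _ => ⟨hz, hd⟩⟩
    · exact ⟨y, fun h => (hy h).elim⟩
  choose z hz using ex
  refine ⟨thickening (δ / 3) T, fun y => h (z y) + c (z y) y, isOpen_thickening,
    self_subset_thickening (by positivity) T, fun y hy => ?_, fun y hy => ?_⟩
  · obtain ⟨n, hn, hb⟩ := H _ (hz y hy).1
    exact hn.2.1 (hb (by rw [mem_ball]; linarith [(hz y hy).2]))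
  · obtain ⟨hw, hd⟩ := hz y hy
    obtain ⟨n, hn, hb⟩ := H _ hw
    have hwn : z y ∈ n := hb (mem_ball_self hδ)
    have key : ∀ a ∈ ball (z y) (δ / 3), a ∈ n ∧ h (z a) + c (z a) a = h (z y) + c (z y) a := by
      intro a ha
      rw [mem_ball] at ha
      obtain ⟨h1, h2⟩ := hz a (mem_thickening_iff.2 ⟨_, hw, ha⟩)
      have han : a ∈ n := hb (by rw [mem_ball]; linarith)
      have hzn : z a ∈ n := hb (by
        rw [mem_ball]; linarith [dist_triangle_left (z a) (z y) a])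
      refine ⟨han, ?_⟩
      rw [← hn.2.2.1 _ hwn _ hzn _ han, hn.2.2.2 _ ⟨hwn, hw⟩ _ ⟨hzn, h1⟩]; abel
    refine ⟨ball (z y) (δ / 3), mem_nhdsWithin_of_mem_nhds (isOpen_ball.mem_nhds hd),
      fun a ha b hb' => ?_⟩
    beta_reduce
    rw [(key a ha).2, (key b hb').2, hn.2.2.1.sub hwn (key a ha).1 (key b hb').1]; abel

end SOPENP

section SGW2

open Set Filter Topology Metric
open scoped RealInnerProductSpace

theorem p_GW2 :
    S_GW2 := by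
  intro Y G ι _ _ T W R n m B c h b hR hn hT hh hb hm hij hg
  classical
  choose g hg using hg
  let k : Y → G := fun y =>
    if y ∈ R then h y else if H : ∃ j, y ∈ n j then b H.choose y + g H.choose else 0
  have key : ∀ i, ∀ y ∈ T ∩ n i, k y = b i y + g i := by
    intro i y hy
    by_cases hyR : y ∈ R
    · have := hg i y ⟨Or.inr ⟨hy.1, hyR⟩, hy.2⟩
      simp only [k, if_pos hyR]
      rw [← this]; abel
    · have H : ∃ j, y ∈ n j := ⟨i, hy.2⟩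
      simp only [k, if_neg hyR, dif_pos H]
      have hj := H.choose_spec
      generalize H.choose = j at hj ⊢
      obtain ⟨h1, z, hz⟩ := hij i j ⟨y, ⟨hy, hj⟩, hyR⟩
      have hl : LC (m j) (fun x => b i x - b j x) :=
        ((hb i).mono h1).lc_sub ((hb j).mono (hm j).2.2)
      have e := hl.eq_of_preconn (hm j).1 ((hm j).2.1 ⟨hy.1, hj⟩) hz.1.2
      have e1 := hg i z ⟨Or.inl hz.1.1.1, hz.1.1.2⟩
      have e2 := hg j z ⟨Or.inl hz.1.1.1, hz.2⟩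
      rw [← e1, ← e2, eq_comm, ← sub_eq_zero]
      rw [← sub_eq_zero] at e
      rw [← e]; abel
  refine ⟨k, IsP.of_local fun x hx => ?_⟩
  rcases hT hx with hxR | hxn
  · refine ⟨T ∩ R, inter_mem_nhdsWithin _ (hR.mem_nhds hxR), hh.congr fun y hy => ?_⟩
    simp only [k, if_pos hy.2]
  · obtain ⟨i, hi⟩ := mem_iUnion.1 hxn
    refine ⟨T ∩ n i, inter_mem_nhdsWithin _ ((hn i).mem_nhds hi), ?_⟩
    exact (((hb i).mono ((hm i).2.1.trans (hm i).2.2)).add_lc (LC.const _ (g i))).congr (key i)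

end SGW2

section SGW1

open Set Filter Topology Metric
open scoped RealInnerProductSpace

lemma gw1_meet {N : ℕ} {f : S3 → EV N} {a : EV N × ℝ} (S : Set S3) :
    ∀ᶠ τ in 𝓝[>] (0 : ℝ), (S ∩ U f (-a)).Nonempty → (S ∩ U f (up (-a) (-τ))).Nonempty := by
  by_cases h : (S ∩ U f (-a)).Nonempty
  · obtain ⟨x, hx, h⟩ := h
    rw [mem_U_neg, ← sub_pos] at h
    filter_upwards [nhdsWithin_le_nhds (Iio_mem_nhds h)] with τ hτ _
    exact ⟨x, hx, mem_U_neg_up.2 (by linarith [mem_Iio.1 hτ])⟩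
  · exact Eventually.of_forall fun _ h' => absurd h' h

lemma gw1_cpt {N : ℕ} {f : S3 → EV N} (hf : Continuous f) {a : EV N × ℝ} {K : Set S3}
    (hK : IsCompact K) (h : K ⊆ U f (-a)) :
    ∀ᶠ τ in 𝓝[>] (0 : ℝ), K ⊆ U f (up (-a) (-τ)) := by
  obtain ⟨c, hc, h1⟩ := hK.exists_forall_le' (f := fun x => ⟪a.1, f x⟫ - a.2) (a := 0)
    (by fun_prop) fun x hx => sub_pos.2 (mem_U_neg.1 (h hx))
  filter_upwards [nhdsWithin_le_nhds (Iio_mem_nhds hc)] with τ hτ x hx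
  exact mem_U_neg_up.2 (by linarith [mem_Iio.1 hτ, h1 x hx])

lemma gw1_loc {G : Type} {V X : Set S3} {t : S3 → G} {w : S3} (h1 : Gd V t w) (h2 : LcAt X w)
    {r : ℝ} (hr : 0 < r) : ∃ n m : Set S3, IsOpen n ∧ w ∈ n ∧ IsPreconnected m ∧ n ∩ X ⊆ m ∧
      m ⊆ ball w r ∩ X ∧ n ⊆ ball w r ∧ (∀ y ∈ n ∩ V, ∀ y' ∈ n ∩ V, t y = t y') ∧
      (n ∩ V).Nonempty := by
  obtain ⟨m, hm, m1, m2⟩ := h2 _ (ball_mem_nhds w hr)
  obtain ⟨u, u1, u2, u3⟩ := mem_nhdsWithin.1 hm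
  obtain ⟨hc, k, hk⟩ := h1
  obtain ⟨u', v1, v2, v3⟩ := mem_nhdsWithin.1 hk
  have ho : IsOpen (u ∩ u' ∩ ball w r) := (u1.inter v1).inter isOpen_ball
  have hw : w ∈ u ∩ u' ∩ ball w r := ⟨⟨u2, v2⟩, mem_ball_self hr⟩
  exact ⟨_, m, ho, hw, m2, fun y hy => u3 ⟨hy.1.1.1, hy.2⟩, m1, inter_subset_right,
    fun y hy y' hy' => (v3 ⟨hy.1.1.2, hy.2⟩).trans (v3 ⟨hy'.1.1.2, hy'.2⟩).symm,
    mem_closure_iff.1 hc _ ho hw⟩

lemma gw1_dir {N : ℕ} {u z : EV N} {ρ : ℝ} (hρ : 0 < ρ) (h : 4 * ρ ≤ ‖u‖) :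
    ‖‖u‖⁻¹ • u‖ = 1 ∧ (‖z - u‖ < 2 * ρ → 2 * ρ < ⟪‖u‖⁻¹ • u, z⟫) := by
  have h0 : u ≠ 0 := norm_pos_iff.1 (by linarith)
  have e1 : ‖‖u‖⁻¹ • u‖ = 1 := norm_smul_inv_norm h0
  refine ⟨e1, fun hz => ?_⟩
  have e2 : ⟪‖u‖⁻¹ • u, u⟫ = ‖u‖ := by
    rw [real_inner_smul_left, real_inner_self_eq_norm_mul_norm,
      inv_mul_cancel_left₀ (norm_ne_zero_iff.2 h0)]
  have e3 := abs_real_inner_le_norm (‖u‖⁻¹ • u) (z - u)
  rw [e1, one_mul, inner_sub_right, e2] at e3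
  linarith [(abs_le.1 e3).1]

theorem p_GW1 :
    S_GW1 := by
  intro p _ F _ N f H a t T v y₀ κ ρ κ₀ r _ _ hT hTU hκ hρ hκ₀ hr hρT hG
  have hf := H.cont
  have hv : 0 < ‖v‖ + 1 := by positivity
  obtain ⟨δ, hδ, hu⟩ := Metric.uniformContinuous_iff.1
    (CompactSpace.uniformContinuous_of_continuous hf) (min (2 * ρ) (κ / (‖v‖ + 1))) (by positivity)
  obtain ⟨r', r0, r1, r2, r3⟩ : ∃ r' : ℝ, 0 < r' ∧ 3 * r' ≤ r ∧ 3 * r' ≤ 1 ∧ 2 * r' ≤ δ := by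
    obtain ⟨x, x0, x1⟩ := exists_between (show 0 < min (r / 3) (min (1 / 3) (δ / 2)) by positivity)
    simp only [lt_min_iff] at x1
    exact ⟨x, x0, by linarith [x1.1], by linarith [x1.2.1], by linarith [x1.2.2]⟩
  have hb : ∀ w, ∀ y ∈ ball w r', ∀ y' ∈ ball w r',
      ‖f y - f y'‖ < 2 * ρ ∧ ‖f y - f y'‖ < κ / (‖v‖ + 1) := fun w y hy y' hy' => by
    rw [← lt_min_iff, ← dist_eq_norm]
    exact hu (by linarith [dist_triangle_right y y' w, mem_ball.1 hy, mem_ball.1 hy'])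
  let T0 : Set S3 := T ∩ ({w | ⟪a.1, f w⟫ = a.2} ∩ {w | ⟪v, f w - y₀⟫ ≤ 3 * κ})
  have c0 : IsCompact T0 := hT.inter_right
    ((isClosed_eq (by fun_prop) continuous_const).inter (isClosed_le (by fun_prop) continuous_const))
  choose! n m h1 h2 h3 h4 h5 h6 h7 h8 using fun w (hw : w ∈ T0) =>
    let g := hG w hw.1 hw.2.1 (by linarith [show ⟪v, f w - y₀⟫ ≤ 3 * κ from hw.2.2])
    gw1_loc g.1 g.2 r0
  obtain ⟨s, s1, s2⟩ := c0.elim_nhds_subcover n fun w hw => (h1 w hw).mem_nhds (h2 w hw)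
  have ho : IsOpen ((⋃ w ∈ s, n w) ∪ {y | 3 * κ < ⟪v, f y - y₀⟫}) :=
    (isOpen_biUnion fun w hw => h1 w (s1 w hw)).union (isOpen_lt continuous_const (by fun_prop))
  have e1 := gw1_cpt hf (a := a) (hT.diff ho) fun y hy => mem_U_neg.2
    ((mem_Ucl_neg.1 (hTU hy.1)).lt_of_ne fun e => hy.2 (by
      by_cases h : 3 * κ < ⟪v, f y - y₀⟫
      exacts [Or.inr h, Or.inl (s2 ⟨hy.1, e.symm, not_lt.1 h⟩)]))
  have e2 := eventually_all.2 fun i : s => gw1_meet (f := f) (a := a) (n i)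
  have e3 := eventually_all.2 fun i : s => eventually_all.2 fun j : s =>
    gw1_meet (f := f) (a := a) (n i ∩ n j)
  obtain ⟨τ, ⟨⟨t1, t2⟩, t3⟩, t4⟩ := (((e1.and e2).and e3).and (Ioo_mem_nhdsGT hκ₀)).exists
  refine ⟨s, inferInstance, fun i => i, fun i => n i, fun i => m i,
    fun i => ‖f i - y₀‖⁻¹ • (f i - y₀), r', τ, r0, r1, r2, t4.1, t4.2, fun i => ?_,
    fun y hy => ?_, t3⟩
  · have hi := s1 i i.2
    refine ⟨hi.1, h1 i hi, h3 i hi, h4 i hi, h5 i hi, h6 i hi,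
      (gw1_dir (z := 0) hρ (hρT i hi.1)).1, fun y hy => (gw1_dir hρ (hρT i hi.1)).2 ?_,
      fun y hy y' hy' => ?_, h7 i hi, t2 i (h8 i hi)⟩
    · rw [sub_sub_sub_cancel_right]
      exact (hb i y hy i (mem_ball_self r0)).1
    · have b1 := (lt_div_iff₀ hv).1 (hb i y hy y' hy').2
      have b2 := real_inner_le_norm v (f y - f y')
      simp only [inner_sub_right] at b2 ⊢
      nlinarith [norm_nonneg (f y - f y')]
  · by_cases h : y ∈ (⋃ w ∈ s, n w) ∪ {y | 3 * κ < ⟪v, f y - y₀⟫}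
    · rcases h with h | h
      · obtain ⟨w, hw, h⟩ := mem_iUnion₂.1 h
        exact Or.inr (Or.inr ⟨⟨w, hw⟩, h⟩)
      · exact Or.inr (Or.inl h)
    · exact Or.inl (t1 ⟨hy, h⟩)

end SGW1

section SGW

open Set Filter Topology Metric
open scoped RealInnerProductSpace

/-- The tilted half-space. -/
noncomputable def gw_bb {N : ℕ} (a : EV N × ℝ) (y₀ : EV N) (ε : ℝ) (u : EV N) (c : ℝ) : EV N × ℝ :=
  (-(a.1 + ε • u), -(a.2 + ε * (⟪u, y₀⟫ + c)))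

lemma gw_U {N : ℕ} {f : S3 → EV N} {a : EV N × ℝ} {y₀ u : EV N} {ε c : ℝ} {x : S3} :
    x ∈ U f (gw_bb a y₀ ε u c) ↔ a.2 < ⟪a.1, f x⟫ + ε * (⟪u, f x - y₀⟫ - c) := by
  simp only [U, gw_bb, mem_ofPred_eq, inner_neg_left, inner_add_left, real_inner_smul_left,
    inner_sub_right]
  constructor <;> intro h <;> linarith

lemma gw_Ucl {N : ℕ} {f : S3 → EV N} {a : EV N × ℝ} {y₀ u : EV N} {ε c : ℝ} {x : S3} :
    x ∈ Ucl f (gw_bb a y₀ ε u c) ↔ a.2 ≤ ⟪a.1, f x⟫ + ε * (⟪u, f x - y₀⟫ - c) := by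
  simp only [Ucl, gw_bb, mem_ofPred_eq, inner_neg_left, inner_add_left, real_inner_smul_left,
    inner_sub_right]
  constructor <;> intro h <;> linarith

lemma gw_bound {N : ℕ} {f : S3 → EV N} (hf : Continuous f) (y₀ : EV N) {K : ℝ} (hK : 0 < K) :
    ∃ M > (0 : ℝ), ∀ (u : EV N) (c : ℝ) (x : S3), ‖u‖ ≤ K → |c| ≤ K →
      |⟪u, f x - y₀⟫ - c| ≤ M := by
  obtain ⟨C, hC⟩ := isCompact_univ.exists_bound_of_continuousOn
    (show ContinuousOn (fun x => f x - y₀) univ by fun_prop)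
  refine ⟨K * |C| + K, by positivity, fun u c x hu hc => (abs_sub _ _).trans ?_⟩
  have : |⟪u, f x - y₀⟫| ≤ K * |C| := (abs_real_inner_le_norm _ _).trans
    (mul_le_mul hu ((hC x trivial).trans (le_abs_self _)) (norm_nonneg _) hK.le)
  linarith

theorem p_GW (hGW1 : S_GW1) (hGW2 : S_GW2) (hBALL : S_BALL) :
    S_GW := by
  intro p _ F _ N f H a t T v y₀ κ ρ κ₀ r t1 t2 hT hTa hκ hρ hκ₀ hr hfar hgd
  obtain ⟨ι, _, w, n, m, e, r', τ, hr', hr1, hr2, hτ, hτκ, hi, hcov, hov⟩ :=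
    hGW1 H a t T v y₀ κ ρ κ₀ r t1 t2 hT hTa hκ hρ hκ₀ hr hfar hgd
  obtain ⟨M, hM, hb⟩ := gw_bound H.cont y₀ (K := 1 + ‖v‖ + 2 * ρ + 2 * κ) (by positivity)
  obtain ⟨ε, hε, hεM⟩ : ∃ ε > (0 : ℝ), ε * M = τ := ⟨τ / M, by positivity, by field_simp⟩
  have nv := norm_nonneg v
  have b1 : ∀ x, |ε * (⟪v, f x - y₀⟫ - 2 * κ)| ≤ τ := fun x => by
    rw [abs_mul, abs_of_pos hε, ← hεM]
    exact mul_le_mul_of_nonneg_left (hb _ _ x (by linarith)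
      (by rw [abs_of_pos (by positivity)]; linarith)) hε.le
  have b2 : ∀ i x, |ε * (⟪e i, f x - y₀⟫ - 3 * ρ / 2)| ≤ τ := fun i x => by
    rw [abs_mul, abs_of_pos hε, ← hεM]
    exact mul_le_mul_of_nonneg_left (hb _ _ x (by rw [(hi i).2.2.2.2.2.2.1]; linarith)
      (by rw [abs_of_pos (by positivity)]; linarith)) hε.le
  have hμ : 0 < min (ρ / 2) κ := by positivity
  refine ⟨ε * min (ρ / 2) κ / 2, by positivity, insert (gw_bb a y₀ ε v (2 * κ))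
    (range fun i => gw_bb a y₀ ε (e i) (3 * ρ / 2)), (finite_range _).insert _, ?_,
    fun c hc hC => ?_⟩
  · rintro b (rfl | ⟨i, rfl⟩) x hx <;> rw [gw_Ucl] at hx
    · refine ⟨by linarith [(abs_le.1 (b1 x)).2], fun _ h2 => ?_⟩
      nlinarith [mul_le_mul_of_nonneg_left (min_le_right (ρ / 2) κ) hε.le, mul_pos hε hμ,
        mul_le_mul_of_nonneg_left h2 hε.le]
    · refine ⟨by linarith [(abs_le.1 (b2 i x)).2], fun h1 _ => ?_⟩
      have h2 : ⟪e i, f x - y₀⟫ ≤ ρ := (real_inner_le_norm _ _).trans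
        (by rwa [(hi i).2.2.2.2.2.2.1, one_mul])
      nlinarith [mul_le_mul_of_nonneg_left (min_le_left (ρ / 2) κ) hε.le, mul_pos hε hμ,
        mul_le_mul_of_nonneg_left h2 hε.le]
  obtain ⟨k, hk⟩ := hC _ (mem_insert _ _)
  choose h hh using fun i => hC _ (mem_insert_of_mem _ (mem_range_self i))
  choose b hbp using fun i => hBALL (w i) (3 * r') hr2 c (hc.mono fun y hy =>
    mem_thickening_iff.2 ⟨w i, (hi i).1, (mem_ball.1 hy).trans_le hr1⟩)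
  have W0 : U f (up (-a) (-τ)) ⊆ U f (-a) := fun x hx =>
    mem_U_neg.2 (by linarith [mem_U_neg_up.1 hx])
  have W1 : U f (up (-a) (-τ)) ⊆ U f (gw_bb a y₀ ε v (2 * κ)) := fun x hx =>
    gw_U.2 (by linarith [mem_U_neg_up.1 hx, (abs_le.1 (b1 x)).1])
  have W2 : ∀ i, U f (up (-a) (-τ)) ⊆ U f (gw_bb a y₀ ε (e i) (3 * ρ / 2)) := fun i x hx =>
    gw_U.2 (by linarith [mem_U_neg_up.1 hx, (abs_le.1 (b2 i x)).1])
  have V1 : ∀ x ∈ Ucl f (-a), 2 * κ < ⟪v, f x - y₀⟫ → x ∈ U f (gw_bb a y₀ ε v (2 * κ)) :=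
    fun x hx h2 => gw_U.2 (by linarith [mem_Ucl_neg.1 hx, mul_pos hε (sub_pos.2 h2)])
  have mB : ∀ i, m i ⊆ ball (w i) (3 * r') := fun i x hx =>
    ball_subset_ball (by linarith) ((hi i).2.2.2.2.1 hx).1
  refine hGW2 T (U f (up (-a) (-τ))) (U f (up (-a) (-τ)) ∪ {y | 3 * κ < ⟪v, f y - y₀⟫}) n m
    (fun i => ball (w i) (3 * r')) c k b
    ((H.openU _).union (isOpen_lt continuous_const (by have := H.cont; fun_prop)))
    (fun i => (hi i).2.1) (fun y hy => ?_) (hk.mono ?_) hbp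
    (fun i => ⟨(hi i).2.2.1, fun y hy => (hi i).2.2.2.1 ⟨hy.2, hTa hy.1⟩, mB i⟩) ?_ fun i => ?_
  · rcases hcov y hy with h1 | h1 | h1
    exacts [Or.inl (Or.inl h1), Or.inl (Or.inr h1), Or.inr (mem_iUnion.2 h1)]
  · rintro y ⟨hy, h1 | h1⟩
    · exact W1 h1
    · exact V1 y (hTa hy) (by linarith [show 3 * κ < ⟪v, f y - y₀⟫ from h1])
  · rintro i j ⟨y, ⟨⟨hy, hyi⟩, hyj⟩, hR⟩
    refine ⟨fun z hz => ?_, ?_⟩
    · have h1 := mem_ball.1 ((hi i).2.2.2.2.2.1 hyi)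
      have h2 := mem_ball.1 ((hi j).2.2.2.2.2.1 hyj)
      have h3 := mem_ball.1 ((hi j).2.2.2.2.1 hz).1
      have h4 := dist_triangle4 z (w j) y (w i)
      rw [dist_comm (w j) y] at h4
      exact mem_ball.2 (by linarith)
    · have : (n i ∩ n j ∩ U f (-a)).Nonempty := by
        rcases (mem_Ucl_neg.1 (hTa hy)).eq_or_lt with h1 | h1
        · have h2 : ⟪v, f y - y₀⟫ ≤ 3 * κ := not_lt.1 fun h2 => hR (Or.inr h2)
          exact mem_closure_iff.1 (hgd y hy h1.symm (by linarith)).1.1 _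
            ((hi i).2.1.inter (hi j).2.1) ⟨hyi, hyj⟩
        · exact ⟨y, ⟨hyi, hyj⟩, mem_U_neg.2 h1⟩
      obtain ⟨z, ⟨z1, z2⟩, z3⟩ := hov i j this
      exact ⟨z, ⟨⟨z3, z1⟩, (hi j).2.2.2.1 ⟨z2, U_sub_Ucl _ (W0 z3)⟩⟩, z2⟩
  · obtain ⟨-, -, pc, nm, mb, nb, -, he, hv, ht, z, z1, z2⟩ := hi i
    have zm : z ∈ m i := nm ⟨z1, U_sub_Ucl _ (W0 z2)⟩
    have mU : m i ⊆ U f (gw_bb a y₀ ε (e i) (3 * ρ / 2)) := fun x hx => gw_U.2 (by
      have h1 : 0 < ⟪e i, f x - y₀⟫ - 3 * ρ / 2 := by linarith [he x (mb hx).1]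
      linarith [mem_Ucl_neg.1 (mb hx).2, mul_pos hε h1])
    have A : ∀ y ∈ U f (up (-a) (-τ)), y ∈ n i → k y - b i y = k z - b i z := fun y hy hn => by
      have h1 := H.eq_of_label (t1.mono W0) (t2.mono W0)
        ((hk.mono W1).lc_sub ((hh i).mono (W2 i))) hy z2 (ht y ⟨hn, W0 hy⟩ z ⟨z1, W0 z2⟩)
      have h2 := (((hh i).mono mU).lc_sub ((hbp i).mono (mB i))).eq_of_preconn pc
        (nm ⟨hn, U_sub_Ucl _ (W0 hy)⟩) zm
      linear_combination h1 + h2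
    refine ⟨k z - b i z, ?_⟩
    rintro y ⟨h1 | ⟨hy, h1 | h1⟩, hn⟩
    · exact A y h1 hn
    · exact A y h1 hn
    · have h3 : 3 * κ < ⟪v, f y - y₀⟫ := h1
      have mV : m i ⊆ U f (gw_bb a y₀ ε v (2 * κ)) := fun x hx =>
        V1 x (mb hx).2 (by linarith [hv y (nb hn) x (mb hx).1])
      exact ((hk.mono mV).lc_sub ((hbp i).mono (mB i))).eq_of_preconn pc (nm ⟨hn, hTa hy⟩) zm

end SGW

section SLA

open Set Filter Topology Metric
open scoped RealInnerProductSpace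

lemma la_max {p : ℕ} [NeZero p] {F : Type} [Field F] {N : ℕ} {f : S3 → EV N} (H : Sys f p F)
    {K K' : Set S3} (hK : IsClosed K) (hK' : IsClosed K') (h : ¬(InjG f p K ∧ InjG f p K')) :
    ∃ x₁ x₂, ((x₁ ∈ K ∧ x₂ ∈ K) ∨ (x₁ ∈ K' ∧ x₂ ∈ K')) ∧ f x₂ = f x₁ ∧ (∀ k : ZMod p, x₂ ≠ sh k x₁) ∧
      ∀ x y, ((x ∈ K ∧ y ∈ K) ∨ (x ∈ K' ∧ y ∈ K')) → f x = f y → f x ≠ f x₁ →
        ⟪-f x₁, f x - f x₁⟫ ≤ 0 → ∃ k : ZMod p, y = sh k x := by
  obtain ⟨ρ, hρ, hs⟩ := H.sep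
  have hf := H.cont
  let P : Set (S3 × S3) := {z | ((z.1 ∈ K ∧ z.2 ∈ K) ∨ (z.1 ∈ K' ∧ z.2 ∈ K')) ∧ f z.1 = f z.2 ∧
    ∀ k : ZMod p, ρ ≤ dist z.2 (sh k z.1)}
  have hP : IsClosed P := by
    refine (((hK.preimage continuous_fst).inter (hK.preimage continuous_snd)).union
      ((hK'.preimage continuous_fst).inter (hK'.preimage continuous_snd))).inter
      ((isClosed_eq (by fun_prop) (by fun_prop)).inter ?_)
    have : IsClosed (⋂ k : ZMod p, {z : S3 × S3 | ρ ≤ dist z.2 (sh k z.1)}) :=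
      isClosed_iInter fun k => isClosed_le continuous_const (by fun_prop)
    rwa [← ofPred_forall] at this
  have mem : ∀ x y, ((x ∈ K ∧ y ∈ K) ∨ (x ∈ K' ∧ y ∈ K')) → f x = f y →
      (¬∃ k : ZMod p, y = sh k x) → (x, y) ∈ P := fun x y h1 h2 h3 =>
    ⟨h1, h2, fun k => not_lt.1 fun hd => h3 ⟨k, hs _ _ (by rw [H.f_sh, h2]) hd⟩⟩
  have hn : P.Nonempty := by
    by_contra hn
    refine h ⟨fun x hx y hy e => ?_, fun x hx y hy e => ?_⟩ <;> by_contra h3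
    exacts [hn ⟨_, mem x y (Or.inl ⟨hx, hy⟩) e h3⟩, hn ⟨_, mem x y (Or.inr ⟨hx, hy⟩) e h3⟩]
  obtain ⟨z, hz, hm⟩ := hP.isCompact.exists_isMaxOn hn
    (show ContinuousOn (fun z : S3 × S3 => ‖f z.1‖) P by fun_prop)
  refine ⟨z.1, z.2, hz.1, hz.2.1.symm, fun k e => ?_, fun x y h1 h2 h3 h4 => ?_⟩
  · have := hz.2.2 k
    rw [← e, dist_self] at this
    linarith
  · by_contra h5
    have h6 : ‖f x‖ ≤ ‖f z.1‖ := by
      have := isMaxOn_iff.1 hm (x, y) (mem x y h1 h2 h5)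
      exact this
    rw [inner_neg_left, inner_sub_right, real_inner_self_eq_norm_sq, real_inner_comm] at h4
    have h7 := norm_sub_sq_real (f x) (f z.1)
    have h8 := pow_le_pow_left₀ (norm_nonneg _) h6 2
    have h9 : 0 < ‖f x - f z.1‖ := norm_pos_iff.2 (sub_ne_zero.2 h3)
    nlinarith

theorem p_LA (hDBL : S_DBL) (hRBC : S_RBC) (hLA3 : S_LA3) (hTRI : S_TRI) (hSIDE : S_SIDE) (hNBHD : S_NBHD) (hP3L : S_P3L) :
    S_LA := by
  intro p _ F _ N f H a hPT n1 n2 ⟨s, s1, s2⟩ ⟨t, t1, t2⟩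
  by_contra hI
  rw [not_nonempty_iff_eq_empty] at hI
  have c1 := hRBC H a s s1 s2 n2
  have c2 := hRBC H (-a) t t1 t2 (by rwa [neg_neg])
  by_cases h : InjG f p (RB f a s) ∧ InjG f p (RB f (-a) t)
  · obtain ⟨O₃, o3, -, u3, l3⟩ := hNBHD _ (c1.2.1.union_union c2.2.1) (hLA3 H _ _ c1 h.1 c2 h.2)
    obtain ⟨O₁, s', o1, m1, a1, b1, u1, g1⟩ := hSIDE _ s (H.mapsU a) s1 s2
    obtain ⟨O₂, t', o2, m2, a2, b2, u2, g2⟩ := hSIDE _ t (H.mapsU (-a)) t1 t2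
    refine hP3L (by have := H.three; omega) O₁ O₂ O₃ o1 o2 o3 m1 m2 ⟨s', a1, b1⟩ ⟨t', a2, b2⟩ l3
      (eq_univ_of_forall fun x => ?_)
    rcases lt_trichotomy ⟪a.1, f x⟫ a.2 with e | e | e
    · exact Or.inl (Or.inl (u1 e))
    · by_cases r : x ∈ RB f a s ∪ RB f (-a) t
      · exact Or.inr (u3 r)
      · rcases hTRI a s t H.cont hPT hI x e (fun h => r (Or.inl h)) (fun h => r (Or.inr h)) with g | g
        exacts [Or.inl (Or.inl (g1 x g)), Or.inl (Or.inr (g2 x g.1))]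
    · exact Or.inl (Or.inr (u2 (mem_U_neg.2 e)))
  · obtain ⟨x₁, x₂, hx, e, hk, hm⟩ := la_max H c1.1 c2.1 h
    rcases hx with hx | hx
    · refine hDBL H a s t (-f x₁) x₁ x₂ hPT hI n1 n2 s1 s2 t1 t2 ⟨hx.1, hx.2, e, hk, ?_⟩
      intro K hK x h1 y h2
      simp only [List.mem_cons, List.not_mem_nil, or_false] at hK
      rcases hK with rfl | rfl
      exacts [hm x y (Or.inl ⟨h1, h2⟩), hm x y (Or.inr ⟨h1, h2⟩)]
    · have lv : ∀ x, ⟪(-a).1, f x⟫ = (-a).2 ↔ ⟪a.1, f x⟫ = a.2 := fun x => by simp [inner_neg_left]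
      refine hDBL H (-a) t s (-f x₁) x₁ x₂ (fun x hx => ?_) (by simpa only [lv] using hI) n2
        (by rwa [neg_neg]) t1 t2 (by rwa [neg_neg]) (by rwa [neg_neg]) ⟨hx.1, hx.2, e, hk, ?_⟩
      · rw [neg_neg]
        exact (hPT x ((lv x).1 hx)).symm
      · intro K hK x h1 y h2
        simp only [List.mem_cons, List.not_mem_nil, or_false, neg_neg] at hK
        rcases hK with rfl | rfl
        exacts [hm x y (Or.inr ⟨h1, h2⟩), hm x y (Or.inl ⟨h1, h2⟩)]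

end SLA

section SDBL1

open Set Filter Topology Metric
open scoped RealInnerProductSpace

lemma dbl1_pos {S : Set S3} (hS : IsClosed S) {g : S3 → ℝ} (hg : Continuous g)
    (h : ∀ w ∈ S, 0 < g w) : ∃ c > (0 : ℝ), ∀ w ∈ S, 4 * c ≤ g w := by
  obtain ⟨c, hc, h'⟩ := hS.isCompact.exists_forall_le' hg.continuousOn h
  exact ⟨c / 4, by linarith, fun w hw => by linarith [h' w hw]⟩

lemma dbl1_cvx {p : ℕ} [NeZero p] {F : Type} [Field F] {N : ℕ} {f : S3 → EV N} (H : Sys f p F)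
    {K : Set S3} (hK : Cvx f p K) (v y₀ : EV N) :
    Cvx f p (K ∩ {x | ⟪v, f x - y₀⟫ ≤ 0}) := by
  have hf := H.cont
  refine ⟨hK.1.inter (isClosed_le (by fun_prop) continuous_const),
    fun x hx => ⟨hK.2.1 hx.1, ?_⟩, ?_⟩
  · show ⟪v, f (gn p x) - y₀⟫ ≤ 0
    rw [H.inv]; exact hx.2
  · have e : f '' (K ∩ {x | ⟪v, f x - y₀⟫ ≤ 0}) = f '' K ∩ {y | ⟪v, y⟫ ≤ ⟪v, y₀⟫} := by
      rw [← image_inter_preimage]
      congr 2
      ext x
      simp [inner_sub_right]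
    rw [e]
    exact hK.2.2.inter (convex_halfSpace_le (innerₛₗ ℝ v).isLinear _)

theorem p_DBL1 (hRBC : S_RBC) (hSPLIT : S_SPLIT) (hSHELL : S_SHELL) (hTRI : S_TRI) (hSIDE : S_SIDE) :
    S_DBL1 := by
  intro p _ F _ N f H a s t v x₁ x₂ hPT hint hU hU' s1 s2 t1 t2 ⟨h1, h2, h3, h4, h5⟩
  have hf := H.cont
  have c1 := hRBC H a s s1 s2 hU'
  have c2 := hRBC H (-a) t t1 t2 (by rwa [neg_neg])
  obtain ⟨B, B', b1, b2, b3, b4, b5, b6, b7, b8, b9⟩ := hSPLIT H _ _ x₁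
    (dbl1_cvx H c1 v (f x₁)) (dbl1_cvx H c2 v (f x₁)) ⟨h1, by simp⟩
    (fun x hx y hy e n => h5 _ (by simp) x hx.1 y hy.1 e n hx.2)
    (fun x hx y hy e n => h5 _ (by simp) x hx.1 y hy.1 e n hx.2)
  have fin : {x | f x = f x₁ ∧ ∀ k : ZMod p, x ≠ sh k x₁}.Finite :=
    (H.finite_fib (f x₁)).subset fun x hx => hx.1
  obtain ⟨D, O, d1, d2, d3, d4, d5, d6, d7, d8⟩ := hSHELL B
    (B' ∪ {x | f x = f x₁ ∧ ∀ k : ZMod p, x ≠ sh k x₁}) b1 (b2.union fin.isClosed) b3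
    (fun x hx => hx.imp (fun h => b4 h) fun h => ⟨(H.inv x).trans h.1, fun k e => h.2 (-1 + k) (by
      rw [← sh_sh, ← e, gn, sh_neg_sh])⟩)
    (disjoint_union_right.2 ⟨b5, disjoint_left.2 fun x hx h =>
      let ⟨k, hk⟩ := b9 x hx h.1; h.2 k hk⟩) b8
  obtain ⟨A, s', a1, a2, a3, a4, a5, a6⟩ := hSIDE (U f a) s (H.mapsU a) s1 s2
  have nB : ∀ w ∈ frontier D, w ∉ B := fun w hw h => hw.2 (by rw [d1.interior_eq]; exact d5 h)
  have nC := fun w (hw : w ∈ frontier D) => disjoint_left.1 d7 hw.1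
  obtain ⟨ρ, r1, r2⟩ := dbl1_pos (S := frontier D) isClosed_frontier
    (g := fun w => ‖f w - f x₁‖) (by fun_prop) fun w hw => norm_pos_iff.2 (sub_ne_zero.2 fun e =>
      nC w hw (Or.inr ⟨e, fun k hk => nB w hw (hk ▸ mapsTo_sh b3 k b7)⟩))
  obtain ⟨κ, k1, k2⟩ := dbl1_pos (S := frontier D ∩ (RB f a s ∪ RB f (-a) t))
    (isClosed_frontier.inter (c1.1.union c2.1)) (g := fun w => ⟪v, f w - f x₁⟫) (by fun_prop)
    fun w hw => not_le.1 fun e => (b6 (hw.2.imp (fun h => ⟨h, e⟩) fun h => ⟨h, e⟩)).elim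
      (nB w hw.1) fun h => nC w hw.1 (Or.inl h)
  refine ⟨D, O, A, s', κ, ρ, d1, d2, a1, d3, d4, a2, d6, d8, a3, a4, a5, d5 b7,
    fun h => disjoint_left.1 d7 h (Or.inr ⟨h3, h4⟩), k1, r1, fun w hw => ⟨r2 w hw.1, fun e l => ?_⟩⟩
  exact (hTRI a s t hf hPT hint w e (fun h => not_le.2 l (k2 w ⟨hw.1, Or.inl h⟩))
    fun h => not_le.2 l (k2 w ⟨hw.1, Or.inr h⟩)).resolve_left fun h => hw.2 (a6 w h)

end SDBL1

end Pool.Agent.P.MP_c88051_gt.Im
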