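import Pool.Agent.P.MP_c88051_gt.Im.IfaceB

/-! Steps EXP, PAIR, STK, LEIB, SHN, PROD, LEB. -/

set_option autoImplicit false
set_option linter.unusedSectionVars false

namespace Pool.Agent.P.MP_c88051_gt.Im

section SEXP

open Set Filter Topology Metric
open scoped RealInnerProductSpace

theorem p_EXP (hBA0 : S_BA0) (hNJ : S_NJ) (hLIFTC : S_LIFTC) (hDL : S_DL) (hPINV : S_PINV) :
    S_EXP := by
  intro p _ F _ N f H a ha ha'
  have ne : ∀ O : Set S3, ¬Lf p O → O.Nonempty := fun O h =>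
    nonempty_iff_ne_empty.2 fun e => h (e ▸ lf_empty)
  obtain ⟨b, α, b1, b2, b3, b4⟩ := hBA0 H (-a) ha'
  obtain ⟨ε, hε, hA⟩ := (hLIFTC H).2.2 b b2
  have m2 : ∀ x, x ∈ Ucl f (up (-b) (ε / 2)) ↔ b.2 - ε / 2 ≤ ⟪b.1, f x⟫ := fun x => by
    simp only [Ucl, up, mem_ofPred_eq, Prod.fst_neg, Prod.snd_neg, inner_neg_left]
    constructor <;> intro h <;> linarith
  have m3 : ∀ x, x ∉ U f b → x ∈ U f (up (-b) (ε / 2)) := fun x hx => by
    rw [mem_U, not_lt] at hx
    rw [mem_U_up, Prod.fst_neg, Prod.snd_neg, inner_neg_left]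
    linarith
  have nb : ∀ x ∈ U f a, x ∉ U f b := fun x hx h => disjoint_left.1 (U_disj a) hx (b1 h)
  have sub : U f a ⊆ U f (up (-b) (ε / 2)) := fun x hx => m3 x (nb x hx)
  have cov : U f b ∪ U f (up (-b) (ε / 2)) = univ :=
    eq_univ_of_forall fun x => or_iff_not_imp_left.2 (m3 x)
  have Ab : U f (up b (-ε)) ⊆ U f b := by
    simpa using U_up_mono (f := f) b (show -ε ≤ 0 by linarith)
  have dis : Disjoint (closure (U f (up b (-ε)))) (closure (U f (up (-b) (ε / 2)))) :=
    disjoint_left.2 fun x h1 h2 => by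
      have h3 : ⟪b.1, f x⟫ ≤ b.2 + -ε := closure_U H.cont _ h1
      have h4 := (m2 x).1 (closure_U H.cont _ h2)
      linarith
  obtain ⟨x, hx⟩ := ne _ ha
  obtain ⟨y, hy⟩ := ne _ hA
  obtain ⟨β, β1, β2⟩ := hDL (U f b) _ _ α (H.openU _) (H.openU _) cov Ab ⟨x, sub hx⟩ dis b3
    fun ⟨h, h1⟩ => by
      obtain ⟨h', h2, -⟩ := hNJ H b _ α h Ab (fun e => nb x hx (e ▸ mem_univ x)) hA b3 h1
      exact b4 ⟨h', h2⟩
  refine ⟨β, β1.mono sub, fun ⟨h, h1⟩ => ?_⟩
  obtain ⟨h', h2, -⟩ := hNJ H _ a (cz 2 β) h sub (fun e => disjoint_left.1 dis (subset_closure hy)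
    (subset_closure (e ▸ mem_univ y))) ha (β1.cz 2) h1
  obtain ⟨δ, hδ, h3⟩ := hPINV _ _ α (cz 2 β) (H.openU _) (H.openU _) cov b3 (β1.cz 2)
    (Or.inr ⟨h', h2⟩)
  obtain ⟨μ, μ1, μ2, μ3⟩ := β2 δ hδ
  rw [h3 μ μ1 μ2] at μ3
  exact zero_ne_one μ3

end SEXP

section SPAIR

open Set Filter Topology Metric
open scoped RealInnerProductSpace

lemma pair_add {Y : Type} (α α' β : Y → Y → ZMod 2) (l : List Y) :
    pr (α + α') β l = pr α β l + pr α' β l := by
  match l with
  | [] | [_] | [_, _] | [_, _, _] | _ :: _ :: _ :: _ :: _ :: _ => simp [pr]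
  | [a, b, c, d] => simp only [pr, Pi.add_apply]; ring

theorem p_PAIR (hDL : S_DL) (hPINV : S_PINV) (hHINV : S_HINV) :
    S_PAIR := by
  intro p _ O₁ O₂ A α k h1 h2 hA m1 m2 hu hAO hne hd hα hn
  have hk : IsC O₁ (fun x y => α (sh k x) (sh k y)) :=
    hα.comp (continuous_sh k).continuousOn (mapsTo_sh m1 k)
  obtain ⟨β, hβ, hμ⟩ := hDL O₁ O₂ A _ h1 hA hu hAO hne hd (hα.add hk) hn
  refine ⟨β, hβ, fun O hO hOo hOu hP => ?_⟩
  obtain ⟨h, hh⟩ := hP
  have hb : IsC O₂ (cz 2 β) := hβ.cz 2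
  have hb' : IsC O₂ (fun x y => cz 2 β (sh (-k) x) (sh (-k) y)) :=
    hb.comp (continuous_sh (-k)).continuousOn (mapsTo_sh m2 (-k))
  have e : cz 2 (β - fun x y => β (sh (-k) x) (sh (-k) y)) =
      cz 2 β + fun x y => cz 2 β (sh (-k) x) (sh (-k) y) := by
    rw [cz_sub]
    funext a b
    exact CharTwo.sub_eq_add _ _
  rw [e] at hh
  obtain ⟨ε₁, p1, H1⟩ := hPINV O₁ O α _ h1 hOo hOu hα hh.isC (Or.inr ⟨h, hh⟩)
  obtain ⟨ε₂, p2, H2⟩ := hHINV O₁ O₂ α _ k h1 h2 hu hα hb'
  obtain ⟨μ, q1, q2, q3⟩ := hμ (min ε₁ ε₂) (lt_min p1 p2)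
  have r1 := H1 μ (Fn_mono Subset.rfl (min_le_left _ _) q1) q2
  have r2 := H2 μ (Fn_mono Subset.rfl (min_le_right _ _) q1) q2
  rw [funext (pr_add α _ _), ev_add] at r1
  rw [funext (pair_add α _ _), ev_add] at q3
  rw [ev_cmap] at r2
  simp only [pr_map, sh_neg_sh] at r2
  have r3 : ev (pr (fun x y => α (sh k x) (sh k y)) (cz 2 β)) μ = _ := r2
  rw [r3, r1] at q3
  exact zero_ne_one q3

end SPAIR

section SSTK

open Set Filter Topology Metric
open scoped RealInnerProductSpace Quaternion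

lemma stk_zero {Y : Type} (μ : Ch Y) : ev (fun _ => 0) μ = 0 :=
  ch_eq _ 0 (fun l => by simp) μ

lemma stk_one {Y : Type} (ss : List (Y → ZMod 2)) (a b : Y) (l : List Y) :
    ev (fun m => dprod ss (a :: m)) (bdA (b :: l)) = dprod ss (b :: l) := by
  induction ss generalizing a b l with
  | nil =>
    rw [bdA, map_add, ev_sx, ev_cons]
    cases l <;> simp [dprod, stk_zero]
  | cons s ss ih =>
    rw [bdA, map_add, ev_sx, ev_cons]
    simp only [dprod, ev_mul]
    cases l with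
    | nil => simp [dprod, bdA]
    | cons c l =>
      rw [ih, dprod, dprod]
      linear_combination dprod ss (c :: l) * z2_add_self (s a)

/-- The sum of all faces, for all lists. -/
noncomputable def stk_D {Y : Type} : Ch Y →ₗ[ZMod 2] Ch Y := Finsupp.linearCombination _ bdA

@[simp] lemma stk_sx {Y : Type} (l : List Y) : stk_D (sx l) = bdA l := by simp [stk_D, sx]

lemma stk_cons {Y : Type} (a : Y) (μ : Ch Y) : stk_D (cons a μ) = μ + cons a (stk_D μ) :=
  ch_eq (stk_D ∘ₗ cons a) (LinearMap.id + cons a ∘ₗ stk_D) (fun l => by simp [bdA]) μ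

lemma stk_DD {Y : Type} (l : List Y) : stk_D (bdA l) = 0 := by
  induction l with
  | nil => simp [bdA]
  | cons a l ih => rw [bdA, map_add, stk_sx, stk_cons, ih, map_zero, add_zero, ch_add_self]

theorem p_STK :
    S_STK := by
  intro Y
  refine ⟨fun ρ ss => ch_eq (ev (cc ρ ss) ∘ₗ bd) _ fun l => ?_,
    ch_eq (bd ∘ₗ bd) 0 fun l => ?_,
    fun a μ => supp_eq (bd ∘ₗ cons a) (LinearMap.id + cons a ∘ₗ bd) fun l hl => ?_⟩
  · match l with
    | [] => simp [bd0, dprod]
    | [_] => simp [bd0, dprod]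
    | a :: b :: l =>
      rw [LinearMap.comp_apply, bd_sx, bd0, bdA, map_add, ev_sx, ev_sx, ev_cons]
      simp only [cc, ev_mul, stk_one, dprod]
      ring
  · match l with
    | [] => simp [bd0]
    | [_] => simp [bd0]
    | [a, b] => simp [bd0, bdA]
    | a :: b :: c :: l =>
      rw [LinearMap.comp_apply, bd_sx, bd0, LinearMap.zero_apply, ← stk_DD (a :: b :: c :: l)]
      refine supp_eq bd stk_D (fun m hm => ?_) (bdA_mem _)
      match m, hm with
      | [], h => simpa using h.2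
      | [_], h => simpa using h.2
      | x :: y :: m, _ => simp [bd0]
  · match l, hl with
    | [], h => simp at h
    | [_], h => simp at h
    | x :: y :: m, _ =>
      simp only [LinearMap.comp_apply, LinearMap.add_apply, LinearMap.id_apply, cons_sx, bd_sx, bd0]
      rw [bdA]

end SSTK

section SLEIB

open Set Filter Topology Metric
open scoped RealInnerProductSpace Quaternion

section
variable {Y Z : Type}

/-- The augmented boundary. -/
noncomputable def leib_D : Ch Y →ₗ[ZMod 2] Ch Y := Finsupp.linearCombination _ bdA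

/-- The coefficient of the empty list. -/
noncomputable def leib_z : Ch Y →ₗ[ZMod 2] ZMod 2 := ev fun l => if l.isEmpty then 1 else 0

lemma leib_D_sx (l : List Y) : leib_D (sx l) = bdA l := by simp [leib_D, sx]

lemma leib_z_sx (l : List Y) : leib_z (sx l) = if l.isEmpty then 1 else 0 := ev_sx _ _

lemma leib_D_cons (a : Y) (μ : Ch Y) : leib_D (cons a μ) = μ + cons a (leib_D μ) :=
  ch_eq (leib_D ∘ₗ cons a) (LinearMap.id + cons a ∘ₗ leib_D) (fun l => by
    simp [leib_D_sx, bdA]) μ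

lemma leib_z_cons (a : Y) (μ : Ch Y) : leib_z (cons a μ) = 0 :=
  ch_eq (leib_z ∘ₗ cons a) 0 (fun l => by simp [leib_z_sx]) μ

lemma leib_nil_left (ν : Ch Z) : shp (sx ([] : List Y)) ν = 0 :=
  ch_eq (shp (sx [])) 0 (fun l => by simp) ν

lemma leib_nil_right (μ : Ch Y) : shp μ (sx ([] : List Z)) = 0 :=
  ch_eq (shp.flip (sx [])) 0 (fun l => by simp) μ

lemma leib_two {M : Type} [AddCommGroup M] [Module (ZMod 2) M]
    (T T' : Ch Y →ₗ[ZMod 2] Ch Z →ₗ[ZMod 2] M) (h : ∀ l m, T (sx l) (sx m) = T' (sx l) (sx m))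
    (μ : Ch Y) (ν : Ch Z) : T μ ν = T' μ ν :=
  LinearMap.congr_fun (ch_eq T T' (fun l => LinearMap.ext (ch_eq _ _ (h l))) μ) ν

lemma leib_cons (a : Y) (b : Z) (μ : Ch Y) (ν : Ch Z) : shp (cons a μ) (cons b ν) =
    cons (a, b) ((leib_z μ * leib_z ν) • sx [] + shp μ (cons b ν) + shp (cons a μ) ν) := by
  refine leib_two (shp.compl₁₂ (cons a) (cons b)) (LinearMap.compr₂
    ((((LinearMap.mul _ (ZMod 2)).compl₁₂ leib_z leib_z).compr₂
      (LinearMap.toSpanSingleton _ _ (sx []))) + shp.compl₂ (cons b) + shp ∘ₗ cons a) (cons (a, b)))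
    (fun l m => ?_) μ ν
  simp only [LinearMap.compl₁₂_apply, cons_sx, shp_sx, LinearMap.compr₂_apply, LinearMap.add_apply,
    LinearMap.mul_apply', LinearMap.toSpanSingleton_apply, LinearMap.compl₂_apply,
    LinearMap.comp_apply, leib_z_sx]
  rw [sh0]
  cases l <;> cases m <;> simp

lemma leib_z_shp (μ : Ch Y) (ν : Ch Z) : leib_z (shp μ ν) = 0 :=
  leib_two (shp.compr₂ leib_z) 0 (fun l m => by
    cases l with
    | nil => simp
    | cons a l =>
      cases m with
      | nil => simp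
      | cons b m =>
        rw [LinearMap.compr₂_apply, ← cons_sx, ← cons_sx, leib_cons, leib_z_cons]
        rfl) μ ν

lemma leib_main (l : List Y) (m : List Z) : leib_D (shp (sx l) (sx m)) =
    shp (leib_D (sx l)) (sx m) + shp (sx l) (leib_D (sx m)) +
      (leib_z (leib_D (sx l)) * leib_z (leib_D (sx m))) • sx [] := by
  induction l generalizing m with
  | nil => simp [leib_D_sx, bdA, leib_nil_left]
  | cons a l h =>
    induction m with
    | nil => simp [leib_D_sx, bdA, leib_nil_right]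
    | cons b m g =>
      have h := h (b :: m)
      rw [← cons_sx] at h g
      rw [← cons_sx, ← cons_sx, leib_cons, leib_D_cons, map_add, map_add, map_add, map_add, h, g]
      simp only [leib_D_cons, map_add, LinearMap.add_apply, leib_cons, leib_z_cons, map_smul,
        leib_D_sx ([] : List (Y × Z)), bdA, smul_zero, map_zero, add_zero]
      have e := ch_add_self (cons (a, b) (shp (sx l) (sx m)))
      linear_combination (norm := abel1) e

lemma leib_bd (μ : Ch Y) : bd μ = leib_D μ + leib_z (leib_D μ) • sx [] :=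
  ch_eq bd (leib_D + (LinearMap.toSpanSingleton _ _ (sx [])) ∘ₗ leib_z ∘ₗ leib_D) (fun l => by
    match l with
    | [] => simp [leib_D_sx, bd0, bdA]
    | [a] => simp [leib_D_sx, bd0, bdA, leib_z_sx]
    | a :: b :: l => simp [leib_D_sx, bd0, bdA, leib_z_sx, leib_z_cons]) μ

end

theorem p_LEIB :
    S_LEIB := by
  intro Y Z μ ν
  refine leib_two (shp.compr₂ bd) (shp ∘ₗ bd + shp.compl₂ bd) (fun l m => ?_) μ ν
  simp only [LinearMap.compr₂_apply, LinearMap.add_apply, LinearMap.comp_apply,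
    LinearMap.compl₂_apply, leib_bd, leib_main, map_add, map_smul, LinearMap.smul_apply,
    leib_nil_left, leib_nil_right, leib_z_shp, leib_z_sx, smul_zero, add_zero, zero_add]
  simp [add_assoc]

end SLEIB

section SSHN

open Set Filter Topology Metric
open scoped RealInnerProductSpace Quaternion

variable {Y Z : Type}

lemma shn_eq2 {M : Type} [AddCommGroup M] [Module (ZMod 2) M]
    (T T' : Ch Y →ₗ[ZMod 2] Ch Z →ₗ[ZMod 2] M) (h : ∀ l m, T (sx l) (sx m) = T' (sx l) (sx m))
    (μ : Ch Y) (ν : Ch Z) : T μ ν = T' μ ν := by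
  rw [ch_eq T T' (fun l => LinearMap.ext (ch_eq _ _ (h l))) μ]

lemma shn_mem {s : Set (List Y)} {t : Set (List Z)} {P : Submodule (ZMod 2) (Ch (Y × Z))}
    (h : ∀ l ∈ s, ∀ m ∈ t, sh0 l m ∈ P) {μ : Ch Y} {ν : Ch Z}
    (hμ : μ ∈ Finsupp.supported (ZMod 2) (ZMod 2) s)
    (hν : ν ∈ Finsupp.supported (ZMod 2) (ZMod 2) t) : shp μ ν ∈ P :=
  supp_mem (shp.flip ν) (fun l hl => supp_mem (shp (sx l))
    (fun m hm => by rw [shp_sx]; exact h l hl m hm) hν) hμ

lemma shn_supp (l : List Y) (m : List Z) : sh0 l m ∈ Finsupp.supported (ZMod 2) (ZMod 2)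
    {n | n.length + 1 = l.length + m.length ∧ ∀ q ∈ n, q.1 ∈ l ∧ q.2 ∈ m} := by
  induction l, m using sh0.induct with
  | case1 m => simp
  | case2 a l => simp
  | case3 a l b m h1 h2 =>
    rw [sh0]
    refine add_mem ?_ ?_
    · split_ifs with c
      · simp only [Bool.and_eq_true, List.isEmpty_iff] at c
        obtain ⟨rfl, rfl⟩ := c
        exact sx_mem ⟨rfl, by simp⟩
      · exact zero_mem _
    · rw [map_add]
      refine add_mem (supp_mem (cons (a, b)) (fun n hn => ?_) h1)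
        (supp_mem (cons (a, b)) (fun n hn => ?_) h2)
      all_goals
        rw [cons_sx]
        refine sx_mem ⟨by have := hn.1; simp only [List.length_cons] at this ⊢; omega, fun q hq => ?_⟩
        rcases List.mem_cons.1 hq with rfl | hq
        · simp
        · have := hn.2 q hq
          simp only [List.mem_cons] at this ⊢
          tauto

lemma shn_map {Y' Z' : Type} (φ : Y → Y') (ψ : Z → Z') (l : List Y) (m : List Z) :
    cmap (Prod.map φ ψ) (sh0 l m) = sh0 (l.map φ) (m.map ψ) := by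
  induction l, m using sh0.induct with
  | case1 m => simp
  | case2 a l => simp
  | case3 a l b m h1 h2 =>
    simp only [List.map_cons] at h1 h2 ⊢
    rw [sh0, sh0, map_add, cmap_cons, map_add, h1, h2]
    congr 1
    simp only [List.isEmpty_map]
    split_ifs <;> simp

lemma shn_swap (l : List Y) (m : List Z) : cmap Prod.swap (sh0 l m) = sh0 m l := by
  induction l, m using sh0.induct with
  | case1 m => simp
  | case2 a l => simp
  | case3 a l b m h1 h2 =>
    rw [sh0, sh0, map_add, cmap_cons, map_add, h1, h2, Bool.and_comm, add_comm (sh0 (b :: m) l)]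
    congr 1
    split_ifs <;> simp

lemma shn_right (a : Y) (l : List Y) (b : Z) :
    sh0 (a :: l) [b] = sx ((a :: l).map fun y => (y, b)) := by
  induction l generalizing a with
  | nil => simp
  | cons a' l ih => rw [sh0_left, ih]; simp

lemma shn_left (a : Y) (b : Z) (m : List Z) :
    sh0 [a] (b :: m) = sx ((b :: m).map fun z => (a, z)) := by
  induction m generalizing b with
  | nil => simp
  | cons b' m ih => rw [sh0_right, ih]; simp

theorem p_SHN :
    S_SHN := by
  intro Y Z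
  refine ⟨fun φ ψ μ ν => ?_, fun μ ν => ?_, fun μ hμ b => ?_, fun a ν hν => ?_,
    fun Φ h μ ν a b => ⟨?_, ?_⟩, fun i j μ hμ ν hν => shn_mem (fun l hl m hm => ?_) hμ hν,
    fun K L μ hμ ν hν => shn_mem (fun l hl m hm => ?_) hμ hν,
    fun K L ε μ hμ ν hν => shn_mem (fun l hl m hm => ?_) hμ hν⟩
  · exact shn_eq2 (shp.compr₂ (cmap (Prod.map φ ψ))) (shp.compl₁₂ (cmap φ) (cmap ψ))
      (fun l m => by simp [shn_map]) μ ν
  · exact shn_eq2 (shp.compr₂ (cmap Prod.swap)) shp.flip (fun l m => by simp [shn_swap]) μ ν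
  · refine supp_eq (shp.flip (sx [b])) _ (fun l hl => ?_) hμ
    cases l with
    | nil => simp at hl
    | cons a l => simp [shn_right]
  · refine supp_eq (shp (sx [a])) _ (fun l hl => ?_) hν
    cases l with
    | nil => simp at hl
    | cons b l => simp [shn_left]
  · refine ch_eq (ev Φ ∘ₗ shp.flip (sx [b])) (ev Φ ∘ₗ cmap fun y => (y, b)) (fun l => ?_) μ
    cases l with
    | nil => simp [h]
    | cons a l => simp [shn_right]
  · refine ch_eq (ev Φ ∘ₗ shp (sx [a])) (ev Φ ∘ₗ cmap fun z => (a, z)) (fun l => ?_) ν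
    cases l with
    | nil => simp [h]
    | cons b l => simp [shn_left]
  · refine supp_mono (shn_supp l m) fun n hn => ?_
    have h1 := hn.1
    have h2 : i + 1 ≤ l.length := hl
    have h3 : j + 1 ≤ m.length := hm
    show i + j + 1 ≤ n.length
    omega
  · exact supp_mono (shn_supp l m) fun n hn q hq => ⟨hl _ (hn.2 q hq).1, hm _ (hn.2 q hq).2⟩
  · refine supp_mono (shn_supp l m) fun n hn => ⟨fun q hq =>
      ⟨hl.1 _ (hn.2 q hq).1, hm.1 _ (hn.2 q hq).2⟩, fun q hq r hr => ?_⟩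
    rw [Prod.dist_eq]
    exact max_lt (hl.2 _ (hn.2 q hq).1 _ (hn.2 r hr).1) (hm.2 _ (hn.2 q hq).2 _ (hn.2 r hr).2)

end SSHN

section SPROD

open Set Filter Topology Metric
open scoped RealInnerProductSpace Quaternion

section aux
variable {Y Z : Type}

lemma prod_head (a : Y) (l : List Y) (b : Z) (m : List Z) :
    sh0 (a :: l) (b :: m) ∈ Finsupp.supported (ZMod 2) (ZMod 2) {n | ∃ n', n = (a, b) :: n'} := by
  rw [sh0]
  refine add_mem ?_ ?_
  · split_ifs
    · exact sx_mem ⟨[], rfl⟩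
    · exact zero_mem _
  · refine supp_mem (s := univ) (cons (a, b)) (fun n _ => ?_) (by simp)
    rw [cons_sx]
    exact sx_mem ⟨n, rfl⟩

lemma prod_step (t : Y × Z → ZMod 2) (tt : List (Y × Z → ZMod 2)) (q : Y × Z) (a : Y) (l : List Y)
    (b : Z) (m : List Z) :
    ev (fun n => dprod (t :: tt) (q :: n)) (sh0 (a :: l) (b :: m)) =
      (t q + t (a, b)) * ev (dprod tt) (sh0 (a :: l) (b :: m)) := by
  rw [← ev_mul]
  refine ev_congr (fun n hn => ?_) (prod_head a l b m)
  obtain ⟨n', rfl⟩ := hn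
  rw [dprod]

lemma prod_nil (q : Y × Z) (l : List Y) (m : List Z) :
    ev (fun n => dprod [] (q :: n)) (sh0 l m) = 0 := by
  match l, m with
  | [], _ => simp
  | _ :: _, [] => simp
  | a :: l, b :: m =>
    have : ev (fun _ : List (Y × Z) => (0 : ZMod 2) * 0) (sh0 (a :: l) (b :: m)) = 0 := by
      rw [ev_mul, zero_mul]
    rw [← this]
    refine ev_congr (fun n hn => ?_) (prod_head a l b m)
    obtain ⟨n', rfl⟩ := hn
    simp [dprod]

lemma prod_cons (t : Y × Z → ZMod 2) (tt : List (Y × Z → ZMod 2)) (a : Y) (l : List Y)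
    (b : Z) (m : List Z) :
    ev (dprod (t :: tt)) (sh0 (a :: l) (b :: m)) =
      ev (fun n => dprod (t :: tt) ((a, b) :: n)) (sh0 l (b :: m)) +
      ev (fun n => dprod (t :: tt) ((a, b) :: n)) (sh0 (a :: l) m) := by
  rw [sh0, map_add, ev_cons, map_add]
  split_ifs <;> simp [dprod]

lemma prod_one (ss' : List (Z → ZMod 2)) (a : Y) (l : List Y) (b : Z) (m : List Z) :
    ev (dprod (ss'.map fun s (q : Y × Z) => s q.2)) (sh0 (a :: l) (b :: m)) =
      dprod [] (a :: l) * dprod ss' (b :: m) := by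
  induction ss' generalizing b m with
  | nil =>
    rw [List.map_nil, sh0, map_add, ev_cons, map_add, prod_nil, prod_nil]
    cases l <;> cases m <;> simp [dprod]
  | cons s ss ih =>
    rw [List.map_cons, prod_cons]
    have h1 : ev (fun n => dprod ((fun q : Y × Z => s q.2) :: ss.map fun s (q : Y × Z) => s q.2)
        ((a, b) :: n)) (sh0 l (b :: m)) = 0 := by
      cases l with
      | nil => simp
      | cons a' l => rw [prod_step]; simp
    rw [h1, zero_add]
    cases m with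
    | nil => simp [dprod]
    | cons b' m => rw [prod_step, ih, dprod]; ring

lemma prod_two (ss : List (Y → ZMod 2)) (ss' : List (Z → ZMod 2)) (a : Y) (l : List Y) (b : Z)
    (m : List Z) :
    ev (dprod (ss.map (fun s (q : Y × Z) => s q.1) ++ ss'.map fun s (q : Y × Z) => s q.2))
      (sh0 (a :: l) (b :: m)) = dprod ss (a :: l) * dprod ss' (b :: m) := by
  induction ss generalizing a l with
  | nil => simpa using prod_one ss' a l b m
  | cons s ss ih =>
    rw [List.map_cons, List.cons_append, prod_cons]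
    have h1 : ev (fun n => dprod ((fun q : Y × Z => s q.1) ::
        (ss.map (fun s (q : Y × Z) => s q.1) ++ ss'.map fun s (q : Y × Z) => s q.2))
        ((a, b) :: n)) (sh0 (a :: l) m) = 0 := by
      cases m with
      | nil => simp
      | cons b' m => rw [prod_step]; simp
    rw [h1, add_zero]
    cases l with
    | nil => simp [dprod]
    | cons a' l => rw [prod_step, ih, dprod]; ring

lemma prod_list (ρ : Y → ZMod 2) (ρ' : Z → ZMod 2) (ss : List (Y → ZMod 2))
    (ss' : List (Z → ZMod 2)) (l : List Y) (m : List Z) :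
    ev (cc (fun q : Y × Z => ρ q.1 * ρ' q.2)
      (ss.map (fun s (q : Y × Z) => s q.1) ++ ss'.map fun s (q : Y × Z) => s q.2)) (sh0 l m) =
      cc ρ ss l * cc ρ' ss' m := by
  match l, m with
  | [], _ => simp [cc]
  | _ :: _, [] => simp [cc]
  | a :: l, b :: m =>
    rw [cc, cc, mul_mul_mul_comm, ← prod_two, ← ev_mul]
    refine ev_congr (fun n hn => ?_) (prod_head a l b m)
    obtain ⟨n', rfl⟩ := hn
    rw [cc]

end aux

theorem p_PROD :
    S_PROD := by
  intro Y Z ρ ρ' ss ss' μ ν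
  set Φ := cc (fun q : Y × Z => ρ q.1 * ρ' q.2)
      (ss.map (fun s (q : Y × Z) => s q.1) ++ ss'.map fun s (q : Y × Z) => s q.2) with hΦ
  have h1 : ∀ l : List Y, ev Φ (shp (sx l) ν) = cc ρ ss l * ev (cc ρ' ss') ν := fun l =>
    ch_eq (ev Φ ∘ₗ shp (sx l)) (cc ρ ss l • ev (cc ρ' ss')) (fun m => by
      simpa using prod_list ρ ρ' ss ss' l m) ν
  have := ch_eq (ev Φ ∘ₗ shp.flip ν) (ev (cc ρ' ss') ν • ev (cc ρ ss)) (fun l => by
    simpa [mul_comm] using h1 l) μ
  simpa [mul_comm] using this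

end SPROD

section SLEB

open Set Filter Topology Metric
open scoped RealInnerProductSpace Quaternion

theorem p_LEB :
    S_LEB := by
  intro Y _ K Φ hK h0 h
  obtain ⟨ε, hε, H⟩ := lebesgue_number_lemma_of_metric_sUnion
    (c := {t | IsOpen t ∧ ∀ l : List Y, (∀ a ∈ l, a ∈ t ∩ K) → Φ l = 0}) hK (fun _ ht => ht.1)
    fun y hy => by
      obtain ⟨n, hn, h1⟩ := h y hy
      obtain ⟨t, ht, hy', h2⟩ := mem_nhdsWithin.1 hn
      exact ⟨t, ⟨ht, fun l hl => h1 l fun a ha => h2 (hl a ha)⟩, hy'⟩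
  refine ⟨ε, hε, fun μ hμ => ?_⟩
  rw [ev_congr (Ψ := fun _ => 0 * 0) (fun l hl => ?_) hμ, ev_mul 0 fun _ => 0, zero_mul]
  rw [zero_mul]
  rcases l with _ | ⟨b, l⟩
  · exact h0
  · obtain ⟨t, ht, h1⟩ := H b (hl.1 b List.mem_cons_self)
    exact ht.2 _ fun a ha => ⟨h1 (hl.2 a ha b List.mem_cons_self), hl.1 a ha⟩

end SLEB

end Pool.Agent.P.MP_c88051_gt.Im
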