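import Pool.Agent.P.MP_c88051_gt.Im.IfaceB

/-! Steps LINK, PINV, HINV. -/

set_option autoImplicit false
set_option linter.unusedSectionVars false

namespace Pool.Agent.P.MP_c88051_gt.Im

section SLINK

open Set Filter Topology Metric
open scoped RealInnerProductSpace Quaternion

/-- The primitive. -/
def link_psi {Y : Type} (s1 s2 s3 s4 : Y → ZMod 2) : List Y → ZMod 2
  | [a, b, c] => s1 a * (s2 a + s2 b) * (s3 b * (s4 b + s4 c))
  | _ => 0

lemma link_alg (a1 b1 a2 b2 c2 b3 c3 b4 c4 d4 : ZMod 2) :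
    b1 * (b2 + c2) * (c3 * (c4 + d4)) + a1 * (a2 + c2) * (c3 * (c4 + d4)) +
      a1 * (a2 + b2) * (b3 * (b4 + d4)) + a1 * (a2 + b2) * (b3 * (b4 + c4)) =
    (a1 * (a2 + b2) + b1 * (b2 + c2) + a1 * (a2 + c2)) * (c3 * (c4 + d4)) +
      a1 * ((a2 + b2) * ((b3 + c3) * ((c4 + d4) * 1))) := by
  have h2 : (2 : ZMod 2) = 0 := rfl
  linear_combination (a1 * (a2 + b2) * b3 * b4 - a1 * (a2 + b2) * c3 * (c4 + d4)) * h2

lemma link_zero {Y : Type} (s1 s2 s3 s4 : Y → ZMod 2) (l : List Y) (h : l.length ≠ 4) :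
    ev (link_psi s1 s2 s3 s4) (bd0 l) = 0 := by
  have := ev_congr (Φ := link_psi s1 s2 s3 s4) (Ψ := fun _ => (0 : ZMod 2) * 0) (fun m hm => by
    have h3 : m.length ≠ 3 := fun e => h (by rw [← hm.2, e])
    match m, h3 with
    | [], _ | [_], _ | [_, _], _ | _ :: _ :: _ :: _ :: _, _ => simp [link_psi]
    | [_, _, _], h3 => exact absurd rfl h3) (bd0_mem l)
  rw [this, ev_mul, zero_mul]

lemma link_bd {Y : Type} (s1 s2 s3 s4 : Y → ZMod 2) (l : List Y) :
    ev (link_psi s1 s2 s3 s4) (bd (sx l)) =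
      pr (fun x y => s1 x * (s2 x + s2 y)) (fun x y => s3 x * (s4 x + s4 y)) l +
        cc s1 [s2, s3, s4] l := by
  match l with
  | [] | [_] | [_, _] | [_, _, _] | _ :: _ :: _ :: _ :: _ :: _ =>
    rw [bd_sx, link_zero _ _ _ _ _ (by simp)]; simp [pr, cc, dprod]
  | [a, b, c, d] =>
    rw [bd_four]
    simp only [map_add, ev_sx, link_psi, pr, cc, dprod]
    exact link_alg ..

theorem p_LINK :
    S_LINK := by
  intro Y
  refine ⟨fun O a ha h0 x hx => ?_, fun a a' μ hμ => ?_⟩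
  · by_cases hi : (a x).im = 0
    · have hr : (a x).re ≠ 0 := fun e => h0 x hx (Complex.ext e hi)
      refine ⟨_, (sgn_sg O fun y => (a y).re).ev_eq hx
        (Complex.continuous_re.continuousAt.comp_continuousWithinAt (ha x hx)) hr,
        fun u hu v hv w _ => ?_⟩
      have hu' : sg (a u).re = sg (a x).re := hu
      have hv' : sg (a v).re = sg (a x).re := hv
      have h2 : (2 : ZMod 2) = 0 := rfl
      simp only [al, hu', hv']
      linear_combination (sg (a x).re * sg (a v).im) * h2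
    · refine ⟨_, (sgn_sg O fun y => (a y).im).ev_eq hx
        (Complex.continuous_im.continuousAt.comp_continuousWithinAt (ha x hx)) hi,
        fun u hu v hv w hw => ?_⟩
      have hu' : sg (a u).im = sg (a x).im := hu
      have hv' : sg (a v).im = sg (a x).im := hv
      have hw' : sg (a w).im = sg (a x).im := hw
      simp [al, hu', hv', hw']
  · have h := ch_eq (ev (link_psi (fun y => sg (a y).re) (fun y => sg (a y).im)
      (fun y => sg (a' y).re) (fun y => sg (a' y).im)) ∘ₗ bd)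
      (ev (pr (al a) (al a')) + ev (dgH fun y => qz (a y) (a' y))) (fun l => by
        rw [LinearMap.comp_apply, link_bd, LinearMap.add_apply, ev_sx, ev_sx]; rfl) μ
    rw [LinearMap.comp_apply, hμ, map_zero, LinearMap.add_apply] at h
    have h2 : (2 : ZMod 2) = 0 := rfl
    linear_combination -h - ev (dgH fun y => qz (a y) (a' y)) μ * h2

end SLINK

section SPINV

open Set Filter Topology Metric
open scoped RealInnerProductSpace Quaternion

/-- A function of triples as a cochain. -/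
def pinv_t {Y : Type} (Ψ : Y → Y → Y → ZMod 2) : List Y → ZMod 2
  | [a, b, c] => Ψ a b c
  | _ => 0

lemma pinv_len {Y : Type} (Ψ : Y → Y → Y → ZMod 2) {l : List Y} (h : l.length ≠ 4) :
    ev (pinv_t Ψ) (bd0 l) = 0 := by
  rw [ev_congr (Ψ := fun l => 0 * pinv_t Ψ l) ?_ (bd0_mem l), ev_mul, zero_mul]
  rintro m ⟨-, hm⟩
  match m with
  | [] | [_] | [_, _] | _ :: _ :: _ :: _ :: _ => simp [pinv_t]
  | [_, _, _] => exact absurd hm.symm h

lemma pinv_gen (hLEB : S_LEB) {Y : Type} [PseudoMetricSpace Y] [CompactSpace Y]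
    (α β : Y → Y → ZMod 2) (Ψ : Y → Y → Y → ZMod 2)
    (h : ∀ y : Y, ∃ n ∈ 𝓝 y, ∀ a ∈ n, ∀ b ∈ n, ∀ c ∈ n, ∀ d ∈ n, (α a b + α b c + α a c) * β c d +
      (Ψ b c d + Ψ a c d + Ψ a b d + Ψ a b c) = 0) :
    ∃ ε > (0 : ℝ), ∀ μ ∈ Fn (univ : Set Y) ε, bd μ = 0 → ev (pr α β) μ = 0 := by
  obtain ⟨ε, h1, h2⟩ := hLEB univ (fun l => pr α β l + ev (pinv_t Ψ) (bd0 l)) isCompact_univ
    (by simp [pr, bd0]) fun y _ => by
      obtain ⟨n, hn, H⟩ := h y
      refine ⟨n, nhdsWithin_le_nhds hn, fun l hl => ?_⟩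
      match l with
      | [] | [_] | [_, _] | [_, _, _] | _ :: _ :: _ :: _ :: _ :: _ =>
        rw [pinv_len Ψ (by simp)]; simp [pr]
      | [a, b, c, d] =>
        rw [← bd_sx, bd_four]
        simpa [pr, pinv_t] using H a (hl a (by simp)) b (hl b (by simp)) c (hl c (by simp)) d
          (hl d (by simp))
  refine ⟨ε, h1, fun μ hμ hb => ?_⟩
  have e : ev (fun l => ev (pinv_t Ψ) (bd0 l)) μ = ev (pinv_t Ψ) (bd μ) :=
    ch_eq _ (ev (pinv_t Ψ) ∘ₗ bd) (fun l => by simp) μ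
  have := h2 μ hμ
  rwa [ev_add, e, hb, map_zero, add_zero] at this

theorem p_PINV (hLEB : S_LEB) :
    S_PINV := by
  intro Y _ _ O₁ O₂ α β o1 o2 hu c1 c2 H
  have t : (2 : ZMod 2) = 0 := rfl
  have hy : ∀ y, y ∈ O₁ ∨ y ∈ O₂ := fun y => (mem_union _ _ _).1 (hu ▸ mem_univ y)
  rcases H with ⟨h, H⟩ | ⟨h, H⟩
  · refine pinv_gen hLEB α β (fun a b c => (α a b + h a + h b) * β b c) fun y => ?_
    rcases hy y with m | m
    · obtain ⟨n, hn, k⟩ := H y m
      refine ⟨n, o1.nhdsWithin_eq m ▸ hn, fun a ha b hb c hc d _ => ?_⟩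
      rw [k a ha b hb, k b hb c hc, k a ha c hc]
      linear_combination (h b * (β b d + β b c) + (3 * h c - h a) * β c d) * t
    · obtain ⟨n, hn, k⟩ := c2 y m
      refine ⟨n, o2.nhdsWithin_eq m ▸ hn, fun a _ b hb c hc d hd => ?_⟩
      rw [← k b hb c hc d hd]
      linear_combination ((α a b + h a + h b) * β b c +
        (α a b + α b c + α a c + h a + h b + h c) * β c d) * t
  · refine pinv_gen hLEB α β (fun a b c => (α a b + α b c + α a c) * h c) fun y => ?_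
    rcases hy y with m | m
    · obtain ⟨n, hn, k⟩ := c1 y m
      refine ⟨n, o1.nhdsWithin_eq m ▸ hn, fun a ha b hb c hc d hd => ?_⟩
      rw [k a ha b hb c hc, k b hb c hc d hd, k a ha c hc d hd, k a ha b hb d hd]
      simp
    · obtain ⟨n, hn, k⟩ := H y m
      refine ⟨n, o2.nhdsWithin_eq m ▸ hn, fun a _ b _ c hc d hd => ?_⟩
      rw [k c hc d hd]
      linear_combination (α a b + α b c + α a c + α c d + α b d + α a d) * h d * t

end SPINV

section SHINV

open Set Filter Topology Metric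
open scoped RealInnerProductSpace Quaternion

lemma hinv_zero {Y : Type} {s : Set (List Y)} {Φ : List Y → ZMod 2} (h : ∀ l ∈ s, Φ l = 0)
    {μ : Ch Y} (hμ : μ ∈ Finsupp.supported (ZMod 2) (ZMod 2) s) : ev Φ μ = 0 := by
  rw [ev_congr (Ψ := fun l => 0 * Φ l) (fun l hl => by rw [h l hl, zero_mul]) hμ, ev_mul, zero_mul]

lemma hinv_loc {Y : Type} [TopologicalSpace Y] {O₁ O₂ : Set Y} {α β : Y → Y → ZMod 2}
    (h1 : IsOpen O₁) (h2 : IsOpen O₂) (hU : O₁ ∪ O₂ = univ) (ha : IsC O₁ α) (hb : IsC O₂ β)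
    (y : Y) : ∃ n ∈ 𝓝 y, ∀ l : List Y, (∀ a ∈ l, a ∈ n) → ev (pr α β) (bd (sx l)) = 0 := by
  rcases (hU.symm ▸ mem_univ y : y ∈ O₁ ∪ O₂) with hy | hy
  · obtain ⟨n, hn, hc⟩ := ha y hy
    rw [h1.nhdsWithin_eq hy] at hn
    refine ⟨n, hn, fun l hl => hinv_zero (fun m hm => ?_) (bd_In (K := n) (sx_mem hl))⟩
    match m, hm with
    | [], _ | [_], _ | [_, _], _ | [_, _, _], _ | _ :: _ :: _ :: _ :: _ :: _, _ => simp [pr]
    | [a, b, c, d], hm =>
      rw [pr, hc a (hm a (by simp)) b (hm b (by simp)) c (hm c (by simp)), z2_add_self, zero_mul]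
  · obtain ⟨n, hn, hc⟩ := hb y hy
    rw [h2.nhdsWithin_eq hy] at hn
    refine ⟨n, hn, fun l hl => ?_⟩
    by_cases e : l.length = 5
    · match l, hl, e with
      | [a, b, c, d, e], hl, _ =>
        have := hc c (hl c (by simp)) d (hl d (by simp)) e (hl e (by simp))
        have h2 : (2 : ZMod 2) = 0 := rfl
        simp only [bd_sx, bd0, bdA, map_add, cons_sx, map_zero, ev_sx, pr, ← this]
        linear_combination ((α a b + α b c + α a c) * (β c d + β d e) +
          (α c d + α b d + α a d) * β d e) * h2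
    · rw [bd_sx]
      refine hinv_zero (fun m hm => ?_) (bd0_mem l)
      match m, hm with
      | [], _ | [_], _ | [_, _], _ | [_, _, _], _ | _ :: _ :: _ :: _ :: _ :: _, _ => simp [pr]
      | [a, b, c, d], hm => exact absurd hm.2.symm e

lemma hinv_iv {ε : ℝ} (hε : 0 < ε) :
    ∃ I ∈ Fn (Icc (0 : ℝ) 1) ε, bd I = sx [1] + sx [0] := by
  obtain ⟨n, hn⟩ := exists_nat_one_div_lt hε
  have h0 : (0 : ℝ) < (n : ℝ) + 1 := by positivity
  refine ⟨iv (n + 1) fun i => (i : ℝ) / (n + 1), iv_Fn hε (fun i hi => ⟨by positivity, ?_⟩)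
    fun i _ => ?_, ?_⟩
  · rw [div_le_one h0]; exact_mod_cast hi
  · rw [dist_comm, Real.dist_eq, ← sub_div, Nat.cast_succ, add_sub_cancel_left,
      abs_of_pos (by positivity)]
    exact hn
  · rw [bd_iv, Nat.cast_succ, div_self h0.ne', Nat.cast_zero, zero_div]

lemma hinv_hom {p : ℕ} [NeZero p] (k : ZMod p) : ∃ H : ℝ × S3 → S3, Continuous H ∧
    (∀ x, H (0, x) = x) ∧ ∀ x, H (1, x) = sh k x := by
  obtain ⟨θ, hθ⟩ := Circle.exp_surjective (ZMod.toCircle k)
  refine ⟨fun q => ⟨((Circle.exp (q.1 * θ) : Circle) : ℂ) • q.2.1, ?_⟩, ?_, fun x => ?_, fun x => ?_⟩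
  · have := q.2.2
    simp only [mem_sphere_zero_iff_norm] at this ⊢
    rw [norm_smul, this, Circle.norm_coe, one_mul]
  · refine Continuous.subtype_mk ?_ _
    fun_prop
  · exact Subtype.ext (by simp)
  · exact Subtype.ext (by simp only [sh_val, one_mul, hθ])

theorem p_HINV (hLEB : S_LEB) (hLEIB : S_LEIB) (hSHN : S_SHN) :
    S_HINV := by
  intro p _ O₁ O₂ α β k h1 h2 hU ha hb
  obtain ⟨H, hH, H0, H1⟩ := hinv_hom k
  obtain ⟨ε, hε, h⟩ := hLEB (Icc (0 : ℝ) 1 ×ˢ (univ : Set S3))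
    (fun l => ev (pr α β) (bd (sx (l.map H)))) (isCompact_Icc.prod isCompact_univ)
    (by simp [bd0]) fun q _ => by
      obtain ⟨n, hn, hl⟩ := hinv_loc h1 h2 hU ha hb (H q)
      refine ⟨H ⁻¹' n, mem_nhdsWithin_of_mem_nhds (hH.continuousAt hn), fun l hm => hl _ ?_⟩
      intro a h
      obtain ⟨b, hb, rfl⟩ := List.mem_map.1 h
      exact hm b hb
  refine ⟨ε, hε, fun μ hμ hb => ?_⟩
  obtain ⟨I, hI, bI⟩ := hinv_iv hε
  obtain ⟨-, -, -, -, p5, -, -, p8⟩ := @hSHN ℝ S3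
  have key := h _ (p8 _ _ ε I hI μ hμ)
  have e1 : ∀ ν : Ch (ℝ × S3), ev (fun l => ev (pr α β) (bd (sx (l.map H)))) ν =
      ev (fun l => pr α β (l.map H)) (bd ν) := fun ν => by
    rw [← ev_cmap, ← bd_cmap]
    exact ch_eq _ (ev (pr α β) ∘ₗ bd ∘ₗ cmap H) (fun l => by simp) ν
  have e : ∀ t : ℝ, ev (fun l => pr α β (l.map H)) (shp (sx [t]) μ) =
      ev (pr α β) (cmap (fun x => H (t, x)) μ) := fun t => by
    rw [(p5 _ rfl 0 μ t (Classical.arbitrary _)).2, ← ev_cmap, cmap_cmap]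
    rfl
  rw [e1, hLEIB, hb, map_zero, add_zero, bI, map_add, LinearMap.add_apply, map_add, e, e,
    funext H1, show (fun x => H (0, x)) = id from funext H0, cmap_id] at key
  exact CharTwo.add_eq_zero.1 key

end SHINV

end Pool.Agent.P.MP_c88051_gt.Im
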