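import Pool.Agent.P.MP_c88051_gt.Im.IfaceB

/-! Steps KUHN, DL3A, DL3, DL. -/

set_option autoImplicit false
set_option linter.unusedSectionVars false

namespace Pool.Agent.P.MP_c88051_gt.Im

section SKUHN

open Set Filter Topology Metric
open scoped RealInnerProductSpace Quaternion

lemma kuhn_sq {Y Z : Type} (a a' : Y) (b b' : Z) :
    sh0 [a, a'] [b, b'] = sx [(a, b), (a', b), (a', b')] + sx [(a, b), (a, b'), (a', b')] := by
  simp [sh0_left, sh0_right]

lemma kuhn_pr {Y Z : Type} (a a' : Y) (q q' q'' : Z) :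
    sh0 [a, a'] [q, q', q''] = sx [(a, q), (a', q), (a', q'), (a', q'')] +
      (sx [(a, q), (a, q'), (a', q'), (a', q'')] + sx [(a, q), (a, q'), (a, q''), (a', q'')]) := by
  simp [sh0_left, sh0_right]

theorem p_KUHN :
    S_KUHN := by
  intro L B Φ
  have h : ∀ (n : ℕ) (φ : ℕ → ℝ), shp (iv n φ) (shp (iv n φ) (iv n φ)) =
      ∑ i ∈ Finset.range n, ∑ j ∈ Finset.range n, ∑ k ∈ Finset.range n,
        shp (sx [φ i, φ (i + 1)]) (shp (sx [φ j, φ (j + 1)]) (sx [φ k, φ (k + 1)])) := by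
    intro n φ
    rw [iv, LinearMap.map_sum₂, LinearMap.map_sum₂]
    simp only [map_sum]
  simp only [box, h, map_sum]
  refine Finset.sum_congr rfl fun i _ => Finset.sum_congr rfl fun j _ =>
    Finset.sum_congr rfl fun k _ => ?_
  simp only [shp_sx, kuhn_sq, map_add, kuhn_pr, cmap_sx, ev_sx, List.map_cons, List.map_nil, gp]
  abel

end SKUHN

section SDL3A

open Set Filter Topology Metric
open scoped RealInnerProductSpace Quaternion

theorem dl3a_hv (D M B n t : ℕ) (hD : 0 < D) (hM : 0 < M) :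
    hv D ((n : ℤ) - B * D) (gx (D * M) B t) = if n * M < t then 1 else 0 := by
  unfold hv gx
  have hD' : (0 : ℝ) < D := by exact_mod_cast hD
  have hM' : (0 : ℝ) < M := by exact_mod_cast hM
  have e : ((((n : ℤ) - B * D : ℤ) : ℝ) / D < -(B : ℝ) + (t : ℝ) / ((D * M : ℕ) : ℝ)) ↔
      n * M < t := by
    have h : (((n : ℤ) - B * D : ℤ) : ℝ) / D =
        -(B : ℝ) + ((n * M : ℕ) : ℝ) / ((D * M : ℕ) : ℝ) := by
      push_cast
      field_simp
      ring
    rw [h, add_lt_add_iff_left, div_lt_div_iff_of_pos_right (by push_cast; positivity),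
      Nat.cast_lt]
  simp only [e]

theorem dl3a_hv1 (D M B n t : ℕ) (hD : 0 < D) (hM : 0 < M) :
    hv D ((n : ℤ) - B * D + 1) (gx (D * M) B t) = if n * M + M < t then 1 else 0 := by
  have h := dl3a_hv D M B (n + 1) t hD hM
  have e : (((n + 1 : ℕ) : ℤ) - B * D) = (n : ℤ) - B * D + 1 := by
    push_cast
    ring
  rw [e, add_one_mul] at h
  exact h

theorem dl3a_win (N lo M : ℕ) (h : lo + M ≤ N) (g : ℕ → ZMod 2) :
    ∑ x ∈ Finset.range N, (if lo ≤ x ∧ x < lo + M then g x else 0) =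
      ∑ t ∈ Finset.range M, g (lo + t) := by
  rw [← Finset.sum_filter]
  have e : (Finset.range N).filter (fun x => lo ≤ x ∧ x < lo + M) = Finset.Ico lo (lo + M) := by
    ext x
    simp only [Finset.mem_filter, Finset.mem_range, Finset.mem_Ico]
    omega
  rw [e, Finset.sum_Ico_eq_sum_range, Nat.add_sub_cancel_left]

theorem dl3a_low (N K : ℕ) (h : K ≤ N) (g : ℕ → ZMod 2) :
    ∑ x ∈ Finset.range N, (if x < K then g x else 0) = ∑ t ∈ Finset.range K, g t := by
  rw [← Finset.sum_filter]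
  congr 1
  ext x
  simp only [Finset.mem_filter, Finset.mem_range]
  omega

theorem dl3a_tel (f : ℕ → ZMod 2) (K : ℕ) :
    ∑ z ∈ Finset.range K, (f z + f (z + 1)) = f K + f 0 := by
  induction K with
  | zero => simp [CharTwo.add_self_eq_zero]
  | succ K ih =>
    rw [Finset.sum_range_succ, ih]
    linear_combination CharTwo.add_self_eq_zero (f K)

theorem dl3a_rect (u w : ℕ → ℕ → ZMod 2) (lo M K : ℕ) :
    ∑ t ∈ Finset.range M, ∑ z ∈ Finset.range K,
      (u (lo + t) z + w (lo + t + 1) z + w (lo + t) z + u (lo + t) (z + 1)) =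
      ∑ t ∈ Finset.range M, (u (lo + t) K + u (lo + t) 0) + ∑ z ∈ Finset.range K, w lo z +
        ∑ z ∈ Finset.range K, w (lo + M) z := by
  have e : ∀ t z, u (lo + t) z + w (lo + t + 1) z + w (lo + t) z + u (lo + t) (z + 1) =
      (u (lo + t) z + u (lo + t) (z + 1)) + (w (lo + t) z + w (lo + (t + 1)) z) := by
    intro t z
    rw [← add_assoc lo t 1]
    ring
  simp only [e, Finset.sum_add_distrib (f := fun z => u _ z + u _ (z + 1)), dl3a_tel]
  rw [Finset.sum_add_distrib (f := fun t => u (lo + t) K + u (lo + t) 0), Finset.sum_comm,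
    add_assoc, ← Finset.sum_add_distrib (f := fun z => w lo z)]
  congr 1
  refine Finset.sum_congr rfl fun z _ => ?_
  rw [dl3a_tel (fun t => w (lo + t) z) M, add_zero, add_comm]

theorem dl3a_c0 (D M B i j k x y z x' y' z' : ℕ) (hD : 0 < D) (hM : 0 < M) :
    curt0 D (0, ![(i : ℤ) - B * D, (j : ℤ) - B * D, (k : ℤ) - B * D])
      (gp (D * M) B x y z) (gp (D * M) B x' y' z') =
      ((if i * M < x then 1 else 0) - (if i * M + M < x then 1 else 0)) *
        ((if j * M < y' then 1 else 0) - (if j * M < y then 1 else 0)) *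
        (1 - if k * M < z then 1 else 0) := by
  rw [← dl3a_hv D M B i x hD hM, ← dl3a_hv1 D M B i x hD hM, ← dl3a_hv D M B j y' hD hM,
    ← dl3a_hv D M B j y hD hM, ← dl3a_hv D M B k z hD hM]
  rfl

theorem dl3a_c1 (D M B i j k x y z x' y' z' : ℕ) (hD : 0 < D) (hM : 0 < M) :
    curt0 D (1, ![(i : ℤ) - B * D, (j : ℤ) - B * D, (k : ℤ) - B * D])
      (gp (D * M) B x y z) (gp (D * M) B x' y' z') =
      -(((if i * M < x' then 1 else 0) - (if i * M < x then 1 else 0)) *
        ((if j * M < y' then 1 else 0) - (if j * M + M < y' then 1 else 0)) *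
        (1 - if k * M < z then 1 else 0)) := by
  rw [← dl3a_hv D M B i x' hD hM, ← dl3a_hv D M B i x hD hM, ← dl3a_hv D M B j y' hD hM,
    ← dl3a_hv1 D M B j y' hD hM, ← dl3a_hv D M B k z hD hM]
  rfl

theorem dl3a_i1 (a M x : ℕ) :
    ((if a < x + 1 then 1 else 0) - (if a + M < x + 1 then 1 else 0) : ℤ) =
      if a ≤ x ∧ x < a + M then 1 else 0 := by
  split_ifs <;> omega

theorem dl3a_i2 (a y : ℕ) :
    ((if a < y + 1 then 1 else 0) - (if a < y then 1 else 0) : ℤ) = if y = a then 1 else 0 := by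
  split_ifs <;> omega

theorem dl3a_i3 (a z : ℕ) :
    (1 - (if a < z + 1 then 1 else 0) : ℤ) = if z < a then 1 else 0 := by
  split_ifs <;> omega

theorem p_DL3A (hKUHN : S_KUHN) :
    S_DL3A := by
  intro α D M B i j k hD hM hi hj hk
  have b : ∀ n, n < 2 * B * D → n * M + M ≤ 2 * B * (D * M) := fun n hn => by
    rw [← add_one_mul, ← mul_assoc]
    exact Nat.mul_le_mul_right M hn
  have bi := b i hi
  have bj := b j hj
  have bk := b k hk
  constructor
  · rw [hKUHN]
    have := dl3a_rect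
      (fun x z => α (gp (D * M) B x (j * M) z) (gp (D * M) B (x + 1) (j * M) z))
      (fun x z => α (gp (D * M) B x (j * M) z) (gp (D * M) B x (j * M) (z + 1))) (i * M) M (k * M)
    rw [add_one_mul]
    refine Eq.trans ?_ this
    rw [← dl3a_win (2 * B * (D * M)) (i * M) M bi (fun x => ∑ z ∈ Finset.range (k * M),
      (α (gp (D * M) B x (j * M) z) (gp (D * M) B (x + 1) (j * M) z) +
        α (gp (D * M) B (x + 1) (j * M) z) (gp (D * M) B (x + 1) (j * M) (z + 1)) +
        α (gp (D * M) B x (j * M) z) (gp (D * M) B x (j * M) (z + 1)) +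
        α (gp (D * M) B x (j * M) (z + 1)) (gp (D * M) B (x + 1) (j * M) (z + 1))))]
    refine Finset.sum_congr rfl fun x _ => ?_
    simp only [pr, cz, dl3a_c0 D M B i j k _ _ _ _ _ _ hD hM, sub_self, mul_zero, zero_mul,
      Int.cast_zero, dl3a_i1, dl3a_i2, dl3a_i3, zero_add, add_zero]
    rw [Finset.sum_eq_single (j * M)]
    · rw [← dl3a_low (2 * B * (D * M)) (k * M) (by omega)]
      split_ifs with h h2
      · refine Finset.sum_congr rfl fun z _ => ?_
        split_ifs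
        · push_cast
          linear_combination CharTwo.add_self_eq_zero
            (α (gp (D * M) B x (j * M) z) (gp (D * M) B (x + 1) (j * M) (z + 1)))
        · simp
      · exact absurd rfl h2
      · simp
      · simp
    · intro y _ hy
      simp [hy]
    · intro h
      exact absurd (Finset.mem_range.2 (by omega)) h
  · rw [hKUHN]
    have := dl3a_rect
      (fun y z => α (gp (D * M) B (i * M) y z) (gp (D * M) B (i * M) (y + 1) z))
      (fun y z => α (gp (D * M) B (i * M) y z) (gp (D * M) B (i * M) y (z + 1))) (j * M) M (k * M)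
    rw [add_one_mul]
    refine Eq.trans ?_ this
    rw [← dl3a_win (2 * B * (D * M)) (j * M) M bj (fun y => ∑ z ∈ Finset.range (k * M),
      (α (gp (D * M) B (i * M) y z) (gp (D * M) B (i * M) (y + 1) z) +
        α (gp (D * M) B (i * M) (y + 1) z) (gp (D * M) B (i * M) (y + 1) (z + 1)) +
        α (gp (D * M) B (i * M) y z) (gp (D * M) B (i * M) y (z + 1)) +
        α (gp (D * M) B (i * M) y (z + 1)) (gp (D * M) B (i * M) (y + 1) (z + 1))))]
    simp only [pr, cz, dl3a_c1 D M B i j k _ _ _ _ _ _ hD hM, sub_self, mul_zero, zero_mul,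
      neg_zero, Int.cast_zero, dl3a_i1, dl3a_i2, dl3a_i3, zero_add, add_zero]
    rw [Finset.sum_eq_single (i * M)]
    · refine Finset.sum_congr rfl fun y _ => ?_
      rw [← dl3a_low (2 * B * (D * M)) (k * M) (by omega)]
      split_ifs with h h2
      · refine Finset.sum_congr rfl fun z _ => ?_
        split_ifs
        · push_cast
          rw [CharTwo.neg_eq]
          linear_combination CharTwo.add_self_eq_zero
            (α (gp (D * M) B (i * M) y z) (gp (D * M) B (i * M) (y + 1) (z + 1)))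
        · simp
      · simp
      · exact absurd rfl h
      · exact absurd rfl h
    · intro x _ hx
      simp [hx]
    · intro h
      exact absurd (Finset.mem_range.2 (by omega)) h

end SDL3A

section SDL3

open Set Filter Topology Metric
open scoped RealInnerProductSpace Quaternion

lemma dl3_lin (α : (Fin 3 → ℝ) → (Fin 3 → ℝ) → ZMod 2) (D : ℕ) (ℓ : Edge →₀ ℤ)
    (μ : Ch (Fin 3 → ℝ)) : ev (pr α (cz 2 (curt D ℓ))) μ =
      ∑ e ∈ ℓ.support, (ℓ e : ZMod 2) * ev (pr α (cz 2 (curt0 D e))) μ := by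
  have := ch_eq (ev (pr α (cz 2 (curt D ℓ))))
    (∑ e ∈ ℓ.support, (ℓ e : ZMod 2) • ev (pr α (cz 2 (curt0 D e)))) (fun l => by
      simp only [LinearMap.sum_apply, LinearMap.smul_apply, ev_sx, smul_eq_mul]
      match l with
      | [] | [_] | [_, _] | [_, _, _] | _ :: _ :: _ :: _ :: _ :: _ => simp [pr]
      | [a, b, c, d] =>
        simp only [pr, cz, curt, Finsupp.sum, Int.cast_sum, Int.cast_mul, Finset.mul_sum]
        exact Finset.sum_congr rfl fun e _ => by ring) μ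
  simpa only [LinearMap.sum_apply, LinearMap.smul_apply, smul_eq_mul] using this

lemma dl3_tel {Y : Type} [TopologicalSpace Y] {n : Set Y} {α : Y → Y → ZMod 2} (H : CocOn n α) (a : ℕ → Y) (M : ℕ)
    (h : ∀ t ≤ M, a t ∈ n) : ∑ t ∈ Finset.range M, α (a t) (a (t + 1)) = α (a 0) (a M) := by
  induction M with
  | zero => simp [H.self (h 0 le_rfl)]
  | succ M ih =>
    rw [Finset.sum_range_succ, ih fun t ht => h t (ht.trans (Nat.le_succ M)),
      H _ (h 0 (Nat.zero_le _)) _ (h M (Nat.le_succ M)) _ (h _ le_rfl)]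

lemma dl3_gx {D M : ℕ} (hD : 0 < D) (hM : 0 < M) (B i t : ℕ) :
    gx (D * M) B (i * M + t) = (1 - (t : ℝ) / M) * (((i : ℝ) - B * D) / D) +
      (t : ℝ) / M * (((i : ℝ) - B * D + 1) / D) := by
  have h1 : (D : ℝ) ≠ 0 := by positivity
  have h2 : (M : ℝ) ≠ 0 := by positivity
  simp only [gx]
  push_cast
  field_simp
  ring

lemma dl3_gx0 {D M : ℕ} (hD : 0 < D) (hM : 0 < M) (B i : ℕ) :
    gx (D * M) B (i * M) = ((i : ℝ) - B * D) / D := by
  simpa using dl3_gx hD hM B i 0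

lemma dl3_pt {D M : ℕ} (hD : 0 < D) (hM : 0 < M) (B i j k : ℕ) :
    pt D ![(i : ℤ) - B * D, (j : ℤ) - B * D, (k : ℤ) - B * D] =
      gp (D * M) B (i * M) (j * M) (k * M) := by
  funext x
  fin_cases x <;> simp [pt, gp, dl3_gx0 hD hM]

lemma dl3_tip (B D i j k : ℕ) :
    tip (0, ![(i : ℤ) - B * D, (j : ℤ) - B * D, (k : ℤ) - B * D]) =
      ![((i + 1 : ℕ) : ℤ) - B * D, (j : ℤ) - B * D, (k : ℤ) - B * D] ∧
    tip (1, ![(i : ℤ) - B * D, (j : ℤ) - B * D, (k : ℤ) - B * D]) =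
      ![(i : ℤ) - B * D, ((j + 1 : ℕ) : ℤ) - B * D, (k : ℤ) - B * D] ∧
    tip (2, ![(i : ℤ) - B * D, (j : ℤ) - B * D, (k : ℤ) - B * D]) =
      ![(i : ℤ) - B * D, (j : ℤ) - B * D, ((k + 1 : ℕ) : ℤ) - B * D] := by
  refine ⟨?_, ?_, ?_⟩ <;> funext x <;> fin_cases x <;> simp [tip, Matrix.vecHead, Matrix.vecTail] <;> ring

lemma dl3_seg {D M : ℕ} (hD : 0 < D) (hM : 0 < M) (B i j k t : ℕ) (ht : t ≤ M) :
    gp (D * M) B (i * M + t) (j * M) (k * M) ∈
      seg D (0, ![(i : ℤ) - B * D, (j : ℤ) - B * D, (k : ℤ) - B * D]) ∧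
    gp (D * M) B (i * M) (j * M + t) (k * M) ∈
      seg D (1, ![(i : ℤ) - B * D, (j : ℤ) - B * D, (k : ℤ) - B * D]) ∧
    gp (D * M) B (i * M) (j * M) (k * M + t) ∈
      seg D (2, ![(i : ℤ) - B * D, (j : ℤ) - B * D, (k : ℤ) - B * D]) := by
  have h2 : (0 : ℝ) < M := by positivity
  have h3 : (t : ℝ) / M ≤ 1 := (div_le_one h2).2 (by exact_mod_cast ht)
  obtain ⟨t0, t1, t2⟩ := dl3_tip B D i j k
  simp only [seg, t0, t1, t2]
  refine ⟨?_, ?_, ?_⟩ <;>
  · refine ⟨1 - (t : ℝ) / M, (t : ℝ) / M, by linarith, by positivity, by ring, ?_⟩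
    funext x
    fin_cases x <;> simp [pt, gp, dl3_gx0 hD hM, dl3_gx hD hM, -mul_eq_mul_left_iff,
      -add_right_inj] <;> ring

theorem p_DL3 (hDL3A : S_DL3A) :
    S_DL3 := by
  rintro α D M B ℓ hD hM hc hs ⟨h, hh⟩
  set V : (Fin 3 → ℤ) → ZMod 2 := fun k =>
    vert α (D * M) B ((k 0 + B * D).toNat * M) ((k 1 + B * D).toNat * M) ((k 2 + B * D).toNat * M) +
      h (gp (D * M) B ((k 0 + B * D).toNat * M) ((k 1 + B * D).toNat * M) 0) with hV
  have hV' : ∀ i j k : ℕ, V ![(i : ℤ) - B * D, (j : ℤ) - B * D, (k : ℤ) - B * D] =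
      vert α (D * M) B (i * M) (j * M) (k * M) + h (gp (D * M) B (i * M) (j * M) 0) := by
    intro i j k
    simp only [hV, Matrix.cons_val_zero, Matrix.cons_val_one, Matrix.cons_val, sub_add_cancel,
      Int.toNat_natCast]
  have bot : CocOn {a | a 2 = -(B : ℝ)} α := fun a ha b hb d hd => by
    rw [hh a b ha hb, hh b d hb hd, hh a d ha hd]; ring
  have g0 : ∀ i j, gp (D * M) B i j 0 ∈ {a : Fin 3 → ℝ | a 2 = -(B : ℝ)} := fun i j => by
    simp [gp, gx]
  have edge : ∀ e ∈ ℓ.support, ev (pr α (cz 2 (curt0 D e))) (box (D * M) B) =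
      α (pt D e.2) (pt D (tip e)) + (V (tip e) - V e.2) := by
    rintro ⟨d, n⟩ he
    obtain ⟨hb, hco⟩ := hs _ he
    have ex : ∀ x, ∃ i : ℕ, i < 2 * B * D ∧ n x = (i : ℤ) - B * D := fun x => by
      have := hb x
      refine ⟨(n x + B * D).toNat, ?_, by simp only at this; omega⟩
      zify
      rw [Int.toNat_of_nonneg (by simp only at this; omega)]
      simp only at this
      linarith [this.2]
    obtain ⟨i, hi, ei⟩ := ex 0
    obtain ⟨j, hj, ej⟩ := ex 1
    obtain ⟨k, hk, ek⟩ := ex 2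
    obtain rfl : n = ![(i : ℤ) - B * D, (j : ℤ) - B * D, (k : ℤ) - B * D] := by
      funext x; fin_cases x <;> simp [ei, ej, ek]
    obtain ⟨a0, a1⟩ := hDL3A α D M B i j k hD hM hi hj hk
    obtain ⟨t0, t1, t2⟩ := dl3_tip B D i j k
    rw [CharTwo.sub_eq_add (V _)]
    have hd : d = 0 ∨ d = 1 ∨ d = 2 := by fin_cases d <;> simp
    rcases hd with rfl | rfl | rfl
    · have b1 := dl3_tel hco (fun t => gp (D * M) B (i * M + t) (j * M) (k * M)) M
        fun t ht => (dl3_seg hD hM B i j k t ht).1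
      have b2 := dl3_tel bot (fun t => gp (D * M) B (i * M + t) (j * M) 0) M fun t _ => g0 _ _
      rw [hh _ _ (g0 _ _) (g0 _ _), CharTwo.sub_eq_add (h _)] at b2
      rw [a0, t0, hV', hV', dl3_pt hD hM, dl3_pt hD hM, Finset.sum_add_distrib]
      simp only [add_assoc (i * M), b1, b2, add_zero, add_mul, one_mul]
      abel
    · have b1 := dl3_tel hco (fun t => gp (D * M) B (i * M) (j * M + t) (k * M)) M
        fun t ht => (dl3_seg hD hM B i j k t ht).2.1
      have b2 := dl3_tel bot (fun t => gp (D * M) B (i * M) (j * M + t) 0) M fun t _ => g0 _ _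
      rw [hh _ _ (g0 _ _) (g0 _ _), CharTwo.sub_eq_add (h _)] at b2
      rw [a1, t1, hV', hV', dl3_pt hD hM, dl3_pt hD hM, Finset.sum_add_distrib]
      simp only [add_assoc (j * M), b1, b2, add_zero, add_mul, one_mul]
      abel
    · have b1 := dl3_tel hco (fun t => gp (D * M) B (i * M) (j * M) (k * M + t)) M
        fun t ht => (dl3_seg hD hM B i j k t ht).2.2
      have z : ev (pr α (cz 2 (curt0 D (2, ![(i : ℤ) - B * D, (j : ℤ) - B * D, (k : ℤ) - B * D]))))
          (box (D * M) B) = 0 :=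
        ch_eq _ 0 (fun l => by
          match l with
          | [] | [_] | [_, _] | [_, _, _] | _ :: _ :: _ :: _ :: _ :: _ => simp [pr]
          | [a, b, c, d] => simp [pr, cz, curt0]) _
      rw [z, t2, hV', hV', dl3_pt hD hM, dl3_pt hD hM]
      simp only [vert, add_mul, one_mul, Finset.sum_range_add, add_assoc (k * M), b1, add_zero]
      generalize α _ _ = x, (∑ t ∈ Finset.range (k * M), _ : ZMod 2) = y, h _ = w
      revert x y w
      decide
  have cl := congrArg (Int.cast : ℤ → ZMod 2) (hc fun k => ((V k).val : ℤ))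
  simp only [Finsupp.sum, Int.cast_sum, Int.cast_mul, Int.cast_sub, Int.cast_natCast,
    ZMod.natCast_zmod_val, Int.cast_zero] at cl
  rw [dl3_lin, Finset.sum_congr rfl fun e he => by rw [edge e he, mul_add],
    Finset.sum_add_distrib, cl, add_zero, Finsupp.sum]

end SDL3

section SDL

open Set Filter Topology Metric
open scoped RealInnerProductSpace Quaternion

lemma dl_bound (D : ℕ) (hD : 0 < D) (ℓ : Edge →₀ ℤ) :
    ∃ B₁ : ℕ, ∀ B ≥ B₁, ∀ e ∈ ℓ.support, ∀ i, -((B : ℤ) * D) ≤ e.2 i ∧ e.2 i < B * D := by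
  refine ⟨(ℓ.support.sup fun e => Finset.univ.sup fun i => (e.2 i).natAbs) + 1,
    fun B hB e he i => ?_⟩
  have h1 : (e.2 i).natAbs ≤ ℓ.support.sup fun e => Finset.univ.sup fun i => (e.2 i).natAbs :=
    (Finset.le_sup (f := fun i => (e.2 i).natAbs) (Finset.mem_univ i)).trans
      (Finset.le_sup (f := fun e : Edge => Finset.univ.sup fun i => (e.2 i).natAbs) he)
  have h2 : B ≤ B * D := Nat.le_mul_of_pos_right B hD
  have h3 : (B : ℤ) ≤ B * D := by exact_mod_cast h2
  omega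

lemma dl_cone {Y : Type} {n : Set Y} {α β : Y → Y → ZMod 2} (h : CocOn n α) {z : Y} (hz : z ∈ n)
    {ν : Ch Y} (hν : ν ∈ In n) : ev (pr α β) (cons z ν) = 0 := by
  rw [ev_cons, ev_congr (Ψ := fun l => 0 * (0 : ZMod 2)) (fun l hl => ?_) hν, ev_mul, zero_mul]
  match l with
  | [] | [_] | [_, _] | _ :: _ :: _ :: _ :: _ => simp [pr]
  | [a, b, c] => simp [pr, h z hz a (hl a (by simp)) b (hl b (by simp))]

theorem p_DL (hCHART : S_CHART) (hDL1 : S_DL1) (hDL2 : S_DL2) (hDL3 : S_DL3) (hBOX : S_BOX) (hSTK : S_STK) :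
    S_DL := by
  intro O₁ O₂ A α hO₁ hA hcov hAO hne hdis hα hnp
  have hAne : A.Nonempty := by
    rcases A.eq_empty_or_nonempty with rfl | h
    · exact absurd ⟨0, fun _ h => h.elim⟩ hnp
    · exact h
  obtain ⟨z, hz⟩ : ∃ z, z ∉ closure A ∪ closure O₂ := by
    by_contra hn
    push Not at hn
    obtain ⟨x, -, hx⟩ := isPreconnected_closed_iff.1 preconn_S3 _ _ isClosed_closure
      isClosed_closure (fun x _ => hn x) (by simpa using hAne) (by simpa using hne)
    exact disjoint_left.1 hdis hx.1 hx.2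
  have hzA : A ⊆ {z}ᶜ := fun x hx e => hz (Or.inl (subset_closure (e ▸ hx)))
  have hzO : O₂ ⊆ {z}ᶜ := fun x hx e => hz (Or.inr (subset_closure (e ▸ hx)))
  have hz1 : z ∈ O₁ := (hcov.ge (mem_univ z)).resolve_right fun h => hzO h rfl
  obtain ⟨ι, hι, hr, hinf⟩ := hCHART z
  obtain ⟨j, hj1, hj2, hjc⟩ : ∃ j : S3 → Fin 3 → ℝ, (∀ y, j (ι y) = y) ∧
      (∀ x ∈ ({z}ᶜ : Set S3), ι (j x) = x) ∧ ContinuousOn j {z}ᶜ := by
    refine ⟨(hι.toOpenPartialHomeomorph ι).symm, fun y => hι.toOpenPartialHomeomorph_left_inv,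
      fun x hx => IsOpenEmbedding.toOpenPartialHomeomorph_right_inv ι hι (hr ▸ hx), ?_⟩
    have := (hι.toOpenPartialHomeomorph ι).continuousOn_symm
    rwa [IsOpenEmbedding.toOpenPartialHomeomorph_target, hr] at this
  obtain ⟨D, ℓ, hD, hcl, hseg, hsum⟩ := hDL1 (ι ⁻¹' A) (fun a b => α (ι a) (ι b))
    (hA.preimage hι.continuous)
    ((hα.mono hAO).comp hι.continuous.continuousOn (mapsTo_preimage _ _)) (by
      rintro ⟨h, hh⟩
      refine hnp ⟨_, (hh.comp (hjc.mono hzA) fun x hx => ?_).congr_c fun x hx y hy => ?_⟩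
      · show ι (j x) ∈ A
        rwa [hj2 x (hzA hx)]
      · rw [hj2 x (hzA hx), hj2 y (hzA hy)])
  refine ⟨fun a b => curt D ℓ (j a) (j b), (hDL2 D ℓ hD hcl).comp (hjc.mono hzO)
    fun x hx e he hs => ?_, fun ε hε => ?_⟩
  · have : ι (j x) ∈ A := (hseg e he).1 hs
    rw [hj2 x (hzO hx)] at this
    exact disjoint_left.1 hdis (subset_closure this) (subset_closure hx)
  obtain ⟨n, hn, hco⟩ := hα z hz1
  rw [hO₁.nhdsWithin_eq hz1] at hn
  have hn' : n ∩ ball z (ε / 2) ∈ 𝓝 z := inter_mem hn (ball_mem_nhds _ (half_pos hε))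
  obtain ⟨B₀, hB₀⟩ := hinf _ hn'
  obtain ⟨B₁, hB₁⟩ := dl_bound D hD ℓ
  have hfar : ∀ y : Fin 3 → ℝ, ((B₀ + B₁ : ℕ) : ℝ) ≤ ‖y‖ → ι y ∈ n ∩ ball z (ε / 2) :=
    fun y hy => hB₀ y (le_trans (by exact_mod_cast Nat.le_add_right _ _) hy)
  obtain ⟨δ, hδ, hu⟩ := Metric.uniformContinuousOn_iff.1
    ((isCompact_closedBall (0 : Fin 3 → ℝ) ((B₀ + B₁ : ℕ) : ℝ)).uniformContinuousOn_of_continuous
      hι.continuous.continuousOn) ε hε
  obtain ⟨M, hM⟩ := exists_nat_one_div_lt hδ
  have hL : 0 < D * (M + 1) := by positivity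
  obtain ⟨b1, b2, b3⟩ := hBOX (D * (M + 1)) (B₀ + B₁) hL
  have hlt : (1 : ℝ) / (D * (M + 1) : ℕ) < δ := lt_of_le_of_lt
    (one_div_le_one_div_of_le (by positivity)
      (by exact_mod_cast Nat.le_mul_of_pos_left (M + 1) hD)) hM
  have hν : cmap ι (bd (box (D * (M + 1)) (B₀ + B₁))) ∈ In (n ∩ ball z (ε / 2)) :=
    cmap_In hfar b2
  have hzn : z ∈ n ∩ ball z (ε / 2) := mem_of_mem_nhds hn'
  refine ⟨cmap ι (box (D * (M + 1)) (B₀ + B₁)) +
    cons z (cmap ι (bd (box (D * (M + 1)) (B₀ + B₁)))),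
    add_mem (cmap_Fn (mapsTo_univ _ _) hu (b1 δ hlt)) (supp_mem (cons z) (fun l hl => ?_) hν),
    ?_, ?_⟩
  · rw [cons_sx]
    have key : ∀ a ∈ z :: l, dist a z < ε / 2 := fun a ha => by
      rcases List.mem_cons.1 ha with rfl | ha
      · exact hzn.2
      · exact (hl a ha).2
    refine sx_mem ⟨fun _ _ => mem_univ _, fun a ha b hb => ?_⟩
    linarith [dist_triangle_right a b z, key a ha, key b hb]
  · have hg : cmap ι (bd (box (D * (M + 1)) (B₀ + B₁))) ∈ Lg S3 2 :=
      supp_mem (cmap ι) (fun l hl => by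
        rw [cmap_sx]
        exact sx_mem (by simpa using hl)) b3
    rw [map_add, hSTK.2.2 z _ hg, ← bd_cmap, hSTK.2.1, map_zero, add_zero, ch_add_self]
  · rw [map_add, dl_cone (hco.mono inter_subset_left) hzn hν, add_zero, ev_cmap, ← hsum,
      ← hDL3 (fun a b => α (ι a) (ι b)) D (M + 1) (B₀ + B₁) ℓ hD M.succ_pos hcl
        (fun e he => ⟨hB₁ _ (Nat.le_add_left _ _) e he, (hseg e he).2⟩)
        ⟨fun a => α z (ι a), fun a b ha hb => ?_⟩]
    · congr 2
      funext l
      rw [pr_map]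
      simp only [cz, hj1]
      rfl
    · have key : ∀ a : Fin 3 → ℝ, a 2 = -((B₀ + B₁ : ℕ) : ℝ) → ι a ∈ n := fun a ha =>
        (hfar a (le_trans (by rw [ha, norm_neg, Real.norm_natCast]) (norm_le_pi_norm a 2))).1
      exact hco.sub hzn.1 (key a ha) (key b hb)

end SDL

end Pool.Agent.P.MP_c88051_gt.Im
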