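import Pool.Agent.P.MP_c88051_gt.Im.IfaceB

/-! Steps DEGH, DEG4, LJ2, N0, HZ. -/

set_option autoImplicit false
set_option linter.unusedSectionVars false

namespace Pool.Agent.P.MP_c88051_gt.Im

section SDEGH

open Set Filter Topology Metric
open scoped RealInnerProductSpace Quaternion

lemma degh_iv {ε : ℝ} (hε : 0 < ε) :
    ∃ I ∈ Fn (Icc (0 : ℝ) 1) ε, bd I = sx [1] + sx [0] := by
  obtain ⟨n, hn⟩ := exists_nat_one_div_lt hε
  have h0 : (0 : ℝ) < (n : ℝ) + 1 := by positivity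
  refine ⟨iv (n + 1) fun i => (i : ℝ) / (n + 1), iv_Fn hε (fun i hi => ⟨by positivity, ?_⟩)
    fun i _ => ?_, ?_⟩
  · rw [div_le_one h0]; exact_mod_cast hi
  · rw [dist_comm, Real.dist_eq, ← sub_div, Nat.cast_succ, add_sub_cancel_left,
      abs_of_pos (by positivity)]
    exact hn
  · rw [bd_iv, Nat.cast_succ, div_self h0.ne', Nat.cast_zero, zero_div]

theorem p_DEGH (hSTK : S_STK) (hLEB : S_LEB) (hLEIB : S_LEIB) (hSHN : S_SHN) :
    S_DEGH := by
  classical
  intro Y _ _ k A ρ s₀ s₁ hA hρ h0 h1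
  let s : Fin k → ℝ × Y → ZMod 2 := fun i q =>
    if q.1 = 0 then s₀ i q.2 else if q.1 = 1 then s₁ i q.2 else sg (A q i)
  have hs : ∀ i, Sgn (Icc (0 : ℝ) 1 ×ˢ (univ : Set Y)) (s i) fun q => A q i := by
    rintro i ⟨t, y⟩ hq
    simp only [s]
    split_ifs with e0 e1
    · subst e0; exact h0 i y trivial
    · subst e1; exact h1 i y trivial
    · exact sgn_sg univ (fun q => A q i) (t, y) trivial
  obtain ⟨ε, hε, h⟩ := hLEB (Icc (0 : ℝ) 1 ×ˢ (univ : Set Y)) (dprod (ρ :: List.ofFn s))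
    (isCompact_Icc.prod isCompact_univ) (by simp [dprod]) fun q hq => by
      by_cases e : A q = 0
      · exact ⟨_, hρ q hq e, fun l hl => dprod_eq_zero List.mem_cons_self fun a ha b hb =>
          (hl a ha).trans (hl b hb).symm⟩
      · obtain ⟨i, hi⟩ := Function.ne_iff.1 e
        exact ⟨_, (hs i).ev_eq hq ((continuous_apply i).comp hA).continuousWithinAt hi,
          fun l hl => dprod_eq_zero (List.mem_cons_of_mem _ (List.mem_ofFn.2 ⟨i, rfl⟩))
            fun a ha b hb => (hl a ha).trans (hl b hb).symm⟩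
  refine ⟨ε, hε, fun μ hμ hb => ?_⟩
  obtain ⟨I, hI, bI⟩ := degh_iv hε
  obtain ⟨-, -, -, -, p5, -, -, p8⟩ := @hSHN ℝ Y
  have key := h _ (p8 _ _ ε I hI μ hμ)
  have e : ∀ t : ℝ, ev (cc ρ (List.ofFn s)) (shp (sx [t]) μ) =
      ev (cc (fun y => ρ (t, y)) (List.ofFn fun i y => s i (t, y))) μ := fun t => by
    rcases isEmpty_or_nonempty Y with hY | ⟨⟨y⟩⟩
    · refine ch_eq (ev _ ∘ₗ shp (sx [t])) _ (fun l => ?_) μ
      cases l with
      | nil => simp [cc]
      | cons a l => exact hY.elim a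
    · rw [(p5 _ rfl 0 μ t y).2, ev_cmap]
      simp only [cc_map, List.map_ofFn]
      rfl
  rw [← hSTK.1, hLEIB, hb, map_zero, add_zero, bI, map_add, LinearMap.add_apply, map_add, e,
    e] at key
  have e0 : (fun i y => s i (0, y)) = s₀ := by funext i y; simp [s]
  have e1 : (fun i y => s i (1, y)) = s₁ := by funext i y; simp [s]
  rw [e0, e1] at key
  exact (CharTwo.add_eq_zero.1 key).symm

end SDEGH

section SDEG4

open Set Filter Topology Metric
open scoped RealInnerProductSpace Quaternion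

theorem p_DEG4 (hDEGH : S_DEGH) :
    S_DEG4 := by
  intro Y _ _ u hu h0
  let A : ℝ × Y → Fin 3 → ℝ := fun q => ![(u q).imI, (u q).imJ, (u q).imK]
  have hA : Continuous A := continuous_pi fun i => by
    fin_cases i
    · exact Quaternion.continuous_imI.comp hu
    · exact Quaternion.continuous_imJ.comp hu
    · exact Quaternion.continuous_imK.comp hu
  exact hDEGH A (fun q => sg (u q).re) (fun i y => sg (A (0, y) i)) (fun i y => sg (A (1, y) i)) hA
    (fun q hq e => (sgn_sg _ fun q => (u q).re).ev_eq hq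
      (Quaternion.continuous_re.comp hu).continuousWithinAt fun e' => h0 q.1 hq.1 q.2
        (Quaternion.ext _ _ e' (congrFun e 0) (congrFun e 1) (congrFun e 2)))
    (fun i => sgn_sg _ _) fun i => sgn_sg _ _

end SDEG4

section SLJ2

open Set Filter Topology Metric
open scoped RealInnerProductSpace Quaternion

lemma lj2_path {L : ℍ} (hL : L ≠ 0) :
    ∃ γ : ℝ → ℍ, Continuous γ ∧ γ 0 = L ∧ γ 1 = 1 ∧ ∀ t, γ t ≠ 0 := by
  obtain ⟨γ, hγ⟩ := (isPathConnected_compl_singleton_of_one_lt_rank (E := ℍ)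
    (by rw [Quaternion.rank_eq_four]; norm_num) 0).joinedIn L hL 1 (one_ne_zero (α := ℍ))
  refine ⟨γ.extend, γ.continuous_extend, γ.extend_zero, γ.extend_one, fun t => ?_⟩
  obtain ⟨s, hs⟩ : γ.extend t ∈ range γ := γ.extend_range ▸ mem_range_self t
  exact hs ▸ hγ s

lemma lj2_cont {Y : Type} [TopologicalSpace Y] {z w : Y → ℂ} (hz : Continuous z)
    (hw : Continuous w) : Continuous fun y => qz (z y) (w y) := by
  have : (fun y => qz (z y) (w y)) = fun y => (z y).re • (1 : ℍ) + (z y).im • qz Complex.I 0 +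
      (w y).re • qz 0 1 + (w y).im • qz 0 Complex.I := by
    funext y
    ext <;> simp only [Quaternion.re_add, Quaternion.imI_add, Quaternion.imJ_add,
      Quaternion.imK_add, Quaternion.re_smul, Quaternion.imI_smul, Quaternion.imJ_smul,
      Quaternion.imK_smul] <;> simp [qz]
  rw [this]
  fun_prop

lemma lj2_zero {z w : ℂ} (h : qz z w = 0) : z = 0 ∧ w = 0 :=
  ⟨Complex.ext (congrArg QuaternionAlgebra.re h) (congrArg QuaternionAlgebra.imI h),
    Complex.ext (congrArg QuaternionAlgebra.imJ h) (congrArg QuaternionAlgebra.imK h)⟩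

lemma lj2_det (t : ℝ) : (2 * t - 1 + t * (1 - t) * Complex.I - (1 - t) ^ 2 : ℂ) ≠ 0 := fun h => by
  have h1 := congrArg Complex.re h
  have h2 := congrArg Complex.im h
  simp [sq, sub_eq_zero] at h1 h2
  rcases h2 with h2 | h2
  · rw [h2] at h1; norm_num at h1
  · rw [← h2] at h1; norm_num at h1

theorem p_LJ2 (hDEG4 : S_DEG4) :
    S_LJ2 := by
  intro Y _ _ z w L R hz hw h0 hL hR
  obtain ⟨γ, c1, a1, b1, n1⟩ := lj2_path hL
  obtain ⟨δ, c2, a2, b2, n2⟩ := lj2_path hR
  obtain ⟨ε, hε, H⟩ := hDEG4 (fun q : ℝ × Y => γ q.1 * qz (z q.2 + (1 - q.1) * w q.2)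
    ((1 - q.1) * z q.2 + (2 * q.1 - 1 + q.1 * (1 - q.1) * Complex.I) * w q.2) * δ q.1)
    (((c1.comp continuous_fst).mul (lj2_cont (by fun_prop) (by fun_prop))).mul
      (c2.comp continuous_fst)) fun t _ y => mul_ne_zero (mul_ne_zero (n1 t) fun h => by
        obtain ⟨e1, e2⟩ := lj2_zero h
        have e3 : w y = 0 := (mul_eq_zero.1 (show
          (2 * t - 1 + t * (1 - t) * Complex.I - (1 - t) ^ 2 : ℂ) * w y = 0 by
            linear_combination e2 - (1 - t) * e1)).resolve_left (lj2_det t)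
        have e4 : z y = 0 := by simpa [e3] using e1
        exact (h0 y).elim (fun h => h e4) fun h => h e3) (n2 t)
  refine ⟨ε, hε, fun μ hμ hb => ?_⟩
  have := H μ hμ hb
  simpa [a1, a2, b1, b2, sub_eq_add_neg, show (2 : ℂ) + -1 = 1 by norm_num] using this

end SLJ2

section SN0

open Set Filter Topology Metric
open scoped RealInnerProductSpace Quaternion

lemma n0_re {w : ℍ} (hw : w ≠ 0) (h1 : w.imI = 0) (h2 : w.imJ = 0) (h3 : w.imK = 0) : w.re ≠ 0 :=
  fun h0 => hw (Quaternion.ext _ _ h0 h1 h2 h3)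

lemma n0_sg {t : ℝ} (h : t ≠ 0) : sg (-t) + sg t + 1 = 0 := by
  rcases h.lt_or_gt with h | h
  · rw [sg_pos (neg_pos.2 h), sg_nonpos h.le]; decide
  · rw [sg_pos h, sg_nonpos (neg_nonpos.2 h.le)]; decide

lemma n0_lc {Y : Type} [TopologicalSpace Y] {A : Y → ℝ} (hA : Continuous A) (K : Set Y) {y : Y}
    (hy : y ∈ K) (h : A y ≠ 0) : ∀ᶠ z in 𝓝[K] y, sg (A z) = sg (A y) :=
  (sgn_sg K A).ev_eq hy hA.continuousWithinAt h

lemma n0_flip (hLEB : S_LEB) (hSTK : S_STK) {Y : Type} [PseudoMetricSpace Y] [CompactSpace Y]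
    (u : Y → ℍ) (hu : Continuous u) (h0 : ∀ y, u y ≠ 0) :
    ∃ ε > (0 : ℝ), ∀ μ ∈ Fn (univ : Set Y) ε, bd μ = 0 →
      ev (cc (fun y => sg (-u y).re)
        [fun y => sg (u y).imI, fun y => sg (u y).imJ, fun y => sg (u y).imK]) μ = ev (dgH u) μ := by
  have cR : Continuous fun y => (u y).re := Quaternion.continuous_re.comp hu
  have cI : Continuous fun y => (u y).imI := Quaternion.continuous_imI.comp hu
  have cJ : Continuous fun y => (u y).imJ := Quaternion.continuous_imJ.comp hu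
  have cK : Continuous fun y => (u y).imK := Quaternion.continuous_imK.comp hu
  set ss : List (Y → ZMod 2) :=
    [fun y => sg (u y).imI, fun y => sg (u y).imJ, fun y => sg (u y).imK] with hss
  have key : ∀ (A : Y → ℝ) (y : Y), Continuous A → (fun y => sg (A y)) ∈ ss → A y ≠ 0 →
      ∃ n ∈ 𝓝[univ] y, ∀ l : List Y, (∀ a ∈ l, a ∈ n) →
        cc (fun y => sg (-u y).re) ss l + dgH u l + dprod ss l = 0 := by
    intro A y hA hm hy
    refine ⟨_, n0_lc hA univ (mem_univ y) hy, fun l hl => ?_⟩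
    have hc : ∀ a ∈ l, ∀ b ∈ l, sg (A a) = sg (A b) := fun a ha b hb =>
      (hl a ha).trans (hl b hb).symm
    rw [dgH, ← hss, cc_eq_zero hm hc, cc_eq_zero hm hc, dprod_eq_zero hm hc]; simp
  obtain ⟨ε, hε, H⟩ := hLEB univ
    (fun l => cc (fun y => sg (-u y).re) ss l + dgH u l + dprod ss l) isCompact_univ
    (by simp [cc, dgH, hss, dprod]) (fun y _ => by
      by_cases h1 : (u y).imI = 0
      swap
      · exact key (fun y => (u y).imI) y cI (by simp [hss]) h1
      by_cases h2 : (u y).imJ = 0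
      swap
      · exact key (fun y => (u y).imJ) y cJ (by simp [hss]) h2
      by_cases h3 : (u y).imK = 0
      swap
      · exact key (fun y => (u y).imK) y cK (by simp [hss]) h3
      refine ⟨{z | (u z).re ≠ 0}, mem_nhdsWithin_of_mem_nhds
        (cR.continuousAt.eventually_ne (n0_re (h0 y) h1 h2 h3)), fun l hl => ?_⟩
      cases l with
      | nil => simp [cc, dgH, hss, dprod]
      | cons a l =>
        have := n0_sg (hl a (by simp))
        simp only [dgH, ← hss, cc, Quaternion.re_neg]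
        linear_combination dprod ss (a :: l) * this)
  refine ⟨ε, hε, fun μ hμ hb => ?_⟩
  have h1 := H μ hμ
  have h2 := hSTK.1 (fun y => sg (u y).imI) [fun y => sg (u y).imJ, fun y => sg (u y).imK] μ
  rw [hb, map_zero, ← hss] at h2
  rw [ev_add, ev_add, ← h2, add_zero] at h1
  linear_combination h1 - z2_add_self (ev (dgH u) μ)

theorem p_N0 (hDEGH : S_DEGH) (hPROD : S_PROD) (hLEIB : S_LEIB) (hSHN : S_SHN) (hLEB : S_LEB) (hSTK : S_STK) :
    S_N0 := by
  intro Y _ _ u s hu h0 hs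
  have cR : Continuous fun y => (u y).re := Quaternion.continuous_re.comp hu
  have cI : Continuous fun y => (u y).imI := Quaternion.continuous_imI.comp hu
  have cJ : Continuous fun y => (u y).imJ := Quaternion.continuous_imJ.comp hu
  have cK : Continuous fun y => (u y).imK := Quaternion.continuous_imK.comp hu
  have f1 : Continuous fun q : ℝ × Y × Y => q.2.1 := by fun_prop
  have f2 : Continuous fun q : ℝ × Y × Y => q.2.2 := by fun_prop
  obtain ⟨ε₁, hε₁, H₁⟩ := n0_flip hLEB hSTK u hu h0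
  obtain ⟨ε₂, hε₂, H₂⟩ := hDEGH (Y := Y × Y) (k := 6)
    (fun q => ![(u q.2.1).imI - q.1 * (u q.2.2).imI, (u q.2.1).imJ - q.1 * (u q.2.2).imJ,
      (u q.2.1).imK - q.1 * (u q.2.2).imK, q.1 * (u q.2.1).imI + (u q.2.2).imI,
      q.1 * (u q.2.1).imJ + (u q.2.2).imJ, q.1 * (u q.2.1).imK + (u q.2.2).imK])
    (fun q => sg (u q.2.1).re * sg (-u q.2.2).re)
    ![fun q => sg (u q.1).imI, fun q => sg (u q.1).imJ, fun q => sg (u q.1).imK,
      fun q => sg (u q.2).imI, fun q => sg (u q.2).imJ, fun q => sg (u q.2).imK] s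
    (continuous_pi fun i => by
      fin_cases i
      exacts [(cI.comp f1).sub (continuous_fst.mul (cI.comp f2)),
        (cJ.comp f1).sub (continuous_fst.mul (cJ.comp f2)),
        (cK.comp f1).sub (continuous_fst.mul (cK.comp f2)),
        (continuous_fst.mul (cI.comp f1)).add (cI.comp f2),
        (continuous_fst.mul (cJ.comp f1)).add (cJ.comp f2),
        (continuous_fst.mul (cK.comp f1)).add (cK.comp f2)])
    (fun q hq hA => by
      have e0 := congrFun hA 0
      have e1 := congrFun hA 1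
      have e2 := congrFun hA 2
      have e3 := congrFun hA 3
      have e4 := congrFun hA 4
      have e5 := congrFun hA 5
      simp only [Matrix.cons_val, Pi.zero_apply] at e0 e1 e2 e3 e4 e5
      have z : ∀ a b : ℝ, a - q.1 * b = 0 → q.1 * a + b = 0 → a = 0 ∧ b = 0 := by
        intro a b h1 h2
        have h3 : (1 + q.1 ^ 2) * b = 0 := by linear_combination h2 - q.1 * h1
        have h4 : b = 0 := (mul_eq_zero.1 h3).resolve_left (by positivity)
        exact ⟨by simpa [h4] using h1, h4⟩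
      have r1 := n0_re (h0 q.2.1) (z _ _ e0 e3).1 (z _ _ e1 e4).1 (z _ _ e2 e5).1
      have r2 := n0_re (h0 q.2.2) (z _ _ e0 e3).2 (z _ _ e1 e4).2 (z _ _ e2 e5).2
      filter_upwards [n0_lc (A := fun q : ℝ × Y × Y => (u q.2.1).re) (cR.comp f1) _ hq r1,
        n0_lc (A := fun q : ℝ × Y × Y => (-u q.2.2).re) (cR.comp f2).neg _ hq (by simpa using r2)]
        with w h1 h2
      rw [h1, h2])
    (fun i => by
      fin_cases i <;> simpa using sgn_sg _ _)
    (fun i => by
      have := hs i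
      fin_cases i <;> simpa [six, sub_eq_add_neg] using this)
  refine ⟨min ε₁ ε₂, lt_min hε₁ hε₂, fun μ hμ hb => ?_⟩
  have hμ₂ : μ ∈ Fn univ ε₂ := Fn_mono le_rfl (min_le_right _ _) hμ
  have hf := (hSHN (Y := Y) (Z := Y)).2.2.2.2.2.2.2 univ univ ε₂ μ hμ₂ μ hμ₂
  rw [univ_prod_univ] at hf
  have h2 := H₂ _ hf (by rw [hLEIB, hb]; simp)
  have h3 := hPROD (fun y => sg (u y).re) (fun y => sg (-u y).re)
    [fun y => sg (u y).imI, fun y => sg (u y).imJ, fun y => sg (u y).imK]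
    [fun y => sg (u y).imI, fun y => sg (u y).imJ, fun y => sg (u y).imK] μ μ
  rw [H₁ μ (Fn_mono le_rfl (min_le_left _ _) hμ) hb] at h3
  rw [← h2]
  exact h3

end SN0

section SHZ

open Set Filter Topology Metric
open scoped RealInnerProductSpace Quaternion

lemma hz_norm (x : S3) :
    (x.1 0).re ^ 2 + (x.1 0).im ^ 2 + (x.1 1).re ^ 2 + (x.1 1).im ^ 2 = 1 := by
  have h := x.2
  rw [mem_sphere_zero_iff_norm] at h
  have h2 := EuclideanSpace.norm_sq_eq x.1
  rw [h, Fin.sum_univ_two, Complex.sq_norm, Complex.sq_norm, Complex.normSq_apply,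
    Complex.normSq_apply] at h2
  linarith

lemma hz_ext {x y : S3} (h1 : (x.1 0).re = (y.1 0).re) (h2 : (x.1 0).im = (y.1 0).im)
    (h3 : (x.1 1).re = (y.1 1).re) (h4 : (x.1 1).im = (y.1 1).im) : x = y := by
  refine Subtype.ext (PiLp.ext fun i => ?_)
  fin_cases i
  exacts [Complex.ext h1 h2, Complex.ext h3 h4]

lemma hz_real {a b₁ b₂ b₃ c d₁ d₂ d₃ : ℝ} (hx : a ^ 2 + b₁ ^ 2 + b₂ ^ 2 + b₃ ^ 2 = 1)
    (hy : c ^ 2 + d₁ ^ 2 + d₂ ^ 2 + d₃ ^ 2 = 1) (e₁ : (1 - c) * b₁ = (1 - a) * d₁)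
    (e₂ : (1 - c) * b₂ = (1 - a) * d₂) (e₃ : (1 - c) * b₃ = (1 - a) * d₃) (ha : a ≠ 1)
    (hc : c ≠ 1) : a = c ∧ b₁ = d₁ ∧ b₂ = d₂ ∧ b₃ = d₃ := by
  have ha' : 1 - a ≠ 0 := sub_ne_zero.2 ha.symm
  have hc' : 1 - c ≠ 0 := sub_ne_zero.2 hc.symm
  have h : (1 - a) * ((1 - c) * (2 * (a - c))) = 0 := by
    linear_combination (-(1 - c) ^ 2) * hx + (1 - a) ^ 2 * hy +
      ((1 - c) * b₁ + (1 - a) * d₁) * e₁ + ((1 - c) * b₂ + (1 - a) * d₂) * e₂ +
      ((1 - c) * b₃ + (1 - a) * d₃) * e₃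
  have h' : a = c := by
    have := (mul_eq_zero.1 ((mul_eq_zero.1 h).resolve_left ha')).resolve_left hc'
    linarith
  subst h'
  exact ⟨rfl, mul_left_cancel₀ ha' e₁, mul_left_cancel₀ ha' e₂, mul_left_cancel₀ ha' e₃⟩

lemma hz_one {x : S3} (h : (x.1 0).re = 1) :
    x = (⟨EuclideanSpace.single 0 1, by simp⟩ : S3) := by
  have := hz_norm x
  rw [h] at this
  refine hz_ext (by simpa using h) ?_ ?_ ?_ <;> simp <;> nlinarith

lemma hz_sg {t : ℝ} (h : t ≠ 0) : sg (-t) = sg t + 1 := by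
  rcases h.lt_or_gt with h | h
  · rw [sg_pos (neg_pos.2 h), sg_nonpos h.le, zero_add]
  · rw [sg_nonpos (neg_nonpos.2 h.le), sg_pos h, z2_add_self]

open Classical in
/-- The sign of the first nonzero coordinate. -/
noncomputable def hz_chi (v : Fin 3 → ℝ) : ZMod 2 :=
  if v 0 ≠ 0 then sg (v 0) else if v 1 ≠ 0 then sg (v 1) else sg (v 2)

lemma hz_chi_neg {v : Fin 3 → ℝ} (hv : v ∈ SP) : hz_chi (-v) = hz_chi v + 1 := by
  have h : |v 0| + |v 1| + |v 2| = 1 := by simpa [SP, Fin.sum_univ_three] using hv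
  simp only [hz_chi, Pi.neg_apply, neg_ne_zero]
  split_ifs with h0 h1
  · exact hz_sg h0
  · exact hz_sg h1
  · refine hz_sg fun h2 => ?_
    rw [not_not.1 h0, not_not.1 h1, h2] at h
    simp at h

theorem p_HZ :
    S_HZ := by
  classical
  refine ⟨⟨⟨EuclideanSpace.single 0 1, by simp⟩, fun q =>
    (1 - (q.2.1 0).re) • ![(q.1.1 0).im, (q.1.1 1).re, (q.1.1 1).im] -
      (1 - (q.1.1 0).re) • ![(q.2.1 0).im, (q.2.1 1).re, (q.2.1 1).im], ?_, fun x y => ?_,
    fun x y h => ?_⟩, fun q => hz_chi q.1,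
    fun q => if q.2.1 ≠ 0 then sg q.2.1 else sg q.2.2 + hz_chi q.1, fun q hq => ?_⟩
  · refine continuous_pi fun i => ?_
    fin_cases i <;> simp <;> fun_prop
  · simp only [neg_sub]
  · by_cases hx : (x.1 0).re = 1
    · exact Or.inr (Or.inl (hz_one hx))
    by_cases hy : (y.1 0).re = 1
    · exact Or.inr (Or.inr (hz_one hy))
    have e₁ := congrFun h 0
    have e₂ := congrFun h 1
    have e₃ := congrFun h 2
    simp [sub_eq_zero] at e₁ e₂ e₃
    obtain ⟨h1, h2, h3, h4⟩ := hz_real (hz_norm x) (hz_norm y) e₁ e₂ e₃ hx hy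
    exact Or.inl (hz_ext h1 h2 h3 h4)
  · have h1 := hz_chi_neg hq.1
    have h2 : |q.2.1| + |q.2.2| = 1 := hq.2
    refine ⟨h1, rfl, ?_, ?_⟩
    · simp only [g1]
      split_ifs with h0
      · rfl
      · have h3 : q.2.2 ≠ 0 := fun h3 => by
          rw [not_not.1 h0, h3] at h2
          simp at h2
        rw [hz_sg h3, h1]
        calc _ = sg q.2.2 + hz_chi q.1 + (1 + 1) := by ring
          _ = _ := by rw [z2_add_self, add_zero]
    · simp only [g2, Prod.fst_neg, Prod.snd_neg, neg_ne_zero]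
      split_ifs with h0
      · exact hz_sg h0
      · have h3 : q.2.2 ≠ 0 := fun h3 => by
          rw [not_not.1 h0, h3] at h2
          simp at h2
        rw [hz_sg h3]
        ring

end SHZ

end Pool.Agent.P.MP_c88051_gt.Im
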