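import Pool.Agent.P.MP_c88051_gt.Im.PA1
import Pool.Agent.P.MP_c88051_gt.Im.PA2
import Pool.Agent.P.MP_c88051_gt.Im.PA3
import Pool.Agent.P.MP_c88051_gt.Im.PA4
import Pool.Agent.P.MP_c88051_gt.Im.PA5
import Pool.Agent.P.MP_c88051_gt.Im.PA6
import Pool.Agent.P.MP_c88051_gt.Im.PA7
import Pool.Agent.P.MP_c88051_gt.Im.PA8
import Pool.Agent.P.MP_c88051_gt.Im.PA9
import Pool.Agent.P.MP_c88051_gt.Im.PA10
import Pool.Agent.P.MP_c88051_gt.Im.PACVX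
import Pool.Agent.P.MP_c88051_gt.Im.PB1
import Pool.Agent.P.MP_c88051_gt.Im.PB2
import Pool.Agent.P.MP_c88051_gt.Im.PB3
import Pool.Agent.P.MP_c88051_gt.Im.PB4
import Pool.Agent.P.MP_c88051_gt.Im.PB5
import Pool.Agent.P.MP_c88051_gt.Im.PB6
import Pool.Agent.P.MP_c88051_gt.Im.PB7

/-! The steps put together. -/

set_option autoImplicit false

namespace Pool.Agent.P.MP_c88051_gt.Im

theorem t_COVER : S_COVER := p_COVER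

theorem t_GLUE : S_GLUE := p_GLUE

theorem t_CVX : S_CVX := p_CVX

theorem t_BALL : S_BALL := p_BALL t_CVX

theorem t_FIB : S_FIB := p_FIB t_BALL

theorem t_LOC : S_LOC := p_LOC t_COVER t_FIB

theorem t_CECH : S_CECH := p_CECH

theorem t_CE : S_CE := p_CE t_CECH

theorem t_EXT : S_EXT := p_EXT

theorem t_GL : S_GL := p_GL

theorem t_JL : S_JL := p_JL t_LOC t_GLUE t_CE t_EXT t_GL

theorem t_DIFF : S_DIFF := p_DIFF

theorem t_SMALL : S_SMALL := p_SMALL t_DIFF t_COVER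

theorem t_LIFTC : S_LIFTC := p_LIFTC t_GLUE

theorem t_LQ : S_LQ := p_LQ t_JL t_DIFF t_SMALL t_LIFTC

theorem t_CONN : S_CONN := p_CONN t_LQ

theorem t_Z1 : S_Z1 := p_Z1 t_JL t_DIFF t_SMALL t_LQ t_GLUE t_LIFTC

theorem t_NJ : S_NJ := p_NJ t_JL t_DIFF t_LQ t_CONN t_LIFTC t_GLUE

theorem t_BIRTH1 : S_BIRTH1 := p_BIRTH1 t_DIFF t_SMALL t_LOC t_GLUE t_Z1 t_LIFTC

theorem t_SEP : S_SEP := p_SEP

theorem t_BIRTH2 : S_BIRTH2 := p_BIRTH2 t_CE t_EXT t_GL t_LQ t_SEP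

theorem t_CYC : S_CYC := p_CYC

theorem t_BA1 : S_BA1 := p_BA1 t_GL t_NJ t_CYC

theorem t_BA2 : S_BA2 := p_BA2 t_GL t_NJ

theorem t_BA : S_BA := p_BA t_BIRTH1 t_BIRTH2 t_BA1 t_BA2

theorem t_TWO : S_TWO := p_TWO t_BIRTH1 t_BIRTH2 t_BA1

theorem t_BA0 : S_BA0 := p_BA0 t_BIRTH1 t_BIRTH2 t_CECH

theorem t_P3A : S_P3A := p_P3A

theorem t_P3B : S_P3B := p_P3B

theorem t_P3 : S_P3 := p_P3 t_P3A t_P3B

theorem t_P3L : S_P3L := p_P3L t_P3 t_CECH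

theorem t_NBHD : S_NBHD := p_NBHD

theorem t_CHART : S_CHART := p_CHART

theorem t_GRES : S_GRES := p_GRES t_NJ

theorem t_GUQ : S_GUQ := p_GUQ t_Z1 t_BA

theorem t_ECONN : S_ECONN := p_ECONN

theorem t_LUQ : S_LUQ := p_LUQ

theorem t_BIS : S_BIS := p_BIS

theorem t_UQB : S_UQB := p_UQB t_LUQ t_ECONN t_BIS

theorem t_GLUE2 : S_GLUE2 := p_GLUE2 t_GUQ t_UQB t_ECONN

theorem t_KC : S_KC := p_KC t_GRES t_GUQ t_LIFTC

theorem t_CIRC : S_CIRC := p_CIRC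

theorem t_ODD : S_ODD := p_ODD t_BA

theorem t_LA1 : S_LA1 := p_LA1

theorem t_LA3A : S_LA3A := p_LA3A t_CVX

theorem t_MEET : S_MEET := p_MEET

theorem t_LA3 : S_LA3 := p_LA3 t_LA3A t_MEET

theorem t_LINE : S_LINE := p_LINE

theorem t_PL2 : S_PL2 := p_PL2 t_LINE t_NBHD

theorem t_G12 : S_G12 := p_G12 t_CHART

theorem t_G5B : S_G5B := p_G5B t_PL2 t_P3L

theorem t_EXP1 : S_EXP1 := p_EXP1 t_BA

theorem t_DL1 : S_DL1 := p_DL1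

theorem t_DL2 : S_DL2 := p_DL2

theorem t_KUHN : S_KUHN := p_KUHN

theorem t_DL3A : S_DL3A := p_DL3A t_KUHN

theorem t_DL3 : S_DL3 := p_DL3 t_DL3A

theorem t_LEIB : S_LEIB := p_LEIB

theorem t_SHN : S_SHN := p_SHN

theorem t_BOX : S_BOX := p_BOX t_LEIB t_SHN

theorem t_STK : S_STK := p_STK

theorem t_DL : S_DL := p_DL t_CHART t_DL1 t_DL2 t_DL3 t_BOX t_STK

theorem t_LEB : S_LEB := p_LEB

theorem t_PINV : S_PINV := p_PINV t_LEB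

theorem t_EXP : S_EXP := p_EXP t_BA0 t_NJ t_LIFTC t_DL t_PINV

theorem t_EXG : S_EXG := p_EXG t_EXP t_EXP1 t_BA

theorem t_FAM : S_FAM := p_FAM t_EXG t_GRES t_GLUE2 t_BIS t_LIFTC

theorem t_FAM1 : S_FAM1 := p_FAM1 t_FAM

theorem t_SEPC : S_SEPC := p_SEPC t_EXT t_SEP

theorem t_LA2A : S_LA2A := p_LA2A t_SEPC

theorem t_LA2 : S_LA2 := p_LA2 t_LA2A t_NBHD t_FAM1 t_P3 t_COVER

theorem t_RBC : S_RBC := p_RBC t_LA1 t_LA2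

theorem t_BCONN : S_BCONN := p_BCONN

theorem t_TRI : S_TRI := p_TRI t_BCONN

theorem t_SIDE : S_SIDE := p_SIDE t_NBHD

theorem t_PIECE0 : S_PIECE0 := p_PIECE0

theorem t_PIECE : S_PIECE := p_PIECE t_PIECE0

theorem t_SPLIT : S_SPLIT := p_SPLIT t_PIECE t_MEET t_LA3

theorem t_SHELL : S_SHELL := p_SHELL t_NBHD

theorem t_NOP : S_NOP := p_NOP t_CECH

theorem t_MEM : S_MEM := p_MEM t_Z1 t_BA

theorem t_OPENP : S_OPENP := p_OPENP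

theorem t_GW2 : S_GW2 := p_GW2

theorem t_GW1 : S_GW1 := p_GW1

theorem t_GW : S_GW := p_GW t_GW1 t_GW2 t_BALL

theorem t_DBL1 : S_DBL1 := p_DBL1 t_RBC t_SPLIT t_SHELL t_TRI t_SIDE

theorem t_HINV : S_HINV := p_HINV t_LEB t_LEIB t_SHN

theorem t_PAIR : S_PAIR := p_PAIR t_DL t_PINV t_HINV

theorem t_DBL : S_DBL := p_DBL t_DBL1 t_NOP t_PAIR t_MEM t_GW t_OPENP

theorem t_LA : S_LA := p_LA t_DBL t_RBC t_LA3 t_TRI t_SIDE t_NBHD t_P3L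

theorem t_G7 : S_G7 := p_G7 t_LIFTC

theorem t_PROD : S_PROD := p_PROD

theorem t_LINK : S_LINK := p_LINK

theorem t_SGN : S_SGN := p_SGN

theorem t_CMAP : S_CMAP := p_CMAP t_CIRC t_SGN

theorem t_DEGJ : S_DEGJ := p_DEGJ t_DL t_PINV t_NJ t_TWO t_LINK

theorem t_HEM : S_HEM := p_HEM t_LEIB t_SHN

theorem t_TOW : S_TOW := p_TOW t_HEM t_LEIB t_SHN

theorem t_TSTEP : S_TSTEP := p_TSTEP t_STK t_LEB

theorem t_DEGH : S_DEGH := p_DEGH t_STK t_LEB t_LEIB t_SHN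

theorem t_DEG4 : S_DEG4 := p_DEG4 t_DEGH

theorem t_LJ2 : S_LJ2 := p_LJ2 t_DEG4

theorem t_N0 : S_N0 := p_N0 t_DEGH t_PROD t_LEIB t_SHN t_LEB t_STK

theorem t_HZ : S_HZ := p_HZ

theorem t_LJ3 : S_LJ3 := p_LJ3 t_HZ t_TSTEP

theorem t_LJ : S_LJ := p_LJ t_LJ3 t_TOW t_N0 t_LJ2 t_LEIB t_SHN

theorem t_FIN : S_FIN := p_FIN t_G7 t_EXP t_EXP1 t_FAM t_GUQ t_KC t_CMAP t_ODD t_DEGJ t_LJ

end Pool.Agent.P.MP_c88051_gt.Im
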