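import Pool.Agent.P.MP_c88051_gt.Im.IfaceD

/-! From tightness to the system of properties. -/

set_option autoImplicit false

namespace Pool.Agent.P.MP_c88051_gt.Im

open Set Filter Topology Metric AlgebraicTopology Pool.Agent.Lib.Helper83
open scoped RealInnerProductSpace

theorem sys_of_tight (hLENS : S_LENS) (hBR0 : S_BR0) (hBR1 : S_BR1) (hBR2 : S_BR2)
    (p : ℕ) [NeZero p] (hp : 3 ≤ p) (F : Type) [Field F] (N : ℕ)
    (f : Lens p → EV N) (hc : Continuous f) (hi : ∀ z, ∃ n ∈ 𝓝 z, InjOn (f ∘ lq p) n)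
    (h : ∀ v : EV N, v ≠ 0 → ∀ (c : ℝ), ∀ i ≤ 1, InjH F (f ⁻¹' {y | c < ⟪v, y⟫}) i) :
    Sys (f ∘ lq p) p F := by
  have cq : Continuous (lq p) := continuous_quot_mk
  have : Nonempty (Lens p) := ⟨lq p (Classical.arbitrary _)⟩
  have eU : ∀ a : EV N × ℝ, U (f ∘ lq p) a = lq p ⁻¹' (f ⁻¹' {y | -a.2 < ⟪-a.1, y⟫}) := fun a => by
    ext x; simp [U, inner_neg_left]
  have op : ∀ a : EV N × ℝ, IsOpen (f ⁻¹' {y | -a.2 < ⟪-a.1, y⟫}) := fun a =>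
    (isOpen_lt continuous_const (by fun_prop)).preimage hc
  have hc' : ∀ (a : EV N × ℝ), ∀ i ≤ 1, HC F (f ⁻¹' {y | -a.2 < ⟪-a.1, y⟫}) i := fun a i hi' => by
    by_cases ha : a.1 = 0
    · by_cases h2 : -a.2 < 0
      · have : f ⁻¹' {y | -a.2 < ⟪-a.1, y⟫} = univ := by ext; simpa [ha] using h2
        rw [this]; exact fun z _ hz => hz
      · have : f ⁻¹' {y | -a.2 < ⟪-a.1, y⟫} = ∅ := by ext; simpa [ha] using h2
        rw [this]; intro z hz _; rw [sub_empty hz]; exact zero_mem _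
    · exact hBR0 F _ i (h _ (neg_ne_zero.2 ha) _ i hi')
  refine ⟨hp, hc.comp cq, fun x => congrArg f (((hLENS p).1 _ _).2 ⟨1, rfl⟩).symm, ?_,
    fun a => ?_, fun a => ?_⟩
  · choose n n1 n2 using hi
    obtain ⟨ρ, h1, h2⟩ := lebesgue_number_lemma_of_metric (isCompact_univ (X := S3))
      (fun z => isOpen_interior (s := n z))
      fun z _ => mem_iUnion.2 ⟨z, mem_interior_iff_mem_nhds.2 (n1 z)⟩
    refine ⟨ρ, h1, fun x y e d => ?_⟩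
    obtain ⟨z, hz⟩ := h2 y (mem_univ y)
    exact n2 _ (interior_subset (hz d)) (interior_subset (hz (mem_ball_self h1))) e
  · rw [eU]; exact hBR1 p F _ (op a) (hc' a 0 (by simp))
  · rw [eU]; exact hBR2 p F _ (op a) (hc' a 1 le_rfl)

theorem inj_of_loc (hLENS : S_LENS) (p : ℕ) [NeZero p] {N : ℕ} {f : Lens p → EV N}
    (hi : IsLocallyInjective f) (z : S3) : ∃ n ∈ 𝓝 z, InjOn (f ∘ lq p) n := by
  have cq : Continuous (lq p) := continuous_quot_mk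
  obtain ⟨n, j, o1, o2, -, o4⟩ := (hLENS p).2.2 z
  obtain ⟨V, h1, h2, h3⟩ := hi (lq p z)
  refine ⟨n ∩ lq p ⁻¹' V, inter_mem (o1.mem_nhds o2) ((h1.preimage cq).mem_nhds h2),
    fun x hx y hy e => ?_⟩
  rw [← o4 x hx.1, h3 hx.2 hy.2 e, o4 y hy.1]

theorem tame_of_lc (hBRS : S_BRS) (hBR3 : S_BR3) (p : ℕ) [NeZero p] (N : ℕ) (f : Lens p → EV N)
    (ht : ∀ v : EV N, v ≠ 0 → ∀ x, LcAt (f ⁻¹' {y | ⟪v, f x⟫ ≤ ⟪v, y⟫}) x ∨
      LcAt (f ⁻¹' {y | ⟪v, y⟫ ≤ ⟪v, f x⟫}) x) : Tame (f ∘ lq p) := by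
  intro a x hx
  by_cases ha : a.1 = 0
  · refine .inl fun n hn => ?_
    have e : Ucl (f ∘ lq p) a = univ := by
      ext y; simpa [Ucl, ha] using hx.le
    have := hBRS.2.1
    obtain ⟨m, h1, h2, h3⟩ := (path_connected_basis x).mem_iff.1 hn |>.imp fun m hm =>
      (⟨hm.1.1, hm.1.2, hm.2⟩ : m ∈ 𝓝 x ∧ IsPathConnected m ∧ m ⊆ n)
    exact ⟨m, nhdsWithin_le_nhds h1, by rw [e, inter_univ]; exact h3,
      h2.isConnected.isPreconnected⟩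
  · have e1 : Ucl (f ∘ lq p) a = lq p ⁻¹' (f ⁻¹' {y | ⟪a.1, y⟫ ≤ ⟪a.1, f (lq p x)⟫}) := by
      ext y; simp [Ucl, ← hx]
    have e2 : Ucl (f ∘ lq p) (-a) = lq p ⁻¹' (f ⁻¹' {y | ⟪a.1, f (lq p x)⟫ ≤ ⟪a.1, y⟫}) := by
      ext y; simp [Ucl, inner_neg_left, ← hx]
    rw [e1, e2]
    exact ((ht _ ha (lq p x)).imp (hBR3 p _ x) (hBR3 p _ x)).symm

end Pool.Agent.P.MP_c88051_gt.Im
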