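import Pool.Agent.P.MP_c88051_gt.Im.PD1

/-! The steps put together. -/

set_option autoImplicit false

namespace Pool.Agent.P.MP_c88051_gt.Im

theorem t_LENS : S_LENS := p_LENS

theorem t_BR0 : S_BR0 := p_BR0

theorem t_BRS : S_BRS := p_BRS

theorem t_BR1 : S_BR1 := p_BR1 t_LENS t_BRS

theorem t_BR2 : S_BR2 := p_BR2 t_LENS t_BRS

theorem t_BR3 : S_BR3 := p_BR3 t_LENS

end Pool.Agent.P.MP_c88051_gt.Im
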