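import Pool.Agent.P.MP_c88051_gt.Im.IfaceD
import Pool.Agent.P.MP_c88051_gt.Im.IfaceS

/-! From smooth immersions of a manifold to charts. -/

set_option autoImplicit false

namespace Pool.Agent.P.MP_c88051_gt.Im

open Set Filter Topology Metric
open scoped Manifold ContDiff

/-- A small smooth chart of Euclidean space. -/
lemma small_chart (c : EV 3) {V : Set (EV 3)} (hV : V ∈ 𝓝 c) : ∃ φ : R3 → EV 3, IsOpenEmbedding φ ∧
    φ 0 = c ∧ (∀ u, φ u ∈ V) ∧ ContDiff ℝ ∞ φ ∧ ∀ u, Function.Injective (fderiv ℝ φ u) := by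
  obtain ⟨r, hr, hb⟩ := Metric.mem_nhds_iff.1 hV
  let e := OpenPartialHomeomorph.univBall (E := EV 3) c r
  let A := (EuclideanSpace.equiv (Fin 3) ℝ).symm
  have h1 : e.source = univ := OpenPartialHomeomorph.univBall_source c r
  have h2 : e.target = ball c r := OpenPartialHomeomorph.univBall_target c hr
  have h3 : ContDiff ℝ ∞ e := OpenPartialHomeomorph.contDiff_univBall
  have h4 : ∀ u, e u ∈ ball c r := fun u => h2 ▸ e.map_source (h1 ▸ mem_univ u)
  have h5 : ∀ u, Function.Injective (fderiv ℝ e u) := fun u => by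
    have k1 : DifferentiableAt ℝ e.symm (e u) :=
      ((OpenPartialHomeomorph.contDiffOn_univBall_symm (n := 1)).contDiffAt
        (isOpen_ball.mem_nhds (h4 u))).differentiableAt one_ne_zero
    have k2 := fderiv_comp u k1 (h3.differentiable (by simp) u)
    rw [show e.symm ∘ e = id from funext fun w => e.left_inv (h1 ▸ mem_univ w), fderiv_id] at k2
    refine Function.LeftInverse.injective (g := fderiv ℝ e.symm (e u)) fun w => ?_
    exact (congrArg (fun L : EV 3 →L[ℝ] EV 3 => L w) k2).symm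
  refine ⟨e ∘ A, (e.isOpenEmbedding h1).comp A.toHomeomorph.isOpenEmbedding, ?_,
    fun u => hb (h4 _), h3.comp A.contDiff, fun u => ?_⟩
  · simp [e]
  · rw [fderiv_comp u (h3.differentiable (by simp) _) A.differentiableAt, A.fderiv]
    exact (h5 _).comp A.injective

theorem smo_of_mfd (hLENS : S_LENS) (p : ℕ) [NeZero p] {N : ℕ} [ChartedSpace (EV 3) (Lens p)]
    [IsManifold (𝓡 3) ∞ (Lens p)] {f : Lens p → EV N} (hf : ContMDiff (𝓡 3) 𝓘(ℝ, EV N) ∞ f)
    (hi : ∀ x, Function.Injective (mfderiv (𝓡 3) 𝓘(ℝ, EV N) f x)) : Smo (f ∘ lq p) := by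
  intro z
  have cq : Continuous (lq p) := continuous_quot_mk
  obtain ⟨-, ho, h3⟩ := hLENS p
  obtain ⟨n, j, o1, o2, o3, o4⟩ := h3 z
  let e := chartAt (EV 3) (lq p z)
  have hz : lq p z ∈ e.source := mem_chart_source _ _
  obtain ⟨φ, f1, f2, f3, f4, f5⟩ := small_chart (e (lq p z)) (V := e.target ∩ e.symm ⁻¹' (lq p '' n))
    ((e.isOpen_inter_preimage_symm (ho _ o1)).mem_nhds
      ⟨e.map_source hz, by rw [mem_preimage, e.left_inv hz]; exact mem_image_of_mem _ o2⟩)
  have k1 : ∀ u, j (e.symm (φ u)) ∈ n ∧ lq p (j (e.symm (φ u))) = e.symm (φ u) := fun u => by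
    obtain ⟨y, hy, h⟩ := (f3 u).2
    rw [← h, o4 y hy]
    exact ⟨hy, rfl⟩
  have k2 : Continuous fun u => e.symm (φ u) :=
    e.continuousOn_symm.comp_continuous f1.continuous fun u => (f3 u).1
  have k3 : (f ∘ lq p) ∘ (fun u => j (e.symm (φ u))) = (f ∘ e.symm) ∘ φ :=
    funext fun u => congrArg f (k1 u).2
  have k4 : ContDiffOn ℝ ∞ (f ∘ e.symm) e.target :=
    (hf.comp_contMDiffOn contMDiffOn_chart_symm).contDiffOn
  have k5 : ∀ u, DifferentiableAt ℝ (f ∘ e.symm) (φ u) := fun u =>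
    (k4.contDiffAt (e.open_target.mem_nhds (f3 u).1)).differentiableAt (by simp)
  refine ⟨fun u => j (e.symm (φ u)), .of_continuous_injective_isOpenMap
    (o3.comp_continuous k2 fun u => (f3 u).2) (fun u w h => ?_) fun W hW => ?_,
    ⟨0, by simp only [f2, e.left_inv hz, o4 z o2]⟩, ?_, fun u => ?_⟩
  · have := congrArg (lq p) h
    rw [(k1 u).2, (k1 w).2] at this
    exact f1.injective (e.symm.injOn (f3 u).1 (f3 w).1 this)
  · have : (fun u => j (e.symm (φ u))) '' W = n ∩ lq p ⁻¹' (e.symm '' (φ '' W)) := by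
      ext x
      constructor
      · rintro ⟨u, hu, rfl⟩
        exact ⟨(k1 u).1, _, mem_image_of_mem _ hu, (k1 u).2.symm⟩
      · rintro ⟨hx, _, ⟨u, hu, rfl⟩, h⟩
        exact ⟨u, hu, by simp only [h, o4 x hx]⟩
    rw [this]
    exact o1.inter ((e.symm.isOpen_image_of_subset_source (f1.isOpenMap _ hW)
      (by rintro _ ⟨u, -, rfl⟩; exact (f3 u).1)).preimage cq)
  · rw [k3]
    exact k4.comp_contDiff f4 fun u => (f3 u).1
  · rw [k3, fderiv_comp u (k5 u) (f4.differentiable (by simp) u)]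
    refine Function.Injective.comp (g := fderiv ℝ (f ∘ e.symm) (φ u)) ?_ (f5 u)
    have hd := (mdifferentiable_chart (I := 𝓡 3) (lq p z)).symm
    rw [← mfderiv_eq_fderiv, mfderiv_comp _ (hf.mdifferentiable (by simp) _)
      (hd.mdifferentiableAt (f3 u).1)]
    exact (hi _).comp (hd.mfderiv_injective (f3 u).1)

end Pool.Agent.P.MP_c88051_gt.Im
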