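import Pool.Agent.P.MP_c88051_gt.Im.IfaceS
import Pool.Agent.P.MP_56a1cd_gt.Sard

/-! Steps SLOC, BXA, BXB, BXC, PTS, ZQC, GOP, SUBG, GEN1. -/

set_option autoImplicit false
set_option linter.unusedSectionVars false

namespace Pool.Agent.P.MP_c88051_gt.Im

section SSLOC

open Set Filter Topology Metric
open scoped RealInnerProductSpace ContDiff

theorem p_SLOC :
    S_SLOC := by
  intro N f hf z
  obtain ⟨ι, hι, ⟨y, rfl⟩, hc, hi⟩ := hf z
  obtain ⟨L, hL⟩ := LinearMap.exists_leftInverse_of_injective (fderiv ℝ (f ∘ ι) y).toLinearMap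
    (LinearMap.ker_eq_bot.2 (hi y))
  have h1 : HasStrictFDerivAt (f ∘ ι) (fderiv ℝ (f ∘ ι) y) y :=
    hc.contDiffAt.hasStrictFDerivAt (by simp)
  have h2 : HasStrictFDerivAt ((LinearMap.toContinuousLinearMap L) ∘ (f ∘ ι))
      ((ContinuousLinearEquiv.refl ℝ R3 : R3 ≃L[ℝ] R3) : R3 →L[ℝ] R3) y := by
    have h3 := (LinearMap.toContinuousLinearMap L).hasStrictFDerivAt.comp y h1
    have e : (LinearMap.toContinuousLinearMap L).comp (fderiv ℝ (f ∘ ι) y) =
        (ContinuousLinearEquiv.refl ℝ R3 : R3 →L[ℝ] R3) :=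
      ContinuousLinearMap.ext fun u => LinearMap.congr_fun hL u
    rw [e] at h3
    exact h3
  refine ⟨ι '' _, hι.isOpenMap.image_mem_nhds h2.eventually_left_inverse, ?_⟩
  rintro _ ⟨a, ha, rfl⟩ _ ⟨b, hb, rfl⟩ e
  simp only [mem_ofPred_eq, Function.comp_apply] at ha hb
  rw [← ha, ← hb, e]

end SSLOC

section SBXA

open Set Filter Topology Metric
open scoped RealInnerProductSpace ContDiff

theorem p_BXA :
    S_BXA := by
  intro h y hh hy hd n hn
  obtain ⟨ξ, hξ⟩ : ∃ ξ, fderiv ℝ h y ξ < 0 := by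
    by_contra hc
    push Not at hc
    refine hd (ContinuousLinearMap.ext fun ξ => le_antisymm ?_ (hc ξ))
    have := hc (-ξ)
    rw [map_neg] at this
    simpa using this
  have hc : Continuous fun u => fderiv ℝ h u ξ :=
    (hh.continuous_fderiv (by simp)).clm_apply continuous_const
  obtain ⟨δ, hδ, hb⟩ := Metric.mem_nhds_iff.1
    (inter_mem hn ((isOpen_lt hc continuous_const).mem_nhds hξ))
  obtain ⟨t₀, ht, ht'⟩ : ∃ t₀ > (0 : ℝ), t₀ * ‖ξ‖ < δ / 2 := by
    refine ⟨δ / 2 / (‖ξ‖ + 1), by positivity, ?_⟩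
    rw [div_mul_eq_mul_div, div_lt_iff₀ (by positivity)]
    nlinarith [norm_nonneg ξ]
  have hin : ∀ u ∈ ball y (δ / 2), ∀ t ∈ Icc (0 : ℝ) t₀, u + t • ξ ∈ ball y δ := fun u hu t h1 => by
    rw [mem_ball_iff_norm] at hu ⊢
    have : ‖t • ξ‖ ≤ t₀ * ‖ξ‖ := by
      rw [norm_smul, Real.norm_of_nonneg h1.1]
      exact mul_le_mul_of_nonneg_right h1.2 (norm_nonneg _)
    calc ‖u + t • ξ - y‖ = ‖(u - y) + t • ξ‖ := by congr 1; abel
      _ ≤ _ := norm_add_le _ _
      _ < δ := by linarith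
  have hdf : Differentiable ℝ h := hh.differentiable (by simp)
  have anti : ∀ u ∈ ball y (δ / 2), StrictAntiOn (fun t : ℝ => h (u + t • ξ)) (Icc 0 t₀) :=
    fun u hu => strictAntiOn_of_deriv_neg (convex_Icc _ _)
      (hh.continuous.comp (by fun_prop)).continuousOn fun t h1 => by
      have h2 : HasDerivAt (fun t : ℝ => u + t • ξ) ξ t := by
        simpa using ((hasDerivAt_id t).smul_const ξ).const_add u
      have h3 := ((hdf _).hasFDerivAt.comp_hasDerivAt t h2).deriv
      exact h3 ▸ (hb (hin u hu t (interior_subset h1))).2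
  have y2 : y ∈ ball y (δ / 2) := mem_ball_self (half_pos hδ)
  have i0 : (0 : ℝ) ∈ Icc (0 : ℝ) t₀ := left_mem_Icc.2 ht.le
  have i1 : t₀ ∈ Icc (0 : ℝ) t₀ := right_mem_Icc.2 ht.le
  have neg : h (y + t₀ • ξ) < 0 := by simpa [hy] using anti y y2 i0 i1 ht
  obtain ⟨r, hr, hrb⟩ := Metric.mem_nhds_iff.1 (inter_mem
    ((isOpen_lt hh.continuous continuous_const).mem_nhds neg)
    (isOpen_ball.mem_nhds (hin y y2 _ i1)))
  let X : Set R3 := ball y δ ∩ {u | h u ≤ 0}
  let A : R3 → Set R3 := fun u => (fun t : ℝ => u + t • ξ) '' Icc 0 t₀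
  have cA : ∀ u, IsPreconnected (A u) := fun u => isPreconnected_Icc.image _ (by fun_prop)
  have sA : ∀ u ∈ ball y (δ / 2), h u ≤ 0 → A u ⊆ X := by
    rintro u hu h0 _ ⟨t, h1, rfl⟩
    exact ⟨hin u hu t h1, le_trans ((anti u hu).antitoneOn i0 h1 h1.1) (by simpa using h0)⟩
  have m0 : ∀ u, u ∈ A u := fun u => ⟨0, i0, by simp⟩
  refine ⟨connectedComponentIn X y, mem_of_superset (inter_mem_nhdsWithin _
    (ball_mem_nhds y (lt_min hr (half_pos hδ)))) fun u hu => ?_, fun u hu =>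
    ⟨(hb (connectedComponentIn_subset _ _ hu).1).1, (connectedComponentIn_subset _ _ hu).2⟩,
    isPreconnected_connectedComponentIn⟩
  have c1 : IsPreconnected (A y ∪ ball (y + t₀ • ξ) r) := (cA y).union (y + t₀ • ξ) ⟨t₀, i1, rfl⟩
    (mem_ball_self hr) (convex_ball _ _).isPreconnected
  have c2 : IsPreconnected (A y ∪ ball (y + t₀ • ξ) r ∪ A u) := c1.union (u + t₀ • ξ)
    (Or.inr (by simpa using ball_subset_ball (min_le_left _ _) hu.2)) ⟨t₀, i1, rfl⟩ (cA u)
  exact c2.subset_connectedComponentIn (Or.inl (Or.inl (m0 y))) (union_subset (union_subset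
    (sA y y2 hy.le) fun v hv => ⟨(hrb hv).2, show h v ≤ 0 from le_of_lt (hrb hv).1⟩)
    (sA u (ball_subset_ball (min_le_right _ _) hu.2) hu.1)) (Or.inr (m0 u))

end SBXA

section SBXB

open Set Filter Topology Metric
open scoped RealInnerProductSpace ContDiff

theorem bxb_one {h : R3 → ℝ} (hh : ContDiff ℝ ∞ h) (u η : R3) {a : ℝ}
    (h2 : ∀ t ∈ Icc 0 a, fderiv ℝ (fderiv ℝ h) (u + t • η) η η < 0) (h1 : fderiv ℝ h u η ≤ 0) :
    ∀ t ∈ Ioc 0 a, h (u + t • η) < h u := by
  have dl : ∀ t : ℝ, HasDerivAt (fun t : ℝ => u + t • η) η t := fun t => by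
    simpa using ((hasDerivAt_id t).smul_const η).const_add u
  have d1 : Differentiable ℝ h := hh.differentiable (by simp)
  have d2 : Differentiable ℝ (fderiv ℝ h) :=
    (hh.fderiv_right (m := 1) (by norm_cast)).differentiable (by simp)
  have g1 : ∀ t : ℝ, HasDerivAt (fun t : ℝ => h (u + t • η)) (fderiv ℝ h (u + t • η) η) t :=
    fun t => (d1 _).hasFDerivAt.comp_hasDerivAt t (dl t)
  have g2 : ∀ t : ℝ, HasDerivAt (fun t : ℝ => fderiv ℝ h (u + t • η) η)
      (fderiv ℝ (fderiv ℝ h) (u + t • η) η η) t := fun t => by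
    simpa using ((d2 _).hasFDerivAt.comp_hasDerivAt t (dl t)).clm_apply (hasDerivAt_const t η)
  have a2 := strictAntiOn_of_deriv_neg (convex_Icc 0 a)
    (fun t _ => (g2 t).continuousAt.continuousWithinAt)
    (fun t ht => by rw [(g2 t).deriv]; exact h2 t (interior_subset ht))
  have a1 := strictAntiOn_of_deriv_neg (convex_Icc 0 a)
    (fun t _ => (g1 t).continuousAt.continuousWithinAt) (fun t ht => by
      rw [interior_Icc] at ht
      have := a2 ⟨le_rfl, ht.1.le.trans ht.2.le⟩ (Ioo_subset_Icc_self ht) ht.1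
      simp only [zero_smul, add_zero] at this
      rw [(g1 t).deriv]
      linarith)
  intro t ht
  simpa using a1 ⟨le_rfl, ht.1.le.trans ht.2⟩ (Ioc_subset_Icc_self ht) ht.1

theorem bxb_side {h : R3 → ℝ} (hh : ContDiff ℝ ∞ h) {y : R3} (η : R3) {δ : ℝ} (hδ : 0 < δ)
    (h0 : h y = 0) (h1 : fderiv ℝ h y = 0)
    (h2 : ∀ u ∈ ball y δ, fderiv ℝ (fderiv ℝ h) u η η < 0) :
    ∀ᶠ u in 𝓝 y, h u ≤ 0 → fderiv ℝ h u η ≤ 0 →
      u ∈ connectedComponentIn (ball y δ ∩ {u | h u ≤ 0}) y := by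
  obtain ⟨a, a0, ha⟩ : ∃ a : ℝ, 0 < a ∧ a * ‖η‖ < δ / 2 := by
    refine ⟨δ / 2 / (‖η‖ + 1), by positivity, ?_⟩
    rw [div_mul_eq_mul_div, div_lt_iff₀ (by positivity)]
    linarith
  have b : ∀ u ∈ ball y (δ / 2), ∀ t ∈ Icc 0 a, u + t • η ∈ ball y δ := fun u hu t ht => by
    have e1 := dist_triangle (u + t • η) u y
    have e2 : dist (u + t • η) u = t * ‖η‖ := by
      simp [norm_smul, abs_of_nonneg ht.1]
    have e3 : t * ‖η‖ ≤ a * ‖η‖ := by gcongr; exact ht.2
    rw [mem_ball] at hu ⊢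
    linarith
  have s : ∀ u ∈ ball y (δ / 2), h u ≤ 0 → fderiv ℝ h u η ≤ 0 →
      (fun t : ℝ => u + t • η) '' Icc 0 a ⊆ ball y δ ∩ {u | h u ≤ 0} := fun u hu e1 e2 => by
    rintro _ ⟨t, ht, rfl⟩
    refine ⟨b u hu t ht, ?_⟩
    rcases ht.1.eq_or_lt with rfl | e
    · simpa using e1
    · exact (bxb_one hh u η (fun t ht => h2 _ (b u hu t ht)) e2 t ⟨e, ht.2⟩).le.trans e1
  have c : ∀ u : R3, IsPreconnected ((fun t : ℝ => u + t • η) '' Icc 0 a) := fun u =>
    isPreconnected_Icc.image _ (by fun_prop)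
  have yy : y ∈ ball y (δ / 2) := mem_ball_self (by linarith)
  have n0 : h (y + a • η) < 0 :=
    h0 ▸ bxb_one hh y η (fun t ht => h2 _ (b y yy t ht)) (by simp [h1]) a ⟨a0, le_rfl⟩
  obtain ⟨r, r0, hr⟩ := Metric.mem_nhds_iff.1 (inter_mem
    (isOpen_ball.mem_nhds (b y yy a ⟨a0.le, le_rfl⟩))
    (hh.continuous.continuousAt.eventually_lt continuousAt_const n0))
  filter_upwards [ball_mem_nhds y r0, ball_mem_nhds y (half_pos hδ)] with u u1 u2 e1 e2
  have m : ∀ u : R3, u + a • η ∈ (fun t : ℝ => u + t • η) '' Icc 0 a := fun u =>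
    ⟨a, ⟨a0.le, le_rfl⟩, rfl⟩
  have p := IsPreconnected.union (u + a • η) (Or.inr (by simpa using u1)) (m u)
    (IsPreconnected.union (y + a • η) (m y) (mem_ball_self r0) (c y)
      (convex_ball _ r).isPreconnected) (c u)
  refine p.subset_connectedComponentIn (Or.inl (Or.inl ⟨0, ⟨le_rfl, a0.le⟩, by simp⟩))
    (union_subset (union_subset (s y yy h0.le (by simp [h1])) fun w hw => ?_) (s u u2 e1 e2))
    (Or.inr ⟨0, ⟨le_rfl, a0.le⟩, by simp⟩)
  exact ⟨(hr hw).1, (show h w < 0 from (hr hw).2).le⟩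

theorem p_BXB :
    S_BXB := by
  intro h y ξ hh h0 h1 h2 n hn
  have c : Continuous fun u => fderiv ℝ (fderiv ℝ h) u ξ ξ :=
    ((((hh.fderiv_right (m := 1) (by norm_cast)).continuous_fderiv (by simp)).clm_apply
      continuous_const).clm_apply continuous_const)
  obtain ⟨δ, hδ, hb⟩ := Metric.mem_nhds_iff.1 (inter_mem hn
    (c.continuousAt.eventually_lt continuousAt_const h2))
  refine ⟨connectedComponentIn (ball y δ ∩ {u | h u ≤ 0}) y, ?_,
    (connectedComponentIn_subset _ _).trans (inter_subset_inter_left _ fun u hu => (hb hu).1),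
    isPreconnected_connectedComponentIn⟩
  refine eventually_nhdsWithin_iff.2 ?_
  filter_upwards [bxb_side hh ξ hδ h0 h1 fun u hu => (hb hu).2,
    bxb_side hh (-ξ) hδ h0 h1 fun u hu => by simpa using (hb hu).2] with u u1 u2 e
  rcases le_total (fderiv ℝ h u ξ) 0 with l | l
  · exact u1 e l
  · exact u2 e (by simpa using l)

end SBXB

section SBXC

open Set Filter Topology Metric
open scoped RealInnerProductSpace ContDiff

lemma bxc_diag (B : R3 →L[ℝ] R3 →L[ℝ] ℝ) (hs : ∀ u w, B u w = B w u) (hB : B ≠ 0) :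
    ∃ ξ, B ξ ξ ≠ 0 := by
  by_contra hn
  push Not at hn
  apply hB
  refine ContinuousLinearMap.ext fun u => ContinuousLinearMap.ext fun w => ?_
  have h1 := hn (u + w)
  simp only [map_add, add_apply, hn u, hn w] at h1
  have h2 := hs u w
  simp only [zero_apply]
  linarith

theorem p_BXC (hBXA : S_BXA) (hBXB : S_BXB) :
    S_BXC := by
  intro h y c hh hy hf
  have e1 : fderiv ℝ (fun u => h u - c) = fderiv ℝ h := funext fun u => fderiv_sub_const c
  have e2 : fderiv ℝ (fun u => c - h u) = -fderiv ℝ h := funext fun u => fderiv_const_sub c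
  have s1 : {u | h u ≤ c} = {u | h u - c ≤ 0} := by ext u; simp
  have s2 : {u | c ≤ h u} = {u | c - h u ≤ 0} := by ext u; simp
  have d1 : ContDiff ℝ ∞ fun u => h u - c := hh.sub contDiff_const
  have d2 : ContDiff ℝ ∞ fun u => c - h u := contDiff_const.sub hh
  refine ⟨?_, fun hi => hf ?_⟩
  · by_cases h0 : fderiv ℝ h y = 0
    · have hB : fderiv ℝ (fderiv ℝ h) y ≠ 0 := fun hz => hf ⟨h0, hz⟩
      have hs : IsSymmSndFDerivAt ℝ h y :=
        hh.contDiffAt.isSymmSndFDerivAt (by simp; exact WithTop.coe_le_coe.2 le_top)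
      obtain ⟨ξ, hξ⟩ := bxc_diag _ (fun u w => hs u w) hB
      rcases lt_or_gt_of_ne hξ with hl | hl
      · left
        rw [s1]
        exact hBXB _ y ξ d1 (by simp [hy]) (by rw [e1, h0]) (by rw [e1]; exact hl)
      · right
        rw [s2]
        refine hBXB _ y ξ d2 (by simp [hy]) (by rw [e2]; simp [h0]) ?_
        rw [e2, fderiv_neg]
        simpa using hl
    · left
      rw [s1]
      exact hBXA _ y d1 (by simp [hy]) (by rw [e1]; exact h0)
  · have h1 : h =ᶠ[𝓝 y] fun _ => c := mem_interior_iff_mem_nhds.1 hi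
    have h2 : fderiv ℝ h =ᶠ[𝓝 y] fderiv ℝ fun _ : R3 => c := h1.fderiv
    have h3 : (fderiv ℝ fun _ : R3 => c) = fun _ => 0 := by
      funext u; simp
    rw [h3] at h2
    refine ⟨h2.eq_of_nhds, ?_⟩
    rw [h2.fderiv_eq]
    simp

end SBXC

section SPTS

open Set Filter Topology Metric
open scoped RealInnerProductSpace ContDiff

lemma pts_lc {Y Z : Type} [TopologicalSpace Y] [TopologicalSpace Z] {ι : Y → Z}
    (hι : IsOpenEmbedding ι) {X : Set Z} {y : Y} (H : LcAt (ι ⁻¹' X) y) : LcAt X (ι y) := by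
  intro n hn
  obtain ⟨m, hm, hs, hc⟩ := H (ι ⁻¹' n) (hι.continuous.continuousAt.preimage_mem_nhds hn)
  refine ⟨ι '' m, ?_, ?_, hc.image _ hι.continuous.continuousOn⟩
  · rw [← hι.map_nhdsWithin_preimage_eq]
    exact image_mem_map hm
  · rintro _ ⟨z, hz, rfl⟩
    exact hs hz

theorem p_PTS (hBXC : S_BXC) :
    S_PTS := by
  intro N f ι a y hι hf ha hfl
  obtain ⟨h1, h2⟩ := hBXC (fun u => ⟪a.1, (f ∘ ι) u⟫) y a.2 (contDiff_const.inner ℝ hf) ha hfl
  refine ⟨h1.imp (fun h => pts_lc hι h) (fun h => pts_lc hι ?_), fun h => h2 ?_⟩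
  · have : ι ⁻¹' Ucl f (-a) = {u | a.2 ≤ ⟪a.1, (f ∘ ι) u⟫} := by
      ext u; exact mem_Ucl_neg
    rwa [this]
  · exact preimage_interior_subset_interior_preimage hι.continuous h

end SPTS

section SZQC

open Set Filter Topology Metric
open scoped RealInnerProductSpace ContDiff

theorem zqc_d1 {N : ℕ} (F : R3 → EV N) (hF : ContDiff ℝ ∞ F) (v : EV N) :
    fderiv ℝ (fun u => ⟪v, F u⟫) = fun u => (innerSL ℝ v).comp (fderiv ℝ F u) := by
  funext u
  have h1 : DifferentiableAt ℝ F u := (hF.differentiable (by simp)).differentiableAt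
  exact ((innerSL ℝ v).hasFDerivAt.comp u h1.hasFDerivAt).fderiv

theorem zqc_d2 {N : ℕ} (F : R3 → EV N) (hF : ContDiff ℝ ∞ F) (v : EV N) (y : R3) :
    fderiv ℝ (fderiv ℝ (fun u => ⟪v, F u⟫)) y =
      (ContinuousLinearMap.compL ℝ R3 (EV N) ℝ (innerSL ℝ v)).comp (fderiv ℝ (fderiv ℝ F) y) := by
  rw [zqc_d1 F hF v]
  have h2 : ContDiff ℝ ∞ (fderiv ℝ F) := hF.fderiv_right (m := ∞) (by simp)
  have h1 : DifferentiableAt ℝ (fderiv ℝ F) y := (h2.differentiable (by simp)).differentiableAt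
  exact ((ContinuousLinearMap.compL ℝ R3 (EV N) ℝ (innerSL ℝ v)).hasFDerivAt.comp y h1.hasFDerivAt).fderiv

theorem zqc_iff {N : ℕ} (F : R3 → EV N) (hF : ContDiff ℝ ∞ F) (v : EV N) (y : R3) :
    Flat (fun u => ⟪v, F u⟫) y ↔
      (∀ u, ⟪v, fderiv ℝ F y u⟫ = 0) ∧ ∀ u w, ⟪v, fderiv ℝ (fderiv ℝ F) y u w⟫ = 0 := by
  unfold Flat
  rw [zqc_d2 F hF v y, zqc_d1 F hF v]
  refine and_congr ⟨fun h u => ?_, fun h => ?_⟩ ⟨fun h u w => ?_, fun h => ?_⟩
  · simpa using congrArg (fun L : R3 →L[ℝ] ℝ => L u) h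
  · ext u
    simpa using h u
  · simpa using congrArg (fun L : R3 →L[ℝ] R3 →L[ℝ] ℝ => L u w) h
  · ext u w
    simpa using h u w

theorem p_ZQC :
    S_ZQC := by
  intro N F Q hF hQ
  refine ⟨?_, ?_⟩
  · haveI : CompactSpace Q := isCompact_iff_compactSpace.mp hQ
    have h2 : ContDiff ℝ ∞ (fderiv ℝ F) := hF.fderiv_right (m := ∞) (by simp)
    have c1 : Continuous (fderiv ℝ F) := h2.continuous
    have c2 : Continuous (fderiv ℝ (fderiv ℝ F)) := (h2.fderiv_right (m := ∞) (by simp)).continuous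
    have hc : IsClosed {z : EV N × Q | Flat (fun u => ⟪z.1, F u⟫) z.2.1} := by
      simp only [zqc_iff F hF, setOf_and, setOf_forall]
      refine IsClosed.inter (isClosed_iInter fun u => isClosed_eq ?_ continuous_const)
        (isClosed_iInter fun u => isClosed_iInter fun w => isClosed_eq ?_ continuous_const)
      · exact continuous_fst.inner
          (((c1.comp continuous_subtype_val).comp continuous_snd).clm_apply continuous_const)
      · exact continuous_fst.inner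
          ((((c2.comp continuous_subtype_val).comp continuous_snd).clm_apply
            continuous_const).clm_apply continuous_const)
    have := isClosedMap_fst_of_compactSpace _ hc
    convert this using 1
    ext v
    constructor
    · rintro ⟨y, hy, h⟩
      exact ⟨(v, ⟨y, hy⟩), h, rfl⟩
    · rintro ⟨⟨v', y⟩, h, rfl⟩
      exact ⟨y.1, y.2, h⟩
  · rintro v ⟨y, hy, h⟩ c
    refine ⟨y, hy, ?_⟩
    rw [zqc_iff F hF] at h ⊢
    refine ⟨fun u => ?_, fun u w => ?_⟩
    · rw [real_inner_smul_left, h.1 u, mul_zero]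
    · rw [real_inner_smul_left, h.2 u w, mul_zero]

end SZQC

section SGOP

open Set Filter Topology Metric
open scoped RealInnerProductSpace ContDiff

theorem p_GOP :
    S_GOP := by
  intro N Z n hZ
  rw [← isClosed_compl_iff]
  have hc : IsClosed {q : (Fin n → EV N) × (sphere (0 : Fin n → ℝ) 1) |
      ∑ i, (q.2 : Fin n → ℝ) i • q.1 i ∈ Z} :=
    hZ.1.preimage (f := fun q : (Fin n → EV N) × (sphere (0 : Fin n → ℝ) 1) =>
      ∑ i, (q.2 : Fin n → ℝ) i • q.1 i) (continuous_finset_sum _ fun i _ =>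
        ((continuous_apply i).comp (continuous_subtype_val.comp continuous_snd)).smul
          ((continuous_apply i).comp continuous_fst))
  have h := isClosedMap_fst_of_compactSpace _ hc
  convert h using 1
  ext v
  simp only [GF, mem_compl_iff, mem_ofPred_eq, not_forall, not_not, mem_image, Prod.exists,
    exists_and_right, exists_eq_right]
  constructor
  · rintro ⟨b, hb, hv⟩
    have hn : ‖b‖ ≠ 0 := norm_ne_zero_iff.2 hb
    refine ⟨⟨‖b‖⁻¹ • b, by simp [norm_smul, hn]⟩, ?_⟩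
    have := hZ.2 _ hv ‖b‖⁻¹
    simpa [Finset.smul_sum, smul_smul] using this
  · rintro ⟨b, hb⟩
    refine ⟨b, fun h0 => ?_, hb⟩
    have := b.2
    simp [h0] at this

end SGOP

section SSUBG

open Set Filter Topology Metric
open scoped RealInnerProductSpace ContDiff

theorem p_SUBG :
    S_SUBG := by
  intro N D n hn v
  classical
  obtain ⟨d, hdD, hd⟩ : ∃ d : Fin n → EV N, (∀ i, d i ∈ D) ∧
      ∀ i j, ⟪d i, d j⟫ = if i = j then (1 : ℝ) else 0 := by
    refine ⟨fun i => (stdOrthonormalBasis ℝ D (Fin.castLE hn i) : EV N), fun i => Subtype.mem _,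
      fun i j => ?_⟩
    have h := orthonormal_iff_ite.mp (stdOrthonormalBasis ℝ D).orthonormal
      (Fin.castLE hn i) (Fin.castLE hn j)
    rw [Submodule.coe_inner] at h
    rw [h]
    simp [Fin.castLE_inj]
  obtain ⟨M, hM⟩ : ∃ M : Matrix (Fin n) (Fin n) ℝ, M = Matrix.of fun i j => -⟪d j, v i⟫ :=
    ⟨_, rfl⟩
  have hfin : {t : ℝ | M.charpoly.IsRoot t}.Finite :=
    Polynomial.finite_setOfPred_isRoot M.charpoly_monic.ne_zero
  have hdense : Dense {t : ℝ | M.charpoly.IsRoot t}ᶜ := hfin.countable.dense_compl ℝ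
  have hc : Continuous fun t : ℝ => fun i => v i + t • d i := by fun_prop
  have h0 := map_mem_closure (t := GF (Dᗮ : Set (EV N)) n) hc (hdense 0) ?_
  · simpa using h0
  intro t ht b hb hz
  apply hb
  have hdet : (Matrix.scalar (Fin n) t - M).det ≠ 0 := by
    rw [← Matrix.eval_charpoly]
    exact ht
  refine Matrix.eq_zero_of_vecMul_eq_zero hdet ?_
  funext j
  have h1 := Submodule.inner_right_of_mem_orthogonal (hdD j) hz
  rw [inner_sum] at h1
  simp only [Matrix.vecMul, dotProduct, Pi.zero_apply]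
  rw [← h1]
  refine Finset.sum_congr rfl fun i _ => ?_
  rw [inner_smul_right, inner_add_right, inner_smul_right, hd, hM]
  by_cases h : j = i
  · subst h
    simp [add_comm]
  · simp [h, Ne.symm h, Matrix.diagonal_apply_ne]

end SSUBG

section SGEN1

open Set Filter Topology Metric
open scoped RealInnerProductSpace ContDiff

lemma gen1_smooth {N : ℕ} {G : R3 → Fin 3 → EV N} (hG : ContDiff ℝ ∞ G) (v : Fin 3 → EV N) :
    ContDiff ℝ ∞ fun y => (Mt G v y).det := by
  have h : ∀ i j, ContDiff ℝ ∞ fun y => Mt G v y i j := fun i j =>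
    contDiff_const.inner ℝ (contDiff_pi.1 hG j)
  simp only [Matrix.det_fin_three]
  exact ((((((h 0 0).mul (h 1 1)).mul (h 2 2)).sub (((h 0 0).mul (h 1 2)).mul (h 2 1))).sub
    (((h 0 1).mul (h 1 0)).mul (h 2 2))).add (((h 0 1).mul (h 1 2)).mul (h 2 0))).add
    (((h 0 2).mul (h 1 0)).mul (h 2 1)) |>.sub (((h 0 2).mul (h 1 1)).mul (h 2 0))

lemma gen1_upd {N : ℕ} (G : R3 → Fin 3 → EV N) (v : Fin 3 → EV N) (i : Fin 3) (w : EV N) (y : R3) :
    Mt G (Function.update v i w) y = (Mt G v y).updateRow i fun j => ⟪w, G y j⟫ := by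
  ext k j
  by_cases hk : k = i
  · subst hk; simp [Mt]
  · simp [Mt, hk]

lemma gen1_det {N : ℕ} (G : R3 → Fin 3 → EV N) (v : Fin 3 → EV N) (i : Fin 3) (e : EV N) (t : ℝ)
    (y : R3) : (Mt G (Function.update v i (v i + t • e)) y).det =
      (Mt G v y).det + t * (Mt G (Function.update v i e) y).det := by
  have e1 : (fun j => ⟪v i + t • e, G y j⟫) = Mt G v y i + t • fun j => ⟪e, G y j⟫ := by
    funext j; simp [Mt, inner_add_left, real_inner_smul_left]
  rw [gen1_upd, gen1_upd, e1, Matrix.det_updateRow_add, Matrix.det_updateRow_smul,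
    Matrix.updateRow_eq_self]

theorem p_GEN1 :
    S_GEN1 := by
  intro N G i e hG v
  set d0 : R3 → ℝ := fun y => (Mt G v y).det with hd0
  set d1 : R3 → ℝ := fun y => (Mt G (Function.update v i e) y).det with hd1
  have s0 : ContDiff ℝ ∞ d0 := gen1_smooth hG v
  have s1 : ContDiff ℝ ∞ d1 := gen1_smooth hG _
  have hU : IsOpen {y | d1 y ≠ 0} := isOpen_ne_fun s1.continuous continuous_const
  have hφ : ContDiffOn ℝ ∞ (fun y => -d0 y / d1 y) {y | d1 y ≠ 0} :=
    s0.neg.contDiffOn.div s1.contDiffOn fun y hy => hy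
  have hS := Pool.Agent.P.MP_56a1cd_gt.sard hU hφ
  have hD := MeasureTheory.Measure.dense_of_ae (μ := (MeasureTheory.volume : MeasureTheory.Measure ℝ))
    (MeasureTheory.measure_eq_zero_iff_ae_notMem.1 hS)
  have hc : Continuous fun t : ℝ => Function.update v i (v i + t • e) := by fun_prop
  have h0 := image_closure_subset_closure_image hc (mem_image_of_mem _ (hD 0))
  simp only [zero_smul, add_zero, Function.update_eq_self] at h0
  refine closure_mono ?_ h0
  rintro _ ⟨t, ht, rfl⟩ y h1 h2 h3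
  rw [Function.update_idem] at h1
  simp only [gen1_det] at h2 h3
  have h1' : d1 y ≠ 0 := h1
  have h2' : d0 y + t * d1 y = 0 := h2
  refine ht ⟨y, ⟨h1', ?_⟩, ?_⟩
  · have a1 : HasFDerivAt (fun u => d0 u + t * d1 u) (0 : R3 →L[ℝ] ℝ) y := by
      have := ((s0.add (contDiff_const.mul s1) : ContDiff ℝ ∞ fun u => d0 u + t * d1 u).differentiable
        (by simp) y).hasFDerivAt
      rwa [h3] at this
    have a2 : DifferentiableAt ℝ (fun u => (d1 u)⁻¹) y := (s1.differentiable (by simp) y).inv h1'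
    have a3 := (a1.mul a2.hasFDerivAt).const_sub t
    rw [h2'] at a3
    simp only [zero_smul, smul_zero, add_zero, neg_zero] at a3
    refine (a3.congr_of_eventuallyEq ?_).fderiv
    filter_upwards [hU.mem_nhds h1'] with u hu
    have hu' : d1 u ≠ 0 := hu
    simp only [Pi.mul_apply]
    field_simp
    ring
  · show -d0 y / d1 y = t
    field_simp
    linarith

end SGEN1

end Pool.Agent.P.MP_c88051_gt.Im
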