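import Pool.Agent.P.MP_c88051_gt.Im.IfaceS

/-! Steps GEN2A, GEN2, GEN3, GEN4, GEN, ZZ, SEG, ZF, FRM. -/

set_option autoImplicit false
set_option linter.unusedSectionVars false

namespace Pool.Agent.P.MP_c88051_gt.Im

section SGEN2A

open Set Filter Topology Metric
open scoped RealInnerProductSpace ContDiff

theorem gen2a_adj (M E : Matrix (Fin 3) (Fin 3) ℝ) (hE : E.det ≠ 0)
    (h : ∀ i l, (M.updateRow i (E l)).det = 0) : M.adjugate = 0 := by
  have h1 : E * M.adjugate = 0 := by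
    ext l i
    have := h i l
    rw [← Matrix.cramer_transpose_apply, Matrix.cramer_eq_adjugate_mulVec,
      ← Matrix.adjugate_transpose] at this
    simpa [Matrix.mul_apply, Matrix.mulVec, dotProduct, mul_comm] using this
  have h2 : E.adjugate * (E * M.adjugate) = 0 := by rw [h1, Matrix.mul_zero]
  rw [← Matrix.mul_assoc, Matrix.adjugate_mul, Matrix.smul_mul, Matrix.one_mul] at h2
  exact (smul_eq_zero.mp h2).resolve_left hE

theorem gen2a_minor (M : Matrix (Fin 3) (Fin 3) ℝ) (h : M.adjugate = 0) (i j l l' : Fin 3) :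
    M i l * M j l' = M i l' * M j l := by
  rw [Matrix.adjugate_fin_three] at h
  have h00 := congrFun (congrFun h 0) 0
  have h01 := congrFun (congrFun h 0) 1
  have h02 := congrFun (congrFun h 0) 2
  have h10 := congrFun (congrFun h 1) 0
  have h11 := congrFun (congrFun h 1) 1
  have h12 := congrFun (congrFun h 1) 2
  have h20 := congrFun (congrFun h 2) 0
  have h21 := congrFun (congrFun h 2) 1
  have h22 := congrFun (congrFun h 2) 2
  simp only [Matrix.of_apply, Matrix.cons_val', Matrix.cons_val_zero, Matrix.cons_val_one,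
    Matrix.cons_val_two, Matrix.cons_val_fin_one, Matrix.zero_apply, Matrix.head_cons,
    Matrix.tail_cons, Matrix.empty_val', Matrix.head_fin_const, Nat.succ_eq_add_one,
    Nat.reduceAdd] at h00 h01 h02 h10 h11 h12 h20 h21 h22
  fin_cases i <;> fin_cases j <;> fin_cases l <;> fin_cases l' <;>
    simp only [Fin.zero_eta, Fin.mk_one, Fin.reduceFinMk, Fin.isValue] <;> linarith

theorem p_GEN2A :
    S_GEN2A := by
  intro M E hE h
  have hm := gen2a_minor M (gen2a_adj M E hE h)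
  by_cases h0 : ∀ i l, M i l = 0
  · refine ⟨0, fun j => ⟨0, ?_⟩⟩
    ext l
    simp [h0]
  · push Not at h0
    obtain ⟨i, l, hil⟩ := h0
    refine ⟨i, fun j => ⟨M j l / M i l, ?_⟩⟩
    ext l'
    have := hm i j l l'
    simp only [Pi.smul_apply, smul_eq_mul]
    field_simp
    linarith

end SGEN2A

section SGEN2

open Set Filter Topology Metric
open scoped RealInnerProductSpace ContDiff

lemma gen2_det {M : R3 → Matrix (Fin 3) (Fin 3) ℝ} (h : ∀ i j, ContDiff ℝ 1 fun y => M y i j) :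
    ContDiff ℝ 1 fun y => (M y).det := by
  simp only [Matrix.det_apply']
  exact ContDiff.sum fun σ _ => contDiff_const.mul (contDiff_prod fun i _ => h _ _)

lemma gen2_adj {M : R3 → Matrix (Fin 3) (Fin 3) ℝ} (h : ∀ i j, ContDiff ℝ 1 fun y => M y i j)
    (k l : Fin 3) : ContDiff ℝ 1 fun y => (M y).adjugate k l := by
  simp only [Matrix.adjugate_apply]
  refine gen2_det fun i j => ?_
  simp only [Matrix.updateRow_apply]
  split_ifs
  · exact contDiff_const
  · exact h i j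

lemma gen2_ent {N : ℕ} {G : R3 → Fin 3 → EV N} (hG : ContDiff ℝ ∞ G) (v : Fin 3 → EV N)
    (i j : Fin 3) : ContDiff ℝ 1 fun y => Mt G v y i j := by
  have h1 : ContDiff ℝ 1 G := hG.of_le (by exact_mod_cast le_top)
  exact contDiff_const.inner ℝ (contDiff_pi.1 h1 j)

/-- The parametrisation of the bad perturbations. -/
noncomputable def gen2_phi {N : ℕ} (G : R3 → Fin 3 → EV N) (e v : Fin 3 → EV N) (i : Fin 3)
    (p : R3 × R3 × (Fin 2 → ℝ)) : Fin 3 → Fin 3 → ℝ := fun j l =>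
  ∑ k, (Fin.insertNth (α := fun _ => ℝ) i 1 p.2.2 j * p.2.1 k - Mt G v p.1 j k) *
    (((Mt G e p.1).det)⁻¹ * (Mt G e p.1).adjugate k l)

lemma gen2_smooth {N : ℕ} {G : R3 → Fin 3 → EV N} (hG : ContDiff ℝ ∞ G) (e v : Fin 3 → EV N)
    (i : Fin 3) (p : R3 × R3 × (Fin 2 → ℝ)) (hp : (Mt G e p.1).det ≠ 0) :
    ContDiffAt ℝ 1 (gen2_phi G e v i) p := by
  refine contDiffAt_pi.2 fun j => contDiffAt_pi.2 fun l => ContDiffAt.sum fun k _ => ?_
  have a1 : ContDiff ℝ 1 fun q : R3 × R3 × (Fin 2 → ℝ) =>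
      Fin.insertNth (α := fun _ => ℝ) i 1 q.2.2 j := by
    refine Fin.succAboveCases i ?_ (fun m => ?_) j
    · simpa using contDiff_const
    · simp only [Fin.insertNth_apply_succAbove]
      fun_prop
  have a2 : ContDiff ℝ 1 fun q : R3 × R3 × (Fin 2 → ℝ) => q.2.1 k := by fun_prop
  have a3 := (gen2_ent hG v j k).comp (contDiff_fst (F := R3 × (Fin 2 → ℝ)))
  have a4 := (gen2_det (gen2_ent hG e)).comp (contDiff_fst (F := R3 × (Fin 2 → ℝ)))
  have a5 := (gen2_adj (gen2_ent hG e) k l).comp (contDiff_fst (F := R3 × (Fin 2 → ℝ)))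
  exact ((a1.mul a2).sub a3).contDiffAt.mul ((a4.contDiffAt.inv hp).mul a5.contDiffAt)

lemma gen2_dim {N : ℕ} {G : R3 → Fin 3 → EV N} (hG : ContDiff ℝ ∞ G) (e v : Fin 3 → EV N) :
    Dense (⋃ i, gen2_phi G e v i '' {p | (Mt G e p.1).det ≠ 0})ᶜ := by
  apply dense_compl_of_dimH_lt_finrank
  rw [dimH_iUnion]
  have h8 : ∀ i, dimH (gen2_phi G e v i '' {p | (Mt G e p.1).det ≠ 0}) ≤ 8 := fun i => by
    refine (dimH_image_le_of_locally_lipschitzOn fun p hp => ?_).trans
      ((dimH_mono (subset_univ _)).trans ?_)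
    · obtain ⟨K, t, ht, hK⟩ := (gen2_smooth hG e v i p hp).exists_lipschitzOnWith
      exact ⟨K, t, mem_nhdsWithin_of_mem_nhds ht, hK⟩
    · rw [Real.dimH_univ_eq_finrank]
      simp [Module.finrank_prod]
  refine (iSup_le h8).trans_lt ?_
  simp [Module.finrank_pi_fintype]
  norm_num

theorem p_GEN2 :
    S_GEN2 := by
  intro N G e hG v
  let f : (Fin 3 → Fin 3 → ℝ) → Fin 3 → EV N := fun t j => v j + ∑ l, t j l • e l
  have hf : Continuous f := by fun_prop
  have h0 : f 0 = v := by ext j; simp [f]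
  rw [← h0]
  refine map_mem_closure hf (gen2_dim hG e v 0) fun t ht y i hy hc => ht ?_
  choose c hc using hc
  refine mem_iUnion.2 ⟨i, (y, Mt G (f t) y i, fun m => c (i.succAbove m)), hy, ?_⟩
  have hM : Mt G (f t) y = Mt G v y + Matrix.of t * Mt G e y := by
    ext j k
    simp [Mt, f, Matrix.mul_apply, inner_add_left, sum_inner, inner_smul_left]
  have hR : ∀ j k, Fin.insertNth (α := fun _ => ℝ) i 1 (fun m => c (i.succAbove m)) j *
      Mt G (f t) y i k = Mt G (f t) y j k := fun j k => by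
    refine Fin.succAboveCases i ?_ (fun m => ?_) j
    · simp
    · rw [Fin.insertNth_apply_succAbove, hc (i.succAbove m)]
      simp
  have hI : Matrix.of t * Mt G e y * (((Mt G e y).det)⁻¹ • (Mt G e y).adjugate) = Matrix.of t := by
    rw [Matrix.mul_assoc, Matrix.mul_smul, Matrix.mul_adjugate, smul_smul, inv_mul_cancel₀ hy,
      one_smul, Matrix.mul_one]
  ext j l
  have := congrFun (congrFun hI j) l
  rw [Matrix.mul_apply] at this
  simp only [gen2_phi, hR]
  rw [hM]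
  simpa using this

end SGEN2

section SGEN3

open Set Filter Topology Metric
open scoped RealInnerProductSpace ContDiff

theorem p_GEN3 :
    S_GEN3 := by
  intro N G v b y hG hb h
  obtain ⟨i, hi⟩ : ∃ i, b i ≠ 0 := by
    by_contra hn
    push Not at hn
    exact hb (by ext i; simpa using hn i)
  have hd : ∀ k j, DifferentiableAt ℝ (fun u => Mt G v u k j) y := fun k j =>
    (differentiableAt_const (v k)).inner ℝ
      (differentiableAt_pi.1 ((hG.differentiable (by simp)) y) j)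
  have hr : ∀ j, DifferentiableAt ℝ (fun u => ⟪∑ i, b i • v i, G u j⟫) y := fun j =>
    (differentiableAt_const _).inner ℝ
      (differentiableAt_pi.1 ((hG.differentiable (by simp)) y) j)
  have ha : ∀ j, DifferentiableAt ℝ (fun u => (Mt G v u).adjugate j i) y := by
    intro j
    simp only [Matrix.adjugate_fin_three]
    fin_cases j <;> fin_cases i <;> simp <;> fun_prop
  have key : (fun u => (Mt G v u).det) =
      fun u => (b i)⁻¹ * ∑ j, ⟪∑ i, b i • v i, G u j⟫ * (Mt G v u).adjugate j i := by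
    funext u
    have e : ∀ j, ⟪∑ i, b i • v i, G u j⟫ = ∑ k, b k * Mt G v u k j := by
      intro j
      simp [sum_inner, inner_smul_left, Mt]
    have m := fun k => congrFun (congrFun (Matrix.mul_adjugate (Mt G v u)) k) i
    simp only [Matrix.mul_apply, Matrix.smul_apply, Matrix.one_apply, smul_eq_mul] at m
    simp only [e, Finset.sum_mul, mul_assoc]
    rw [Finset.sum_comm]
    simp only [← Finset.mul_sum, m]
    simp [hi]
  have h0 : HasFDerivAt (fun u => (b i)⁻¹ * ∑ j, ⟪∑ i, b i • v i, G u j⟫ *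
      (Mt G v u).adjugate j i) (0 : R3 →L[ℝ] ℝ) y := by
    have := (HasFDerivAt.fun_sum (u := Finset.univ)
      fun j _ => (hr j).hasFDerivAt.mul (ha j).hasFDerivAt).const_mul (b i)⁻¹
    simpa [(h _).1, (h _).2] using this
  refine ⟨?_, by rw [key]; exact h0.fderiv⟩
  have := congrFun key y
  simpa [(h _).1] using this

end SGEN3

section SGEN4

open Set Filter Topology Metric
open scoped RealInnerProductSpace ContDiff

lemma gen4_closed {V W : Type} [TopologicalSpace V] [TopologicalSpace W] {Q : Set W}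
    (hQ : IsCompact Q) {C : Set (V × W)} (hC : IsClosed C) :
    IsClosed {v : V | ∃ y ∈ Q, (v, y) ∈ C} := by
  have : CompactSpace Q := isCompact_iff_compactSpace.1 hQ
  have h1 : IsClosed ((fun p : V × Q => (p.1, (p.2 : W))) ⁻¹' C) :=
    hC.preimage (by fun_prop)
  have h2 := isClosedMap_fst_of_compactSpace _ h1
  convert h2 using 1
  ext v
  constructor
  · rintro ⟨y, hy, h⟩
    exact ⟨(v, ⟨y, hy⟩), h, rfl⟩
  · rintro ⟨⟨w, y⟩, h, rfl⟩
    exact ⟨y, y.2, h⟩

lemma gen4_smooth {N : ℕ} {G : R3 → Fin 3 → EV N} (hG : ContDiff ℝ ∞ G) :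
    ContDiff ℝ ∞ (fun p : (Fin 3 → EV N) × R3 => (Mt G p.1 p.2).det) := by
  have h : ∀ i j, ContDiff ℝ ∞ (fun p : (Fin 3 → EV N) × R3 => ⟪p.1 i, G p.2 j⟫) := by
    intro i j
    apply ContDiff.inner
    · fun_prop
    · exact (contDiff_apply ℝ _ j).comp (hG.comp contDiff_snd)
  simp only [Matrix.det_fin_three, Mt, Matrix.of_apply]
  exact (((((((h 0 0).mul (h 1 1)).mul (h 2 2)).sub (((h 0 0).mul (h 1 2)).mul (h 2 1))).sub
    (((h 0 1).mul (h 1 0)).mul (h 2 2))).add (((h 0 1).mul (h 1 2)).mul (h 2 0))).add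
    (((h 0 2).mul (h 1 0)).mul (h 2 1))).sub (((h 0 2).mul (h 1 1)).mul (h 2 0))

lemma gen4_update {N : ℕ} (G : R3 → Fin 3 → EV N) (v e : Fin 3 → EV N) (y : R3) (i l : Fin 3) :
    Mt G (Function.update v i (e l)) y = (Mt G v y).updateRow i (Mt G e y l) := by
  ext a b
  by_cases h : a = i
  · subst h; simp [Mt]
  · simp [Mt, Matrix.updateRow_ne h, Function.update_of_ne h]

lemma gen4_fd {V W : Type} [NormedAddCommGroup V] [NormedSpace ℝ V] [NormedAddCommGroup W]
    [NormedSpace ℝ W] {D : V × W → ℝ} (h : ContDiff ℝ ∞ D) :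
    Continuous fun p : V × W => fderiv ℝ (fun u => D (p.1, u)) p.2 := by
  refine Continuous.fderiv (𝕜 := ℝ) (n := ∞) (f := fun (p : V × W) (u : W) => D (p.1, u)) ?_
    continuous_snd (by simp)
  exact h.comp ((contDiff_fst.comp contDiff_fst).prodMk contDiff_snd)

lemma gen4_core {V W X ι : Type} [TopologicalSpace V] [BaireSpace V] [TopologicalSpace W]
    [TopologicalSpace X] [T2Space X] [Countable ι] {Q : Set W} (hQ : IsCompact Q) {z : X}
    {D : V × W → ℝ} {F : V × W → X} {U : ι → V × W → ℝ} (hc : Continuous D) (hd : Continuous F)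
    (hu : ∀ i, Continuous (U i))
    (h1 : ∀ i, Dense {v | ∀ y, U i (v, y) ≠ 0 → D (v, y) = 0 → F (v, y) ≠ z})
    (h2 : Dense {v | ∀ y ∈ Q, ¬∀ i, U i (v, y) = 0}) :
    Dense {v | ∀ y ∈ Q, D (v, y) = 0 → F (v, y) ≠ z} := by
  let A : ι × ℕ → Set V := fun t =>
    {v | ∃ y ∈ Q, (v, y) ∈ {p : V × W | 1 / ((t.2 : ℝ) + 1) ≤ |U t.1 p| ∧ D p = 0 ∧ F p = z}}
  let B : Set V := {v | ∃ y ∈ Q, (v, y) ∈ {p : V × W | ∀ i, U i p = 0}}
  have hA : ∀ t, IsClosed (A t) := fun t => gen4_closed hQ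
    ((isClosed_le continuous_const (hu _).abs).inter
      ((isClosed_eq hc continuous_const).inter (isClosed_eq hd continuous_const)))
  have hB : IsClosed B := by
    refine gen4_closed hQ ?_
    simp only [Set.ofPred_forall]
    exact isClosed_iInter fun i => isClosed_eq (hu i) continuous_const
  have dA : ∀ t, Dense (A t)ᶜ := by
    intro t
    refine (h1 t.1).mono ?_
    rintro v hv ⟨y, -, h1, h2, h3⟩
    refine hv y ?_ h2 h3
    intro h0
    have : (0 : ℝ) < 1 / ((t.2 : ℝ) + 1) := by positivity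
    simp only [h0, abs_zero] at h1
    linarith
  have dB : Dense Bᶜ := by
    refine h2.mono ?_
    rintro v hv ⟨y, hy, h⟩
    exact hv y hy h
  have dd := (dB.inter_of_isOpen_left
    (dense_iInter_of_isOpen (fun t => (hA t).isOpen_compl) dA) hB.isOpen_compl)
  refine dd.mono ?_
  rintro v ⟨hvB, hvA⟩ y hy h0 h1
  apply hvB
  refine ⟨y, hy, fun i => ?_⟩
  by_contra hne
  obtain ⟨n, hn⟩ := exists_nat_one_div_lt (abs_pos.2 hne)
  exact mem_iInter.1 hvA (i, n) ⟨y, hy, hn.le, h0, h1⟩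

theorem p_GEN4 (hGEN1 : S_GEN1) (hGEN2A : S_GEN2A) (hGEN2 : S_GEN2) :
    S_GEN4 := by
  intro N G e Q hG hQ he
  have hs := gen4_smooth hG
  have hc := hs.continuous
  have hd := gen4_fd hs
  have hu : ∀ t : Fin 3 × Fin 3, Continuous fun p : (Fin 3 → EV N) × R3 =>
      (Mt G (Function.update p.1 t.1 (e t.2)) p.2).det := fun t =>
    hc.comp (f := fun p : (Fin 3 → EV N) × R3 => (Function.update p.1 t.1 (e t.2), p.2))
      ((continuous_fst.update t.1 continuous_const).prodMk continuous_snd)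
  refine gen4_core (z := 0) hQ hc hd hu (fun t => hGEN1 G t.1 (e t.2) hG) ?_
  refine (hGEN2 G e hG).mono ?_
  intro v hv y hy h
  obtain ⟨i, hi⟩ := hGEN2A (Mt G v y) (Mt G e y) (he y hy) fun i l => by
    rw [← gen4_update]; exact h (i, l)
  exact hv y i (he y hy) hi

end SGEN4

section SGEN

open Set Filter Topology Metric
open scoped RealInnerProductSpace ContDiff

lemma gen_smooth {N : ℕ} {F : R3 → EV N} (hF : ContDiff ℝ ∞ F) :
    ContDiff ℝ ∞ (fun y (j : Fin 3) => fderiv ℝ F y (Pi.single j 1)) := by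
  refine contDiff_pi.2 fun j => ?_
  exact (hF.fderiv_right (m := ∞) (by simp)).clm_apply contDiff_const

lemma gen_sum {N : ℕ} (L : R3 →L[ℝ] EV N) (b : R3) :
    ∑ j, b j • L (Pi.single j 1) = L b := by
  conv_rhs => rw [pi_eq_sum_univ' b]
  simp [map_sum]

lemma gen_det {N : ℕ} (L : R3 →L[ℝ] EV N) (hL : Function.Injective L) :
    (Matrix.of fun i j : Fin 3 => ⟪L (Pi.single i 1), L (Pi.single j 1)⟫).det ≠ 0 := by
  intro h
  obtain ⟨b, hb, h0⟩ := Matrix.exists_vecMul_eq_zero_iff.2 h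
  have h1 : ∀ j : Fin 3, ⟪L b, L (Pi.single j 1)⟫ = 0 := by
    intro j
    have := congrFun h0 j
    simp only [Matrix.vecMul, dotProduct, Matrix.of_apply, Pi.zero_apply] at this
    rw [← gen_sum L b, sum_inner]
    simpa [real_inner_smul_left] using this
  have h2 : ⟪L b, L b⟫ = 0 := by
    nth_rewrite 2 [← gen_sum L b]
    rw [inner_sum]
    simp [real_inner_smul_right, h1]
  exact hb (hL (by rw [inner_self_eq_zero.1 h2, map_zero]))

lemma gen_inner {N : ℕ} {F : R3 → EV N} (hF : ContDiff ℝ ∞ F) (w : EV N) (u ξ : R3) :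
    fderiv ℝ (fun u => ⟪w, F u⟫) u ξ = ⟪w, fderiv ℝ F u ξ⟫ := by
  have h := ((innerSL ℝ w).hasFDerivAt.comp u
    ((hF.differentiable (by simp)) u).hasFDerivAt).fderiv
  have e : (fun u => ⟪w, F u⟫) = (innerSL ℝ w) ∘ F := by ext; simp
  rw [e, h]
  simp

theorem p_GEN (hGEN3 : S_GEN3) (hGEN4 : S_GEN4) :
    S_GEN := by
  intro N F y₀ hF hinj
  set G : R3 → Fin 3 → EV N := fun y j => fderiv ℝ F y (Pi.single j 1) with hG
  have hGs : ContDiff ℝ ∞ G := gen_smooth hF
  have hc : Continuous fun y => (Mt G (G y₀) y).det := by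
    refine Continuous.matrix_det (continuous_pi fun i => continuous_pi fun j => ?_)
    exact continuous_const.inner ((continuous_apply j).comp hGs.continuous)
  have h0 : (Mt G (G y₀) y₀).det ≠ 0 := gen_det _ hinj
  obtain ⟨r, hr, hb⟩ := Metric.nhds_basis_closedBall.mem_iff.1 (hc.continuousAt.eventually_ne h0)
  refine ⟨closedBall y₀ r, closedBall_mem_nhds _ hr, isCompact_closedBall _ _, ?_⟩
  refine (hGEN4 G (G y₀) _ hGs (isCompact_closedBall _ _) fun y hy => hb hy).mono ?_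
  rintro v hv b hb0 ⟨y, hy, hf1, hf2⟩
  have hw : ContDiff ℝ ∞ (fun u => ⟪∑ i, b i • v i, F u⟫) := contDiff_const.inner ℝ hF
  have hd : DifferentiableAt ℝ (fderiv ℝ fun u => ⟪∑ i, b i • v i, F u⟫) y :=
    ((hw.fderiv_right (m := ∞) (by simp)).differentiable (by simp)) y
  have key := hGEN3 G v b y hGs hb0 fun j => by
    have e : (fun u => ⟪∑ i, b i • v i, G u j⟫) =
        fun u => fderiv ℝ (fun u => ⟪∑ i, b i • v i, F u⟫) u (Pi.single j 1) := by
      ext u; rw [gen_inner hF]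
    refine ⟨?_, ?_⟩
    · rw [congrFun e y, hf1]; rfl
    · rw [e, fderiv_clm_apply hd (differentiableAt_const _), hf2]
      ext ξ; simp
  exact hv y hy key.1 key.2

end SGEN

section SZZ

open Set Filter Topology Metric
open scoped RealInnerProductSpace ContDiff

theorem p_ZZ (hPTS : S_PTS) (hZQC : S_ZQC) (hGOP : S_GOP) (hGEN : S_GEN) :
    S_ZZ := by
  intro N f hf
  choose ι ho hr hs hi using hf
  choose y hy using hr
  choose Q hQ hc hd using fun z => hGEN (f ∘ ι z) (y z) (hs z) (hi z (y z))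
  obtain ⟨t, -, ht⟩ := isCompact_univ.elim_nhds_subcover (fun z => ι z '' Q z) fun z _ => by
    have := (ho z).image_mem_nhds.2 (hQ z)
    rwa [hy z] at this
  have hC := fun z => hZQC (f ∘ ι z) (Q z) (hs z) (hc z)
  refine ⟨⋃ z ∈ t, ZQ (f ∘ ι z) (Q z), ⟨isClosed_biUnion_finset fun z _ => (hC z).1,
    fun v hv c => ?_⟩, ?_, fun a ha => ?_⟩
  · obtain ⟨z, hz, h⟩ := mem_iUnion₂.1 hv
    exact mem_iUnion₂.2 ⟨z, hz, (hC z).2 v h c⟩
  · refine (dense_biInter_of_isOpen (S := (t : Set S3)) (fun z _ => hGOP _ 3 (hC z))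
      t.countable_toSet fun z _ => hd z).mono fun v hv b hb h => ?_
    obtain ⟨z, hz, h⟩ := mem_iUnion₂.1 h
    exact mem_iInter₂.1 hv z hz b hb h
  · have key : ∀ x, ⟪a.1, f x⟫ = a.2 → (LcAt (Ucl f a) x ∨ LcAt (Ucl f (-a)) x) ∧
        x ∉ interior {x | ⟪a.1, f x⟫ = a.2} := fun x hx => by
      obtain ⟨z, hz, u, hu, rfl⟩ := mem_iUnion₂.1 (ht (mem_univ x))
      exact hPTS f (ι z) a u (ho z) (hs z) hx fun h => ha (mem_iUnion₂.2 ⟨z, hz, u, hu, h⟩)
    exact ⟨fun x hx => (key x hx).1,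
      eq_empty_of_forall_notMem fun x hx => (key x (interior_subset (s := {x | ⟪a.1, f x⟫ = a.2}) hx)).2 hx⟩

end SZZ

section SSEG

open Set Filter Topology Metric
open scoped RealInnerProductSpace ContDiff

theorem p_SEG :
    S_SEG := by
  intro p _ F _ N f H Z v v' HT hv hv' h h'
  obtain ⟨x, h1, h2⟩ := not_subset.1 h
  obtain ⟨x', h3⟩ := (ne_univ_iff_exists_notMem _).1 h'
  have e1 : ⟪v', f x⟫ = mn f v' := h1
  have e2 : mn f v < ⟪v, f x⟫ := (mn_le v x H.cont).lt_of_ne' h2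
  have e3 : mn f v' < ⟪v', f x'⟫ := (mn_le v' x' H.cont).lt_of_ne' h3
  have e4 := mn_le v x' H.cont
  set t₀ : ℝ := (⟪v', f x'⟫ - mn f v') / (⟪v, f x'⟫ - mn f v + 1) with ht₀
  have hpos : 0 < t₀ := div_pos (by linarith) (by linarith)
  have hm : t₀ * (⟪v, f x'⟫ - mn f v + 1) = ⟪v', f x'⟫ - mn f v' :=
    div_mul_cancel₀ _ (by linarith)
  have hi : ∀ (t : ℝ) (y : S3), ⟪t • v - v', f y⟫ = t * ⟪v, f y⟫ - ⟪v', f y⟫ := fun t y => by
    rw [inner_sub_left, real_inner_smul_left]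
  refine ⟨t₀, hpos, fun t ht => ?_⟩
  refine HT (t • v - v', t * mn f v - mn f v') ⟨x', ?_⟩ ⟨x, ?_⟩
    (Lf.mono hv' fun y hy => ?_) (Lf.mono hv fun y hy => ?_)
  · rw [mem_U, hi]
    show _ < t * mn f v - mn f v'
    nlinarith [ht.1, ht.2]
  · rw [mem_U_neg, hi]
    show t * mn f v - mn f v' < _
    nlinarith [ht.1]
  · rw [mem_U, hi] at hy
    have hy' : t * ⟪v, f y⟫ - ⟪v', f y⟫ < t * mn f v - mn f v' := hy
    rw [mem_U, inner_neg_left]
    show _ < -mn f v'
    nlinarith [ht.1, mn_le v y H.cont]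
  · rw [mem_U_neg, hi] at hy
    have hy' : t * mn f v - mn f v' < t * ⟪v, f y⟫ - ⟪v', f y⟫ := hy
    rw [mem_U, inner_neg_left]
    show _ < -mn f v
    by_contra hc
    nlinarith [ht.1, mn_le v' y H.cont]

end SSEG

section SZF

open Set Filter Topology Metric
open scoped RealInnerProductSpace ContDiff

theorem p_ZF (hSEG : S_SEG) (hG5B : S_G5B) (hG12 : S_G12) :
    S_ZF := by
  intro p _ F _ N f hS Z hZ hT
  have orth : ∀ (v : EV N) (K : Set S3), K ⊆ Face f v → v ∈ (Dir f K)ᗮ := fun v K h =>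
    mem_Dir_orth.2 fun x hx y hy => (h hx).trans (h hy).symm
  by_cases h : ∃ v₀, Z0 f p v₀ ∧ v₀ ∉ Z ∧ Face f v₀ ≠ univ
  · obtain ⟨v₀, h1, h2, h3⟩ := h
    refine ⟨_, hG5B hS v₀ h1, fun v hv => Or.inr (orth v _ (by_contra fun h4 => h2 ?_))⟩
    obtain ⟨t₀, t0, ht⟩ := hSEG hS Z v v₀ hT hv h1 h4 h3
    have c : Continuous fun t : ℝ => t • v - v₀ := by fun_prop
    have h5 : (0 : ℝ) • v - v₀ ∈ Z :=
      hZ.1.mem_of_tendsto ((c.tendsto 0).mono_left (nhdsWithin_le_nhds (s := Ioi 0)))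
        (mem_of_superset (Ioo_mem_nhdsGT t0) ht)
    simpa using hZ.2 _ h5 (-1)
  · refine ⟨_, (by norm_num : 3 ≤ 4).trans (hG12 hS).2, fun v hv => or_iff_not_imp_left.2
      fun h1 => orth v _ (by_contra fun h2 => h ⟨v, hv, h1, fun h3 => h2 h3.ge⟩)⟩

end SZF

section SFRM

open Set Filter Topology Metric
open scoped RealInnerProductSpace ContDiff

lemma frm_cc {N : ℕ} (D : Submodule ℝ (EV N)) : CC (D : Set (EV N)) :=
  ⟨D.closed_of_finiteDimensional, fun _ hv c => D.smul_mem c hv⟩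

lemma frm_pre {X Y : Type} [NormedAddCommGroup X] [NormedSpace ℝ X] [FiniteDimensional ℝ X]
    [NormedAddCommGroup Y] [NormedSpace ℝ Y] [FiniteDimensional ℝ Y] (φ : X →ₗ[ℝ] Y) (h : Function.Surjective φ)
    {S : Set Y} (h1 : IsOpen S) (h2 : Dense S) : IsOpen (φ ⁻¹' S) ∧ Dense (φ ⁻¹' S) :=
  ⟨h1.preimage φ.continuous_of_finiteDimensional,
    h2.preimage (φ.isOpenMap_of_finiteDimensional h)⟩

/-- Adding multiples of the extra vector. -/
noncomputable def frmA (N : ℕ) (l : R3) : ((Fin 3 → EV N) × EV N) →ₗ[ℝ] (Fin 3 → EV N) where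
  toFun x i := x.1 i + l i • x.2
  map_add' x y := by funext i; simp [add_add_add_comm]
  map_smul' c x := by funext i; simp [smul_comm c]

/-- Joining the extra vector. -/
noncomputable def frmB (N : ℕ) : ((Fin 3 → EV N) × EV N) →ₗ[ℝ] (Fin 4 → EV N) where
  toFun x := Fin.cons x.2 x.1
  map_add' x y := by funext i; refine Fin.cases ?_ (fun j => ?_) i <;> simp
  map_smul' c x := by funext i; refine Fin.cases ?_ (fun j => ?_) i <;> simp

theorem p_FRM (hGOP : S_GOP) (hSUBG : S_SUBG) :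
    S_FRM := by
  intro N Z D D₀ hZ hd h3 h4
  obtain ⟨Λ, hc, hΛ⟩ := TopologicalSpace.exists_countable_dense R3
  have hA : ∀ l, Function.Surjective (frmA N l) := fun l v => ⟨(v, 0), by simp [frmA]⟩
  have hB : Function.Surjective (frmB N) := fun v => ⟨(Fin.tail v, v 0), Fin.cons_self_tail v⟩
  have a1 := fun l => frm_pre _ (hA l) (hGOP Z 3 hZ) hd
  have a2 := frm_pre _ (hA 0) (hGOP _ 3 (frm_cc Dᗮ)) (hSUBG D 3 h3)
  have a3 := frm_pre _ hB (hGOP _ 4 (frm_cc D₀ᗮ)) (hSUBG D₀ 4 h4)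
  have a4 := dense_biInter_of_isOpen (fun l _ => (a1 l).1) (hc.insert 0) fun l _ => (a1 l).2
  obtain ⟨⟨v, e⟩, ⟨h1, h2⟩, h5⟩ :=
    (Dense.inter_of_isOpen_left (a2.2.inter_of_isOpen_left a3.2 a2.1) a4
      (a2.1.inter a3.1)).nonempty
  rw [mem_iInter₂] at h5
  have e1 : ∀ l b : R3, ∑ i, b i • frmA N l (v, e) i = ∑ i, b i • v i + (l ⬝ᵥ b) • e := by
    intro l b
    simp [frmA, Finset.sum_add_distrib, dotProduct, Finset.sum_smul, smul_smul, mul_comm]
  refine ⟨LinearMap.toContinuousLinearMap (Fintype.linearCombination ℝ v), e, fun b hb => ?_,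
    fun b s h => ?_, Λ, hΛ, fun l hl b hb => ?_⟩
  · have k1 := h5 0 (mem_insert _ _) b hb
    have k2 := h1 b hb
    rw [e1, zero_dotProduct, zero_smul, add_zero] at k1 k2
    exact ⟨k1, k2⟩
  · have : (Fin.cons s b : Fin 4 → ℝ) = 0 := by
      by_contra hn
      refine h2 _ hn ?_
      rw [Fin.sum_univ_succ, add_comm]
      exact h
    exact ⟨funext fun i => congrFun this i.succ, congrFun this 0⟩
  · have k1 := h5 l (mem_insert_of_mem _ hl) b hb
    rw [e1] at k1
    exact k1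

end SFRM

end Pool.Agent.P.MP_c88051_gt.Im
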