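import Pool.Agent.P.MP_c88051_gt.Im.IfaceS

/-! Steps CUT, G6S. -/

set_option autoImplicit false
set_option linter.unusedSectionVars false

namespace Pool.Agent.P.MP_c88051_gt.Im

section SCUT

open Set Filter Topology Metric
open scoped RealInnerProductSpace ContDiff

theorem p_CUT :
    S_CUT := by
  intro Λ b b' s s' t₀ hΛ ht h
  obtain ⟨i, hi⟩ : ∃ i, s * b' i - s' * b i ≠ 0 := by
    by_contra hn
    push Not at hn
    exact h (funext fun i => by simpa using hn i)
  obtain ⟨t1, ht1, hb⟩ : ∃ t1 ∈ Ioo (0 : ℝ) t₀, t1 * b i - b' i ≠ 0 := by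
    by_contra hn
    push Not at hn
    have h1 := hn (t₀ / 2) ⟨by linarith, by linarith⟩
    have h2 := hn (t₀ / 3) ⟨by linarith, by linarith⟩
    have h3 : t₀ * b i = 0 := by linarith
    have h4 : b i = 0 := (mul_eq_zero.1 h3).resolve_left ht.ne'
    have h5 : b' i = 0 := by rw [h4] at h1; linarith
    exact hi (by rw [h4, h5]; ring)
  set x := (t1 * s - s') / (t1 * b i - b' i) with hx
  have hx' : x * (t1 * b i - b' i) = t1 * s - s' := div_mul_cancel₀ _ hb
  have hs : x * b i - s ≠ 0 := fun h0 => hi (by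
    have h1 : x * b' i - s' = 0 := by linear_combination t1 * h0 - hx'
    linear_combination b i * h1 - b' i * h0)
  have c1 : Continuous fun l : R3 => l ⬝ᵥ b - s := by fun_prop
  have c2 : Continuous fun l : R3 => l ⬝ᵥ b' - s' := by fun_prop
  have e1 : (Pi.single i x : R3) ⬝ᵥ b - s ≠ 0 := by rwa [single_dotProduct]
  have e2 : ((Pi.single i x : R3) ⬝ᵥ b' - s') / ((Pi.single i x : R3) ⬝ᵥ b - s) ∈ Ioo 0 t₀ := by
    rw [single_dotProduct, single_dotProduct,
      show (x * b' i - s') / (x * b i - s) = t1 by rw [div_eq_iff hs]; linear_combination -hx']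
    exact ht1
  have n1 := (c1.continuousAt.eventually_ne e1).and
    ((c2.continuousAt.div c1.continuousAt e1).eventually (isOpen_Ioo.mem_nhds e2))
  obtain ⟨l, hl, h1, h2⟩ := hΛ.inter_nhds_nonempty n1
  refine ⟨l, hl, _, h2, ?_⟩
  rw [dotProduct_sub, dotProduct_smul, smul_eq_mul]
  have := div_mul_cancel₀ (l ⬝ᵥ b' - s') h1
  simp only [Pi.div_apply]
  linear_combination this

end SCUT

section SG6S

open Set Filter Topology Metric
open scoped RealInnerProductSpace ContDiff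

/-- Opposite directions cannot both have faces with liftable complement. -/
lemma g6s_opp (hP3L : S_P3L) {p : ℕ} [NeZero p] {F : Type} [Field F] {N : ℕ} {f : S3 → EV N}
    (H : Sys f p F) {w w' : EV N} {s s' : ℝ} (s0 : 0 ≤ s) (hs' : 0 < s') (z : Z0 f p w)
    (z' : Z0 f p w') (e2 : s • w' + s' • w = 0) : w ∈ (Dir f univ)ᗮ := by
  have h3 := hP3L (le_trans (by norm_num) H.three) _ _ ∅ (H.openU _) (H.openU _) isOpen_empty
    (H.mapsU _) (H.mapsU _) z z' lf_empty
  rw [union_empty, ne_univ_iff_exists_notMem] at h3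
  obtain ⟨x, hx⟩ := h3
  simp only [mem_union, mem_U, inner_neg_left, not_or, not_lt, neg_le_neg_iff] at hx
  have e3 : ∀ y, s * ⟪w', f y⟫ + s' * ⟪w, f y⟫ = 0 := fun y => by
    rw [← real_inner_smul_left, ← real_inner_smul_left, ← inner_add_left, e2, inner_zero_left]
  have e4 : ∀ y, ⟪w, f y⟫ = ⟪w, f x⟫ := fun y => by
    refine le_antisymm (le_of_mul_le_mul_left ?_ hs') (hx.1.trans (mn_le w y H.cont))
    linarith [mul_le_mul_of_nonneg_left (hx.2.trans (mn_le w' y H.cont)) s0, e3 x, e3 y]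
  exact mem_Dir_orth.2 fun y _ y' _ => by rw [e4 y, e4 y']

/-- Nested faces: the combination has a face with liftable complement. -/
lemma g6s_nest {p : ℕ} [NeZero p] {N : ℕ} {f : S3 → EV N} (hf : Continuous f) {w w' : EV N}
    {s s' : ℝ} (s0 : 0 ≤ s) (s0' : 0 ≤ s') (z : Z0 f p w) (h : Face f w ⊆ Face f w') :
    Z0 f p (s • w' + s' • w) := by
  refine Lf.mono z fun x hx => ?_
  simp only [mem_U, inner_neg_left, neg_lt_neg_iff] at hx ⊢
  refine (mn_le w x hf).lt_of_ne fun e => ?_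
  have e' : ⟪w', f x⟫ = mn f w' := h e.symm
  obtain ⟨y, hy⟩ := exists_mn hf (s • w' + s' • w)
  rw [← hy, inner_add_left, inner_add_left, real_inner_smul_left, real_inner_smul_left,
    real_inner_smul_left, real_inner_smul_left, e', ← e] at hx
  linarith [mul_le_mul_of_nonneg_left (mn_le w' y hf) s0,
    mul_le_mul_of_nonneg_left (mn_le w y hf) s0']

theorem p_G6S (hZF : S_ZF) (hFRM : S_FRM) (hCUT : S_CUT) (hSEG : S_SEG) (hG12 : S_G12) (hP3L : S_P3L) (hLIFTC : S_LIFTC) :
    S_G6S := by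
  intro p _ F _ N f H Z hC hD hT
  obtain ⟨D, d1, d2⟩ := hZF H Z hC hT
  obtain ⟨L, e, l1, l2, Λ, hΛ, l3⟩ := hFRM Z D (Dir f univ) hC hD d1 (hG12 H).2
  have hL := (hLIFTC H).2.1
  have hz : ∀ b, b ≠ 0 → ¬Z0 f p (L b) := fun b hb z => (d2 _ z).elim (l1 b hb).1 (l1 b hb).2
  have h1 : ∀ b, b ≠ 0 → cL f p (L b) < -cL f p (-L b) := fun b hb => by
    by_contra hn
    have a2 : Lf p (U f (-L b, -cL f p (L b))) := by rw [hL]; linarith [not_lt.1 hn]
    by_cases n1 : (U f (L b, cL f p (L b))).Nonempty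
    · by_cases n2 : (U f (-L b, -cL f p (L b))).Nonempty
      · exact (l1 b hb).1 (hT (L b, cL f p (L b)) n1 n2 ((hL _ _).2 le_rfl) a2)
      · rw [U_nonempty_iff H.cont, not_lt] at n2
        refine hz (-b) (neg_ne_zero.2 hb) ?_
        rw [Z0, map_neg, neg_neg, hL]
        linarith
    · rw [U_nonempty_iff H.cont, not_lt] at n1
      refine hz b hb ?_
      rw [Z0, hL]
      linarith [not_lt.1 hn]
  have hZ : ∀ v, ¬Z0 f p v → mn f v < -cL f p (-v) := fun v hv => by
    rw [Z0, hL] at hv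
    linarith [not_le.1 hv]
  have key : ∀ (b b' : Fin 3 → ℝ) (s s' : ℝ), 0 ≤ s → 0 ≤ s' → (b ≠ 0 ∨ s ≠ 0) → (b' ≠ 0 ∨ s' ≠ 0) →
      Z0 f p (L b + s • e) → ¬Z0 f p (L b' + s' • -e) := fun b b' s s' s0 s0' n n' z z' => by
    have hs : 0 < s := s0.lt_of_ne fun h => by
      subst h
      exact n.elim (fun h => hz b h (by simpa using z)) fun h => h rfl
    have hs' : 0 < s' := s0'.lt_of_ne fun h => by
      subst h
      exact n'.elim (fun h => hz b' h (by simpa using z')) fun h => h rfl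
    have e1 : s • (L b' + s' • -e) + s' • (L b + s • e) = L (s • b' + s' • b) := by
      rw [map_add, map_smul, map_smul]
      module
    by_cases hu : s • b' + s' • b = 0
    · exact hs.ne' (l2 b s (g6s_opp hP3L H s0 hs' z z' (by rw [e1, hu, map_zero]))).2
    by_cases hF : Face f (L b + s • e) ⊆ Face f (L b' + s' • -e)
    · exact hz _ hu (e1 ▸ g6s_nest H.cont s0 s0' z hF)
    obtain ⟨t₀, ht₀, hseg⟩ := hSEG H Z _ _ hT z' z hF fun h =>
      hs.ne' (l2 b s (mem_Dir_orth.2 fun x _ y _ =>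
        (show x ∈ Face f _ from h ▸ mem_univ x).trans
          (show y ∈ Face f _ from h ▸ mem_univ y).symm)).2
    obtain ⟨l, hl, t, ht, hc⟩ := hCUT Λ b' b (-s') s t₀ hΛ ht₀ fun h => hu (by
      rw [← neg_eq_zero, ← h]; module)
    refine l3 l hl (t • b' - b) (fun h => ?_) ?_
    · rw [h, dotProduct_zero] at hc
      nlinarith [mul_pos ht.1 hs']
    · convert hseg t ht using 1
      rw [hc, map_sub, map_smul]
      module
  by_cases hA : ∀ b (s : ℝ), 0 ≤ s → (b ≠ 0 ∨ s ≠ 0) → ¬Z0 f p (L b + s • e)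
  · exact ⟨L, e, h1, fun b s s0 n => hZ _ (hA b s s0 n)⟩
  · push Not at hA
    obtain ⟨b, s, s0, n, z⟩ := hA
    exact ⟨L, -e, h1, fun b' s' s0' n' => hZ _ (key b b' s s' s0 s0' n n' z)⟩

end SG6S

end Pool.Agent.P.MP_c88051_gt.Im
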