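import Pool.Agent.P.MP_c88051_gt.Im.MainA
import Pool.Agent.P.MP_c88051_gt.Im.PS1
import Pool.Agent.P.MP_c88051_gt.Im.PS2
import Pool.Agent.P.MP_c88051_gt.Im.PS3

/-! The steps put together. -/

set_option autoImplicit false

namespace Pool.Agent.P.MP_c88051_gt.Im

theorem t_SLOC : S_SLOC := p_SLOC

theorem t_BXA : S_BXA := p_BXA

theorem t_BXB : S_BXB := p_BXB

theorem t_BXC : S_BXC := p_BXC t_BXA t_BXB

theorem t_PTS : S_PTS := p_PTS t_BXC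

theorem t_ZQC : S_ZQC := p_ZQC

theorem t_GOP : S_GOP := p_GOP

theorem t_SUBG : S_SUBG := p_SUBG

theorem t_GEN1 : S_GEN1 := p_GEN1

theorem t_GEN2A : S_GEN2A := p_GEN2A

theorem t_GEN2 : S_GEN2 := p_GEN2

theorem t_GEN3 : S_GEN3 := p_GEN3

theorem t_GEN4 : S_GEN4 := p_GEN4 t_GEN1 t_GEN2A t_GEN2

theorem t_GEN : S_GEN := p_GEN t_GEN3 t_GEN4

theorem t_ZZ : S_ZZ := p_ZZ t_PTS t_ZQC t_GOP t_GEN

theorem t_SEG : S_SEG := p_SEG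

theorem t_ZF : S_ZF := p_ZF t_SEG t_G5B t_G12

theorem t_FRM : S_FRM := p_FRM t_GOP t_SUBG

theorem t_CUT : S_CUT := p_CUT

theorem t_G6S : S_G6S := p_G6S t_ZF t_FRM t_CUT t_SEG t_G12 t_P3L t_LIFTC

end Pool.Agent.P.MP_c88051_gt.Im
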