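import Pool.Agent.P.MP_c88051_gt.Im.IfaceA

/-! Steps G4, G5A, G5, G6. -/

set_option autoImplicit false
set_option linter.unusedSectionVars false

namespace Pool.Agent.P.MP_c88051_gt.Im

section SG4

open Set Filter Topology Metric
open scoped RealInnerProductSpace

theorem g4_out {N : ℕ} (Q : ℕ → Submodule ℝ (EV N)) (h : ∀ i, Module.finrank ℝ (Q i) < N) :
    ∃ v, ∀ i, v ∉ Q i := by
  by_contra hc
  push Not at hc
  have h0 : (MeasureTheory.volume : MeasureTheory.Measure (EV N)) (⋃ i, (Q i : Set (EV N))) = 0 := by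
    refine MeasureTheory.measure_iUnion_null fun i =>
      MeasureTheory.Measure.addHaar_submodule _ _ fun ht => ?_
    have := h i
    rw [ht, finrank_top, finrank_euclideanSpace_fin] at this
    exact lt_irrefl _ this
  have hu : (⋃ i, (Q i : Set (EV N))) = univ :=
    eq_univ_of_forall fun v => mem_iUnion.2 (hc v)
  rw [hu] at h0
  exact (isOpen_univ.measure_pos MeasureTheory.volume univ_nonempty).ne' h0

theorem g4_dim {N : ℕ} (Q : Submodule ℝ (EV N)) (v : EV N) :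
    Module.finrank ℝ ↥(Q ⊔ Submodule.span ℝ {v}) ≤ Module.finrank ℝ Q + 1 := by
  refine (Submodule.finrank_add_le_finrank_add_finrank _ _).trans (Nat.add_le_add_left ?_ _)
  simpa using finrank_span_le_card (R := ℝ) ({v} : Set (EV N))

theorem g4_zero {N : ℕ} {S : Submodule ℝ (EV N)} {v w : EV N} {s : ℝ} (hv : v ∉ S) (hw : w ∈ S)
    (h : w + s • v ∈ S) : s = 0 := by
  by_contra hs
  exact hv ((S.smul_mem_iff hs).1 ((S.add_mem_iff_right hw).1 h))

theorem g4_perp {N : ℕ} (D : Submodule ℝ (EV N)) :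
    Module.finrank ℝ D + Module.finrank ℝ Dᗮ = N := by
  rw [D.finrank_add_finrank_orthogonal, finrank_euclideanSpace_fin]

theorem p_G4 :
    S_G4 := by
  intro N D D₀ hD h0
  obtain ⟨P, hz, hs⟩ : ∃ P : ℕ → Submodule ℝ (EV N), P 0 = D₀ᗮ ∧ ∀ j, P (j + 1) = (D j)ᗮ :=
    ⟨fun i => Nat.casesOn i D₀ᗮ fun j => (D j)ᗮ, rfl, fun _ => rfl⟩
  have hP0 : Module.finrank ℝ ↥(P 0 : Submodule ℝ (EV N)) + 4 ≤ N := by
    have := g4_perp D₀
    rw [hz]
    omega
  have hP : ∀ i : ℕ, Module.finrank ℝ ↥(P i : Submodule ℝ (EV N)) + 3 ≤ N := by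
    intro i
    cases i with
    | zero => omega
    | succ j =>
      have := g4_perp (D j)
      have := hD j
      rw [hs]
      omega
  obtain ⟨v0, h0⟩ := g4_out P fun i => by have := hP i; omega
  obtain ⟨v1, h1⟩ := g4_out (fun i => P i ⊔ Submodule.span ℝ {v0}) fun i => by
    have := hP i
    have := g4_dim (P i) v0
    omega
  obtain ⟨v2, h2⟩ := g4_out (fun i => (P i ⊔ Submodule.span ℝ {v0}) ⊔ Submodule.span ℝ {v1})
    fun i => by
      have := hP i
      have := g4_dim (P i) v0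
      have := g4_dim (P i ⊔ Submodule.span ℝ {v0}) v1
      omega
  obtain ⟨e, he⟩ := g4_out
    (fun _ => ((P 0 ⊔ Submodule.span ℝ {v0}) ⊔ Submodule.span ℝ {v1}) ⊔ Submodule.span ℝ {v2})
    fun _ => by
      have := g4_dim (P 0) v0
      have := g4_dim (P 0 ⊔ Submodule.span ℝ {v0}) v1
      have := g4_dim ((P 0 ⊔ Submodule.span ℝ {v0}) ⊔ Submodule.span ℝ {v1}) v2
      omega
  have ms : ∀ (S : Submodule ℝ (EV N)) (v : EV N) (s : ℝ), s • v ∈ S ⊔ Submodule.span ℝ {v} :=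
    fun S v s => Submodule.mem_sup_right
      (Submodule.smul_mem _ _ (Submodule.mem_span_singleton_self v))
  have key : ∀ (i : ℕ) (b : Fin 3 → ℝ), b 0 • v0 + b 1 • v1 + b 2 • v2 ∈ P i → b = 0 := by
    intro i b hb
    have e2 : b 2 = 0 := g4_zero (h2 i)
      (Submodule.add_mem _ (Submodule.mem_sup_left (ms _ _ _)) (ms _ _ _))
      (Submodule.mem_sup_left (Submodule.mem_sup_left hb))
    rw [e2, zero_smul, add_zero] at hb
    have e1 : b 1 = 0 := g4_zero (h1 i) (ms _ _ _) (Submodule.mem_sup_left hb)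
    rw [e1, zero_smul, add_zero] at hb
    have e0 : b 0 = 0 := g4_zero (h0 i) (Submodule.zero_mem _) (by rwa [zero_add])
    ext j
    fin_cases j
    exacts [e0, e1, e2]
  refine ⟨(ContinuousLinearMap.proj 0).smulRight v0 + (ContinuousLinearMap.proj 1).smulRight v1 +
    (ContinuousLinearMap.proj 2).smulRight v2, e, fun i b hb => key (i + 1) b (hs i ▸ hb), fun b s hb => ?_⟩
  have hb' : b 0 • v0 + b 1 • v1 + b 2 • v2 + s • e ∈ P 0 := hz ▸ hb
  have es : s = 0 := g4_zero (he 0)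
    (Submodule.add_mem _ (Submodule.mem_sup_left
      (Submodule.add_mem _ (Submodule.mem_sup_left (ms _ _ _)) (ms _ _ _))) (ms _ _ _))
    (Submodule.mem_sup_left (Submodule.mem_sup_left (Submodule.mem_sup_left hb')))
  rw [es, zero_smul, add_zero] at hb'
  exact ⟨key 0 b hb', es⟩

end SG4

section SG5A

open Set Filter Topology Metric
open scoped RealInnerProductSpace

lemma g5a_key (hLA : S_LA) {p : ℕ} [NeZero p] {F : Type} [Field F] {N : ℕ} {f : S3 → EV N}
    (H : Sys f p F) (HT : Tame f) {v v' : EV N} (hv : Z0 f p v) (hv' : Z0 f p v') {x x' : S3}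
    (h1 : x ∈ Face f v') (h2 : x ∉ Face f v) (h3 : x' ∉ Face f v') :
    (interior (Face f v ∩ Face f v')).Nonempty := by
  by_contra hn
  have e1 : ⟪v', f x⟫ = mn f v' := h1
  have e2 : mn f v < ⟪v, f x⟫ := (mn_le v x H.cont).lt_of_ne' h2
  have e3 : mn f v' < ⟪v', f x'⟫ := (mn_le v' x' H.cont).lt_of_ne' h3
  have e4 := mn_le v x' H.cont
  set t₀ : ℝ := (⟪v', f x'⟫ - mn f v') / (⟪v, f x'⟫ - mn f v + 1) with ht₀
  have hpos : 0 < t₀ := div_pos (by linarith) (by linarith)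
  have hm : t₀ * (⟪v, f x'⟫ - mn f v + 1) = ⟪v', f x'⟫ - mn f v' :=
    div_mul_cancel₀ _ (by linarith)
  let W : ℝ → Set S3 := fun t =>
    interior {y | t * ⟪v, f y⟫ - ⟪v', f y⟫ = t * mn f v - mn f v'}
  have hi : ∀ (t : ℝ) (y : S3), ⟪t • v - v', f y⟫ = t * ⟪v, f y⟫ - ⟪v', f y⟫ := fun t y => by
    rw [inner_sub_left, real_inner_smul_left]
  have hW : ∀ t ∈ Ioo (0 : ℝ) t₀, (W t).Nonempty := fun t ht => by
    have := hLA H (t • v - v', t * mn f v - mn f v') (HT _) ⟨x', ?_⟩ ⟨x, ?_⟩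
      (Lf.mono hv' fun y hy => ?_) (Lf.mono hv fun y hy => ?_)
    · simpa only [hi] using this
    · rw [mem_U, hi]
      show _ < t * mn f v - mn f v'
      nlinarith [ht.1, ht.2]
    · rw [mem_U_neg, hi]
      show t * mn f v - mn f v' < _
      nlinarith [ht.1]
    · rw [mem_U, hi] at hy
      have hy' : t * ⟪v, f y⟫ - ⟪v', f y⟫ < t * mn f v - mn f v' := hy
      rw [mem_U, inner_neg_left]
      show _ < -mn f v'
      nlinarith [ht.1, mn_le v y H.cont]
    · rw [mem_U_neg, hi] at hy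
      have hy' : t * mn f v - mn f v' < t * ⟪v, f y⟫ - ⟪v', f y⟫ := hy
      rw [mem_U, inner_neg_left]
      show _ < -mn f v
      by_contra hc
      nlinarith [ht.1, mn_le v' y H.cont]
  have hd : (Ioo (0 : ℝ) t₀).PairwiseDisjoint W := fun t _ s _ hts => by
    refine disjoint_left.2 fun y hy hy' => hn ⟨y, ?_⟩
    have := mem_inter hy hy'
    simp only [W] at this
    rw [← interior_inter] at this
    refine interior_mono (fun w hw => ?_) this
    have a1 : t * ⟪v, f w⟫ - ⟪v', f w⟫ = t * mn f v - mn f v' := hw.1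
    have a2 : s * ⟪v, f w⟫ - ⟪v', f w⟫ = s * mn f v - mn f v' := hw.2
    have a3 : ⟪v, f w⟫ = mn f v := mul_left_cancel₀ (sub_ne_zero.2 hts) (by linarith)
    refine ⟨a3, ?_⟩
    show ⟪v', f w⟫ = mn f v'
    rw [a3] at a1
    linarith
  have := (hd.countable_of_isOpen (fun _ _ => isOpen_interior) hW).measure_zero
    (MeasureTheory.volume : MeasureTheory.Measure ℝ)
  rw [Real.volume_Ioo, ENNReal.ofReal_eq_zero] at this
  linarith

theorem p_G5A (hLA : S_LA) :
    S_G5A := by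
  intro p _ F _ N f H HT v v' hv hv' h1 h2 h3
  obtain ⟨x, hx⟩ := (ne_univ_iff_exists_notMem _).1 h1
  obtain ⟨x', hx'⟩ := (ne_univ_iff_exists_notMem _).1 h2
  by_cases h : Face f v' ⊆ Face f v
  · obtain ⟨y, k1, k2⟩ := not_subset.1 fun h' => h3 (Subset.antisymm h' h)
    rw [inter_comm]
    exact g5a_key hLA H HT hv' hv k1 k2 hx
  · obtain ⟨y, k1, k2⟩ := not_subset.1 h
    exact g5a_key hLA H HT hv hv' k1 k2 hx'

end SG5A

section SG5

open Set Filter Topology Metric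
open scoped RealInnerProductSpace

lemma g5_balls : ∃ (z : ℕ → S3) (ρ : ℕ → ℝ), (∀ i, 0 < ρ i) ∧
    ∀ O : Set S3, (interior O).Nonempty → ∃ i, ball (z i) (ρ i) ⊆ O := by
  refine ⟨fun i => TopologicalSpace.denseSeq S3 i.unpair.1, fun i => 1 / ((i.unpair.2 : ℝ) + 1),
    fun i => Nat.one_div_pos_of_nat, fun O hO => ?_⟩
  obtain ⟨m, hm⟩ := (TopologicalSpace.denseRange_denseSeq S3).exists_mem_open isOpen_interior hO
  obtain ⟨ε, hε, h⟩ := Metric.mem_nhds_iff.1 (mem_interior_iff_mem_nhds.1 hm)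
  obtain ⟨n, hn⟩ := exists_nat_one_div_lt hε
  refine ⟨m.pair n, ?_⟩
  simp only [Nat.unpair_pair]
  exact (ball_subset_ball hn.le).trans h

theorem p_G5 (hLA : S_LA) (hG5A : S_G5A) (hG5B : S_G5B) (hG12 : S_G12) :
    S_G5 := by
  intro p _ F _ N f H HT
  obtain ⟨z, ρ, hρ, hb⟩ := g5_balls
  obtain ⟨K0, h0, h1⟩ : ∃ K0 : Set S3, 3 ≤ Module.finrank ℝ (Dir f K0) ∧
      ∀ v, Z0 f p v → ¬(interior (Face f v)).Nonempty → K0 ⊆ Face f v := by
    by_cases h : ∃ v, Z0 f p v ∧ ¬(interior (Face f v)).Nonempty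
    · obtain ⟨w, hw, hw'⟩ := h
      refine ⟨Face f w, hG5B H w hw, fun v hv hv' => Eq.subset (by_contra fun e => ?_)⟩
      have k : ∀ u, ¬(interior (Face f u)).Nonempty → Face f u ≠ univ := fun u hu e =>
        hu (by rw [e, interior_univ]; exact univ_nonempty)
      exact hw' ((hG5A H HT w v hw hv (k w hw') (k v hv') e).mono (interior_mono inter_subset_left))
    · exact ⟨univ, le_trans (by norm_num) (hG12 H).2, fun v hv hv' => (h ⟨v, hv, hv'⟩).elim⟩
  let K : ℕ → Set S3 := fun i => Nat.casesOn i K0 fun i => ball (z i) (ρ i)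
  have k1 : ∀ O : Set S3, (interior O).Nonempty → ∃ i, K i ⊆ O := fun O hO =>
    let ⟨i, hi⟩ := hb O hO; ⟨i + 1, hi⟩
  have k2 : ∀ v, Z0 f p v → ∃ i, K i ⊆ Face f v := fun v hv => by
    by_cases h : (interior (Face f v)).Nonempty
    exacts [k1 _ h, ⟨0, h1 v hv h⟩]
  have k3 : ∀ i v (t : ℝ), K i ⊆ {x | ⟪v, f x⟫ = t} → v ∈ (Dir f (K i))ᗮ := fun i v t h =>
    mem_Dir_orth.2 fun x hx y hy => (h hx).trans (h hy).symm
  have k4 : ∀ v (t : ℝ), ¬(U f (v, t)).Nonempty → Lf p (U f (-v, -t)) →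
      ∃ i, v ∈ (Dir f (K i))ᗮ := fun v t h h' => by
    rw [U_nonempty_iff H.cont, not_lt] at h
    exact (k2 v (h'.mono (U_mono _ (neg_le_neg h)))).imp fun i hi => k3 i v _ hi
  refine ⟨fun i => Dir f (K i), fun i => ?_, fun a ha ha' => ?_, fun v v' hv hv' => ?_⟩
  · cases i with
    | zero => exact h0
    | succ i => exact (hG12 H).1 _ _ (hρ i)
  · by_cases h : (U f a).Nonempty
    · by_cases h' : (U f (-a)).Nonempty
      · exact (k1 _ (hLA H a (HT _) h h' ha ha')).imp fun i hi => k3 i _ _ hi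
      · exact (k4 (-a.1) (-a.2) h' (by rwa [neg_neg, neg_neg])).imp fun i hi => neg_mem_iff.1 hi
    · exact k4 a.1 a.2 h ha'
  · suffices ∃ i, K i ⊆ Face f v ∧ K i ⊆ Face f v' from
      this.imp fun i hi => ⟨k3 i _ _ hi.1, k3 i _ _ hi.2⟩
    by_cases e : Face f v = univ
    · exact (k2 v' hv').imp fun i hi => ⟨e ▸ subset_univ _, hi⟩
    by_cases e' : Face f v' = univ
    · exact (k2 v hv).imp fun i hi => ⟨hi, e' ▸ subset_univ _⟩
    by_cases e'' : Face f v = Face f v'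
    · exact (k2 v hv).imp fun i hi => ⟨hi, e'' ▸ hi⟩
    · exact (k1 _ (hG5A H HT v v' hv hv' e e' e'')).imp fun i hi => subset_inter_iff.1 hi

end SG5

section SG6

open Set Filter Topology Metric
open scoped RealInnerProductSpace

theorem p_G6 (hG5 : S_G5) (hG4 : S_G4) (hG12 : S_G12) (hP3L : S_P3L) (hLIFTC : S_LIFTC) :
    S_G6 := by
  intro p _ F _ N f H HT
  obtain ⟨D, d1, d2, d3⟩ := hG5 H HT
  obtain ⟨L, e, l1, l2⟩ := hG4 D (Dir f univ) d1 (hG12 H).2
  have hL := (hLIFTC H).2.1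
  have h1 : ∀ b, b ≠ 0 → cL f p (L b) < -cL f p (-L b) := fun b hb => by
    by_contra hn
    obtain ⟨i, hi⟩ := d2 (L b, cL f p (L b)) ((hL _ _).2 le_rfl)
      (by rw [Prod.neg_mk, hL]; linarith [not_lt.1 hn])
    exact hb (l1 i b hi)
  have hZ : ∀ v, ¬Z0 f p v → mn f v < -cL f p (-v) := fun v hv => by
    rw [Z0, hL] at hv
    linarith [not_le.1 hv]
  have key : ∀ (b b' : Fin 3 → ℝ) (s s' : ℝ), 0 ≤ s → 0 ≤ s' → (b ≠ 0 ∨ s ≠ 0) → (b' ≠ 0 ∨ s' ≠ 0) →
      Z0 f p (L b + s • e) → ¬Z0 f p (L b' + s' • -e) := fun b b' s s' s0 s0' n n' z z' => by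
    obtain ⟨i, m, m'⟩ := d3 _ _ z z'
    have hs : 0 < s := s0.lt_of_ne fun h => by
      subst h
      exact n.elim (fun h => h (l1 i b (by simpa using m))) fun h => h rfl
    have hs' : 0 < s' := s0'.lt_of_ne fun h => by
      subst h
      exact n'.elim (fun h => h (l1 i b' (by simpa using m'))) fun h => h rfl
    have e1 : s • (L b' + s' • -e) + s' • (L b + s • e) = L (s • b' + s' • b) := by
      rw [map_add, map_smul, map_smul]
      module
    have e2 : s • (L b' + s' • -e) + s' • (L b + s • e) = 0 := by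
      rw [e1, l1 i (s • b' + s' • b) (e1 ▸ add_mem (Submodule.smul_mem _ s m')
        (Submodule.smul_mem _ s' m)), map_zero]
    have h3 := hP3L (le_trans (by norm_num) H.three) _ _ ∅ (H.openU _) (H.openU _) isOpen_empty
      (H.mapsU _) (H.mapsU _) z z' lf_empty
    rw [union_empty, ne_univ_iff_exists_notMem] at h3
    obtain ⟨x, hx⟩ := h3
    generalize L b' + s' • -e = w' at hx e2
    have hw := l2 b s
    generalize L b + s • e = w at hx e2 hw
    simp only [mem_union, mem_U, inner_neg_left, not_or, not_lt, neg_le_neg_iff] at hx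
    have e3 : ∀ y, s * ⟪w', f y⟫ + s' * ⟪w, f y⟫ = 0 := fun y => by
      rw [← real_inner_smul_left, ← real_inner_smul_left, ← inner_add_left, e2, inner_zero_left]
    have e4 : ∀ y, ⟪w, f y⟫ = ⟪w, f x⟫ := fun y => by
      refine le_antisymm (le_of_mul_le_mul_left ?_ hs') (hx.1.trans (mn_le w y H.cont))
      linarith [mul_le_mul_of_nonneg_left (hx.2.trans (mn_le w' y H.cont)) s0, e3 x, e3 y]
    exact hs.ne' (hw (mem_Dir_orth.2 fun y _ y' _ => by rw [e4 y, e4 y'])).2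
  by_cases hA : ∀ b (s : ℝ), 0 ≤ s → (b ≠ 0 ∨ s ≠ 0) → ¬Z0 f p (L b + s • e)
  · exact ⟨L, e, h1, fun b s s0 n => hZ _ (hA b s s0 n)⟩
  · push Not at hA
    obtain ⟨b, s, s0, n, z⟩ := hA
    exact ⟨L, -e, h1, fun b' s' s0' n' => hZ _ (key b b' s s' s0 s0' n n' z)⟩

end SG6

end Pool.Agent.P.MP_c88051_gt.Im
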