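import Pool.Agent.P.MP_c88051_gt.Im.MainA
import Pool.Agent.P.MP_c88051_gt.Im.PT1

/-! The steps put together. -/

set_option autoImplicit false

namespace Pool.Agent.P.MP_c88051_gt.Im

theorem t_G4 : S_G4 := p_G4

theorem t_G5A : S_G5A := p_G5A t_LA

theorem t_G5 : S_G5 := p_G5 t_LA t_G5A t_G5B t_G12

theorem t_G6 : S_G6 := p_G6 t_G5 t_G4 t_G12 t_P3L t_LIFTC

end Pool.Agent.P.MP_c88051_gt.Im
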