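import Pool.Agent.P.MP_c88051_gt.Im.IfaceA

/-! Steps COVER, GLUE, FIB, LOC, CECH, CE, EXT, BALL, GL, JL. -/

set_option autoImplicit false
set_option linter.unusedSectionVars false

namespace Pool.Agent.P.MP_c88051_gt.Im

section SCOVER

open Set Filter Topology Metric
open scoped RealInnerProductSpace

theorem p_COVER :
    S_COVER := by
  intro N a y₀ ha ρ hρ
  obtain ⟨M, hM⟩ : ∃ M, M = 1 + ‖y₀‖ + ρ := ⟨_, rfl⟩
  have h0 := norm_nonneg y₀
  have h1 : 0 < M := by linarith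
  refine ⟨min (1 / 2) (ρ / (4 * M)), lt_min (by norm_num) (by positivity),
    (min_le_left _ _).trans_lt (by norm_num), fun R hR => ?_⟩
  obtain ⟨τ, hτ⟩ : ∃ τ, τ = R / (2 * M) := ⟨_, rfl⟩
  have h2 : 0 < τ := by rw [hτ]; positivity
  refine ⟨τ * ρ / 4, by positivity, fun y hy hl => ?_⟩
  obtain ⟨d, hd⟩ : ∃ d, d = ‖y - y₀‖ := ⟨_, rfl⟩
  have h3 : 0 < d := by linarith
  obtain ⟨w, hw⟩ : ∃ w : EV N, w = (τ / d) • (y₀ - y) := ⟨_, rfl⟩
  have h4 : ‖w‖ = τ := by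
    rw [hw, norm_smul, norm_sub_rev, ← hd, Real.norm_of_nonneg (by positivity)]
    field_simp
  have h5 : ⟪w, y₀⟫ - ⟪w, y⟫ = τ * d := by
    rw [← inner_sub_right, hw, real_inner_smul_left, real_inner_self_eq_norm_sq, norm_sub_rev, ← hd]
    field_simp
  have h6 := abs_le.1 (abs_real_inner_le_norm w y₀)
  rw [h4] at h6
  have h7 : ‖(a.1 + w, a.2 + (⟪w, y₀⟫ - τ * ρ / 2)) - a‖ ≤ τ * M := by
    rw [Prod.norm_def]
    refine max_le ?_ ?_
    · simp only [Prod.fst_sub, add_sub_cancel_left, h4]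
      nlinarith
    · simp only [Prod.snd_sub, add_sub_cancel_left, Real.norm_eq_abs]
      rw [abs_le, hM]
      constructor <;> nlinarith [mul_pos h2 hρ]
  have h8 : τ * M = R / 2 := by
    rw [hτ]
    field_simp
  refine ⟨(a.1 + w, a.2 + (⟪w, y₀⟫ - τ * ρ / 2)), ⟨by linarith, ?_⟩, ?_⟩
  · have h9 : ρ / (4 * M) * (τ * M) = τ * ρ / 4 := by field_simp
    have h10 := mul_le_mul (min_le_right (1 / 2) (ρ / (4 * M))) h7 (norm_nonneg _) (by positivity)
    simp only [inner_add_left]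
    nlinarith [mul_pos h2 hρ]
  · simp only [inner_add_left]
    nlinarith [mul_pos h2 hρ]

end SCOVER

section SGLUE

open Set Filter Topology Metric
open scoped RealInnerProductSpace

theorem p_GLUE :
    S_GLUE := by
  classical
  intro p _ F _ N f H G _ c θ x C hC hne hx
  choose! h hP hθ using fun a ha => (hx a ha).2
  have key : ∀ y, ∀ a ∈ C, ∀ b ∈ C, y ∈ U f a → y ∈ U f b → h a y = h b y := by
    intro y a ha b hb ya yb
    have hc : Convex ℝ {e | e ∈ C ∧ y ∈ U f e} := fun e he e' he' s t hs ht hst =>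
      ⟨hC he.1 he'.1 hs ht hst, inter_U hs ht hst ⟨he.2, he'.2⟩⟩
    refine LC.eq_of_preconn (h := fun e => h e y) (fun e he => ?_) hc.isPreconnected
      ⟨ha, ya⟩ ⟨hb, yb⟩
    have h1 := mem_U.1 he.2
    have h2 := mem_U.1 (hx e he.1).1
    obtain ⟨ε, hε, e1, e2⟩ : ∃ ε > (0 : ℝ), y ∈ U f (up e (-ε)) ∧ x ∈ U f (up e (-ε)) :=
      ⟨min (e.2 - ⟪e.1, f y⟫) (e.2 - ⟪e.1, f x⟫) / 2, by
        have := lt_min (sub_pos.2 h1) (sub_pos.2 h2); linarith, by
        rw [mem_U_up]; linarith [min_le_left (e.2 - ⟪e.1, f y⟫) (e.2 - ⟪e.1, f x⟫)], by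
        rw [mem_U_up]; linarith [min_le_right (e.2 - ⟪e.1, f y⟫) (e.2 - ⟪e.1, f x⟫)]⟩
    obtain ⟨R, hR, hn⟩ := exists_near H.cont hε
    have sub : ∀ b, ‖b - e‖ < R → U f (up e (-ε)) ⊆ U f b := fun b hb =>
      (U_sub_Ucl _).trans (hn e b hb).1
    filter_upwards [mem_nhdsWithin_of_mem_nhds (ball_mem_nhds e hR), self_mem_nhdsWithin]
      with b h3 h4
    exact (H.orb e2).eqP ((hP b h4.1).mono (sub b (mem_ball_iff_norm.1 h3)))
      ((hP e he.1).mono (sub e (by simpa using hR)))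
      (fun j => (hθ b h4.1 j).trans (hθ e he.1 j).symm) e1
  have hk : ∀ y, ∃ g : G, ∀ a ∈ C, y ∈ U f a → g = h a y := fun y => by
    by_cases hy : ∃ a ∈ C, y ∈ U f a
    · obtain ⟨a, ha, ya⟩ := hy
      exact ⟨h a y, fun b hb yb => key y a ha b hb ya yb⟩
    · exact ⟨0, fun a ha ya => (hy ⟨a, ha, ya⟩).elim⟩
  choose k hk using hk
  refine ⟨k, IsP.of_local fun y hy => ?_, fun j => ?_⟩
  · obtain ⟨a, ha, ya⟩ := mem_UC.1 hy
    exact ⟨U f a, mem_nhdsWithin_of_mem_nhds ((H.openU a).mem_nhds ya),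
      (hP a ha).congr fun z hz => hk z a ha hz⟩
  · obtain ⟨a, ha⟩ := hne
    rw [hk _ a ha ((H.sh_mem j).2 (hx a ha).1), hθ a ha]

end SGLUE

section SFIB

open Set Filter Topology Metric
open scoped RealInnerProductSpace

lemma fib_pot (hBALL : S_BALL) {Z : Set S3} {r : ℝ} (hr : r ≤ 1)
    (hs : ∀ x ∈ Z, ∀ y ∈ Z, dist x y < 2 * r → x = y) {G : Type} [AddCommGroup G]
    {c : S3 → S3 → G} (hc : IsC {x | ∃ z ∈ Z, dist x z < r} c) :
    ∃ h, IsP {x | ∃ z ∈ Z, dist x z < r} c h := by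
  obtain ⟨π, p1, -⟩ := exists_pi (p := 1) hs fun x hx => by
    rwa [gn, Subsingleton.elim (1 : ZMod 1) 0, sh_zero]
  choose! b hb using fun z (hz : z ∈ Z) => hBALL z r hr c (hc.mono fun x hx => ⟨z, hz, hx⟩)
  refine ⟨fun x => b (π x) x, IsP.of_local fun x ⟨z, hz, hd⟩ =>
    ⟨ball z r, nhdsWithin_le_nhds (isOpen_ball.mem_nhds hd), (hb z hz).congr fun y hy => ?_⟩⟩
  rw [p1 y z hz hy]

theorem p_FIB (hBALL : S_BALL) :
    S_FIB := by
  intro p _ F _ N f H y₀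
  by_cases hn : ∃ z, f z = y₀
  swap
  · refine ⟨fun _ => 1, 1, continuous_const, one_pos, fun _ _ _ h => (lt_irrefl _ h).elim,
      fun r hr G _ k c _ => ⟨0, fun x hx => (not_lt.2 hr hx).elim⟩, fun x e => (hn ⟨x, e⟩).elim,
      fun _ _ => one_pos, fun V _ _ => ⟨1, one_pos, fun _ _ h => (lt_irrefl _ h).elim⟩⟩
  obtain ⟨ρ, ρ0, hρ⟩ := H.sep
  obtain ⟨sec, hsec⟩ := exists_sec p
  let Z : Set S3 := {z | f z = y₀ ∧ sec z = 0}
  have hZ : ∀ x, f x = y₀ → sh (-sec x) x ∈ Z := fun x e =>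
    ⟨(H.f_sh _ x).trans e, by rw [hsec, add_neg_cancel]⟩
  have ne : Z.Nonempty := let ⟨z, e⟩ := hn; ⟨_, hZ z e⟩
  have key : ∀ (k : ZMod p) (y : S3) (r : ℝ),
      infDist (sh (-k) y) Z < r ↔ ∃ w ∈ {w | f w = y₀ ∧ sec w = k}, dist y w < r := fun k y r => by
    rw [infDist_lt_iff ne]
    constructor
    · rintro ⟨z, hz, h⟩
      exact ⟨sh k z, ⟨(H.f_sh k z).trans hz.1, by rw [hsec, hz.2, zero_add]⟩, by
        rwa [← dist_sh (-k), sh_neg_sh]⟩
    · rintro ⟨w, hw, h⟩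
      exact ⟨sh (-k) w, hw.2 ▸ hZ w hw.1, by rwa [dist_sh]⟩
  have r1 := min_le_left (ρ / 2) 1
  refine ⟨fun y => infDist y Z, min (ρ / 2) 1, continuous_infDist_pt Z, by positivity,
    fun k l y h1 h2 => ?_, fun r hr G _ k c hc => ?_, fun x e => ⟨sec x, ?_⟩, fun x e => ?_,
    fun V hV h => ?_⟩
  · obtain ⟨w, hw, h1⟩ := (key k y _).1 h1
    obtain ⟨w', hw', h2⟩ := (key l y _).1 h2
    rw [← hw.2, ← hw'.2, hρ w w' (hw.1.trans hw'.1.symm) (by linarith [dist_triangle_left w w' y])]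
  · simp only [key] at hc ⊢
    exact fib_pot hBALL (hr.trans (min_le_right _ _))
      (fun x hx y hy h => hρ x y (hx.1.trans hy.1.symm) (by linarith)) hc
  · exact (infDist_zero_of_mem (hZ x e)).le
  · exact (((H.finite_fib y₀).subset fun _ h => h.1).isClosed.notMem_iff_infDist_pos ne).1
      fun h => e h.1
  · obtain ⟨r, r0, hr⟩ := (H.finite_fib y₀).isCompact.exists_thickening_subset_open hV h
    refine ⟨r, r0, fun k y hy => hr ?_⟩
    obtain ⟨w, hw, h1⟩ := (key k y _).1 hy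
    exact mem_thickening_iff.2 ⟨w, hw.1, h1⟩

end SFIB

section SLOC

open Set Filter Topology Metric
open scoped RealInnerProductSpace

theorem p_LOC (hCOVER : S_COVER) (hFIB : S_FIB) :
    S_LOC := by
  intro p _ F _ N f H a y₀ x R ε h hx hR hε
  obtain ⟨d, r₀, dc, d0, d1, d2, d3, d4, d5⟩ := hFIB H y₀
  obtain ⟨ρ, ρ0, hρ⟩ := d5 _ (H.openU (up a ε)) fun w e => mem_U_up.2 (by rw [e]; linarith)
  have hr : ∀ᶠ r in 𝓝[>] (0 : ℝ), (3 * r ≤ r₀ ∧ 3 * r ≤ ρ) ∧ ∀ k : ZMod p, 3 * r ≤ d (sh k x) := by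
    have key : ∀ c u : ℝ, 0 < u → ∀ᶠ r in 𝓝[>] (0 : ℝ), c * r ≤ u := fun c u hu =>
      nhdsWithin_le_nhds (((by fun_prop : Continuous fun r : ℝ => c * r).tendsto' 0 0
        (by simp)).eventually (Iic_mem_nhds hu))
    exact ((key _ _ d0).and (key _ _ ρ0)).and (eventually_all.2 fun k => key _ _ (d4 _ fun e => by
      rw [H.f_sh] at e
      exact (mem_U.1 hx).ne (e ▸ h)))
  obtain ⟨r, ⟨⟨r1, r3⟩, r4⟩, r0⟩ := (hr.and self_mem_nhdsWithin).exists
  have r0 : 0 < r := r0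
  obtain ⟨η, η0, hη⟩ := near_fib H.cont isClosed_univ y₀
    (V := ⋃ k : ZMod p, {y | d (sh (-k) y) < r})
    (isOpen_iUnion fun k => isOpen_lt (dc.comp (continuous_sh _)) continuous_const) fun w _ e =>
      let ⟨k, hk⟩ := d3 w e; mem_iUnion.2 ⟨k, hk.trans_lt r0⟩
  obtain ⟨δ, δ0, δ1, hδ⟩ := hCOVER a y₀ h η η0
  obtain ⟨Ra, Ra0, hRa⟩ := exists_near H.cont (sub_pos.2 (mem_U.1 hx))
  obtain ⟨Rb, Rb0, hRb⟩ := exists_near H.cont hε
  set R₁ := min (R δ) (min Ra Rb) with hR₁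
  have R₁0 : 0 < R₁ := lt_min (hR δ δ0) (lt_min Ra0 Rb0)
  obtain ⟨κ₁, κ₁0, hκ₁⟩ := hδ R₁ R₁0
  have k₁0 : 0 < min ε κ₁ := lt_min hε κ₁0
  obtain ⟨Rc, Rc0, hRc⟩ := exists_near H.cont k₁0
  set R₂ := min R₁ Rc with hR₂
  have R₂0 : 0 < R₂ := lt_min R₁0 Rc0
  obtain ⟨κ₂, κ₂0, hκ₂⟩ := hδ R₂ R₂0
  have hx₁ : ∀ b ∈ Cone a y₀ δ R₁, x ∈ U f b := fun b hb =>
    (hRa a b (hb.1.trans_le ((min_le_right _ _).trans (min_le_left _ _)))).1
      (show ⟪a.1, f x⟫ ≤ a.2 + -(a.2 - ⟪a.1, f x⟫) by linarith)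
  have hs : Cone a y₀ δ R₂ ⊆ Cone a y₀ δ R₁ := Cone_mono a y₀ δ (min_le_left _ _)
  have cov : ∀ {R' κ : ℝ}, (∀ y : EV N, η ≤ ‖y - y₀‖ → ⟪a.1, y⟫ ≤ a.2 + κ →
      ∃ b ∈ Cone a y₀ δ R', ⟪b.1, y⟫ < b.2) → ∀ w, ⟪a.1, f w⟫ ≤ a.2 + κ →
      w ∈ UC f (Cone a y₀ δ R') ∪ ⋃ k : ZMod p, {y | d (sh (-k) y) < r} := by
    intro R' κ hk w hw
    rcases lt_or_ge ‖f w - y₀‖ η with h1 | h1
    · exact Or.inr (hη w (mem_univ w) h1)
    · exact Or.inl (mem_UC.2 (hk _ h1 hw))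
  refine ⟨⟨a, x, d, r, min (min ε κ₁) κ₂, min ε κ₁, ε, UC f (Cone a y₀ δ R₁),
    UC f (Cone a y₀ δ R₂)⟩, δ, R₁, R₂, rfl, rfl, rfl, δ0, min_le_left _ _, min_le_left _ _,
    ⟨_, up_mem_Cone h δ1 (half_pos R₂0) (half_lt_self R₂0)⟩, hx₁, rfl, rfl, ?_⟩
  refine ⟨r0, dc, fun k l y h1 h2 => d1 k l y (lt_of_lt_of_le h1 r1) (lt_of_lt_of_le h2 r1),
    d2 _ r1, r4, lt_min k₁0 κ₂0, min_le_left _ _,
    min_le_left _ _, isOpen_UC H.cont _, isOpen_UC H.cont _, H.mapsUC _, H.mapsUC _, ?_, ?_, hx,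
    ?_, ?_, ?_, H.orbUC hx₁, H.orbUC fun b hb => hx₁ b (hs hb), ?_, ?_⟩
  · intro w hw
    obtain ⟨b, hb, h1⟩ := mem_UC.1 hw
    exact mem_UC.2 ⟨b, hs hb, h1⟩
  · intro w hw
    have h1 : 0 < min R₂ (a.2 - ⟪a.1, f w⟫) := lt_min R₂0 (sub_pos.2 (mem_U.1 hw))
    refine mem_UC.2 ⟨_, up_mem_Cone h δ1 (half_pos h1)
      ((half_lt_self h1).trans_le (min_le_left _ _)), mem_U_up.2 ?_⟩
    linarith [min_le_right R₂ (a.2 - ⟪a.1, f w⟫)]
  · intro w hw
    obtain ⟨b, hb, h1⟩ := mem_UC.1 hw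
    exact (hRc a b (hb.1.trans_le (min_le_right _ _))).2 (U_sub_Ucl b h1)
  · intro w hw
    have h1 : ⟪a.1, f w⟫ < a.2 + min ε κ₁ := hw
    exact cov hκ₁ w (by linarith [min_le_right ε κ₁])
  · intro w hw
    have h1 : ⟪a.1, f w⟫ ≤ a.2 + min (min ε κ₁) κ₂ := hw
    exact cov hκ₂ w (by linarith [min_le_right (min ε κ₁) κ₂])
  · intro w hw
    obtain ⟨b, hb, h1⟩ := mem_UC.1 hw
    exact (hRb a b (hb.1.trans_le ((min_le_right _ _).trans (min_le_right _ _)))).2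
      (U_sub_Ucl b h1)
  · exact fun k w hw => hρ k w (lt_of_lt_of_le hw r3)

end SLOC

section SCECH

open Set Filter Topology Metric
open scoped RealInnerProductSpace

theorem p_CECH :
    S_CECH := by
  intro Y G _ _ O O₁ O₂ D e h2 h1 he
  have key : ∀ {P Q E : Set Y}, (∀ x ∈ O, x ∈ closure E → Q ∈ 𝓝[O] x) → LC (O ∩ P ∩ Q) e →
      ∀ x ∈ O ∩ P, ∃ n ∈ 𝓝[O ∩ P] x, n ⊆ Eᶜ ∨ ∀ a ∈ n, ∀ b ∈ n, e a = e b := by
    intro P Q E h he x hx
    by_cases c : x ∈ closure E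
    · have hQ := h x hx.1 c
      exact ⟨_, nhdsWithin_le_of_mem (inter_mem self_mem_nhdsWithin (nhdsWithin_mono _
        inter_subset_left hQ)) (he x ⟨hx, mem_of_mem_nhdsWithin hx.1 hQ⟩),
        .inr fun a ha b hb => ha.trans hb.symm⟩
    · exact ⟨_, mem_nhdsWithin_of_mem_nhds (isClosed_closure.isOpen_compl.mem_nhds c),
        .inl (compl_subset_compl.2 subset_closure)⟩
  have p1 : IsP (O ∩ O₁) (cech D e) fun x => -D.indicator e x := fun x hx => by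
    obtain ⟨n, hn, h | h⟩ := key h2 he x hx <;> refine ⟨n, hn, fun a ha b hb => ?_⟩
    · simp [cech, show a ∉ D from h ha, show b ∉ D from h hb]
    · by_cases c : a ∈ D <;> by_cases c' : b ∈ D <;> simp [cech, c, c', h a ha b hb]
  have p2 : IsP (O ∩ O₂) (cech D e) (Dᶜ.indicator e) := fun x hx => by
    obtain ⟨n, hn, h | h⟩ := key h1 (by rwa [inter_right_comm]) x hx <;>
      refine ⟨n, hn, fun a ha b hb => ?_⟩
    · simp [cech, show a ∈ D by simpa using h ha, show b ∈ D by simpa using h hb]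
    · by_cases c : a ∈ D <;> by_cases c' : b ∈ D <;> simp [cech, c, c', h a ha b hb]
  refine ⟨IsC.of_local fun x hx => ?_, p1, p2⟩
  by_cases c : x ∈ D
  · exact ⟨_, inter_mem self_mem_nhdsWithin (h2 x hx (subset_closure c)), p2.isC⟩
  · exact ⟨_, inter_mem self_mem_nhdsWithin (h1 x hx (subset_closure c)), p1.isC⟩

end SCECH

section SCE

open Set Filter Topology Metric
open scoped RealInnerProductSpace

theorem p_CE (hCECH : S_CECH) :
    S_CE := by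
  intro p _ F _ N f H D L e he
  classical
  have hr := L.r_pos
  obtain ⟨s, s0, s2⟩ := L.lf_T
  set B' := ⋃ k : ZMod p, D.T k (3 * D.r) with hB'
  set D' := ⋃ k : ZMod p, D.T k (2 * D.r) with hD'
  have mono : ∀ {ρ ρ' : ℝ}, ρ < ρ' → closure (⋃ k : ZMod p, D.T k ρ) ⊆
      ⋃ k : ZMod p, D.T k ρ' := fun {ρ ρ'} h => by
    rw [closure_iUnion_of_finite]
    exact iUnion_mono fun k => L.closure_T k h
  have DB : D' ⊆ B' := subset_closure.trans (mono (by linarith))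
  let e' : S3 → F := fun y => e (sh (-s y) y)
  have inv : ∀ y ∈ D', e' (gn p y) = e' y := fun y hy => by
    simp only [e', s2 y (DB hy), sh_gn]
    congr 2
    ring
  have lc : LC (D.U1 f ∩ D.O ∩ B') e' := LC.of_local fun x hx => by
    obtain ⟨k, hk⟩ := mem_iUnion.1 hx.2
    refine ⟨D.O ∩ D.T k (3 * D.r), nhdsWithin_le_nhds
      ((L.openO.inter (L.openT _ _)).mem_nhds ⟨hx.1.2, hk⟩), ?_⟩
    exact (he.comp (continuous_sh (-k)).continuousOn fun y hy =>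
      ⟨mapsTo_sh L.mapsO _ hy.1, hy.2⟩).congr fun y hy => by simp only [e', s0 k y hy.2]
  have oD : IsOpen D' := isOpen_iUnion fun _ => L.openT _ _
  obtain ⟨c1, c2, c3⟩ := hCECH (D.U1 f) D.O B' D' e'
    (fun x _ hx => nhdsWithin_le_nhds ((isOpen_iUnion fun _ => L.openT _ _).mem_nhds
      (mono (by linarith) hx)))
    (fun x hx hx' => nhdsWithin_le_nhds (L.openO.mem_nhds ((L.cov hx).resolve_right fun h => by
      rw [oD.isClosed_compl.closure_eq] at hx'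
      exact hx' (mono (by linarith) (subset_closure h))))) lc
  have mD : ∀ y, gn p y ∈ D' ↔ y ∈ D' := fun y => gn_mem_iff (D.maps_T _)
  obtain ⟨h, l, h1, h2⟩ := H.t1 (up D.a D.k₁) (cech D' e') c1 (fun x _ y _ => by
    by_cases hx : x ∈ D' <;> by_cases hy : y ∈ D' <;> simp [cech, mD, hx, hy, inv])
  have BB : D.B ⊆ B' := fun y hy => mem_iUnion.2 ⟨0, by rw [D.T_zero]; exact hy⟩
  refine ⟨l, fun y => h y - -D'.indicator e' y, fun y => h y - D'ᶜ.indicator e' y,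
    ((h1.mono inter_subset_left).lc_sub c2).mono (subset_inter L.s_sub L.sub), fun y hy => ?_,
    ((h1.mono inter_subset_left).lc_sub c3).mono (inter_subset_inter_right _ BB), fun y hy => ?_⟩
  · have : D'.indicator e' (gn p y) = D'.indicator e' y := by
      by_cases hy : y ∈ D' <;> simp [indicator, mD, hy, inv]
    simp only [this, h2 y (L.s_sub hy)]
    ring
  · have h0 : s y = 0 := s0 0 y (by rw [D.T_zero]; exact hy.2)
    have : D'.indicator e' y + D'ᶜ.indicator e' y = e y := by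
      rw [indicator_self_add_compl_apply]
      simp [e', h0]
    rw [← this]
    ring

end SCE

section SEXT

open Set Filter Topology Metric
open scoped RealInnerProductSpace

theorem p_EXT :
    S_EXT := by
  intro Y T _ _ K B d hK hd hq
  classical
  have hf : (d '' K).Finite := hK.induction_on (p := fun s => (d '' s).Finite) (by simp)
    (fun s t h ht => ht.subset (image_mono h))
    (fun s t hs ht => by rw [image_union]; exact hs.union ht)
    fun x hx => ⟨_, hd x hx, (finite_singleton (d x)).subset (by rintro _ ⟨y, hy, rfl⟩; exact hy)⟩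
  choose q h1 h2 using hq
  have := hf.to_subtype
  refine ⟨_, (LC.pi fun ν : d '' K => h1 ν).map fun φ =>
    Classical.epsilon fun t : T => ∃ h : t ∈ d '' K, φ ⟨t, h⟩, fun x hx => ?_⟩
  obtain ⟨-, h⟩ := Classical.epsilon_spec (p := fun t : T => ∃ _ : t ∈ d '' K, q t x)
    ⟨d x, mem_image_of_mem d hx, (h2 _ x hx).2 rfl⟩
  exact ((h2 _ x hx).1 h).symm

end SEXT

section SBALL

open Set Filter Topology Metric
open scoped RealInnerProductSpace

lemma ball_iff (z x : S3) {ρ : ℝ} (hρ : 0 < ρ) :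
    x ∈ ball z ρ ↔ 1 - ρ ^ 2 / 2 < (inner ℂ z.1 x.1).re := by
  have h := norm_sub_sq (𝕜 := ℂ) z.1 x.1
  rw [mem_sphere_zero_iff_norm.1 z.2, mem_sphere_zero_iff_norm.1 x.2, RCLike.re_to_complex] at h
  rw [mem_ball', Subtype.dist_eq, dist_eq_norm, ← sq_lt_sq₀ (norm_nonneg _) hρ.le, h]
  constructor <;> intro <;> linarith

lemma ball_convex (z : E2) {a : ℝ} (ha : 0 ≤ a) :
    Convex ℝ {y : E2 | a * ‖y‖ < (inner ℂ z y).re} := by
  intro x hx y hy s t hs ht h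
  have h1 : a * ‖x‖ < (inner ℂ z x).re := hx
  have h2 : a * ‖y‖ < (inner ℂ z y).re := hy
  have n : ‖s • x + t • y‖ ≤ s * ‖x‖ + t * ‖y‖ := by
    refine (norm_add_le _ _).trans ?_
    rw [norm_smul, norm_smul, Real.norm_of_nonneg hs, Real.norm_of_nonneg ht]
  show a * ‖s • x + t • y‖ < (inner ℂ z (s • x + t • y)).re
  rw [inner_add_right, inner_smul_right_eq_smul, inner_smul_right_eq_smul, Complex.add_re,
    Complex.smul_re, Complex.smul_re, smul_eq_mul, smul_eq_mul]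
  refine (mul_le_mul_of_nonneg_left n ha).trans_lt ?_
  rcases hs.eq_or_lt with rfl | hs'
  · have : t = 1 := by linarith
    simpa [this] using h2
  · nlinarith

theorem p_BALL (hCVX : S_CVX) :
    S_BALL := by
  classical
  intro G _ z ρ h1 c hc
  rcases le_or_gt ρ 0 with h0 | h0
  · exact ⟨0, fun x hx => by simp [ball_eq_empty.2 h0] at hx⟩
  let C : Set E2 := {y | (1 - ρ ^ 2 / 2) * ‖y‖ < (inner ℂ z.1 y).re}
  have hC : ∀ y ∈ C, y ≠ 0 := fun y hy e => by simp [C, e] at hy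
  let π : E2 → S3 := fun y => if h : y = 0 then z else ⟨‖y‖⁻¹ • y, by
    rw [mem_sphere_zero_iff_norm, norm_smul, norm_inv, norm_norm,
      inv_mul_cancel₀ (norm_ne_zero_iff.2 h)]⟩
  have hπ : ∀ y, y ≠ 0 → (π y).1 = ‖y‖⁻¹ • y := fun y hy => by simp only [π, dif_neg hy]
  have cπ : ContinuousOn π C := by
    rw [IsInducing.subtypeVal.continuousOn_iff]
    exact ((continuous_norm.continuousOn.inv₀ fun y hy => norm_ne_zero_iff.2 (hC y hy)).smul
      continuousOn_id).congr fun y hy => hπ y (hC y hy)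
  have mπ : MapsTo π C (ball z ρ) := fun y hy => by
    rw [ball_iff z _ h0, hπ y (hC y hy), inner_smul_right_eq_smul, Complex.smul_re, smul_eq_mul,
      lt_inv_mul_iff₀ (norm_pos_iff.2 (hC y hy)), mul_comm]
    exact hy
  have e : ∀ x : S3, π x.1 = x := fun x => Subtype.ext (by
    rw [hπ _ (ne_zero_of_mem_unit_sphere x), mem_sphere_zero_iff_norm.1 x.2, inv_one, one_smul])
  obtain ⟨h, hh⟩ := hCVX C _ (ball_convex _ (by nlinarith)) (hc.comp cπ mπ)
  refine ⟨fun x => h x.1, (hh.comp continuous_subtype_val.continuousOn fun x hx => ?_).congr_c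
    fun x _ y _ => by rw [e, e]⟩
  show (1 - ρ ^ 2 / 2) * ‖x.1‖ < _
  rw [mem_sphere_zero_iff_norm.1 x.2, mul_one]
  exact (ball_iff z x h0).1 hx

end SBALL

section SGL

open Set Filter Topology Metric
open scoped RealInnerProductSpace

theorem p_GL :
    S_GL := by
  classical
  intro p _ F _ N f H D L G _ c h b hh hb hE
  choose k hk1 hk2 using hE
  have hr := L.r_pos
  set g : ZMod p → S3 → G := fun j y => b j y + k j (sh (-j) y) with hg
  have g1 : ∀ j, IsP (D.U0 f ∩ D.T j (3 * D.r)) c (g j) := fun j =>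
    ((hb j).mono inter_subset_right).add_lc ((hk1 j).comp (continuous_sh (-j)).continuousOn
      fun y hy => ⟨(H.sh_mem (-j)).2 (L.U0_sub hy.1), hy.2⟩)
  have g2 : ∀ j, ∀ y ∈ D.U0 f, y ∉ D.T j D.r → y ∈ D.T j (2 * D.r) → g j y = h y :=
    fun j y hy h1 h2 => by
    have hK : sh (-j) y ∈ D.K f :=
      ⟨U_sub_Ucl _ ((H.sh_mem (-j)).2 hy), not_lt.1 h1, le_of_lt h2⟩
    simp only [hg, hk2 j _ hK, sh_sh_neg]
    abel
  set h' : S3 → G := fun y => if e : ∃ j : ZMod p, y ∈ D.T j D.r then g e.choose y else h y with hh'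
  have out : ∀ y, (∀ j : ZMod p, y ∉ D.T j D.r) → h' y = h y := fun y hy =>
    dif_neg fun ⟨j, hj⟩ => hy j hj
  refine ⟨h', IsP.of_local fun y0 hy0 => ?_, fun j => out _ fun i hi => ?_⟩
  · by_cases h0 : ∃ j : ZMod p, y0 ∈ D.T j (2 * D.r)
    · obtain ⟨j, hj⟩ := h0
      refine ⟨D.U0 f ∩ D.T j (2 * D.r), inter_mem_nhdsWithin _ ((L.openT _ _).mem_nhds hj),
        ((g1 j).mono (inter_subset_inter_right _ (D.T_mono j (by linarith)))).congr fun y hy => ?_⟩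
      by_cases e : ∃ i : ZMod p, y ∈ D.T i D.r
      · have := L.gap _ j y (D.T_mono _ (by linarith) e.choose_spec) (D.T_mono _ (by linarith) hy.2)
        simp only [hh', dif_pos e, this]
      · have e' : ∀ i : ZMod p, y ∉ D.T i D.r := fun i hi => e ⟨i, hi⟩
        rw [out y e', g2 j y hy.1 (e' j) hy.2]
    · have h2 : y0 ∈ D.Os := (L.covS (U_sub_Ucl _ hy0)).resolve_right fun e => by
        obtain ⟨j, hj⟩ := mem_iUnion.1 e
        exact h0 ⟨j, D.T_mono j (by linarith) hj⟩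
      have h3 : ∀ᶠ y in 𝓝 y0, ∀ j : ZMod p, y ∉ D.T j D.r := eventually_all.2 fun j =>
        mem_of_superset (isClosed_closure.isOpen_compl.mem_nhds fun e =>
          h0 ⟨j, L.closure_T j (by linarith) e⟩) fun y hy e => hy (subset_closure e)
      exact ⟨D.O ∩ {y | ∀ j : ZMod p, y ∉ D.T j D.r}, mem_nhdsWithin_of_mem_nhds (inter_mem
        (L.openO.mem_nhds (L.sub h2)) h3), (hh.mono inter_subset_left).congr fun y hy => out y hy.2⟩
  · have h1 := L.far (-i + j)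
    have h2 : D.d (sh (-i) (sh j D.x)) < D.r := hi
    rw [sh_sh] at h2
    linarith

end SGL

section SJL

open Set Filter Topology Metric
open scoped RealInnerProductSpace

section
variable {p : ℕ} [NeZero p] {F : Type} [Field F] {N : ℕ} {f : S3 → EV N} {D : LD N}

lemma jl_const (L : Loc f p D) {H : S3 → F} (h1 : LC D.Os H) (h2 : Sft (gn p) D.Os H 0)
    {y : S3} (hy : y ∈ D.Os) : H y = H D.x :=
  L.orbS.eq h1 (LC.const _ _) (fun j => by simpa using h2.sh L.mapsS j (L.low L.mem)) hy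

lemma jl_ext (hEXT : S_EXT) (hf : Continuous f) (L : Loc f p D)
    (hE : ∀ e : S3 → F, LC (D.O ∩ D.B) e →
      ∃ k : S3 → F, LC (D.U1 f ∩ D.B) k ∧ ∀ y ∈ D.Os ∩ D.B, k y = e y)
    {G : Type} [Nonempty G] {d : S3 → G} (hd : LC (D.O ∩ D.B) d) : D.Ext f d := by
  classical
  refine hEXT (D.K f) (D.U1 f ∩ D.B) d (L.isCompact_K hf)
    (hd.mono fun y hy => ⟨L.sub (L.K_sub hy).1, (L.K_sub hy).2⟩) fun ν => ?_
  obtain ⟨k, k1, k2⟩ := hE _ (hd.map fun t => if t = ν then (1 : F) else 0)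
  refine ⟨fun y => k y = 1, k1.map fun t => t = 1, fun y hy => ?_⟩
  simp only [k2 y (L.K_sub hy)]
  by_cases h : d y = ν <;> simp [h]

end

theorem p_JL (hLOC : S_LOC) (hGLUE : S_GLUE) (hCE : S_CE) (hEXT : S_EXT) (hGL : S_GL) :
    S_JL := by
  intro p _ F _ N f H G _ c θ x a y₀ ε hε hy₀ hx hc hcone hno
  choose! R hR hR' using hcone
  have key : ∀ e' > (0 : ℝ), e' ≤ ε → ∃ D : LD N, D.a = a ∧ D.ε = e' ∧ Loc f p D ∧
      ¬∀ e : S3 → F, LC (D.O ∩ D.B) e →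
        ∃ k : S3 → F, LC (D.U1 f ∩ D.B) k ∧ ∀ y ∈ D.Os ∩ D.B, k y = e y := by
    intro e' he' hle
    obtain ⟨D, δ, R₁, R₂, rfl, rfl, rfl, hδ, h21, h1, hne, hxb, hO, -, L⟩ :=
      hLOC H a y₀ x R e' hy₀ hx hR he'
    refine ⟨D, rfl, rfl, L, fun hE => ?_⟩
    have hup : U f (up D.a D.ε) ⊆ U f (up D.a ε) := U_up_mono _ hle
    obtain ⟨h, h1', h2⟩ := hGLUE H c θ D.x (Cone D.a y₀ δ R₁) (convex_Cone _ _ hδ.le _)
      (hne.mono (Cone_mono _ _ _ h21)) fun b hb => ⟨hxb b hb, hR' δ hδ b (Cone_mono _ _ _ h1 hb)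
        (hxb b hb) fun y hy => hup (L.O_sub (hO ▸ mem_UC.2 ⟨b, hb, hy⟩))⟩
    rw [← hO] at h1'
    choose b hb using fun j : ZMod p =>
      L.pot G j c (hc.mono ((L.B_sub j).trans hup))
    obtain ⟨h', e1, e2⟩ := hGL H D L c h b h1' hb fun j => jl_ext hEXT H.cont L hE
      (((h1'.mono inter_subset_left).lc_sub ((hb j).mono inter_subset_right)).comp
        (continuous_sh j).continuousOn ((mapsTo_sh L.mapsO j).inter_inter (D.maps_B j)))
    exact hno D.k₀ L.k₀_pos (L.k₀_le.trans (L.k₁_le.trans hle)) ⟨h', e1, fun k => (e2 k).trans (h2 k)⟩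
  refine ⟨?_, fun κ hκ hl => ?_⟩
  · obtain ⟨D, rfl, -, L, hn⟩ := key ε hε le_rfl
    by_contra hl
    refine hn fun e he => ?_
    obtain ⟨l, K, k, K1, K2, k1, k2⟩ := hCE H D L e he
    rcases eq_or_ne l 0 with rfl | h0
    · exact ⟨fun y => K D.x - k y, k1.map fun t => K D.x - t, fun y hy => by
        rw [k2 y hy, jl_const L K1 K2 hy.1]⟩
    · refine (hl (LiftTo.mono ⟨fun y => K y / l, K1.map fun t => t / l, fun y hy => ?_⟩ L.low)).elim
      simp only [K2 y hy, add_div, div_self h0]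
  · obtain ⟨D, rfl, hD, L, hn⟩ := key (min ε κ) (lt_min hε hκ) (min_le_left _ _)
    obtain ⟨s, s1, s2⟩ := hl.mono (L.U1_sub.trans (U_up_mono _ (hD.trans_le (min_le_right _ _))))
    refine hn fun e he => ?_
    obtain ⟨l, K, k, K1, K2, k1, k2⟩ := hCE H D L e he
    have h0 : ∀ y ∈ D.Os, K y - l * s y = K D.x - l * s D.x := fun y hy =>
      jl_const L (K1.map₂ (s1.mono L.s_sub) fun t u => t - l * u) (fun z hz => by
        simp only [K2 z hz, s2 z (L.s_sub hz)]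
        ring) hy
    refine ⟨fun y => K D.x - l * s D.x + l * s y - k y, (s1.mono inter_subset_left).map₂ k1
      fun t u => K D.x - l * s D.x + l * t - u, fun y hy => ?_⟩
    simp only [k2 y hy, ← h0 y hy.1]
    ring

end SJL

end Pool.Agent.P.MP_c88051_gt.Im
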